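import Pool.Agent.Lib.MP_ecb332_co.Base

/-!
Algebraic lemmas A1 and A2 on profiles.
-/

set_option autoImplicit false
set_option linter.unusedVariables false

namespace Pool.Agent.MPecb

/-- second bound for `FF` -/
theorem FF_le2 (m01 m02 m03 m10 m12 m13 m20 m21 m23 m30 m31 m32 : ℝ)
    (n12 : 0 ≤ m12) (n13 : 0 ≤ m13) (n21 : 0 ≤ m21) (n23 : 0 ≤ m23) (n31 : 0 ≤ m31) (n32 : 0 ≤ m32) :
    FF m01 m02 m03 m10 m12 m13 m20 m21 m23 m30 m31 m32 ≤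
      1 / 2 * (m01 + m02 + m03) ^ 2 + 1 / 2 * (m10 + m20 + m30) ^ 2 -
      1 / 2 * ((m01 + m21 + m31) ^ 2 + (m02 + m12 + m32) ^ 2 + (m03 + m13 + m23) ^ 2) +
      2 * ((m01 + m21 + m31) * (m21 + m31) + (m02 + m12 + m32) * (m12 + m32) +
        (m03 + m13 + m23) * (m13 + m23)) -
      ((m10 + m20 + m30) - (m12 + m13 + m21 + m23 + m31 + m32)) ^ 2 / 6 := by
  have h1 : (1 / 2 * (m01 + m02 + m03) ^ 2 + 1 / 2 * (m10 + m20 + m30) ^ 2 -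
      1 / 2 * ((m01 + m21 + m31) ^ 2 + (m02 + m12 + m32) ^ 2 + (m03 + m13 + m23) ^ 2) +
      2 * ((m01 + m21 + m31) * (m21 + m31) + (m02 + m12 + m32) * (m12 + m32) +
        (m03 + m13 + m23) * (m13 + m23)) -
      ((m10 + m20 + m30) - (m12 + m13 + m21 + m23 + m31 + m32)) ^ 2 / 6) -
      FF m01 m02 m03 m10 m12 m13 m20 m21 m23 m30 m31 m32 =
      1 / 6 * (((m10 - (m12 + m13)) - (m20 - (m21 + m23))) ^ 2 + ((m10 - (m12 + m13)) - (m30 - (m31 + m32))) ^ 2 +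
        ((m20 - (m21 + m23)) - (m30 - (m31 + m32))) ^ 2) +
      ((m12 - m13) ^ 2 + (m21 - m23) ^ 2 + (m31 - m32) ^ 2) +
      2 * (m21 * m31 + m12 * m32 + m13 * m23) := by
    unfold FF
    ring
  have h2 : 0 ≤ 1 / 6 * (((m10 - (m12 + m13)) - (m20 - (m21 + m23))) ^ 2 +
        ((m10 - (m12 + m13)) - (m30 - (m31 + m32))) ^ 2 +
        ((m20 - (m21 + m23)) - (m30 - (m31 + m32))) ^ 2) +
      ((m12 - m13) ^ 2 + (m21 - m23) ^ 2 + (m31 - m32) ^ 2) +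
      2 * (m21 * m31 + m12 * m32 + m13 * m23) := by positivity
  linarith

/-- first bound for `FF` -/
theorem FF_le1 (m01 m02 m03 m10 m12 m13 m20 m21 m23 m30 m31 m32 S g0 g1 g2 g3 v0 v1 v2 v3 : ℝ)
    (hS : S = m01 + m02 + m03 + m10 + m12 + m13 + m20 + m21 + m23 + m30 + m31 + m32)
    (hg0 : g0 = m01 + m02 + m03) (hg1 : g1 = m10 + m12 + m13) (hg2 : g2 = m20 + m21 + m23)
    (hg3 : g3 = m30 + m31 + m32) (hv0 : v0 = m10 + m20 + m30) (hv1 : v1 = m01 + m21 + m31)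
    (hv2 : v2 = m02 + m12 + m32) (hv3 : v3 = m03 + m13 + m23) :
    FF m01 m02 m03 m10 m12 m13 m20 m21 m23 m30 m31 m32 ≤
      S ^ 2 / 6 + 1 / 8 * ((g0 - v0) ^ 2 + (g1 - v1) ^ 2 + (g2 - v2) ^ 2 + (g3 - v3) ^ 2) := by
  have key : S ^ 2 / 6 + 1 / 8 * ((g0 - v0) ^ 2 + (g1 - v1) ^ 2 + (g2 - v2) ^ 2 + (g3 - v3) ^ 2) -
      FF m01 m02 m03 m10 m12 m13 m20 m21 m23 m30 m31 m32 =
      (m01 - S / 12 - ((g0 + v0 - S / 2) / 4 + (g1 + v1 - S / 2) / 4) - ((g0 - v0) / 8 - (g1 - v1) / 8)) ^ 2 +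
      (m02 - S / 12 - ((g0 + v0 - S / 2) / 4 + (g2 + v2 - S / 2) / 4) - ((g0 - v0) / 8 - (g2 - v2) / 8)) ^ 2 +
      (m03 - S / 12 - ((g0 + v0 - S / 2) / 4 + (g3 + v3 - S / 2) / 4) - ((g0 - v0) / 8 - (g3 - v3) / 8)) ^ 2 +
      (m10 - S / 12 - ((g1 + v1 - S / 2) / 4 + (g0 + v0 - S / 2) / 4) - ((g1 - v1) / 8 - (g0 - v0) / 8)) ^ 2 +
      (m12 - S / 12 - ((g1 + v1 - S / 2) / 4 + (g2 + v2 - S / 2) / 4) - ((g1 - v1) / 8 - (g2 - v2) / 8)) ^ 2 +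
      (m13 - S / 12 - ((g1 + v1 - S / 2) / 4 + (g3 + v3 - S / 2) / 4) - ((g1 - v1) / 8 - (g3 - v3) / 8)) ^ 2 +
      (m20 - S / 12 - ((g2 + v2 - S / 2) / 4 + (g0 + v0 - S / 2) / 4) - ((g2 - v2) / 8 - (g0 - v0) / 8)) ^ 2 +
      (m21 - S / 12 - ((g2 + v2 - S / 2) / 4 + (g1 + v1 - S / 2) / 4) - ((g2 - v2) / 8 - (g1 - v1) / 8)) ^ 2 +
      (m23 - S / 12 - ((g2 + v2 - S / 2) / 4 + (g3 + v3 - S / 2) / 4) - ((g2 - v2) / 8 - (g3 - v3) / 8)) ^ 2 +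
      (m30 - S / 12 - ((g3 + v3 - S / 2) / 4 + (g0 + v0 - S / 2) / 4) - ((g3 - v3) / 8 - (g0 - v0) / 8)) ^ 2 +
      (m31 - S / 12 - ((g3 + v3 - S / 2) / 4 + (g1 + v1 - S / 2) / 4) - ((g3 - v3) / 8 - (g1 - v1) / 8)) ^ 2 +
      (m32 - S / 12 - ((g3 + v3 - S / 2) / 4 + (g2 + v2 - S / 2) / 4) - ((g3 - v3) / 8 - (g2 - v2) / 8)) ^ 2 := by
    rw [hS, hg0, hg1, hg2, hg3, hv0, hv1, hv2, hv3]
    unfold FF
    ring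
  have h2 : 0 ≤ S ^ 2 / 6 + 1 / 8 * ((g0 - v0) ^ 2 + (g1 - v1) ^ 2 + (g2 - v2) ^ 2 + (g3 - v3) ^ 2) -
      FF m01 m02 m03 m10 m12 m13 m20 m21 m23 m30 m31 m32 := by
    rw [key]
    positivity
  linarith

/-- the first bound in terms of `b` -/
theorem fin_L1 (g0 g1 g2 g3 v0 v1 v2 v3 b F : ℝ) (n0 : 0 ≤ g0) (n1 : 0 ≤ g1) (n2 : 0 ≤ g2) (n3 : 0 ≤ g3)
    (hg : g0 + g1 + g2 + g3 = 1) (hv : v0 + v1 + v2 + v3 = 1)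
    (l0 : 0.238 ≤ v0) (u0 : v0 ≤ 0.262) (l1 : 0.238 ≤ v1) (u1 : v1 ≤ 0.262)
    (l2 : 0.238 ≤ v2) (u2 : v2 ≤ 0.262) (l3 : 0.238 ≤ v3) (u3 : v3 ≤ 0.262)
    (h0 : b ≤ 1 - v0 - g0) (h1 : b ≤ 1 - v1 - g1) (h2 : b ≤ 1 - v2 - g2) (h3 : b ≤ 1 - v3 - g3)
    (hF : 0.1995 ≤ F)
    (hFF : F ≤ 1 / 6 + 1 / 8 * ((g0 - v0) ^ 2 + (g1 - v1) ^ 2 + (g2 - v2) ^ 2 + (g3 - v3) ^ 2)) :
    b ≤ 0.275 := by
  have q0 := mul_nonneg n0 (sub_nonneg.2 h0)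
  have q1 := mul_nonneg n1 (sub_nonneg.2 h1)
  have q2 := mul_nonneg n2 (sub_nonneg.2 h2)
  have q3 := mul_nonneg n3 (sub_nonneg.2 h3)
  have r0 := mul_nonneg n0 (sub_nonneg.2 l0)
  have r1 := mul_nonneg n1 (sub_nonneg.2 l1)
  have r2 := mul_nonneg n2 (sub_nonneg.2 l2)
  have r3 := mul_nonneg n3 (sub_nonneg.2 l3)
  have w0 := mul_nonneg (sub_nonneg.2 l0) (sub_nonneg.2 u0)
  have w1 := mul_nonneg (sub_nonneg.2 l1) (sub_nonneg.2 u1)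
  have w2 := mul_nonneg (sub_nonneg.2 l2) (sub_nonneg.2 u2)
  have w3 := mul_nonneg (sub_nonneg.2 l3) (sub_nonneg.2 u3)
  have hbg : b * g0 + b * g1 + b * g2 + b * g3 = b := by
    rw [← mul_add, ← mul_add, ← mul_add, hg, mul_one]
  linarith

/-- the second bound in terms of `b` -/
theorem fin_L2 (v0 v1 v2 v3 b1 b2 b3 b F vm β0 β1 l u : ℝ)
    (hv : v0 + v1 + v2 + v3 = 1) (hbd : b = b1 + b2 + b3) (n1 : 0 ≤ b1) (n2 : 0 ≤ b2) (n3 : 0 ≤ b3)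
    (u1 : v1 ≤ vm) (u2 : v2 ≤ vm) (u3 : v3 ≤ vm)
    (hFF : F ≤ 1 / 2 * (1 - v0 - b) ^ 2 + 1 / 2 * v0 ^ 2 - 1 / 2 * (v1 ^ 2 + v2 ^ 2 + v3 ^ 2) +
      2 * (v1 * b1 + v2 * b2 + v3 * b3) - (v0 - b) ^ 2 / 6) :
    F ≤ 1 / 2 * (1 - v0 - b) ^ 2 + 1 / 2 * v0 ^ 2 - (1 - v0) ^ 2 / 6 + 2 * vm * b - (v0 - b) ^ 2 / 6 := by
  have p1 := mul_nonneg n1 (sub_nonneg.2 u1)
  have p2 := mul_nonneg n2 (sub_nonneg.2 u2)
  have p3 := mul_nonneg n3 (sub_nonneg.2 u3)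
  have hq : (1 - v0) ^ 2 / 3 ≤ v1 ^ 2 + v2 ^ 2 + v3 ^ 2 := by
    have : 1 - v0 = v1 + v2 + v3 := by linarith
    rw [this]
    nlinarith [sq_nonneg (v1 - v2), sq_nonneg (v1 - v3), sq_nonneg (v2 - v3)]
  rw [hbd]
  rw [hbd] at hFF
  linarith

theorem num_A1 (v b : ℝ) (l0 : 0.238 ≤ v) (u0 : v ≤ 0.262) (hb : 0.11 ≤ b) (b1 : b ≤ 0.275) :
    1 / 2 * (1 - v - b) ^ 2 + 1 / 2 * v ^ 2 - (1 - v) ^ 2 / 6 + 2 * 0.262 * b - (v - b) ^ 2 / 6 < 0.1995 := by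
  nlinarith [mul_nonneg (sub_nonneg.2 l0) (sub_nonneg.2 u0), mul_nonneg (sub_nonneg.2 hb) (sub_nonneg.2 b1),
    mul_nonneg (sub_nonneg.2 u0) (sub_nonneg.2 hb), mul_nonneg (sub_nonneg.2 l0) (sub_nonneg.2 b1)]

theorem num_A2 (v b : ℝ) (l0 : 0.244 ≤ v) (u0 : v ≤ 0.252) (hb : 0.08 ≤ b) (b1 : b ≤ 0.113) :
    1 / 2 * (1 - v - b) ^ 2 + 1 / 2 * v ^ 2 - (1 - v) ^ 2 / 6 + 2 * 0.252 * b - (v - b) ^ 2 / 6 < 0.1995 := by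
  nlinarith [mul_nonneg (sub_nonneg.2 l0) (sub_nonneg.2 u0), mul_nonneg (sub_nonneg.2 hb) (sub_nonneg.2 b1),
    mul_nonneg (sub_nonneg.2 u0) (sub_nonneg.2 hb), mul_nonneg (sub_nonneg.2 l0) (sub_nonneg.2 b1)]

theorem alg_A1 (m01 m02 m03 m10 m12 m13 m20 m21 m23 m30 m31 m32 : ℝ)
    (n01 : 0 ≤ m01) (n02 : 0 ≤ m02) (n03 : 0 ≤ m03) (n10 : 0 ≤ m10) (n12 : 0 ≤ m12) (n13 : 0 ≤ m13)
    (n20 : 0 ≤ m20) (n21 : 0 ≤ m21) (n23 : 0 ≤ m23) (n30 : 0 ≤ m30) (n31 : 0 ≤ m31) (n32 : 0 ≤ m32)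
    (hs : m01 + m02 + m03 + m10 + m12 + m13 + m20 + m21 + m23 + m30 + m31 + m32 = 1)
    (l0 : 0.238 ≤ m10 + m20 + m30) (u0 : m10 + m20 + m30 ≤ 0.262)
    (l1 : 0.238 ≤ m01 + m21 + m31) (u1 : m01 + m21 + m31 ≤ 0.262)
    (l2 : 0.238 ≤ m02 + m12 + m32) (u2 : m02 + m12 + m32 ≤ 0.262)
    (l3 : 0.238 ≤ m03 + m13 + m23) (u3 : m03 + m13 + m23 ≤ 0.262)
    (h1 : m12 + m13 + m21 + m23 + m31 + m32 ≤ m02 + m03 + m20 + m23 + m30 + m32)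
    (h2 : m12 + m13 + m21 + m23 + m31 + m32 ≤ m01 + m03 + m10 + m13 + m30 + m31)
    (h3 : m12 + m13 + m21 + m23 + m31 + m32 ≤ m01 + m02 + m10 + m12 + m20 + m21)
    (hF : 0.1995 ≤ FF m01 m02 m03 m10 m12 m13 m20 m21 m23 m30 m31 m32) :
    m12 + m13 + m21 + m23 + m31 + m32 ≤ 0.11 := by
  have e1 := FF_le1 m01 m02 m03 m10 m12 m13 m20 m21 m23 m30 m31 m32 1 _ _ _ _ _ _ _ _ hs.symm rfl rfl rfl rfl
    rfl rfl rfl rfl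
  have b1 := fin_L1 (m01 + m02 + m03) (m10 + m12 + m13) (m20 + m21 + m23) (m30 + m31 + m32)
    (m10 + m20 + m30) (m01 + m21 + m31) (m02 + m12 + m32) (m03 + m13 + m23)
    (m12 + m13 + m21 + m23 + m31 + m32) (FF m01 m02 m03 m10 m12 m13 m20 m21 m23 m30 m31 m32)
    (by positivity) (by positivity) (by positivity) (by positivity) (by linarith) (by linarith) l0 u0 l1 u1 l2 u2
    l3 u3 (by linarith) (by linarith) (by linarith) (by linarith) hF (le_trans e1 (by linarith))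
  have e2 := FF_le2 m01 m02 m03 m10 m12 m13 m20 m21 m23 m30 m31 m32 n12 n13 n21 n23 n31 n32
  have e3 : m01 + m02 + m03 = 1 - (m10 + m20 + m30) - (m12 + m13 + m21 + m23 + m31 + m32) := by linarith
  rw [e3] at e2
  have e4 := fin_L2 (m10 + m20 + m30) (m01 + m21 + m31) (m02 + m12 + m32) (m03 + m13 + m23)
    (m21 + m31) (m12 + m32) (m13 + m23) (m12 + m13 + m21 + m23 + m31 + m32)
    (FF m01 m02 m03 m10 m12 m13 m20 m21 m23 m30 m31 m32) 0.262 0 0 0 0 (by linarith) (by ring) (by positivity)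
    (by positivity) (by positivity) u1 u2 u3 e2
  by_contra hb
  push Not at hb
  exact absurd (hF.trans e4) (not_le.2 (num_A1 _ _ l0 u0 hb.le b1))

theorem alg_A2 (m01 m02 m03 m10 m12 m13 m20 m21 m23 m30 m31 m32 : ℝ)
    (n01 : 0 ≤ m01) (n02 : 0 ≤ m02) (n03 : 0 ≤ m03) (n10 : 0 ≤ m10) (n12 : 0 ≤ m12) (n13 : 0 ≤ m13)
    (n20 : 0 ≤ m20) (n21 : 0 ≤ m21) (n23 : 0 ≤ m23) (n30 : 0 ≤ m30) (n31 : 0 ≤ m31) (n32 : 0 ≤ m32)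
    (hs : m01 + m02 + m03 + m10 + m12 + m13 + m20 + m21 + m23 + m30 + m31 + m32 = 1)
    (l0 : 0.244 ≤ m10 + m20 + m30) (u0 : m10 + m20 + m30 ≤ 0.252)
    (l1 : 0.244 ≤ m01 + m21 + m31) (u1 : m01 + m21 + m31 ≤ 0.252)
    (l2 : 0.244 ≤ m02 + m12 + m32) (u2 : m02 + m12 + m32 ≤ 0.252)
    (l3 : 0.244 ≤ m03 + m13 + m23) (u3 : m03 + m13 + m23 ≤ 0.252)
    (hb : m12 + m13 + m21 + m23 + m31 + m32 ≤ 0.113)
    (hF : 0.1995 ≤ FF m01 m02 m03 m10 m12 m13 m20 m21 m23 m30 m31 m32) :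
    m12 + m13 + m21 + m23 + m31 + m32 ≤ 0.08 := by
  have e2 := FF_le2 m01 m02 m03 m10 m12 m13 m20 m21 m23 m30 m31 m32 n12 n13 n21 n23 n31 n32
  have e3 : m01 + m02 + m03 = 1 - (m10 + m20 + m30) - (m12 + m13 + m21 + m23 + m31 + m32) := by linarith
  rw [e3] at e2
  have e4 := fin_L2 (m10 + m20 + m30) (m01 + m21 + m31) (m02 + m12 + m32) (m03 + m13 + m23)
    (m21 + m31) (m12 + m32) (m13 + m23) (m12 + m13 + m21 + m23 + m31 + m32)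
    (FF m01 m02 m03 m10 m12 m13 m20 m21 m23 m30 m31 m32) 0.252 0 0 0 0 (by linarith) (by ring) (by positivity)
    (by positivity) (by positivity) u1 u2 u3 e2
  by_contra hb2
  push Not at hb2
  exact absurd (hF.trans e4) (not_le.2 (num_A2 _ _ l0 u0 hb2.le hb))

end Pool.Agent.MPecb
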