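import Pool.Agent.Lib.MP_ecb332_co.Base

/-!
Algebraic lemmas A3 and A4 on profiles.
-/

set_option autoImplicit false
set_option linter.unusedVariables false

namespace Pool.Agent.MPecb

/-- upper bound for the quadratic remainder in the bad weights -/
theorem W_le (m12 m13 m21 m23 m31 m32 : ℝ) :
    ((m21 + m31) * (m12 + m32) + (m21 + m31) * (m13 + m23) + (m12 + m32) * (m13 + m23)) -
      ((m21 + m31) ^ 2 + (m12 + m32) ^ 2 + (m13 + m23) ^ 2) +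
      (m12 * m13 + m21 * m23 + m31 * m32) + (m21 * m31 + m12 * m32 + m13 * m23) ≤
    (m12 + m13 + m21 + m23 + m31 + m32) ^ 2 / 2 -
      ((m21 + m31) ^ 2 + (m12 + m32) ^ 2 + (m13 + m23) ^ 2) := by
  nlinarith [sq_nonneg (m12 - m13), sq_nonneg (m21 - m23), sq_nonneg (m31 - m32)]

theorem sq3 (a b c : ℝ) : (a + b + c) ^ 2 / 3 ≤ a ^ 2 + b ^ 2 + c ^ 2 := by
  nlinarith [sq_nonneg (a - b), sq_nonneg (a - c), sq_nonneg (b - c)]

theorem sq3' (m12 m13 m21 m23 m31 m32 : ℝ) : (m12 + m13 + m21 + m23 + m31 + m32) ^ 2 / 3 ≤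
    (m21 + m31) ^ 2 + (m12 + m32) ^ 2 + (m13 + m23) ^ 2 := by
  have := sq3 (m21 + m31) (m12 + m32) (m13 + m23)
  rw [show m12 + m13 + m21 + m23 + m31 + m32 = m21 + m31 + (m12 + m32) + (m13 + m23) by ring]
  exact this

/-- the expansion of `FF` around the class `0` -/
theorem FF_expand (m01 m02 m03 m10 m12 m13 m20 m21 m23 m30 m31 m32 : ℝ)
    (hs : m01 + m02 + m03 + m10 + m12 + m13 + m20 + m21 + m23 + m30 + m31 + m32 = 1) :
    FF m01 m02 m03 m10 m12 m13 m20 m21 m23 m30 m31 m32 =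
      ((m01 + m21 + m31) * (m02 + m12 + m32) + (m01 + m21 + m31) * (m03 + m13 + m23) +
        (m02 + m12 + m32) * (m03 + m13 + m23)) -
      ((m21 + m31) * (1 - (m10 + m20 + m30) - 2 * (m01 + m21 + m31)) +
        (m12 + m32) * (1 - (m10 + m20 + m30) - 2 * (m02 + m12 + m32)) +
        (m13 + m23) * (1 - (m10 + m20 + m30) - 2 * (m03 + m13 + m23))) +
      ((m12 + m13) * m10 + (m21 + m23) * m20 + (m31 + m32) * m30) +
      (m10 * m20 + m10 * m30 + m20 * m30) +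
      (((m21 + m31) * (m12 + m32) + (m21 + m31) * (m13 + m23) + (m12 + m32) * (m13 + m23)) -
      ((m21 + m31) ^ 2 + (m12 + m32) ^ 2 + (m13 + m23) ^ 2) +
      (m12 * m13 + m21 * m23 + m31 * m32) + (m21 * m31 + m12 * m32 + m13 * m23)) := by
  have h : m01 = 1 - (m02 + m03 + m10 + m12 + m13 + m20 + m21 + m23 + m30 + m31 + m32) := by linarith
  subst h
  unfold FF
  ring

theorem alg_A4 (m01 m02 m03 m10 m12 m13 m20 m21 m23 m30 m31 m32 : ℝ)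
    (n01 : 0 ≤ m01) (n02 : 0 ≤ m02) (n03 : 0 ≤ m03) (n10 : 0 ≤ m10) (n12 : 0 ≤ m12) (n13 : 0 ≤ m13)
    (n20 : 0 ≤ m20) (n21 : 0 ≤ m21) (n23 : 0 ≤ m23) (n30 : 0 ≤ m30) (n31 : 0 ≤ m31) (n32 : 0 ≤ m32)
    (hs : m01 + m02 + m03 + m10 + m12 + m13 + m20 + m21 + m23 + m30 + m31 + m32 = 1) :
    FF m01 m02 m03 m10 m12 m13 m20 m21 m23 m30 m31 m32 - (m10 * m20 + m10 * m30 + m20 * m30) ≤
      ((m01 + m21 + m31) * (m02 + m12 + m32) + (m01 + m21 + m31) * (m03 + m13 + m23) +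
        (m02 + m12 + m32) * (m03 + m13 + m23)) +
      (m21 + m31) * (2 * (m10 + m20 + m30) + 2 * (m01 + m21 + m31) - 1) +
      (m12 + m32) * (2 * (m10 + m20 + m30) + 2 * (m02 + m12 + m32) - 1) +
      (m13 + m23) * (2 * (m10 + m20 + m30) + 2 * (m03 + m13 + m23) - 1) +
      (m12 + m13 + m21 + m23 + m31 + m32) ^ 2 / 6 := by
  have h1 := FF_expand m01 m02 m03 m10 m12 m13 m20 m21 m23 m30 m31 m32 hs
  have h2 := W_le m12 m13 m21 m23 m31 m32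
  have h3 := sq3' m12 m13 m21 m23 m31 m32
  have h4 : (m12 + m13) * m10 + (m21 + m23) * m20 + (m31 + m32) * m30 ≤
      (m12 + m13 + m21 + m23 + m31 + m32) * (m10 + m20 + m30) := by
    have e : 0 ≤ (m12 + m13) * (m20 + m30) + (m21 + m23) * (m10 + m30) + (m31 + m32) * (m10 + m20) := by
      positivity
    nlinarith
  rw [h1]
  have h5 : (m21 + m31) * (2 * (m10 + m20 + m30) + 2 * (m01 + m21 + m31) - 1) +
      (m12 + m32) * (2 * (m10 + m20 + m30) + 2 * (m02 + m12 + m32) - 1) +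
      (m13 + m23) * (2 * (m10 + m20 + m30) + 2 * (m03 + m13 + m23) - 1) =
      - ((m21 + m31) * (1 - (m10 + m20 + m30) - 2 * (m01 + m21 + m31)) +
        (m12 + m32) * (1 - (m10 + m20 + m30) - 2 * (m02 + m12 + m32)) +
        (m13 + m23) * (1 - (m10 + m20 + m30) - 2 * (m03 + m13 + m23))) +
      (m12 + m13 + m21 + m23 + m31 + m32) * (m10 + m20 + m30) := by ring
  linarith

/-- the final numerical inequality of A3 -/
theorem num_A3 (v s b : ℝ) (hv1 : 0.244 ≤ v) (hv2 : v ≤ 0.252) (hs : 0 ≤ s) (hb0 : 0 ≤ b) (hb : b ≤ 0.08)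
    (h : s ≤ 1.5 * v - 0.374 + 5 / 6 * b) :
    (1 - v) ^ 2 / 3 + b * (2 * v - 0.496) - s * b + v * s - 3 / 4 * s ^ 2 < 0.1995 := by
  have h1 : (1 - v) ^ 2 / 3 ≤ 0.190512 - 0.5 * (v - 0.244) := by nlinarith
  by_cases hs8 : s ≤ 0.008
  · nlinarith
  · push Not at hs8
    -- here the coefficient of `b` is negative
    have h2 : 1.2 * (s - 1.5 * v + 0.374) ≤ b := by linarith
    have h3 : 0 ≤ (b - 1.2 * (s - 1.5 * v + 0.374)) * (s + 0.496 - 2 * v) := by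
      apply mul_nonneg
      · linarith
      · linarith
    nlinarith [sq_nonneg (s - 0.06)]

theorem e2_le (p x y : ℝ) : p * x + p * y + x * y ≤ p * (x + y) + (x + y) ^ 2 / 4 := by
  nlinarith [sq_nonneg (x - y)]

theorem gam1 (x1 x2 x3 y1 y2 y3 : ℝ) (h2 : 0 ≤ x2) (h3 : 0 ≤ x3) (g2 : y2 ≤ y1) (g3 : y3 ≤ y1) :
    x1 * y1 + x2 * y2 + x3 * y3 ≤ (x1 + x2 + x3) * y1 := by
  nlinarith [mul_nonneg h2 (sub_nonneg.2 g2), mul_nonneg h3 (sub_nonneg.2 g3)]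

theorem gam2 (x1 x2 x3 y1 y2 y3 : ℝ) (h2 : 0 ≤ x2) (h3 : 0 ≤ x3) (g2 : 0 ≤ y2) (g3 : 0 ≤ y3) :
    x1 * y1 + x2 * y2 + x3 * y3 ≤ x1 * y1 + (x2 + x3) * (y2 + y3) := by
  nlinarith [mul_nonneg h2 g3, mul_nonneg h3 g2]

theorem sqh (x y a b c : ℝ) (h1 : 0 ≤ x) (h2 : 0 ≤ y) (hx : x ≤ b) (hy : y ≤ c) :
    (x + y) ^ 2 / 2 ≤ a ^ 2 + b ^ 2 + c ^ 2 := by
  have e1 : x ^ 2 ≤ b ^ 2 := pow_le_pow_left₀ h1 hx 2
  have e2 : y ^ 2 ≤ c ^ 2 := pow_le_pow_left₀ h2 hy 2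
  have e3 := sq_nonneg a
  have e4 := sq_nonneg (x - y)
  nlinarith

theorem e2_le3 (x y z : ℝ) : x * y + x * z + y * z ≤ (x + y + z) ^ 2 / 3 := by
  nlinarith [sq_nonneg (x - y), sq_nonneg (x - z), sq_nonneg (y - z)]

/-- A3 in terms of the aggregated quantities -/
theorem fin_A3 (v0 v1 v2 v3 b1 b2 b3 b σ s e Γ W E A : ℝ) (hbd : b = b1 + b2 + b3)
    (h0b1 : 0 ≤ b1) (h0b2 : 0 ≤ b2) (h0b3 : 0 ≤ b3) (h0e : 0 ≤ e) (h0s : 0 ≤ s) (h0σ : 0 ≤ σ)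
    (l0 : 0.244 ≤ v0) (u0 : v0 ≤ 0.252) (u1 : v1 ≤ 0.252) (u2 : v2 ≤ 0.252) (u3 : v3 ≤ 0.252)
    (hb : b ≤ 0.08) (hΓ1 : Γ ≤ b * (v0 - s)) (hΓ2 : Γ ≤ (b - e) * (v0 - s) + e * s)
    (hsq : b ^ 2 / 3 ≤ σ) (hsq2 : (b - e) ^ 2 / 2 ≤ σ) (hW : W ≤ b ^ 2 / 2 - σ)
    (hE2 : E ≤ (v0 - s) * s + s ^ 2 / 4) (hA0 : A ≤ (1 - v0) ^ 2 / 3)
    (hQ : 1 / 2 * (b1 * (1 - v0 - v1) + b2 * (1 - v0 - v2) + b3 * (1 - v0 - v3)) - Γ - b ^ 2 + 1 / 2 * σ < 0)
    (hF : 0.1995 ≤ A - (b1 * (1 - v0 - 2 * v1) + b2 * (1 - v0 - 2 * v2) + b3 * (1 - v0 - 2 * v3)) + Γ + E + W) :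
    False := by
  have h0b : 0 ≤ b := by rw [hbd]; positivity
  have p1 := mul_nonneg h0b1 (sub_nonneg.2 u1)
  have p2 := mul_nonneg h0b2 (sub_nonneg.2 u2)
  have p3 := mul_nonneg h0b3 (sub_nonneg.2 u3)
  have s1 : 1 / 2 * (b * (0.748 - v0)) ≤
      1 / 2 * (b1 * (1 - v0 - v1) + b2 * (1 - v0 - v2) + b3 * (1 - v0 - v3)) := by
    rw [hbd]
    linarith
  have s2 : b * (0.496 - v0) ≤
      b1 * (1 - v0 - 2 * v1) + b2 * (1 - v0 - 2 * v2) + b3 * (1 - v0 - 2 * v3) := by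
    rw [hbd]
    linarith
  clear p1 p2 p3 hbd h0b1 h0b2 h0b3 u1 u2 u3
  generalize (b1 * (1 - v0 - v1) + b2 * (1 - v0 - v2) + b3 * (1 - v0 - v3)) = X at s1 hQ
  generalize (b1 * (1 - v0 - 2 * v1) + b2 * (1 - v0 - 2 * v2) + b3 * (1 - v0 - 2 * v3)) = Y at s2 hF
  have hbpos : 0 < b := by
    rcases lt_or_eq_of_le h0b with h | h
    · exact h
    · exfalso
      rw [← h] at s1 hΓ1 hQ
      linarith
  have hs5 : s ≤ 1.5 * v0 - 0.374 + 5 / 6 * b := by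
    have h1 : b * (1 / 2 * (0.748 - v0) - 5 / 6 * b - (v0 - s)) ≤ 0 := by linarith
    have h2 : 1 / 2 * (0.748 - v0) - 5 / 6 * b - (v0 - s) ≤ 0 := by
      by_contra h3
      push Not at h3
      have := mul_pos hbpos h3
      linarith
    linarith
  have hnum := num_A3 v0 s b l0 u0 h0s h0b hb hs5
  have h6 : 0 ≤ e * (v0 - 2 * s - b) := by
    apply mul_nonneg h0e
    linarith
  have h7 : W ≤ b * e := by
    have := sq_nonneg e
    linarith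
  linarith

/-- A3 when the largest entry of the column `0` is `m10` -/
theorem alg_A3_core (m01 m02 m03 m10 m12 m13 m20 m21 m23 m30 m31 m32 : ℝ)
    (n10 : 0 ≤ m10) (n12 : 0 ≤ m12) (n13 : 0 ≤ m13)
    (n20 : 0 ≤ m20) (n21 : 0 ≤ m21) (n23 : 0 ≤ m23) (n30 : 0 ≤ m30) (n31 : 0 ≤ m31) (n32 : 0 ≤ m32)
    (hs : m01 + m02 + m03 + m10 + m12 + m13 + m20 + m21 + m23 + m30 + m31 + m32 = 1)
    (l0 : 0.244 ≤ m10 + m20 + m30) (u0 : m10 + m20 + m30 ≤ 0.252)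
    (u1 : m01 + m21 + m31 ≤ 0.252)
    (u2 : m02 + m12 + m32 ≤ 0.252)
    (u3 : m03 + m13 + m23 ≤ 0.252)
    (hb : m12 + m13 + m21 + m23 + m31 + m32 ≤ 0.08)
    (hF : 0.1995 ≤ FF m01 m02 m03 m10 m12 m13 m20 m21 m23 m30 m31 m32)
    (h2 : m20 ≤ m10) (h3 : m30 ≤ m10) :
    0 ≤ QQ m01 m02 m03 m10 m12 m13 m20 m21 m23 m30 m31 m32 := by
  by_contra hQ
  push Not at hQ
  rw [FF_expand m01 m02 m03 m10 m12 m13 m20 m21 m23 m30 m31 m32 hs] at hF
  unfold QQ at hQ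
  have hW := W_le m12 m13 m21 m23 m31 m32
  have hsq := sq3' m12 m13 m21 m23 m31 m32
  have hΓ1 := gam1 (m12 + m13) (m21 + m23) (m31 + m32) m10 m20 m30 (by linarith) (by linarith) h2 h3
  have hΓ2 := gam2 (m12 + m13) (m21 + m23) (m31 + m32) m10 m20 m30 (by linarith) (by linarith) n20 n30
  have hsq2 := sqh m12 m13 (m21 + m31) (m12 + m32) (m13 + m23) n12 n13 (by linarith) (by linarith)
  have hE2 := e2_le m10 m20 m30
  have hA0 := e2_le3 (m01 + m21 + m31) (m02 + m12 + m32) (m03 + m13 + m23)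
  have hA1 : (m01 + m21 + m31) + (m02 + m12 + m32) + (m03 + m13 + m23) = 1 - (m10 + m20 + m30) := by linarith
  rw [hA1] at hA0
  refine fin_A3 (m10 + m20 + m30) (m01 + m21 + m31) (m02 + m12 + m32) (m03 + m13 + m23)
    (m21 + m31) (m12 + m32) (m13 + m23) (m12 + m13 + m21 + m23 + m31 + m32)
    ((m21 + m31) ^ 2 + (m12 + m32) ^ 2 + (m13 + m23) ^ 2) (m20 + m30) (m21 + m23 + m31 + m32)
    ((m12 + m13) * m10 + (m21 + m23) * m20 + (m31 + m32) * m30) _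
    (m10 * m20 + m10 * m30 + m20 * m30) _ (by ring) (by positivity) (by positivity) (by positivity) (by positivity)
    (by positivity) (by positivity) l0 u0 u1 u2 u3 hb ?_ ?_ hsq ?_ hW ?_ hA0 ?_ hF
  · refine le_trans hΓ1 (le_of_eq ?_)
    ring
  · refine le_trans hΓ2 (le_of_eq ?_)
    ring
  · refine le_trans (le_of_eq ?_) hsq2
    ring
  · refine le_trans hE2 (le_of_eq ?_)
    ring
  · refine lt_of_le_of_lt (le_of_eq ?_) hQ
    ring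

theorem alg_A3 (m01 m02 m03 m10 m12 m13 m20 m21 m23 m30 m31 m32 : ℝ)
    (n01 : 0 ≤ m01) (n02 : 0 ≤ m02) (n03 : 0 ≤ m03) (n10 : 0 ≤ m10) (n12 : 0 ≤ m12) (n13 : 0 ≤ m13)
    (n20 : 0 ≤ m20) (n21 : 0 ≤ m21) (n23 : 0 ≤ m23) (n30 : 0 ≤ m30) (n31 : 0 ≤ m31) (n32 : 0 ≤ m32)
    (hs : m01 + m02 + m03 + m10 + m12 + m13 + m20 + m21 + m23 + m30 + m31 + m32 = 1)
    (l0 : 0.244 ≤ m10 + m20 + m30) (u0 : m10 + m20 + m30 ≤ 0.252)
    (l1 : 0.244 ≤ m01 + m21 + m31) (u1 : m01 + m21 + m31 ≤ 0.252)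
    (l2 : 0.244 ≤ m02 + m12 + m32) (u2 : m02 + m12 + m32 ≤ 0.252)
    (l3 : 0.244 ≤ m03 + m13 + m23) (u3 : m03 + m13 + m23 ≤ 0.252)
    (hb : m12 + m13 + m21 + m23 + m31 + m32 ≤ 0.08)
    (hF : 0.1995 ≤ FF m01 m02 m03 m10 m12 m13 m20 m21 m23 m30 m31 m32) :
    0 ≤ QQ m01 m02 m03 m10 m12 m13 m20 m21 m23 m30 m31 m32 := by
  -- symmetry under simultaneous renaming of `1, 2, 3`
  have swap12 : QQ m01 m02 m03 m10 m12 m13 m20 m21 m23 m30 m31 m32 =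
      QQ m02 m01 m03 m20 m21 m23 m10 m12 m13 m30 m32 m31 := by unfold QQ; ring
  have swap13 : QQ m01 m02 m03 m10 m12 m13 m20 m21 m23 m30 m31 m32 =
      QQ m03 m02 m01 m30 m32 m31 m20 m23 m21 m10 m13 m12 := by unfold QQ; ring
  have Fswap12 : FF m01 m02 m03 m10 m12 m13 m20 m21 m23 m30 m31 m32 =
      FF m02 m01 m03 m20 m21 m23 m10 m12 m13 m30 m32 m31 := by unfold FF; ring
  have Fswap13 : FF m01 m02 m03 m10 m12 m13 m20 m21 m23 m30 m31 m32 =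
      FF m03 m02 m01 m30 m32 m31 m20 m23 m21 m10 m13 m12 := by unfold FF; ring
  by_cases h21 : m20 ≤ m10
  · by_cases h31 : m30 ≤ m10
    · exact alg_A3_core m01 m02 m03 m10 m12 m13 m20 m21 m23 m30 m31 m32 n10 n12 n13 n20 n21 n23 n30 n31 n32
        hs l0 u0 u1 u2 u3 hb hF h21 h31
    · push Not at h31
      rw [swap13]
      rw [Fswap13] at hF
      exact alg_A3_core m03 m02 m01 m30 m32 m31 m20 m23 m21 m10 m13 m12 n30 n32 n31 n20 n23 n21 n10 n13 n12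
        (by linarith) (by linarith) (by linarith) (by linarith) (by linarith) (by linarith) (by linarith) hF
        (by linarith) (by linarith)
  · push Not at h21
    by_cases h32 : m30 ≤ m20
    · rw [swap12]
      rw [Fswap12] at hF
      exact alg_A3_core m02 m01 m03 m20 m21 m23 m10 m12 m13 m30 m32 m31 n20 n21 n23 n10 n12 n13 n30 n32 n31
        (by linarith) (by linarith) (by linarith) (by linarith) (by linarith) (by linarith) (by linarith) hF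
        (by linarith) (by linarith)
    · push Not at h32
      rw [swap13]
      rw [Fswap13] at hF
      exact alg_A3_core m03 m02 m01 m30 m32 m31 m20 m23 m21 m10 m13 m12 n30 n32 n31 n20 n23 n21 n10 n13 n12
        (by linarith) (by linarith) (by linarith) (by linarith) (by linarith) (by linarith) (by linarith) hF
        (by linarith) (by linarith)

end Pool.Agent.MPecb
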