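import Mathlib

/-!
Weighted form of the problem MP_ecb332_co.

`r : V → V → Fin 3` is a relation with `r y x = - r x y`; `r x y = 1` means that there is an arc from `x`
to `y`, `r x y = 2` that there is an arc from `y` to `x`, and `r x y = 0` that there is none.
-/

set_option autoImplicit false

namespace Pool.Agent.MPecb

/-- `a = r x y`, `b = r x z`, `c = r y z`: the three points induce a directed path on three vertices. -/
def IsP3 (a b c : Fin 3) : Prop :=
  (a = 1 ∧ b = 0 ∧ c = 1) ∨ (a = 2 ∧ b = 0 ∧ c = 2) ∨ (a = 2 ∧ b = 1 ∧ c = 0) ∨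
  (a = 1 ∧ b = 2 ∧ c = 0) ∨ (a = 0 ∧ b = 1 ∧ c = 2) ∨ (a = 0 ∧ b = 2 ∧ c = 1)

instance (a b c : Fin 3) : Decidable (IsP3 a b c) := by unfold IsP3; infer_instance

/-- real indicator of `IsP3` -/
noncomputable def p3 (a b c : Fin 3) : ℝ := if IsP3 a b c then 1 else 0

/-- weighted number of ordered triples that induce a directed path (each path counted six times) -/
noncomputable def TT {V : Type*} [Fintype V] (r : V → V → Fin 3) (ω : V → ℝ) : ℝ :=
  ∑ x, ∑ y, ∑ z, ω x * ω y * ω z * p3 (r x y) (r x z) (r y z)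

/-- weighted number of ordered pairs completing `x` to an induced directed path -/
noncomputable def EE {V : Type*} [Fintype V] (r : V → V → Fin 3) (ω : V → ℝ) (x : V) : ℝ :=
  ∑ y, ∑ z, ω y * ω z * p3 (r x y) (r x z) (r y z)

/-- the relation from class `i` to class `j` in the blow-up of the directed 4-cycle, as a function of
`j - i` (the value at `0` is irrelevant) -/
def std (d : Fin 4) : Fin 3 := if d = 1 then 1 else if d = 3 then 2 else 0

/-- Value of a pair of points `d, e` in the statistic of a root.  `od, oe`: outside the parts; `cd, ce`: the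
parts; `ad, ae`: the relation of the root to the points; `ρ = r d e`. -/
noncomputable def sval (od oe : Bool) (cd ce : Fin 4) (ad ae ρ : Fin 3) : ℝ :=
  if od = true then (if oe = true then 0 else 1 / 2 + (if -ρ = ad then 0 else 800))
  else if oe = true then 1 / 2 + (if ρ = ae then 0 else 800)
  else if cd = ce then 600 - 7 / 50
  else -200 - 7 / 50 + (if ρ = std (ce - cd) then 0 else 150)

/-- weight of the class `i` of the partition `c` -/
noncomputable def cw {V : Type*} [Fintype V] (ω : V → ℝ) (c : V → Fin 4) (i : Fin 4) : ℝ :=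
  ∑ x, if c x = i then ω x else 0

/-- the pair `x, y` is bad for the partition `c` -/
def Bd {V : Type*} (r : V → V → Fin 3) (c : V → Fin 4) (x y : V) : Prop :=
  c x ≠ c y ∧ r x y ≠ std (c y - c x)

instance {V : Type*} (r : V → V → Fin 3) (c : V → Fin 4) (x y : V) : Decidable (Bd r c x y) := by
  unfold Bd; infer_instance

/-- weight of the ordered bad pairs -/
noncomputable def BB {V : Type*} [Fintype V] (r : V → V → Fin 3) (ω : V → ℝ) (c : V → Fin 4) : ℝ :=
  ∑ x, ∑ y, if Bd r c x y then ω x * ω y else 0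

/-- weight of the points that are bad for `x` when `x` is put in the class `i` -/
noncomputable def bw {V : Type*} [Fintype V] (r : V → V → Fin 3) (ω : V → ℝ) (c : V → Fin 4) (i : Fin 4)
    (x : V) : ℝ :=
  ∑ y, if c y ≠ i ∧ r x y ≠ std (c y - i) then ω y else 0

/-- profile of `x` relative to the class `i`: weight of the points `y` with `c y - i = d`, `r x y = ρ` -/
noncomputable def NN {V : Type*} [Fintype V] (r : V → V → Fin 3) (ω : V → ℝ) (c : V → Fin 4) (i : Fin 4)
    (x : V) (d : Fin 4) (ρ : Fin 3) : ℝ :=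
  ∑ y, if c y - i = d ∧ r x y = ρ then ω y else 0

/-- sum over the rows and columns of a 4 × 4 matrix with zero diagonal of the second elementary symmetric
functions of the entries -/
noncomputable def FF (m01 m02 m03 m10 m12 m13 m20 m21 m23 m30 m31 m32 : ℝ) : ℝ :=
  (m01 * m02 + m01 * m03 + m02 * m03) + (m10 * m12 + m10 * m13 + m12 * m13) +
  (m20 * m21 + m20 * m23 + m21 * m23) + (m30 * m31 + m30 * m32 + m31 * m32) +
  (m10 * m20 + m10 * m30 + m20 * m30) + (m01 * m21 + m01 * m31 + m21 * m31) +
  (m02 * m12 + m02 * m32 + m12 * m32) + (m03 * m13 + m03 * m23 + m13 * m23)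

/-- the quantity that multiplies the weight of a point in the global inequality -/
noncomputable def QQ (m01 m02 m03 m10 m12 m13 m20 m21 m23 m30 m31 m32 : ℝ) : ℝ :=
  1 / 2 * ((m21 + m31) * (1 - (m10 + m20 + m30) - (m01 + m21 + m31)) +
    (m12 + m32) * (1 - (m10 + m20 + m30) - (m02 + m12 + m32)) +
    (m13 + m23) * (1 - (m10 + m20 + m30) - (m03 + m13 + m23))) -
  ((m12 + m13) * m10 + (m21 + m23) * m20 + (m31 + m32) * m30) -
  ((m21 + m31) + (m12 + m32) + (m13 + m23)) ^ 2 +
  1 / 2 * ((m21 + m31) ^ 2 + (m12 + m32) ^ 2 + (m13 + m23) ^ 2)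

end Pool.Agent.MPecb
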