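import Pool.Agent.Lib.MP_ecb332_co.Defs

/-! The main kernel computation for problem MP_ecb332_co. -/

set_option autoImplicit false

namespace Pool.Agent.MPecb

theorem rep_ok : reps4.all chkRep = true := by decide +kernel

end Pool.Agent.MPecb
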