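import Mathlib.Data.Nat.Basic

/-!
Integer factors of the quadratic forms of the order-5 certificate for problem MP_ecb332_co (generated).
-/

set_option autoImplicit false
set_option linter.all false

namespace Pool.Agent.MPecb

def B3_0 : List (List Int) := [
  [Int.ofNat 668936],
  [Int.ofNat 671070, Int.ofNat 9201],
  [Int.ofNat 671070, Int.negSucc 9199, Int.ofNat 140],
  [Int.ofNat 671070, Int.ofNat 1469, Int.negSucc 30, Int.ofNat 9083],
  [Int.ofNat 568046, Int.ofNat 329319, Int.negSucc 2483, Int.ofNat 280330, Int.ofNat 530683],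
  [Int.ofNat 521930, Int.negSucc 8900, Int.ofNat 94, Int.ofNat 10457, Int.ofNat 0, 
    Int.ofNat 329],
  [Int.ofNat 671070, Int.negSucc 1468, Int.negSucc 8, Int.negSucc 9081, Int.negSucc 0, 
    Int.negSucc 16, Int.ofNat 134],
  [Int.ofNat 521930, Int.ofNat 8901, Int.negSucc 41, Int.negSucc 10455, Int.ofNat 0, 
    Int.negSucc 288, Int.ofNat 76, Int.ofNat 172],
  [Int.ofNat 568046, Int.negSucc 329318, Int.ofNat 2545, Int.negSucc 280328, 
    Int.negSucc 530682, Int.ofNat 24, Int.ofNat 85, Int.ofNat 121, Int.ofNat 43],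
  [Int.ofNat 671070, Int.ofNat 1469, Int.negSucc 30, Int.ofNat 1250, Int.negSucc 8992, 
    Int.ofNat 5, Int.negSucc 69, Int.negSucc 13, Int.negSucc 14, Int.ofNat 241],
  [Int.ofNat 568046, Int.ofNat 329316, Int.negSucc 2483, Int.negSucc 486836, 
    Int.negSucc 350718, Int.negSucc 9280, Int.ofNat 1041, Int.ofNat 2598, Int.ofNat 5, 
    Int.ofNat 4512, Int.ofNat 9064],
  [Int.ofNat 521930, Int.negSucc 8900, Int.ofNat 94, Int.ofNat 1440, Int.negSucc 10358, 
    Int.ofNat 148, Int.negSucc 66, Int.negSucc 72, Int.negSucc 8, Int.ofNat 56, Int.ofNat 54, 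
    Int.ofNat 181],
  [Int.ofNat 568046, Int.negSucc 428003, Int.ofNat 3225, Int.ofNat 402826, Int.negSucc 350693, 
    Int.ofNat 9558, Int.negSucc 3111, Int.negSucc 2570, Int.ofNat 5, Int.ofNat 4512, 
    Int.ofNat 967, Int.ofNat 2796, Int.ofNat 8567],
  [Int.negSucc 324416, Int.ofNat 1842995, Int.negSucc 14073, Int.ofNat 1568802, 
    Int.negSucc 1365097, Int.ofNat 2223, Int.negSucc 16748, Int.ofNat 157, Int.ofNat 57, 
    Int.ofNat 42747, Int.ofNat 18571, Int.ofNat 4683, Int.ofNat 16023, Int.ofNat 38239],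
  [Int.negSucc 633775, Int.ofNat 47667, Int.negSucc 373, Int.ofNat 211938, Int.negSucc 184459, 
    Int.ofNat 2228, Int.negSucc 2020, Int.negSucc 522, Int.ofNat 11, Int.ofNat 4218, 
    Int.ofNat 1339, Int.ofNat 878, Int.ofNat 3017, Int.ofNat 2882, Int.ofNat 1564],
  [Int.ofNat 521930, Int.ofNat 0, Int.negSucc 40, Int.negSucc 9016, Int.negSucc 10359, 
    Int.negSucc 159, Int.ofNat 22, Int.ofNat 11, Int.negSucc 8, Int.ofNat 56, Int.ofNat 62, 
    Int.ofNat 102, Int.ofNat 16, Int.negSucc 0, Int.negSucc 4, Int.ofNat 145],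
  [Int.negSucc 633775, Int.ofNat 216833, Int.negSucc 1660, Int.ofNat 13210, 
    Int.negSucc 184464, Int.negSucc 1809, Int.negSucc 1061, Int.ofNat 583, Int.ofNat 11, 
    Int.ofNat 4218, Int.ofNat 3265, Int.ofNat 201, Int.ofNat 983, Int.ofNat 2882, 
    Int.negSucc 195, Int.negSucc 32, Int.ofNat 1550],
  [Int.negSucc 633775, Int.negSucc 216832, Int.ofNat 1650, Int.negSucc 184574, 
    Int.negSucc 12415, Int.negSucc 173, Int.ofNat 1303, Int.negSucc 13, Int.ofNat 4, 
    Int.negSucc 3175, Int.negSucc 1187, Int.negSucc 408, Int.negSucc 988, Int.negSucc 2875, 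
    Int.ofNat 200, Int.negSucc 59, Int.ofNat 224, Int.ofNat 1533],
  [Int.ofNat 671070, Int.negSucc 1468, Int.negSucc 8, Int.negSucc 1250, Int.ofNat 8993, 
    Int.negSucc 6, Int.ofNat 17, Int.negSucc 15, Int.negSucc 15, Int.negSucc 212, 
    Int.negSucc 13, Int.ofNat 4, Int.negSucc 13, Int.negSucc 18, Int.negSucc 3, Int.ofNat 4, 
    Int.negSucc 3, Int.ofNat 3, Int.ofNat 109],
  [Int.ofNat 521930, Int.ofNat 8901, Int.negSucc 41, Int.negSucc 1439, Int.ofNat 10359, 
    Int.negSucc 156, Int.negSucc 3, Int.ofNat 8, Int.negSucc 9, Int.negSucc 48, Int.negSucc 55, 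
    Int.negSucc 106, Int.negSucc 27, Int.negSucc 3, Int.ofNat 4, Int.negSucc 93, Int.negSucc 1, 
    Int.ofNat 2, Int.ofNat 24, Int.ofNat 108],
  [Int.ofNat 568046, Int.negSucc 329315, Int.ofNat 2545, Int.ofNat 486836, Int.ofNat 350719, 
    Int.ofNat 9275, Int.negSucc 1112, Int.negSucc 2650, Int.negSucc 22, Int.negSucc 4500, 
    Int.negSucc 9067, Int.ofNat 51, Int.negSucc 21, Int.negSucc 5, Int.ofNat 2, Int.negSucc 64, 
    Int.negSucc 2, Int.ofNat 2, Int.ofNat 38, Int.ofNat 71, Int.ofNat 41],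
  [Int.ofNat 521930, Int.ofNat 0, Int.negSucc 40, Int.ofNat 9017, Int.ofNat 10359, 
    Int.ofNat 138, Int.ofNat 6, Int.negSucc 74, Int.negSucc 9, Int.negSucc 48, Int.negSucc 64, 
    Int.negSucc 137, Int.negSucc 6, Int.negSucc 3, Int.negSucc 0, Int.negSucc 28, Int.ofNat 1, 
    Int.ofNat 2, Int.ofNat 24, Int.ofNat 6, Int.negSucc 8, Int.ofNat 107],
  [Int.negSucc 633775, Int.ofNat 216833, Int.negSucc 1660, Int.ofNat 184575, Int.ofNat 12416, 
    Int.ofNat 167, Int.negSucc 1318, Int.negSucc 16, Int.ofNat 3, Int.ofNat 3165, 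
    Int.ofNat 1193, Int.ofNat 406, Int.ofNat 995, Int.ofNat 2884, Int.negSucc 197, 
    Int.ofNat 58, Int.negSucc 222, Int.negSucc 1533, Int.negSucc 39, Int.negSucc 2, 
    Int.negSucc 1, Int.negSucc 2, Int.ofNat 35],
  [Int.negSucc 633775, Int.negSucc 216832, Int.ofNat 1650, Int.negSucc 13209, 
    Int.ofNat 184466, Int.ofNat 1819, Int.ofNat 1038, Int.negSucc 564, Int.negSucc 3, 
    Int.negSucc 4223, Int.negSucc 3262, Int.negSucc 218, Int.negSucc 973, Int.negSucc 2878, 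
    Int.ofNat 196, Int.ofNat 54, Int.negSucc 1548, Int.negSucc 0, Int.negSucc 19, 
    Int.negSucc 27, Int.negSucc 4, Int.negSucc 2, Int.ofNat 3, Int.ofNat 35],
  [Int.ofNat 568046, Int.ofNat 428003, Int.negSucc 3309, Int.negSucc 402825, Int.ofNat 350694, 
    Int.negSucc 9577, Int.ofNat 3148, Int.ofNat 2518, Int.negSucc 22, Int.negSucc 4500, 
    Int.negSucc 971, Int.negSucc 2821, Int.negSucc 8562, Int.negSucc 7, Int.negSucc 4, 
    Int.ofNat 82, Int.ofNat 0, Int.ofNat 2, Int.ofNat 38, Int.ofNat 0, Int.negSucc 5, 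
    Int.ofNat 71, Int.negSucc 1, Int.negSucc 1, Int.ofNat 41],
  [Int.negSucc 633775, Int.negSucc 47666, Int.ofNat 353, Int.negSucc 211937, Int.ofNat 184460, 
    Int.negSucc 2220, Int.ofNat 2003, Int.ofNat 541, Int.negSucc 3, Int.negSucc 4223, 
    Int.negSucc 1335, Int.negSucc 869, Int.negSucc 3016, Int.negSucc 2878, Int.negSucc 1560, 
    Int.negSucc 28, Int.ofNat 1, Int.negSucc 0, Int.negSucc 19, Int.negSucc 3, Int.ofNat 0, 
    Int.negSucc 27, Int.ofNat 4, Int.ofNat 3, Int.negSucc 3, Int.ofNat 35],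
  [Int.negSucc 324416, Int.negSucc 1842994, Int.ofNat 14067, Int.negSucc 1568801, 
    Int.ofNat 1365098, Int.negSucc 2221, Int.ofNat 16740, Int.negSucc 154, Int.negSucc 52, 
    Int.negSucc 42749, Int.negSucc 18568, Int.negSucc 4683, Int.negSucc 16020, 
    Int.negSucc 38236, Int.ofNat 0, Int.negSucc 0, Int.ofNat 1, Int.ofNat 0, Int.negSucc 12, 
    Int.negSucc 3, Int.ofNat 0, Int.negSucc 2, Int.ofNat 3, Int.ofNat 3, Int.ofNat 0, 
    Int.ofNat 3, Int.ofNat 33]]

def B3_1 : List (List Int) := [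
  [Int.ofNat 1957803],
  [Int.ofNat 2951955, Int.ofNat 2554156],
  [Int.ofNat 2013328, Int.ofNat 1542783, Int.ofNat 1303993],
  [Int.ofNat 2013328, Int.ofNat 878709, Int.negSucc 1328701, Int.ofNat 1242174],
  [Int.ofNat 2306112, Int.ofNat 2761008, Int.ofNat 465103, Int.ofNat 20311, Int.ofNat 1273363],
  [Int.ofNat 3672975, Int.ofNat 2088265, Int.negSucc 21308, Int.ofNat 1071236, Int.ofNat 0, 
    Int.ofNat 497],
  [Int.ofNat 2951955, Int.ofNat 1489625, Int.negSucc 41262, Int.ofNat 2074374, Int.ofNat 0, 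
    Int.ofNat 267, Int.ofNat 941],
  [Int.ofNat 2074747, Int.ofNat 1270508, Int.negSucc 12964, Int.ofNat 651744, Int.ofNat 0, 
    Int.ofNat 149, Int.ofNat 502, Int.ofNat 95],
  [Int.ofNat 2306112, Int.ofNat 1619246, Int.negSucc 509799, Int.ofNat 2226667, 
    Int.negSucc 1273362, Int.ofNat 182, Int.ofNat 616, Int.ofNat 61, Int.ofNat 57],
  [Int.ofNat 2010511, Int.negSucc 193775, Int.ofNat 191116, Int.ofNat 323700, 
    Int.negSucc 811029, Int.negSucc 37, Int.negSucc 5, Int.negSucc 19, Int.ofNat 2, 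
    Int.ofNat 208927],
  [Int.ofNat 1030575, Int.ofNat 127195, Int.ofNat 821412, Int.ofNat 170039, 
    Int.negSucc 1130305, Int.ofNat 59, Int.ofNat 168, Int.ofNat 21, Int.ofNat 22, 
    Int.ofNat 609561, Int.ofNat 50651],
  [Int.negSucc 419072, Int.negSucc 1455279, Int.ofNat 3674896, Int.ofNat 518487, 
    Int.negSucc 5953700, Int.ofNat 181, Int.ofNat 564, Int.ofNat 97, Int.ofNat 122, 
    Int.ofNat 2923702, Int.ofNat 175776, Int.ofNat 56084],
  [Int.ofNat 1356637, Int.negSucc 1830813, Int.negSucc 2405224, Int.ofNat 4789209, 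
    Int.negSucc 3617378, Int.ofNat 228, Int.ofNat 862, Int.ofNat 53, Int.ofNat 87, 
    Int.ofNat 3175172, Int.negSucc 822695, Int.negSucc 262392, Int.ofNat 13864],
  [Int.negSucc 969244, Int.ofNat 1948965, Int.ofNat 4783451, Int.negSucc 3651819, 
    Int.negSucc 457351, Int.negSucc 189, Int.negSucc 672, Int.ofNat 10, Int.ofNat 16, 
    Int.ofNat 5529371, Int.negSucc 11987, Int.negSucc 3790, Int.ofNat 5177, Int.ofNat 2370],
  [Int.ofNat 529867, Int.negSucc 220638, Int.negSucc 753975, Int.ofNat 899220, 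
    Int.negSucc 653894, Int.ofNat 40, Int.ofNat 139, Int.negSucc 3, Int.ofNat 13, 
    Int.negSucc 214852, Int.negSucc 47102, Int.negSucc 15037, Int.ofNat 385, Int.ofNat 180, 
    Int.ofNat 15387],
  [Int.negSucc 580730, Int.negSucc 1570397, Int.ofNat 2568853, Int.negSucc 3350329, 
    Int.ofNat 2325736, Int.ofNat 24, Int.ofNat 23, Int.negSucc 30, Int.negSucc 90, 
    Int.ofNat 5733242, Int.negSucc 341331, Int.negSucc 108810, Int.ofNat 9810, Int.ofNat 755, 
    Int.negSucc 5, Int.ofNat 3678],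
  [Int.negSucc 1041442, Int.ofNat 1592561, Int.ofNat 1974866, Int.negSucc 1658116, 
    Int.ofNat 622546, Int.ofNat 4, Int.ofNat 207, Int.ofNat 184, Int.ofNat 4, Int.ofNat 873793, 
    Int.ofNat 267524, Int.ofNat 85335, Int.negSucc 2816, Int.ofNat 568, Int.negSucc 28, 
    Int.negSucc 1350, Int.ofNat 4366],
  [Int.negSucc 2110995, Int.negSucc 1307348, Int.negSucc 1072225, Int.ofNat 682644, 
    Int.negSucc 384067, Int.ofNat 61, Int.ofNat 168, Int.ofNat 12, Int.ofNat 11, 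
    Int.negSucc 803609, Int.negSucc 67945, Int.negSucc 21677, Int.ofNat 163, Int.negSucc 46, 
    Int.ofNat 2, Int.negSucc 13, Int.negSucc 18, Int.ofNat 183],
  [Int.ofNat 2010511, Int.ofNat 146794, Int.negSucc 190636, Int.negSucc 347799, 
    Int.ofNat 811030, Int.negSucc 119, Int.negSucc 278, Int.negSucc 58, Int.negSucc 34, 
    Int.negSucc 208926, Int.negSucc 1, Int.negSucc 1, Int.negSucc 159, Int.ofNat 32, 
    Int.negSucc 0, Int.ofNat 6, Int.ofNat 15, Int.negSucc 141, Int.ofNat 89],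
  [Int.negSucc 580730, Int.negSucc 3678373, Int.negSucc 2515293, Int.ofNat 657822, 
    Int.negSucc 2325735, Int.ofNat 151, Int.ofNat 424, Int.ofNat 81, Int.ofNat 13, 
    Int.negSucc 5733241, Int.ofNat 341326, Int.ofNat 108836, Int.negSucc 10108, Int.ofNat 94, 
    Int.ofNat 16, Int.ofNat 98, Int.negSucc 552, Int.ofNat 925, Int.ofNat 112, Int.ofNat 2248],
  [Int.ofNat 1356637, Int.ofNat 2860683, Int.ofNat 2394716, Int.negSucc 4260907, 
    Int.ofNat 3617379, Int.negSucc 526, Int.negSucc 1721, Int.negSucc 119, Int.negSucc 74, 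
    Int.negSucc 3175171, Int.ofNat 822702, Int.ofNat 262372, Int.negSucc 13528, 
    Int.negSucc 952, Int.negSucc 19, Int.negSucc 2499, Int.ofNat 83, Int.negSucc 951, 
    Int.negSucc 6, Int.ofNat 64, Int.ofNat 2068],
  [Int.negSucc 419072, Int.negSucc 487019, Int.negSucc 3655076, Int.negSucc 1514844, 
    Int.ofNat 5953701, Int.negSucc 322, Int.negSucc 1090, Int.negSucc 187, Int.negSucc 144, 
    Int.negSucc 2923701, Int.negSucc 175775, Int.negSucc 56082, Int.ofNat 31, Int.negSucc 7, 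
    Int.ofNat 0, Int.ofNat 1, Int.negSucc 7, Int.ofNat 34, Int.ofNat 0, Int.negSucc 0, 
    Int.negSucc 0, Int.ofNat 96],
  [Int.negSucc 2110995, Int.negSucc 190730, Int.ofNat 1087513, Int.negSucc 1451127, 
    Int.ofNat 384068, Int.negSucc 70, Int.negSucc 286, Int.negSucc 5, Int.negSucc 5, 
    Int.ofNat 803610, Int.ofNat 67947, Int.ofNat 21679, Int.negSucc 109, Int.ofNat 37, 
    Int.negSucc 0, Int.ofNat 13, Int.ofNat 14, Int.negSucc 131, Int.negSucc 23, Int.negSucc 1, 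
    Int.ofNat 2, Int.negSucc 1, Int.ofNat 35],
  [Int.ofNat 529867, Int.ofNat 613808, Int.ofNat 749964, Int.negSucc 697532, Int.ofNat 653895, 
    Int.negSucc 51, Int.negSucc 171, Int.negSucc 34, Int.negSucc 15, Int.ofNat 214853, 
    Int.ofNat 47094, Int.ofNat 15066, Int.negSucc 406, Int.negSucc 133, Int.negSucc 104, 
    Int.ofNat 110, Int.negSucc 354, Int.negSucc 133, Int.ofNat 8, Int.negSucc 178, 
    Int.negSucc 24, Int.ofNat 3, Int.ofNat 4, Int.ofNat 15380],
  [Int.ofNat 1030575, Int.ofNat 199010, Int.negSucc 824739, Int.negSucc 2702, 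
    Int.ofNat 1130306, Int.negSucc 24, Int.negSucc 103, Int.negSucc 32, Int.negSucc 28, 
    Int.negSucc 609560, Int.negSucc 45956, Int.negSucc 14709, Int.ofNat 164, Int.negSucc 77, 
    Int.negSucc 40, Int.negSucc 48, Int.ofNat 36, Int.negSucc 14, Int.negSucc 18, 
    Int.negSucc 8, Int.ofNat 14, Int.ofNat 14, Int.ofNat 2, Int.ofNat 13, Int.ofNat 15395],
  [Int.negSucc 1041442, Int.negSucc 449746, Int.negSucc 1986527, Int.ofNat 2244356, 
    Int.negSucc 622545, Int.ofNat 246, Int.ofNat 1047, Int.ofNat 213, Int.ofNat 32, 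
    Int.negSucc 873792, Int.negSucc 267522, Int.negSucc 85347, Int.ofNat 2664, Int.negSucc 791, 
    Int.negSucc 106, Int.negSucc 526, Int.ofNat 181, Int.negSucc 169, Int.negSucc 16, 
    Int.negSucc 826, Int.negSucc 734, Int.negSucc 181, Int.ofNat 5, Int.negSucc 25, 
    Int.negSucc 8, Int.ofNat 4251],
  [Int.negSucc 969244, Int.negSucc 1906458, Int.negSucc 4783884, Int.ofNat 3673624, 
    Int.ofNat 457352, Int.ofNat 192, Int.ofNat 680, Int.negSucc 11, Int.negSucc 4, 
    Int.negSucc 5529370, Int.ofNat 11988, Int.ofNat 3791, Int.negSucc 5174, Int.negSucc 2369, 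
    Int.ofNat 0, Int.ofNat 0, Int.ofNat 0, Int.ofNat 2, Int.negSucc 0, Int.negSucc 0, 
    Int.ofNat 0, Int.negSucc 4, Int.ofNat 5, Int.ofNat 0, Int.ofNat 0, Int.ofNat 0, 
    Int.ofNat 37]]

def B3_2 : List (List Int) := [
  [Int.ofNat 1136120],
  [Int.ofNat 439165, Int.ofNat 901211],
  [Int.negSucc 1496602, Int.negSucc 585272, Int.ofNat 2070078],
  [Int.ofNat 946710, Int.negSucc 1552850, Int.negSucc 492739, Int.ofNat 2961299],
  [Int.ofNat 720533, Int.ofNat 460829, Int.ofNat 6589, Int.ofNat 141174, Int.ofNat 636601],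
  [Int.ofNat 69635, Int.ofNat 416342, Int.ofNat 98709, Int.negSucc 721505, Int.negSucc 891435, 
    Int.ofNat 768818],
  [Int.ofNat 337220, Int.ofNat 252285, Int.ofNat 107707, Int.ofNat 587749, Int.ofNat 35633, 
    Int.ofNat 33656, Int.ofNat 10910],
  [Int.ofNat 722646, Int.ofNat 455672, Int.ofNat 7925, Int.negSucc 705059, Int.ofNat 271721, 
    Int.ofNat 387082, Int.ofNat 247, Int.ofNat 5420],
  [Int.negSucc 216986, Int.ofNat 4134303, Int.ofNat 1177556, Int.ofNat 263366, 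
    Int.ofNat 2555507, Int.ofNat 2415257, Int.ofNat 2029, Int.ofNat 33709, Int.ofNat 17020],
  [Int.ofNat 947118, Int.negSucc 1552878, Int.negSucc 493145, Int.negSucc 2961297, 
    Int.ofNat 0, Int.ofNat 0, Int.negSucc 74, Int.ofNat 93, Int.negSucc 423, Int.ofNat 1975],
  [Int.ofNat 720591, Int.ofNat 460822, Int.ofNat 6535, Int.negSucc 141173, Int.negSucc 636600, 
    Int.ofNat 0, Int.ofNat 1, Int.negSucc 7, Int.ofNat 8, Int.negSucc 25, Int.ofNat 219],
  [Int.ofNat 69428, Int.ofNat 416360, Int.ofNat 98910, Int.ofNat 721506, Int.ofNat 891436, 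
    Int.negSucc 768667, Int.negSucc 532, Int.negSucc 10727, Int.ofNat 4, Int.ofNat 211, 
    Int.negSucc 366, Int.ofNat 10758],
  [Int.ofNat 1695678, Int.negSucc 58731, Int.negSucc 1875574, Int.ofNat 0, Int.ofNat 0, 
    Int.ofNat 0, Int.negSucc 9, Int.ofNat 9, Int.negSucc 33, Int.ofNat 227, Int.ofNat 88, 
    Int.negSucc 3, Int.ofNat 759],
  [Int.negSucc 452938, Int.negSucc 119014, Int.ofNat 335815, Int.ofNat 0, Int.ofNat 0, 
    Int.ofNat 0, Int.negSucc 7, Int.ofNat 7, Int.negSucc 28, Int.ofNat 186, Int.ofNat 137, 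
    Int.negSucc 2, Int.ofNat 745, Int.ofNat 120],
  [Int.negSucc 890051, Int.ofNat 329462, Int.ofNat 226849, Int.ofNat 0, Int.ofNat 0, 
    Int.ofNat 0, Int.negSucc 10, Int.ofNat 10, Int.negSucc 36, Int.ofNat 253, Int.ofNat 42, 
    Int.negSucc 5, Int.ofNat 767, Int.negSucc 43, Int.ofNat 322],
  [Int.ofNat 520487, Int.negSucc 405663, Int.negSucc 1043561, Int.ofNat 2994134, 
    Int.ofNat 2748483, Int.negSucc 2278314, Int.negSucc 1464, Int.negSucc 31782, Int.ofNat 355, 
    Int.ofNat 812, Int.negSucc 1078, Int.ofNat 44, Int.negSucc 74, Int.ofNat 421, 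
    Int.negSucc 101, Int.ofNat 1082],
  [Int.negSucc 555478, Int.ofNat 164221, Int.ofNat 82971, Int.negSucc 942701, 
    Int.negSucc 407989, Int.ofNat 432344, Int.ofNat 276, Int.ofNat 6043, Int.ofNat 10, 
    Int.negSucc 19, Int.ofNat 211, Int.negSucc 1, Int.ofNat 5, Int.negSucc 14, Int.ofNat 11, 
    Int.negSucc 52, Int.ofNat 92],
  [Int.negSucc 1132719, Int.ofNat 236005, Int.negSucc 218185, Int.negSucc 1410031, 
    Int.negSucc 305154, Int.ofNat 2020859, Int.ofNat 1402, Int.ofNat 28151, Int.ofNat 5844, 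
    Int.ofNat 1237, Int.ofNat 482, Int.negSucc 167, Int.ofNat 43, Int.negSucc 206, 
    Int.ofNat 83, Int.negSucc 375, Int.ofNat 125, Int.ofNat 11043],
  [Int.ofNat 337301, Int.ofNat 252279, Int.ofNat 107627, Int.negSucc 587748, 
    Int.negSucc 35632, Int.negSucc 33657, Int.ofNat 3, Int.negSucc 434, Int.negSucc 233, 
    Int.negSucc 34, Int.ofNat 6, Int.negSucc 41, Int.negSucc 15, Int.ofNat 2, Int.negSucc 4, 
    Int.ofNat 0, Int.negSucc 18, Int.negSucc 96, Int.ofNat 10887],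
  [Int.ofNat 722538, Int.ofNat 455678, Int.ofNat 8034, Int.ofNat 705060, Int.negSucc 271720, 
    Int.negSucc 387081, Int.negSucc 244, Int.negSucc 5413, Int.negSucc 1, Int.negSucc 31, 
    Int.negSucc 113, Int.ofNat 3, Int.negSucc 21, Int.ofNat 134, Int.negSucc 28, Int.ofNat 46, 
    Int.negSucc 67, Int.ofNat 0, Int.ofNat 0, Int.ofNat 96],
  [Int.negSucc 216961, Int.ofNat 4134289, Int.ofNat 1177552, Int.negSucc 263367, 
    Int.negSucc 2555506, Int.negSucc 2415256, Int.negSucc 1873, Int.negSucc 33908, 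
    Int.negSucc 15812, Int.negSucc 4181, Int.negSucc 30, Int.negSucc 5, Int.ofNat 443, 
    Int.negSucc 168, Int.ofNat 26, Int.negSucc 151, Int.negSucc 117, Int.negSucc 351, 
    Int.negSucc 0, Int.negSucc 12, Int.ofNat 3062],
  [Int.ofNat 521225, Int.negSucc 405725, Int.negSucc 1044280, Int.negSucc 2994133, 
    Int.negSucc 2748482, Int.ofNat 2278315, Int.ofNat 1465, Int.ofNat 31783, Int.negSucc 353, 
    Int.negSucc 823, Int.ofNat 1099, Int.negSucc 43, Int.ofNat 72, Int.negSucc 397, 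
    Int.ofNat 77, Int.negSucc 1070, Int.negSucc 0, Int.negSucc 0, Int.ofNat 0, Int.ofNat 24, 
    Int.negSucc 1, Int.ofNat 78],
  [Int.negSucc 555662, Int.ofNat 164235, Int.ofNat 83152, Int.ofNat 942702, Int.ofNat 407990, 
    Int.negSucc 432343, Int.negSucc 274, Int.negSucc 6045, Int.negSucc 3, Int.negSucc 24, 
    Int.negSucc 160, Int.ofNat 3, Int.negSucc 18, Int.ofNat 134, Int.negSucc 21, Int.ofNat 55, 
    Int.negSucc 73, Int.ofNat 0, Int.ofNat 0, Int.ofNat 16, Int.negSucc 0, Int.ofNat 18, 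
    Int.ofNat 52],
  [Int.negSucc 1133072, Int.ofNat 236030, Int.negSucc 217833, Int.ofNat 1410033, 
    Int.ofNat 305155, Int.negSucc 2020858, Int.negSucc 1570, Int.negSucc 28047, 
    Int.negSucc 6307, Int.ofNat 367, Int.negSucc 556, Int.ofNat 143, Int.ofNat 142, 
    Int.ofNat 117, Int.ofNat 8, Int.ofNat 389, Int.negSucc 35, Int.negSucc 168, Int.negSucc 13, 
    Int.negSucc 56, Int.negSucc 120, Int.negSucc 110, Int.ofNat 14, Int.ofNat 10968],
  [Int.negSucc 239258, Int.ofNat 277429, Int.negSucc 173167, Int.ofNat 0, Int.ofNat 0, 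
    Int.ofNat 0, Int.ofNat 9, Int.negSucc 7, Int.ofNat 32, Int.negSucc 210, Int.negSucc 114, 
    Int.ofNat 3, Int.negSucc 751, Int.negSucc 41, Int.ofNat 15, Int.negSucc 7, Int.ofNat 9, 
    Int.ofNat 0, Int.ofNat 0, Int.negSucc 16, Int.ofNat 0, Int.negSucc 19, Int.ofNat 3, 
    Int.ofNat 0, Int.ofNat 57],
  [Int.ofNat 192557, Int.ofNat 372097, Int.negSucc 205954, Int.ofNat 0, Int.ofNat 0, 
    Int.ofNat 0, Int.ofNat 10, Int.negSucc 8, Int.ofNat 35, Int.negSucc 233, Int.negSucc 74, 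
    Int.ofNat 5, Int.negSucc 759, Int.ofNat 6, Int.negSucc 16, Int.ofNat 10, Int.negSucc 4, 
    Int.ofNat 0, Int.ofNat 0, Int.ofNat 25, Int.negSucc 0, Int.ofNat 22, Int.ofNat 15, 
    Int.ofNat 0, Int.ofNat 5, Int.ofNat 33],
  [Int.negSucc 654337, Int.ofNat 113274, Int.negSucc 337364, Int.ofNat 0, Int.ofNat 0, 
    Int.ofNat 0, Int.ofNat 8, Int.negSucc 6, Int.ofNat 29, Int.negSucc 186, Int.negSucc 138, 
    Int.ofNat 3, Int.negSucc 744, Int.negSucc 111, Int.ofNat 3, Int.negSucc 3, Int.ofNat 5, 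
    Int.ofNat 0, Int.ofNat 0, Int.negSucc 9, Int.ofNat 0, Int.ofNat 2, Int.negSucc 4, 
    Int.ofNat 0, Int.negSucc 0, Int.ofNat 6, Int.ofNat 35]]

def B3_3 : List (List Int) := [
  [Int.ofNat 529201],
  [Int.ofNat 417032, Int.ofNat 2154633],
  [Int.ofNat 417032, Int.negSucc 2154632, Int.ofNat 558],
  [Int.ofNat 4469419, Int.negSucc 14014, Int.negSucc 609, Int.ofNat 4903212],
  [Int.negSucc 4797110, Int.ofNat 2681754, Int.ofNat 1068, Int.ofNat 7339242, 
    Int.ofNat 309868],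
  [Int.ofNat 616639, Int.negSucc 2132856, Int.ofNat 554, Int.ofNat 74947, Int.ofNat 44133, 
    Int.ofNat 959],
  [Int.ofNat 4634480, Int.ofNat 95425, Int.negSucc 318, Int.negSucc 56014, Int.negSucc 367645, 
    Int.negSucc 7895, Int.ofNat 1259],
  [Int.negSucc 609821, Int.negSucc 448184, Int.ofNat 317, Int.ofNat 167016, 
    Int.negSucc 612918, Int.negSucc 13599, Int.ofNat 1320, Int.ofNat 15371],
  [Int.ofNat 351239, Int.negSucc 2253549, Int.ofNat 583, Int.negSucc 39888, Int.negSucc 36503, 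
    Int.negSucc 780, Int.ofNat 60, Int.ofNat 3, Int.ofNat 115],
  [Int.ofNat 4634480, Int.negSucc 95425, Int.negSucc 294, Int.ofNat 56016, Int.ofNat 367640, 
    Int.ofNat 8199, Int.negSucc 629, Int.negSucc 39, Int.negSucc 135, Int.ofNat 880],
  [Int.ofNat 351239, Int.ofNat 2253550, Int.negSucc 0, Int.ofNat 39889, Int.ofNat 36503, 
    Int.ofNat 801, Int.negSucc 97, Int.negSucc 5, Int.negSucc 53, Int.ofNat 37, Int.ofNat 108],
  [Int.negSucc 609821, Int.ofNat 448186, Int.ofNat 201, Int.negSucc 167016, Int.ofNat 612922, 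
    Int.ofNat 13474, Int.negSucc 1305, Int.ofNat 1, Int.negSucc 395, Int.ofNat 377, 
    Int.ofNat 297, Int.ofNat 15345],
  [Int.negSucc 273916, Int.ofNat 2650676, Int.negSucc 623, Int.ofNat 519886, 
    Int.ofNat 5117343, Int.ofNat 112037, Int.negSucc 11379, Int.negSucc 645, Int.negSucc 2682, 
    Int.ofNat 4638, Int.ofNat 2120, Int.ofNat 317, Int.ofNat 6363],
  [Int.negSucc 265718, Int.ofNat 7668123, Int.negSucc 994, Int.ofNat 6329836, 
    Int.ofNat 3640471, Int.ofNat 78771, Int.negSucc 6984, Int.negSucc 410, Int.negSucc 2630, 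
    Int.ofNat 1741, Int.ofNat 2216, Int.ofNat 230, Int.ofNat 3719, Int.ofNat 3773],
  [Int.ofNat 2794808, Int.ofNat 3240783, Int.negSucc 325, Int.ofNat 123636, 
    Int.negSucc 211077, Int.negSucc 4531, Int.ofNat 850, Int.negSucc 85, Int.negSucc 62, 
    Int.negSucc 55, Int.ofNat 42, Int.ofNat 47, Int.negSucc 75, Int.ofNat 167, Int.ofNat 13609],
  [Int.ofNat 1349935, Int.ofNat 0, Int.negSucc 568, Int.ofNat 0, Int.negSucc 1, Int.ofNat 81, 
    Int.ofNat 85, Int.negSucc 11, Int.negSucc 19, Int.ofNat 226, Int.ofNat 38, Int.ofNat 1, 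
    Int.ofNat 13, Int.ofNat 10, Int.ofNat 0, Int.ofNat 80],
  [Int.negSucc 4429153, Int.negSucc 3122205, Int.ofNat 453, Int.ofNat 543807, 
    Int.ofNat 346586, Int.ofNat 7396, Int.negSucc 1232, Int.ofNat 8, Int.ofNat 128, 
    Int.ofNat 19, Int.ofNat 12, Int.negSucc 3, Int.negSucc 132, Int.ofNat 241, Int.negSucc 1, 
    Int.ofNat 89, Int.ofNat 229],
  [Int.negSucc 4429153, Int.ofNat 3122206, Int.negSucc 355, Int.negSucc 543806, 
    Int.negSucc 346581, Int.negSucc 7618, Int.ofNat 490, Int.ofNat 17, Int.ofNat 61, 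
    Int.negSucc 698, Int.ofNat 164, Int.ofNat 6, Int.ofNat 169, Int.negSucc 208, Int.ofNat 1, 
    Int.ofNat 91, Int.negSucc 151, Int.ofNat 171],
  [Int.ofNat 4469419, Int.ofNat 14015, Int.negSucc 613, Int.negSucc 4903209, Int.negSucc 42, 
    Int.ofNat 1852, Int.negSucc 342, Int.negSucc 105, Int.ofNat 123, Int.ofNat 1193, 
    Int.ofNat 363, Int.negSucc 3, Int.ofNat 328, Int.negSucc 791, Int.ofNat 6, Int.ofNat 337, 
    Int.negSucc 470, Int.ofNat 245, Int.ofNat 2305],
  [Int.ofNat 616639, Int.ofNat 2132857, Int.ofNat 1, Int.negSucc 74946, Int.negSucc 44131, 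
    Int.negSucc 957, Int.ofNat 103, Int.ofNat 2, Int.negSucc 13, Int.negSucc 4, Int.negSucc 45, 
    Int.negSucc 0, Int.negSucc 17, Int.negSucc 18, Int.ofNat 0, Int.negSucc 72, Int.negSucc 10, 
    Int.negSucc 18, Int.ofNat 2, Int.ofNat 58],
  [Int.negSucc 4797110, Int.negSucc 2681753, Int.ofNat 1763, Int.negSucc 7339242, 
    Int.negSucc 309768, Int.negSucc 4483, Int.ofNat 263, Int.negSucc 9, Int.ofNat 125, 
    Int.negSucc 582, Int.negSucc 263, Int.negSucc 16, Int.negSucc 117, Int.ofNat 133, 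
    Int.negSucc 5, Int.negSucc 212, Int.negSucc 60, Int.negSucc 35, Int.ofNat 16, Int.ofNat 73, 
    Int.ofNat 5207],
  [Int.negSucc 2273261, Int.ofNat 0, Int.ofNat 17, Int.ofNat 0, Int.ofNat 2, Int.negSucc 89, 
    Int.negSucc 110, Int.ofNat 12, Int.ofNat 12, Int.negSucc 245, Int.negSucc 51, Int.ofNat 0, 
    Int.negSucc 7, Int.negSucc 5, Int.ofNat 0, Int.negSucc 57, Int.ofNat 3, Int.ofNat 6, 
    Int.negSucc 0, Int.negSucc 6, Int.ofNat 0, Int.ofNat 46],
  [Int.negSucc 2271126, Int.negSucc 21392, Int.ofNat 2, Int.ofNat 225919, Int.negSucc 34008, 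
    Int.negSucc 869, Int.ofNat 3, Int.ofNat 18, Int.ofNat 6, Int.negSucc 308, Int.negSucc 66, 
    Int.negSucc 1, Int.negSucc 70, Int.ofNat 95, Int.negSucc 0, Int.negSucc 40, Int.ofNat 69, 
    Int.negSucc 35, Int.negSucc 4, Int.negSucc 11, Int.ofNat 0, Int.ofNat 7, Int.ofNat 46],
  [Int.negSucc 2271126, Int.ofNat 21393, Int.negSucc 3, Int.negSucc 225918, Int.ofNat 34013, 
    Int.ofNat 697, Int.negSucc 211, Int.ofNat 5, Int.negSucc 5, Int.negSucc 151, 
    Int.negSucc 59, Int.ofNat 2, Int.ofNat 60, Int.negSucc 100, Int.ofNat 1, Int.negSucc 38, 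
    Int.negSucc 70, Int.ofNat 27, Int.ofNat 1, Int.negSucc 11, Int.ofNat 0, Int.ofNat 7, 
    Int.negSucc 8, Int.ofNat 45],
  [Int.negSucc 273916, Int.negSucc 2650676, Int.ofNat 64, Int.negSucc 519885, 
    Int.negSucc 5117342, Int.negSucc 112026, Int.ofNat 11400, Int.ofNat 645, Int.ofNat 2677, 
    Int.negSucc 4610, Int.negSucc 2122, Int.negSucc 316, Int.negSucc 6361, Int.ofNat 0, 
    Int.ofNat 0, Int.ofNat 7, Int.negSucc 4, Int.negSucc 12, Int.ofNat 0, Int.ofNat 2, 
    Int.ofNat 0, Int.ofNat 0, Int.ofNat 5, Int.ofNat 5, Int.ofNat 69],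
  [Int.ofNat 2794808, Int.negSucc 3240782, Int.ofNat 514, Int.negSucc 123635, 
    Int.ofNat 211074, Int.ofNat 4747, Int.negSucc 340, Int.ofNat 25, Int.negSucc 18, 
    Int.ofNat 587, Int.negSucc 72, Int.negSucc 87, Int.ofNat 50, Int.negSucc 193, Int.ofNat 8, 
    Int.negSucc 62, Int.ofNat 77, Int.negSucc 99, Int.negSucc 13, Int.ofNat 20, Int.negSucc 16, 
    Int.ofNat 5, Int.ofNat 24, Int.negSucc 41, Int.negSucc 3, Int.ofNat 13608],
  [Int.negSucc 265718, Int.negSucc 7668122, Int.ofNat 993, Int.negSucc 6329835, 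
    Int.negSucc 3640470, Int.negSucc 78772, Int.ofNat 6980, Int.ofNat 411, Int.ofNat 2633, 
    Int.negSucc 1747, Int.negSucc 2213, Int.negSucc 229, Int.negSucc 3718, Int.negSucc 3772, 
    Int.ofNat 0, Int.ofNat 0, Int.negSucc 0, Int.negSucc 1, Int.ofNat 0, Int.ofNat 1, 
    Int.ofNat 0, Int.negSucc 2, Int.ofNat 1, Int.ofNat 1, Int.ofNat 0, Int.ofNat 0, 
    Int.ofNat 38]]

def B3_4 : List (List Int) := [
  [Int.ofNat 1136120],
  [Int.negSucc 1496602, Int.ofNat 2151224],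
  [Int.ofNat 439165, Int.negSucc 245187, Int.ofNat 867216],
  [Int.ofNat 337220, Int.ofNat 35007, Int.ofNat 272072, Int.ofNat 589890],
  [Int.negSucc 216986, Int.ofNat 8338, Int.ofNat 4298724, Int.ofNat 554621, Int.ofNat 3482423],
  [Int.ofNat 722646, Int.negSucc 116346, Int.ofNat 440639, Int.negSucc 663996, 
    Int.ofNat 520341, Int.ofNat 95689],
  [Int.ofNat 946710, Int.negSucc 51676, Int.negSucc 1628332, Int.ofNat 2950550, 
    Int.negSucc 245957, Int.negSucc 7876, Int.ofNat 54660],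
  [Int.ofNat 69635, Int.negSucc 18285, Int.ofNat 427493, Int.negSucc 728869, 
    Int.negSucc 59427, Int.ofNat 1160362, Int.ofNat 155454, Int.ofNat 30353],
  [Int.ofNat 720533, Int.negSucc 119034, Int.ofNat 445238, Int.ofNat 179116, Int.ofNat 449307, 
    Int.negSucc 432845, Int.negSucc 60965, Int.negSucc 11778, Int.ofNat 4472],
  [Int.ofNat 337301, Int.ofNat 34931, Int.ofNat 272045, Int.negSucc 589688, Int.negSucc 31, 
    Int.ofNat 1572, Int.negSucc 10807, Int.negSucc 8, Int.negSucc 34, Int.ofNat 10888],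
  [Int.negSucc 216961, Int.ofNat 8338, Int.ofNat 4298710, Int.negSucc 554618, 
    Int.negSucc 3482418, Int.negSucc 10, Int.negSucc 140, Int.ofNat 1199, Int.negSucc 254, 
    Int.ofNat 15, Int.ofNat 5221],
  [Int.ofNat 722538, Int.negSucc 116242, Int.ofNat 440675, Int.ofNat 663997, 
    Int.negSucc 520340, Int.negSucc 95687, Int.negSucc 0, Int.negSucc 3, Int.negSucc 4, 
    Int.ofNat 0, Int.ofNat 20, Int.ofNat 221],
  [Int.negSucc 239258, Int.negSucc 242113, Int.ofNat 219851, Int.ofNat 0, Int.ofNat 0, 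
    Int.ofNat 0, Int.negSucc 8, Int.ofNat 33, Int.negSucc 4, Int.ofNat 2, Int.ofNat 108, 
    Int.ofNat 115, Int.ofNat 778],
  [Int.negSucc 654337, Int.negSucc 355456, Int.ofNat 17216, Int.ofNat 0, Int.ofNat 0, 
    Int.ofNat 0, Int.negSucc 7, Int.ofNat 29, Int.negSucc 3, Int.ofNat 2, Int.ofNat 91, 
    Int.ofNat 89, Int.ofNat 772, Int.ofNat 102],
  [Int.ofNat 192557, Int.negSucc 299420, Int.ofNat 302028, Int.ofNat 0, Int.ofNat 0, 
    Int.ofNat 0, Int.negSucc 9, Int.ofNat 36, Int.negSucc 3, Int.ofNat 2, Int.ofNat 123, 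
    Int.ofNat 157, Int.ofNat 768, Int.ofNat 11, Int.ofNat 106],
  [Int.ofNat 521225, Int.negSucc 894505, Int.negSucc 674533, Int.negSucc 3019274, 
    Int.negSucc 182052, Int.ofNat 3513795, Int.ofNat 455485, Int.ofNat 80159, 
    Int.negSucc 30310, Int.ofNat 3, Int.ofNat 703, Int.negSucc 982, Int.ofNat 72, 
    Int.negSucc 339, Int.ofNat 570, Int.ofNat 1142],
  [Int.negSucc 1133072, Int.negSucc 273831, Int.ofNat 167861, Int.ofNat 1308018, 
    Int.negSucc 1279632, Int.negSucc 1664410, Int.negSucc 213875, Int.negSucc 37866, 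
    Int.ofNat 14162, Int.negSucc 14, Int.negSucc 352, Int.ofNat 392, Int.negSucc 167, 
    Int.ofNat 165, Int.negSucc 384, Int.negSucc 404, Int.ofNat 10971],
  [Int.negSucc 555662, Int.ofNat 35333, Int.ofNat 180663, Int.ofNat 939252, Int.negSucc 78811, 
    Int.negSucc 590630, Int.negSucc 68184, Int.negSucc 13170, Int.ofNat 4993, Int.ofNat 0, 
    Int.ofNat 15, Int.ofNat 212, Int.ofNat 6, Int.ofNat 5, Int.negSucc 32, Int.negSucc 44, 
    Int.ofNat 1, Int.ofNat 92],
  [Int.ofNat 947118, Int.negSucc 52059, Int.negSucc 1628470, Int.negSucc 2950550, 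
    Int.ofNat 245957, Int.ofNat 7878, Int.negSucc 54589, Int.negSucc 428, Int.ofNat 70, 
    Int.negSucc 5, Int.negSucc 1582, Int.negSucc 141, Int.negSucc 295, Int.ofNat 156, 
    Int.negSucc 193, Int.negSucc 411, Int.negSucc 8, Int.negSucc 220, Int.ofNat 1005],
  [Int.ofNat 69428, Int.negSucc 18097, Int.ofNat 427564, Int.ofNat 728869, Int.ofNat 59428, 
    Int.negSucc 1160372, Int.negSucc 155384, Int.negSucc 26486, Int.ofNat 10022, 
    Int.negSucc 41, Int.negSucc 178, Int.ofNat 328, Int.ofNat 21, Int.ofNat 113, 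
    Int.negSucc 175, Int.negSucc 403, Int.ofNat 126, Int.negSucc 14, Int.negSucc 33, 
    Int.ofNat 10749],
  [Int.ofNat 720591, Int.negSucc 119084, Int.ofNat 445217, Int.negSucc 179115, 
    Int.negSucc 449306, Int.ofNat 432846, Int.ofNat 60965, Int.ofNat 11790, Int.negSucc 4467, 
    Int.ofNat 0, Int.ofNat 20, Int.negSucc 110, Int.negSucc 11, Int.negSucc 83, Int.ofNat 137, 
    Int.ofNat 29, Int.ofNat 0, Int.negSucc 53, Int.ofNat 0, Int.ofNat 0, Int.ofNat 79],
  [Int.ofNat 520487, Int.negSucc 893830, Int.negSucc 674278, Int.ofNat 3019275, 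
    Int.ofNat 182053, Int.negSucc 3513794, Int.negSucc 455484, Int.negSucc 80157, 
    Int.ofNat 30311, Int.negSucc 2, Int.negSucc 696, Int.ofNat 1005, Int.negSucc 75, 
    Int.ofNat 346, Int.negSucc 508, Int.negSucc 1142, Int.ofNat 0, Int.ofNat 6, Int.ofNat 1, 
    Int.ofNat 0, Int.negSucc 6, Int.ofNat 65],
  [Int.negSucc 1132719, Int.negSucc 274163, Int.ofNat 167742, Int.negSucc 1308020, 
    Int.ofNat 1279631, Int.ofNat 1664399, Int.ofNat 214040, Int.ofNat 37396, Int.negSucc 14082, 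
    Int.negSucc 101, Int.negSucc 1718, Int.negSucc 555, Int.negSucc 106, Int.negSucc 152, 
    Int.ofNat 116, Int.ofNat 488, Int.negSucc 183, Int.negSucc 19, Int.negSucc 145, 
    Int.negSucc 148, Int.negSucc 1, Int.negSucc 83, Int.ofNat 10968],
  [Int.negSucc 555478, Int.ofNat 35162, Int.ofNat 180599, Int.negSucc 939251, Int.ofNat 78812, 
    Int.ofNat 590631, Int.ofNat 68184, Int.ofNat 13177, Int.negSucc 4992, Int.ofNat 0, 
    Int.ofNat 16, Int.negSucc 157, Int.negSucc 6, Int.negSucc 88, Int.ofNat 121, Int.ofNat 43, 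
    Int.negSucc 0, Int.negSucc 63, Int.ofNat 1, Int.ofNat 0, Int.ofNat 3, Int.ofNat 0, 
    Int.ofNat 0, Int.ofNat 56],
  [Int.ofNat 1695678, Int.negSucc 1788846, Int.negSucc 566794, Int.ofNat 0, Int.ofNat 0, 
    Int.ofNat 0, Int.ofNat 9, Int.negSucc 34, Int.ofNat 5, Int.negSucc 1, Int.negSucc 117, 
    Int.negSucc 141, Int.negSucc 770, Int.negSucc 8, Int.negSucc 67, Int.negSucc 0, 
    Int.ofNat 0, Int.negSucc 1, Int.ofNat 0, Int.ofNat 0, Int.negSucc 5, Int.ofNat 10, 
    Int.ofNat 0, Int.negSucc 10, Int.ofNat 34],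
  [Int.negSucc 890051, Int.ofNat 128657, Int.ofNat 378752, Int.ofNat 0, Int.ofNat 0, 
    Int.negSucc 0, Int.ofNat 11, Int.negSucc 37, Int.ofNat 4, Int.negSucc 1, Int.negSucc 134, 
    Int.negSucc 190, Int.negSucc 760, Int.negSucc 15, Int.negSucc 185, Int.negSucc 1, 
    Int.ofNat 0, Int.ofNat 1, Int.negSucc 0, Int.negSucc 0, Int.negSucc 5, Int.negSucc 22, 
    Int.ofNat 0, Int.negSucc 4, Int.ofNat 10, Int.ofNat 300],
  [Int.negSucc 452938, Int.ofNat 355527, Int.negSucc 23161, Int.ofNat 0, Int.ofNat 0, 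
    Int.ofNat 0, Int.ofNat 8, Int.negSucc 28, Int.ofNat 4, Int.negSucc 1, Int.negSucc 90, 
    Int.negSucc 89, Int.negSucc 771, Int.negSucc 95, Int.negSucc 0, Int.ofNat 1, Int.ofNat 0, 
    Int.ofNat 7, Int.ofNat 0, Int.ofNat 0, Int.ofNat 6, Int.ofNat 0, Int.ofNat 0, Int.ofNat 19, 
    Int.ofNat 2, Int.ofNat 1, Int.ofNat 32]]

def B3_5 : List (List Int) := [
  [Int.ofNat 1778279],
  [Int.negSucc 621544, Int.ofNat 667950],
  [Int.ofNat 574417, Int.negSucc 896100, Int.ofNat 4234939],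
  [Int.ofNat 2195736, Int.ofNat 5640469, Int.negSucc 3341843, Int.ofNat 2773341],
  [Int.negSucc 1036079, Int.ofNat 281820, Int.ofNat 237795, Int.ofNat 15549, Int.ofNat 12270],
  [Int.negSucc 1473291, Int.negSucc 979182, Int.ofNat 3313020, Int.ofNat 1298611, 
    Int.ofNat 20654, Int.ofNat 21322],
  [Int.ofNat 2195736, Int.ofNat 4300181, Int.ofNat 2043754, Int.ofNat 878890, 
    Int.negSucc 5213026, Int.ofNat 156128, Int.ofNat 182410],
  [Int.negSucc 675046, Int.ofNat 759461, Int.negSucc 704744, Int.negSucc 75127, 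
    Int.ofNat 198983, Int.negSucc 4831, Int.negSucc 5820, Int.ofNat 749],
  [Int.ofNat 1295673, Int.negSucc 229606, Int.ofNat 3515269, Int.ofNat 1584699, 
    Int.negSucc 1183721, Int.ofNat 48234, Int.ofNat 53398, Int.ofNat 3082, Int.ofNat 4880],
  [Int.ofNat 574417, Int.negSucc 650681, Int.negSucc 3757066, Int.negSucc 1472448, 
    Int.ofNat 1422948, Int.negSucc 50816, Int.negSucc 57252, Int.negSucc 1328, 
    Int.negSucc 3963, Int.ofNat 460],
  [Int.negSucc 593108, Int.ofNat 32215, Int.ofNat 499003, Int.ofNat 262584, Int.ofNat 116620, 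
    Int.ofNat 2091, Int.ofNat 1422, Int.ofNat 1735, Int.ofNat 1324, Int.ofNat 580, 
    Int.ofNat 163],
  [Int.negSucc 1579586, Int.negSucc 1519991, Int.ofNat 503087, Int.negSucc 1556709, 
    Int.ofNat 1472574, Int.negSucc 53131, Int.negSucc 59763, Int.negSucc 1577, 
    Int.negSucc 4256, Int.ofNat 437, Int.negSucc 1, Int.ofNat 136],
  [Int.ofNat 1295673, Int.negSucc 18830, Int.negSucc 4037334, Int.ofNat 141303, 
    Int.ofNat 84350, Int.ofNat 733, Int.ofNat 259, Int.ofNat 1102, Int.ofNat 734, 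
    Int.ofNat 267, Int.negSucc 68, Int.negSucc 32, Int.ofNat 132],
  [Int.negSucc 886149, Int.ofNat 56368, Int.ofNat 233555, Int.ofNat 198426, Int.ofNat 187235, 
    Int.negSucc 216, Int.negSucc 1195, Int.ofNat 1843, Int.ofNat 1102, Int.ofNat 409, 
    Int.ofNat 66, Int.negSucc 22, Int.ofNat 98, Int.ofNat 57],
  [Int.negSucc 952578, Int.negSucc 892566, Int.ofNat 187234, Int.ofNat 100703, 
    Int.ofNat 129697, Int.negSucc 781, Int.negSucc 1446, Int.ofNat 1058, Int.ofNat 617, 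
    Int.ofNat 284, Int.negSucc 78, Int.ofNat 11, Int.ofNat 93, Int.ofNat 19, Int.ofNat 328],
  [Int.negSucc 1473291, Int.negSucc 1072933, Int.negSucc 3460590, Int.negSucc 690710, 
    Int.ofNat 134016, Int.negSucc 2794, Int.negSucc 3465, Int.ofNat 674, Int.negSucc 95, 
    Int.negSucc 174, Int.negSucc 90, Int.negSucc 36, Int.negSucc 72, Int.ofNat 1, Int.ofNat 23, 
    Int.ofNat 15359],
  [Int.negSucc 2192562, Int.ofNat 2758983, Int.negSucc 87883, Int.ofNat 303674, 
    Int.ofNat 568719, Int.negSucc 5470, Int.negSucc 8367, Int.ofNat 4176, Int.ofNat 2136, 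
    Int.ofNat 929, Int.ofNat 447, Int.ofNat 26, Int.negSucc 81, Int.ofNat 80, Int.ofNat 5, 
    Int.ofNat 2, Int.ofNat 554],
  [Int.negSucc 952578, Int.negSucc 867516, Int.negSucc 203937, Int.ofNat 60629, 
    Int.ofNat 246591, Int.negSucc 3571, Int.negSucc 4838, Int.ofNat 1477, Int.ofNat 686, 
    Int.ofNat 408, Int.ofNat 0, Int.ofNat 44, Int.negSucc 21, Int.negSucc 5, Int.ofNat 11, 
    Int.ofNat 0, Int.negSucc 1, Int.ofNat 330],
  [Int.negSucc 621544, Int.ofNat 601203, Int.ofNat 24585, Int.negSucc 157428, 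
    Int.negSucc 243523, Int.ofNat 1945, Int.ofNat 3200, Int.negSucc 1895, Int.negSucc 1042, 
    Int.negSucc 480, Int.negSucc 16, Int.ofNat 17, Int.negSucc 28, Int.ofNat 4, Int.ofNat 1, 
    Int.ofNat 0, Int.ofNat 2, Int.ofNat 5, Int.ofNat 53],
  [Int.negSucc 1333651, Int.ofNat 1180482, Int.ofNat 27799, Int.negSucc 162593, 
    Int.negSucc 215572, Int.ofNat 1338, Int.ofNat 2461, Int.negSucc 1797, Int.negSucc 1026, 
    Int.negSucc 456, Int.negSucc 13, Int.ofNat 6, Int.negSucc 34, Int.ofNat 16, Int.negSucc 0, 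
    Int.ofNat 0, Int.negSucc 1, Int.ofNat 3, Int.ofNat 32, Int.ofNat 65],
  [Int.negSucc 593108, Int.negSucc 57037, Int.negSucc 511873, Int.negSucc 218899, 
    Int.negSucc 139330, Int.negSucc 940, Int.negSucc 143, Int.negSucc 1787, Int.negSucc 1134, 
    Int.negSucc 430, Int.negSucc 30, Int.ofNat 21, Int.negSucc 44, Int.negSucc 17, Int.ofNat 3, 
    Int.ofNat 4, Int.ofNat 5, Int.negSucc 0, Int.ofNat 8, Int.negSucc 48, Int.ofNat 246],
  [Int.negSucc 675046, Int.ofNat 602748, Int.ofNat 729189, Int.negSucc 87475, 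
    Int.negSucc 464673, Int.ofNat 7098, Int.ofNat 9409, Int.negSucc 2564, Int.negSucc 1124, 
    Int.negSucc 651, Int.negSucc 118, Int.negSucc 17, Int.ofNat 50, Int.negSucc 10, 
    Int.negSucc 2, Int.negSucc 3, Int.negSucc 9, Int.negSucc 0, Int.ofNat 30, Int.ofNat 29, 
    Int.negSucc 239, Int.ofNat 67],
  [Int.negSucc 1093938, Int.ofNat 876571, Int.ofNat 232096, Int.negSucc 98123, 
    Int.negSucc 241790, Int.ofNat 2864, Int.ofNat 4138, Int.negSucc 1680, Int.negSucc 854, 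
    Int.negSucc 444, Int.negSucc 5, Int.negSucc 15, Int.negSucc 1, Int.ofNat 7, Int.negSucc 3, 
    Int.ofNat 0, Int.ofNat 1, Int.negSucc 6, Int.ofNat 3, Int.ofNat 0, Int.ofNat 2, 
    Int.ofNat 16, Int.ofNat 37],
  [Int.negSucc 2192562, Int.ofNat 2201060, Int.ofNat 205480, Int.negSucc 989437, 
    Int.negSucc 1472734, Int.ofNat 11017, Int.ofNat 18745, Int.negSucc 11985, Int.negSucc 6605, 
    Int.negSucc 2898, Int.negSucc 309, Int.ofNat 62, Int.negSucc 233, Int.negSucc 135, 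
    Int.negSucc 4, Int.ofNat 2, Int.negSucc 5, Int.ofNat 2, Int.ofNat 90, Int.negSucc 48, 
    Int.ofNat 7, Int.ofNat 92, Int.ofNat 10, Int.ofNat 546],
  [Int.negSucc 1036079, Int.ofNat 254273, Int.negSucc 201742, Int.negSucc 166165, 
    Int.negSucc 58213, Int.negSucc 1628, Int.negSucc 1265, Int.negSucc 1131, Int.negSucc 804, 
    Int.negSucc 253, Int.ofNat 52, Int.ofNat 51, Int.negSucc 144, Int.negSucc 5, Int.ofNat 5, 
    Int.ofNat 0, Int.ofNat 8, Int.ofNat 5, Int.ofNat 11, Int.negSucc 3, Int.ofNat 3, 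
    Int.negSucc 25, Int.negSucc 2, Int.ofNat 0, Int.ofNat 50],
  [Int.negSucc 1093938, Int.ofNat 908835, Int.negSucc 195495, Int.negSucc 129946, 
    Int.negSucc 96320, Int.negSucc 322, Int.ofNat 201, Int.negSucc 1086, Int.negSucc 700, 
    Int.negSucc 270, Int.ofNat 71, Int.ofNat 17, Int.negSucc 117, Int.negSucc 13, 
    Int.negSucc 4, Int.ofNat 0, Int.ofNat 2, Int.negSucc 1, Int.ofNat 3, Int.ofNat 5, 
    Int.ofNat 0, Int.negSucc 4, Int.ofNat 9, Int.ofNat 1, Int.ofNat 6, Int.ofNat 34],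
  [Int.negSucc 886149, Int.negSucc 55711, Int.negSucc 233711, Int.negSucc 197950, 
    Int.negSucc 187736, Int.ofNat 234, Int.ofNat 1216, Int.negSucc 1842, Int.negSucc 1100, 
    Int.negSucc 410, Int.negSucc 62, Int.ofNat 28, Int.negSucc 95, Int.negSucc 45, Int.ofNat 1, 
    Int.ofNat 0, Int.negSucc 3, Int.ofNat 2, Int.negSucc 2, Int.negSucc 1, Int.ofNat 1, 
    Int.ofNat 10, Int.negSucc 7, Int.ofNat 1, Int.ofNat 4, Int.ofNat 4, Int.ofNat 34]]

def B3_6 : List (List Int) := [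
  [Int.ofNat 458064],
  [Int.ofNat 223804, Int.ofNat 2095258],
  [Int.ofNat 223804, Int.negSucc 1360983, Int.ofNat 1593056],
  [Int.ofNat 223804, Int.ofNat 1467769, Int.negSucc 808956, Int.ofNat 1257517],
  [Int.negSucc 614063, Int.ofNat 4971674, Int.negSucc 774990, Int.ofNat 901071, 
    Int.ofNat 3523950],
  [Int.negSucc 1947008, Int.negSucc 318237, Int.ofNat 178929, Int.ofNat 1057643, 
    Int.ofNat 1719591, Int.ofNat 2795969],
  [Int.ofNat 223804, Int.negSucc 1706381, Int.ofNat 472674, Int.ofNat 28098, 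
    Int.negSucc 556391, Int.negSucc 131387, Int.ofNat 962975],
  [Int.ofNat 259728, Int.negSucc 821692, Int.negSucc 1037705, Int.negSucc 133762, 
    Int.negSucc 71131, Int.negSucc 2301505, Int.negSucc 3085740, Int.ofNat 1345748],
  [Int.negSucc 614063, Int.negSucc 5147467, Int.ofNat 1287898, Int.ofNat 474087, 
    Int.negSucc 2091851, Int.ofNat 2331592, Int.ofNat 159676, Int.negSucc 573525, 
    Int.ofNat 42790],
  [Int.ofNat 223804, Int.ofNat 1467769, Int.negSucc 990360, Int.ofNat 95307, Int.ofNat 375744, 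
    Int.negSucc 976024, Int.negSucc 244539, Int.ofNat 229777, Int.negSucc 10285, 
    Int.ofNat 198366],
  [Int.negSucc 614063, Int.ofNat 4322769, Int.negSucc 3077137, Int.ofNat 509477, 
    Int.ofNat 590440, Int.negSucc 29461, Int.negSucc 2988085, Int.ofNat 488465, 
    Int.ofNat 12154, Int.negSucc 591592, Int.ofNat 516474],
  [Int.ofNat 259728, Int.negSucc 255248, Int.negSucc 1298791, Int.ofNat 1921475, 
    Int.negSucc 2601680, Int.ofNat 1181284, Int.ofNat 1998310, Int.negSucc 712221, 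
    Int.ofNat 8368, Int.negSucc 168774, Int.ofNat 514500, Int.ofNat 52042],
  [Int.negSucc 614063, Int.ofNat 4522007, Int.negSucc 3681087, Int.ofNat 637632, 
    Int.ofNat 143761, Int.ofNat 756182, Int.ofNat 1678832, Int.negSucc 584889, 
    Int.negSucc 14442, Int.negSucc 289859, Int.ofNat 550926, Int.ofNat 34833, Int.ofNat 27268],
  [Int.ofNat 38131, Int.ofNat 6813812, Int.negSucc 3017058, Int.ofNat 1459163, 
    Int.ofNat 2099184, Int.negSucc 1093516, Int.negSucc 45158, Int.ofNat 264047, 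
    Int.negSucc 18417, Int.negSucc 3929171, Int.ofNat 3068501, Int.ofNat 106550, 
    Int.negSucc 4783, Int.ofNat 160060],
  [Int.negSucc 669871, Int.ofNat 1742388, Int.negSucc 2084222, Int.ofNat 897824, 
    Int.ofNat 1864319, Int.ofNat 2270149, Int.ofNat 403846, Int.negSucc 1450069, 
    Int.ofNat 56417, Int.ofNat 403094, Int.ofNat 442541, Int.ofNat 39401, Int.ofNat 30209, 
    Int.negSucc 17374, Int.ofNat 70291],
  [Int.negSucc 1947008, Int.negSucc 1253456, Int.negSucc 2719457, Int.negSucc 816633, 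
    Int.ofNat 1250186, Int.ofNat 286975, Int.ofNat 644818, Int.negSucc 380423, Int.ofNat 11611, 
    Int.negSucc 9625, Int.negSucc 423055, Int.negSucc 51613, Int.ofNat 24504, Int.ofNat 870, 
    Int.negSucc 21160, Int.ofNat 63926],
  [Int.negSucc 669871, Int.ofNat 1355126, Int.negSucc 3495758, Int.negSucc 927364, 
    Int.ofNat 1390945, Int.ofNat 991509, Int.negSucc 827322, Int.ofNat 750925, 
    Int.negSucc 30773, Int.ofNat 401946, Int.ofNat 440974, Int.ofNat 53351, Int.ofNat 55798, 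
    Int.negSucc 21516, Int.ofNat 33046, Int.negSucc 22787, Int.ofNat 48934],
  [Int.negSucc 669871, Int.negSucc 3538105, Int.negSucc 1240362, Int.negSucc 548743, 
    Int.ofNat 550038, Int.ofNat 1817721, Int.ofNat 500227, Int.negSucc 418482, Int.ofNat 17973, 
    Int.ofNat 562112, Int.ofNat 848474, Int.ofNat 101789, Int.ofNat 59438, Int.negSucc 25806, 
    Int.ofNat 72408, Int.negSucc 36796, Int.ofNat 23036, Int.ofNat 50552],
  [Int.ofNat 223804, Int.negSucc 1568457, Int.ofNat 590505, Int.negSucc 632581, 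
    Int.negSucc 906102, Int.negSucc 359067, Int.negSucc 429606, Int.ofNat 85576, Int.ofNat 473, 
    Int.negSucc 197048, Int.ofNat 1541, Int.negSucc 10828, Int.negSucc 5246, Int.ofNat 9859, 
    Int.negSucc 3163, Int.ofNat 2164, Int.negSucc 4904, Int.ofNat 509, Int.ofNat 15410],
  [Int.negSucc 1947008, Int.ofNat 342755, Int.negSucc 125737, Int.negSucc 2569441, 
    Int.ofNat 412002, Int.ofNat 1481218, Int.negSucc 1543098, Int.negSucc 598714, 
    Int.ofNat 27897, Int.ofNat 9524, Int.ofNat 425248, Int.ofNat 5820, Int.ofNat 32928, 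
    Int.negSucc 15021, Int.ofNat 47972, Int.negSucc 39533, Int.ofNat 14968, Int.ofNat 14102, 
    Int.negSucc 35, Int.ofNat 17642],
  [Int.negSucc 614063, Int.negSucc 3818609, Int.ofNat 3276640, Int.negSucc 2992455, 
    Int.negSucc 405650, Int.ofNat 1072662, Int.ofNat 1463483, Int.negSucc 654856, 
    Int.negSucc 9222, Int.ofNat 289591, Int.negSucc 550599, Int.negSucc 46464, Int.ofNat 2682, 
    Int.negSucc 4776, Int.negSucc 1970, Int.negSucc 445, Int.ofNat 7253, Int.ofNat 1424, 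
    Int.ofNat 79, Int.ofNat 1699, Int.ofNat 14861],
  [Int.ofNat 259727, Int.ofNat 1475862, Int.ofNat 3201981, Int.negSucc 1031890, 
    Int.ofNat 1575071, Int.negSucc 361326, Int.ofNat 1379018, Int.negSucc 315690, 
    Int.negSucc 21216, Int.ofNat 168810, Int.negSucc 515209, Int.negSucc 37187, 
    Int.negSucc 18649, Int.ofNat 4605, Int.negSucc 8677, Int.negSucc 7857, Int.negSucc 4895, 
    Int.negSucc 4557, Int.ofNat 12, Int.negSucc 5476, Int.negSucc 25, Int.ofNat 1323],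
  [Int.negSucc 669871, Int.ofNat 2564124, Int.negSucc 872562, Int.negSucc 1296260, 
    Int.ofNat 2130203, Int.ofNat 1799669, Int.negSucc 1212208, Int.negSucc 357143, 
    Int.ofNat 13396, Int.negSucc 562196, Int.negSucc 846741, Int.negSucc 138041, 
    Int.negSucc 13904, Int.ofNat 14562, Int.negSucc 51238, Int.ofNat 55947, Int.negSucc 11066, 
    Int.negSucc 39425, Int.negSucc 28, Int.ofNat 13235, Int.ofNat 79, Int.negSucc 3920, 
    Int.ofNat 832],
  [Int.negSucc 669871, Int.negSucc 2328960, Int.ofNat 1382765, Int.negSucc 918217, 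
    Int.ofNat 1288920, Int.ofNat 2625723, Int.ofNat 115256, Int.negSucc 1527128, 
    Int.ofNat 62167, Int.negSucc 401914, Int.negSucc 438960, Int.negSucc 89583, 
    Int.negSucc 10248, Int.ofNat 10260, Int.negSucc 11847, Int.ofNat 41918, Int.negSucc 36945, 
    Int.ofNat 11120, Int.negSucc 27, Int.ofNat 13249, Int.ofNat 71, Int.negSucc 3920, 
    Int.negSucc 343, Int.ofNat 757],
  [Int.negSucc 614063, Int.negSucc 5736076, Int.ofNat 1047083, Int.negSucc 1207928, 
    Int.ofNat 676634, Int.negSucc 841654, Int.negSucc 961311, Int.ofNat 619008, Int.ofNat 2414, 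
    Int.ofNat 591676, Int.negSucc 515341, Int.negSucc 18358, Int.ofNat 13467, Int.negSucc 7601, 
    Int.ofNat 11403, Int.ofNat 10050, Int.ofNat 2515, Int.ofNat 5859, Int.ofNat 106, 
    Int.negSucc 590, Int.ofNat 145, Int.negSucc 653, Int.negSucc 52, Int.ofNat 76, 
    Int.ofNat 14857],
  [Int.negSucc 669871, Int.negSucc 2716441, Int.negSucc 29051, Int.negSucc 2743212, 
    Int.ofNat 815938, Int.ofNat 1346762, Int.negSucc 1115509, Int.ofNat 673931, 
    Int.negSucc 25029, Int.negSucc 403294, Int.negSucc 441087, Int.negSucc 75690, 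
    Int.ofNat 15325, Int.ofNat 6132, Int.negSucc 49129, Int.ofNat 19186, Int.ofNat 11964, 
    Int.ofNat 11108, Int.negSucc 28, Int.ofNat 13235, Int.ofNat 79, Int.negSucc 3920, 
    Int.negSucc 343, Int.negSucc 533, Int.negSucc 0, Int.ofNat 537],
  [Int.ofNat 38131, Int.negSucc 6719856, Int.ofNat 3220900, Int.negSucc 1281148, 
    Int.negSucc 2357727, Int.ofNat 744577, Int.ofNat 113834, Int.negSucc 189189, 
    Int.ofNat 15397, Int.ofNat 3929180, Int.negSucc 3068668, Int.negSucc 103047, Int.ofNat 393, 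
    Int.negSucc 158977, Int.negSucc 2048, Int.negSucc 1864, Int.negSucc 1143, Int.negSucc 1077, 
    Int.ofNat 2, Int.negSucc 1347, Int.negSucc 0, Int.ofNat 1, Int.ofNat 0, Int.ofNat 0, 
    Int.negSucc 0, Int.ofNat 0, Int.ofNat 154]]

def B1 : List (List Int) := [
  [Int.ofNat 908462],
  [Int.ofNat 742498, Int.ofNat 476550],
  [Int.ofNat 742498, Int.ofNat 1416, Int.ofNat 476548],
  [Int.ofNat 742498, Int.ofNat 476550],
  [Int.negSucc 1141387, Int.negSucc 237066, Int.ofNat 167844, Int.negSucc 1298258, 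
    Int.ofNat 363944],
  [Int.negSucc 74635, Int.ofNat 378795, Int.ofNat 377671, Int.ofNat 484738, Int.ofNat 269896, 
    Int.negSucc 130432, Int.ofNat 471269, Int.negSucc 1746, Int.ofNat 400],
  [Int.ofNat 742498, Int.ofNat 1416, Int.ofNat 476548],
  [Int.negSucc 74635, Int.ofNat 378795, Int.ofNat 377671, Int.ofNat 484738, Int.ofNat 269896, 
    Int.negSucc 130432, Int.ofNat 471269, Int.negSucc 1746, Int.ofNat 400],
  [Int.negSucc 1141387, Int.ofNat 167139, Int.negSucc 237563, Int.negSucc 1298258, 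
    Int.negSucc 193973, Int.negSucc 82140, Int.ofNat 296787],
  [Int.ofNat 919719, Int.negSucc 63453, Int.negSucc 63265, Int.ofNat 160061],
  [Int.negSucc 819775, Int.negSucc 886910, Int.negSucc 693476, Int.ofNat 37608, 
    Int.negSucc 1266594, Int.negSucc 187771, Int.ofNat 583429, Int.ofNat 182, Int.negSucc 187, 
    Int.ofNat 349],
  [Int.ofNat 712138, Int.ofNat 775052, Int.ofNat 542162, Int.ofNat 389301, Int.negSucc 39109, 
    Int.ofNat 1218304],
  [Int.ofNat 712138, Int.ofNat 544463, Int.ofNat 773437, Int.ofNat 389301, Int.negSucc 254121, 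
    Int.negSucc 1076593, Int.negSucc 512014, Int.ofNat 1458],
  [Int.negSucc 1146034, Int.negSucc 239784, Int.ofNat 133678, Int.negSucc 1444102, 
    Int.ofNat 230388, Int.negSucc 35649, Int.ofNat 119227, Int.negSucc 76, Int.ofNat 16, 
    Int.negSucc 19, Int.negSucc 11, Int.ofNat 48],
  [Int.ofNat 2840074, Int.ofNat 1062618, Int.ofNat 1059465, Int.ofNat 2227593, 
    Int.negSucc 403307, Int.ofNat 194906, Int.negSucc 704218, Int.ofNat 1548, Int.negSucc 61, 
    Int.negSucc 0, Int.negSucc 7, Int.negSucc 33, Int.ofNat 54],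
  [Int.negSucc 819775, Int.negSucc 696108, Int.negSucc 884845, Int.ofNat 37608, 
    Int.ofNat 1193216, Int.ofNat 223233, Int.negSucc 711555, Int.ofNat 151, Int.negSucc 187, 
    Int.negSucc 343, Int.ofNat 61],
  [Int.negSucc 808436, Int.negSucc 25143, Int.negSucc 25068, Int.ofNat 1189681, 
    Int.negSucc 23365, Int.ofNat 11292, Int.negSucc 40799, Int.negSucc 343, Int.ofNat 53, 
    Int.ofNat 3, Int.ofNat 38, Int.negSucc 33, Int.ofNat 14, Int.negSucc 25, Int.ofNat 115],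
  [Int.negSucc 1146034, Int.ofNat 132965, Int.negSucc 240181, Int.negSucc 1444102, 
    Int.negSucc 17519, Int.negSucc 67222, Int.ofNat 252465, Int.negSucc 80, Int.ofNat 16, 
    Int.ofNat 18, Int.negSucc 14, Int.ofNat 7, Int.negSucc 26, Int.ofNat 40],
  [Int.ofNat 919719, Int.negSucc 63453, Int.negSucc 63265, Int.ofNat 160061],
  [Int.ofNat 712138, Int.ofNat 544463, Int.ofNat 773437, Int.ofNat 389301, Int.negSucc 254121, 
    Int.negSucc 1076593, Int.negSucc 512014, Int.ofNat 1458],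
  [Int.negSucc 819775, Int.negSucc 696108, Int.negSucc 884845, Int.ofNat 37608, 
    Int.ofNat 1193216, Int.ofNat 223233, Int.negSucc 711555, Int.ofNat 151, Int.negSucc 187, 
    Int.negSucc 343, Int.ofNat 61],
  [Int.negSucc 819775, Int.negSucc 886910, Int.negSucc 693476, Int.ofNat 37608, 
    Int.negSucc 1266594, Int.negSucc 187771, Int.ofNat 583429, Int.ofNat 182, Int.negSucc 187, 
    Int.ofNat 349],
  [Int.negSucc 1146034, Int.negSucc 239784, Int.ofNat 133678, Int.negSucc 1444102, 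
    Int.ofNat 230388, Int.negSucc 35649, Int.ofNat 119227, Int.negSucc 76, Int.ofNat 16, 
    Int.negSucc 19, Int.negSucc 11, Int.ofNat 48],
  [Int.negSucc 808436, Int.negSucc 25143, Int.negSucc 25068, Int.ofNat 1189681, 
    Int.negSucc 23365, Int.ofNat 11292, Int.negSucc 40799, Int.negSucc 343, Int.ofNat 53, 
    Int.ofNat 3, Int.ofNat 38, Int.negSucc 33, Int.ofNat 14, Int.negSucc 25, Int.ofNat 115],
  [Int.ofNat 712138, Int.ofNat 775052, Int.ofNat 542162, Int.ofNat 389301, Int.negSucc 39109, 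
    Int.ofNat 1218304],
  [Int.ofNat 2840074, Int.ofNat 1062618, Int.ofNat 1059465, Int.ofNat 2227593, 
    Int.negSucc 403307, Int.ofNat 194906, Int.negSucc 704218, Int.ofNat 1548, Int.negSucc 61, 
    Int.negSucc 0, Int.negSucc 7, Int.negSucc 33, Int.ofNat 54],
  [Int.negSucc 1146034, Int.ofNat 132965, Int.negSucc 240181, Int.negSucc 1444102, 
    Int.negSucc 17519, Int.negSucc 67222, Int.ofNat 252465, Int.negSucc 80, Int.ofNat 16, 
    Int.ofNat 18, Int.negSucc 14, Int.ofNat 7, Int.negSucc 26, Int.ofNat 40]]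

end Pool.Agent.MPecb
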