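import Pool.Agent.Lib.MP_ecb332_co.Defs
import Pool.Agent.Lib.MP_ecb332_co.DataB

/-! Further finite checks for problem MP_ecb332_co: the tables are Gram tables, the symmetries of the
functions, the four-point digraphs. -/

set_option autoImplicit false
set_option linter.all false

namespace Pool.Agent.MPecb

def dotI : List Int → List Int → Int
  | a :: s, b :: t => Int.add (Int.mul a b) (dotI s t)
  | [], _ => Int.ofNat 0
  | _ :: _, [] => Int.ofNat 0

def chkRow (T k : Nat) (row : List Int) : Nat → List (List Int) → Bool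
  | _, [] => true
  | l, r :: rs => decide (Int.ofNat (kQ T k l) = Int.add (Int.ofNat oQ) (dotI row r)) &&
      chkRow T k row (Nat.succ l) rs

def chkRows (T : Nat) (B : List (List Int)) : Nat → List (List Int) → Bool
  | _, [] => true
  | k, r :: rs => chkRow T k r 0 B && chkRows T B (Nat.succ k) rs

theorem gram0 : chkRows tb0 B3_0 0 B3_0 = true := by decide +kernel
theorem gram1 : chkRows tb1 B3_1 0 B3_1 = true := by decide +kernel
theorem gram2 : chkRows tb2 B3_2 0 B3_2 = true := by decide +kernel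
theorem gram3 : chkRows tb3 B3_3 0 B3_3 = true := by decide +kernel
theorem gram4 : chkRows tb4 B3_4 0 B3_4 = true := by decide +kernel
theorem gram5 : chkRows tb5 B3_5 0 B3_5 = true := by decide +kernel
theorem gram6 : chkRows tb6 B3_6 0 B3_6 = true := by decide +kernel
theorem gramQ1 : chkRows tab1 B1 0 B1 = true := by decide +kernel

def allN (p : Nat → Bool) : Nat → Bool
  | 0 => true
  | n + 1 => p n && allN p n

theorem stsym_ok : allN (fun k => allN (fun l => a3 fun r => Nat.beq (st k l r) (st l k (ng r))) 27) 27 = true := by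
  decide +kernel

theorem q1sw_ok : (a3 fun a => a3 fun b => a3 fun c => allN (fun l =>
    Nat.beq (q1 (c3 b a (ng c)) l) (q1 (c3 a b c) l)) 27) = true := by decide +kernel

def mk4 (r01 r02 r03 r12 r13 r23 : Nat) : Nat :=
  Nat.add (Nat.mul r01 (Nat.pow 2 2)) (Nat.add (Nat.mul r02 (Nat.pow 2 4)) (Nat.add (Nat.mul r03 (Nat.pow 2 6))
  (Nat.add (Nat.mul (ng r01) (Nat.pow 2 10)) (Nat.add (Nat.mul r12 (Nat.pow 2 14))
  (Nat.add (Nat.mul r13 (Nat.pow 2 16)) (Nat.add (Nat.mul (ng r02) (Nat.pow 2 20))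
  (Nat.add (Nat.mul (ng r12) (Nat.pow 2 22)) (Nat.add (Nat.mul r23 (Nat.pow 2 26))
  (Nat.add (Nat.mul (ng r03) (Nat.pow 2 30)) (Nat.add (Nat.mul (ng r13) (Nat.pow 2 32))
   (Nat.mul (ng r23) (Nat.pow 2 34))))))))))))

def a4 (p : Nat → Bool) : Bool := p 0 && p 1 && p 2 && p 3

def nthp : List (Nat × Nat × Nat × Nat) → Nat → Nat × Nat × Nat × Nat
  | [], _ => (0, 1, 2, 3)
  | h :: t, i => bif Nat.beq i 0 then h else nthp t (Nat.pred i)

def elemN (x : Nat) : List Nat → Bool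
  | [] => false
  | h :: t => Nat.beq x h || elemN x t

/-- the code of the relation `R` on `0, 1, 2, 3` after renaming by `p` -/
def pcode (R : Nat) (p : Nat × Nat × Nat × Nat) : Nat :=
  mk4 (rel R p.1 p.2.1) (rel R p.1 p.2.2.1) (rel R p.1 p.2.2.2) (rel R p.2.1 p.2.2.1)
    (rel R p.2.1 p.2.2.2) (rel R p.2.2.1 p.2.2.2)

def w4 (r01 r02 r03 r12 r13 r23 : Nat) : Nat :=
  Nat.land (Nat.shiftRight tabW4 (Nat.mul 5 (Nat.add r01 (Nat.add (Nat.mul 3 r02) (Nat.add (Nat.mul 9 r03)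
    (Nat.add (Nat.mul 27 r12) (Nat.add (Nat.mul 81 r13) (Nat.mul 243 r23)))))))) 31

/-- `R` has the six given digits in its first four rows -/
def dig4 (R r01 r02 r03 r12 r13 r23 : Nat) : Bool :=
  Nat.beq (rel R 0 0) 0 && Nat.beq (rel R 0 1) r01 && Nat.beq (rel R 0 2) r02 && Nat.beq (rel R 0 3) r03 &&
  Nat.beq (rel R 1 0) (ng r01) && Nat.beq (rel R 1 1) 0 && Nat.beq (rel R 1 2) r12 && Nat.beq (rel R 1 3) r13 &&
  Nat.beq (rel R 2 0) (ng r02) && Nat.beq (rel R 2 1) (ng r12) && Nat.beq (rel R 2 2) 0 && Nat.beq (rel R 2 3) r23 &&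
  Nat.beq (rel R 3 0) (ng r03) && Nat.beq (rel R 3 1) (ng r13) && Nat.beq (rel R 3 2) (ng r23) && Nat.beq (rel R 3 3) 0

theorem four_ok : (a3 fun r01 => a3 fun r02 => a3 fun r03 => a3 fun r12 => a3 fun r13 => a3 fun r23 =>
    (dig4 (mk4 r01 r02 r03 r12 r13 r23) r01 r02 r03 r12 r13 r23 &&
      elemN (pcode (mk4 r01 r02 r03 r12 r13 r23) (nthp perms24 (w4 r01 r02 r03 r12 r13 r23))) reps4)) = true := by
  decide +kernel

def extok (R e0 e1 e2 e3 : Nat) : Bool :=
  (a4 fun i => a4 fun j => Nat.beq (rel (ext4 R e0 e1 e2 e3) i j) (rel R i j)) &&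
  Nat.beq (rel (ext4 R e0 e1 e2 e3) 0 4) e0 && Nat.beq (rel (ext4 R e0 e1 e2 e3) 1 4) e1 &&
  Nat.beq (rel (ext4 R e0 e1 e2 e3) 2 4) e2 && Nat.beq (rel (ext4 R e0 e1 e2 e3) 3 4) e3 &&
  Nat.beq (rel (ext4 R e0 e1 e2 e3) 4 0) (ng e0) && Nat.beq (rel (ext4 R e0 e1 e2 e3) 4 1) (ng e1) &&
  Nat.beq (rel (ext4 R e0 e1 e2 e3) 4 2) (ng e2) && Nat.beq (rel (ext4 R e0 e1 e2 e3) 4 3) (ng e3) &&
  Nat.beq (rel (ext4 R e0 e1 e2 e3) 4 4) 0

theorem ext_ok : reps4.all (fun R => a3 fun e0 => a3 fun e1 => a3 fun e2 => a3 fun e3 =>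
    extok R e0 e1 e2 e3) = true := by decide +kernel

end Pool.Agent.MPecb
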