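import Mathlib
import Pool.Agent.Lib.MP_ecb332_co.KernA
import Pool.Agent.Lib.MP_ecb332_co.KernB

/-!
From the kernel computations to the inequality for every antisymmetric relation on five points:
the sum over all renamings of the certificate function is at most `bnd`.
-/

set_option autoImplicit false

namespace Pool.Agent.MPecb

open Finset

abbrev Tup := ℕ × ℕ × ℕ × ℕ × ℕ

def swp (p : Tup) : Tup := (p.1, p.2.1, p.2.2.1, p.2.2.2.2, p.2.2.2.1)

def L120 : List Tup := L60 ++ L60.map swp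

theorem L120_nodup : L120.Nodup := by decide +kernel

theorem mem_L120 : ∀ a b c d e : Fin 5, [a, b, c, d, e].Nodup →
    ((a : ℕ), (b : ℕ), (c : ℕ), (d : ℕ), (e : ℕ)) ∈ L120 := by decide +kernel

theorem L120_lt : ∀ p ∈ L120, p.1 < 5 ∧ p.2.1 < 5 ∧ p.2.2.1 < 5 ∧ p.2.2.2.1 < 5 ∧ p.2.2.2.2 < 5 := by
  decide +kernel

/-- eight images of a tuple keeping the first point and the two pairs -/
def g8 (p : Tup) : List Tup :=
  [(p.1, p.2.1, p.2.2.1, p.2.2.2.1, p.2.2.2.2), (p.1, p.2.2.1, p.2.1, p.2.2.2.1, p.2.2.2.2),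
   (p.1, p.2.1, p.2.2.1, p.2.2.2.2, p.2.2.2.1), (p.1, p.2.2.1, p.2.1, p.2.2.2.2, p.2.2.2.1),
   (p.1, p.2.2.2.1, p.2.2.2.2, p.2.1, p.2.2.1), (p.1, p.2.2.2.1, p.2.2.2.2, p.2.2.1, p.2.1),
   (p.1, p.2.2.2.2, p.2.2.2.1, p.2.1, p.2.2.1), (p.1, p.2.2.2.2, p.2.2.2.1, p.2.2.1, p.2.1)]

/-- six images of a tuple keeping the first two points -/
def g6 (p : Tup) : List Tup :=
  [(p.1, p.2.1, p.2.2.1, p.2.2.2.1, p.2.2.2.2), (p.1, p.2.1, p.2.2.2.1, p.2.2.1, p.2.2.2.2),
   (p.1, p.2.1, p.2.2.1, p.2.2.2.2, p.2.2.2.1), (p.1, p.2.1, p.2.2.2.2, p.2.2.1, p.2.2.2.1),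
   (p.1, p.2.1, p.2.2.2.1, p.2.2.2.2, p.2.2.1), (p.1, p.2.1, p.2.2.2.2, p.2.2.2.1, p.2.2.1)]

/-- twelve images of a tuple keeping the set of the first three points -/
def g12 (p : Tup) : List Tup :=
  [(p.1, p.2.1, p.2.2.1, p.2.2.2.1, p.2.2.2.2), (p.1, p.2.2.1, p.2.1, p.2.2.2.1, p.2.2.2.2),
   (p.2.1, p.1, p.2.2.1, p.2.2.2.1, p.2.2.2.2), (p.2.1, p.2.2.1, p.1, p.2.2.2.1, p.2.2.2.2),
   (p.2.2.1, p.1, p.2.1, p.2.2.2.1, p.2.2.2.2), (p.2.2.1, p.2.1, p.1, p.2.2.2.1, p.2.2.2.2),
   (p.1, p.2.1, p.2.2.1, p.2.2.2.2, p.2.2.2.1), (p.1, p.2.2.1, p.2.1, p.2.2.2.2, p.2.2.2.1),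
   (p.2.1, p.1, p.2.2.1, p.2.2.2.2, p.2.2.2.1), (p.2.1, p.2.2.1, p.1, p.2.2.2.2, p.2.2.2.1),
   (p.2.2.1, p.1, p.2.1, p.2.2.2.2, p.2.2.2.1), (p.2.2.1, p.2.1, p.1, p.2.2.2.2, p.2.2.2.1)]

theorem perm15 : L120.Perm (L15.flatMap g8) := by decide +kernel
theorem perm20 : L120.Perm (L20.flatMap g6) := by decide +kernel
theorem perm10 : L120.Perm (L10.flatMap g12) := by decide +kernel

/-- the tuple of values of a permutation -/
def tupOf (π : Equiv.Perm (Fin 5)) : Tup :=
  ((π 0 : ℕ), (π 1 : ℕ), (π 2 : ℕ), (π 3 : ℕ), (π 4 : ℕ))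

theorem tupOf_inj : Function.Injective tupOf := by
  intro π σ h
  simp only [tupOf, Prod.mk.injEq] at h
  obtain ⟨h0, h1, h2, h3, h4⟩ := h
  ext i
  fin_cases i <;> simp_all

theorem image_tupOf : (Finset.univ : Finset (Equiv.Perm (Fin 5))).image tupOf = L120.toFinset := by
  apply Finset.eq_of_subset_of_card_le
  · intro p hp
    simp only [Finset.mem_image, Finset.mem_univ, true_and] at hp
    obtain ⟨π, rfl⟩ := hp
    rw [List.mem_toFinset]
    apply mem_L120
    simp
  · rw [Finset.card_image_of_injective _ tupOf_inj, List.toFinset_card_of_nodup L120_nodup,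
      Finset.card_univ, Fintype.card_perm, Fintype.card_fin]
    decide

theorem sum_perm {A : Type*} [AddCommMonoid A] (ψ : Tup → A) :
    ∑ π : Equiv.Perm (Fin 5), ψ (tupOf π) = (L120.map ψ).sum := by
  rw [← List.sum_toFinset ψ L120_nodup, ← image_tupOf, Finset.sum_image]
  intro a _ b _ h
  exact tupOf_inj h

/-! ### Reading the Boolean checks -/

theorem allN_spec {p : ℕ → Bool} : ∀ {n : ℕ}, allN p n = true → ∀ i < n, p i = true
  | 0, _, i, hi => absurd hi (Nat.not_lt_zero i)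
  | n + 1, h, i, hi => by
      rw [allN, Bool.and_eq_true] at h
      rcases Nat.lt_succ_iff_lt_or_eq.1 hi with h1 | h1
      · exact allN_spec h.2 i h1
      · rw [h1]; exact h.1

theorem a3_spec {p : ℕ → Bool} (h : a3 p = true) (i : ℕ) (hi : i < 3) : p i = true := by
  simp only [a3, Bool.and_eq_true] at h
  interval_cases i
  · exact h.1.1
  · exact h.1.2
  · exact h.2

theorem a4_spec {p : ℕ → Bool} (h : a4 p = true) (i : ℕ) (hi : i < 4) : p i = true := by
  simp only [a4, Bool.and_eq_true] at h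
  interval_cases i
  · exact h.1.1.1
  · exact h.1.1.2
  · exact h.1.2
  · exact h.2

theorem dotI_comm : ∀ s t : List ℤ, dotI s t = dotI t s
  | [], [] => rfl
  | [], _ :: _ => rfl
  | _ :: _, [] => rfl
  | a :: s, b :: t => by
      simp only [dotI]
      rw [dotI_comm s t]
      show a * b + _ = b * a + _
      rw [mul_comm]

theorem chkRow_spec {T k : ℕ} {row : List ℤ} : ∀ {rs : List (List ℤ)} {l : ℕ}, chkRow T k row l rs = true →
    ∀ j < rs.length, ((kQ T k (l + j) : ℕ) : ℤ) = (oQ : ℤ) + dotI row (rs.getD j [])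
  | [], _, _, j, hj => absurd hj (Nat.not_lt_zero j)
  | r :: rs, l, h, j, hj => by
      simp only [chkRow, Bool.and_eq_true, decide_eq_true_eq] at h
      cases j with
      | zero =>
        simpa using h.1
      | succ j =>
        have := chkRow_spec h.2 j (by simpa using hj)
        rw [show l + (j + 1) = Nat.succ l + j by omega, this]
        rfl

theorem chkRows_spec {T : ℕ} {B : List (List ℤ)} : ∀ {rs : List (List ℤ)} {k : ℕ}, chkRows T B k rs = true →
    ∀ i < rs.length, ∀ j < B.length,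
      ((kQ T (k + i) j : ℕ) : ℤ) = (oQ : ℤ) + dotI (rs.getD i []) (B.getD j [])
  | [], _, _, j, hj => absurd hj (Nat.not_lt_zero j)
  | r :: rs, k, h, i, hi => by
      intro j hj
      simp only [chkRows, Bool.and_eq_true] at h
      cases i with
      | zero =>
        have := chkRow_spec h.1 j hj
        simpa using this
      | succ i =>
        have := chkRows_spec h.2 i (by simpa using hi) j hj
        rw [show k + (i + 1) = Nat.succ k + i by omega, this]
        rfl

theorem gram_spec {T : ℕ} {B : List (List ℤ)} (h : chkRows T B 0 B = true) (k l : ℕ)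
    (hk : k < B.length) (hl : l < B.length) :
    ((kQ T k l : ℕ) : ℤ) = (oQ : ℤ) + dotI (B.getD k []) (B.getD l []) := by
  have := chkRows_spec h k hk l hl
  rwa [Nat.zero_add] at this

theorem kQ_symm {T : ℕ} {B : List (List ℤ)} (h : chkRows T B 0 B = true) (k l : ℕ)
    (hk : k < B.length) (hl : l < B.length) : kQ T k l = kQ T l k := by
  have h1 := gram_spec h k l hk hl
  have h2 := gram_spec h l k hl hk
  rw [dotI_comm] at h2
  exact_mod_cast h1.trans h2.symm

theorem len0 : B3_0.length = 27 := by decide +kernel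
theorem len1 : B3_1.length = 27 := by decide +kernel
theorem len2 : B3_2.length = 27 := by decide +kernel
theorem len3 : B3_3.length = 27 := by decide +kernel
theorem len4 : B3_4.length = 27 := by decide +kernel
theorem len5 : B3_5.length = 27 := by decide +kernel
theorem len6 : B3_6.length = 27 := by decide +kernel
theorem lenB1 : B1.length = 27 := by decide +kernel

/-- the rows attached to the table number `i` -/
def rowB (i k : ℕ) : List ℤ :=
  bif Nat.beq i 15 then [] else bif Nat.beq i 0 then B3_0.getD k [] else bif Nat.beq i 1 then B3_1.getD k []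
  else bif Nat.beq i 2 then B3_2.getD k [] else bif Nat.beq i 3 then B3_3.getD k []
  else bif Nat.beq i 4 then B3_4.getD k [] else bif Nat.beq i 5 then B3_5.getD k [] else B3_6.getD k []

theorem q3_gram (i k l : ℕ) (hk : k < 27) (hl : l < 27) :
    ((q3 i k l : ℕ) : ℤ) = (oQ : ℤ) + dotI (rowB i k) (rowB i l) := by
  unfold q3 rowB
  cases Nat.beq i 15
  swap
  · simp [dotI]
  cases Nat.beq i 0
  swap
  · exact gram_spec gram0 k l (by rw [len0]; exact hk) (by rw [len0]; exact hl)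
  cases Nat.beq i 1
  swap
  · exact gram_spec gram1 k l (by rw [len1]; exact hk) (by rw [len1]; exact hl)
  cases Nat.beq i 2
  swap
  · exact gram_spec gram2 k l (by rw [len2]; exact hk) (by rw [len2]; exact hl)
  cases Nat.beq i 3
  swap
  · exact gram_spec gram3 k l (by rw [len3]; exact hk) (by rw [len3]; exact hl)
  cases Nat.beq i 4
  swap
  · exact gram_spec gram4 k l (by rw [len4]; exact hk) (by rw [len4]; exact hl)
  cases Nat.beq i 5
  swap
  · exact gram_spec gram5 k l (by rw [len5]; exact hk) (by rw [len5]; exact hl)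
  exact gram_spec gram6 k l (by rw [len6]; exact hk) (by rw [len6]; exact hl)

theorem q1_gram (k l : ℕ) (hk : k < 27) (hl : l < 27) :
    ((q1 k l : ℕ) : ℤ) = (oQ : ℤ) + dotI (B1.getD k []) (B1.getD l []) :=
  gram_spec gramQ1 k l (by rw [lenB1]; exact hk) (by rw [lenB1]; exact hl)

theorem q3_symm (i k l : ℕ) (hk : k < 27) (hl : l < 27) : q3 i k l = q3 i l k := by
  have h1 := q3_gram i k l hk hl
  have h2 := q3_gram i l k hl hk
  rw [dotI_comm] at h2
  exact_mod_cast h1.trans h2.symm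

theorem q1_symm (k l : ℕ) (hk : k < 27) (hl : l < 27) : q1 k l = q1 l k := by
  have h1 := q1_gram k l hk hl
  have h2 := q1_gram l k hl hk
  rw [dotI_comm] at h2
  exact_mod_cast h1.trans h2.symm

theorem c3_lt {a b c : ℕ} (ha : a < 3) (hb : b < 3) (hc : c < 3) : c3 a b c < 27 := by
  show a + (3 * b + 9 * c) < 27
  omega

theorem st_symm {k l r : ℕ} (hk : k < 27) (hl : l < 27) (hr : r < 3) : st k l r = st l k (ng r) :=
  Nat.eq_of_beq_eq_true (a3_spec (allN_spec (allN_spec stsym_ok k hk) l hl) r hr)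

theorem q1_sw {a b c l : ℕ} (ha : a < 3) (hb : b < 3) (hc : c < 3) (hl : l < 27) :
    q1 (c3 b a (ng c)) l = q1 (c3 a b c) l :=
  Nat.eq_of_beq_eq_true (allN_spec (a3_spec (a3_spec (a3_spec q1sw_ok a ha) b hb) c hc) l hl)

theorem ng_lt (a : ℕ) : ng a < 3 := Nat.mod_lt _ (by norm_num)

theorem ng_ng {a : ℕ} (ha : a < 3) : ng (ng a) = a := by
  interval_cases a <;> rfl

end Pool.Agent.MPecb
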