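import Pool.Agent.Lib.MP_ecb332_co.Comb

/-!
The sum over all renamings of the certificate function, computed over shorter lists.
-/

set_option autoImplicit false

namespace Pool.Agent.MPecb

open Finset

def F2 (M : ℕ → ℕ → ℕ) (p : Tup) : ℕ :=
  f2 (c3 (M p.1 p.2.1) (M p.1 p.2.2.1) (M p.2.1 p.2.2.1))
    (c3 (M p.1 p.2.2.2.1) (M p.2.1 p.2.2.2.1) (M p.2.2.1 p.2.2.2.1))
    (c3 (M p.1 p.2.2.2.2) (M p.2.1 p.2.2.2.2) (M p.2.2.1 p.2.2.2.2)) (M p.2.2.2.1 p.2.2.2.2)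

def F1 (M : ℕ → ℕ → ℕ) (p : Tup) : ℕ :=
  q1 (c3 (M p.1 p.2.1) (M p.1 p.2.2.1) (M p.2.1 p.2.2.1))
    (c3 (M p.1 p.2.2.2.1) (M p.1 p.2.2.2.2) (M p.2.2.2.1 p.2.2.2.2))

def FS (M : ℕ → ℕ → ℕ) (p : Tup) : ℕ :=
  sv (M p.1 p.2.1) (M p.1 p.2.2.1 + 3 * M p.2.1 p.2.2.1) (M p.1 p.2.2.2.1 + 3 * M p.2.1 p.2.2.2.1)
    (M p.1 p.2.2.2.2 + 3 * M p.2.1 p.2.2.2.2)
    (c3 (M p.2.2.1 p.2.2.2.1) (M p.2.2.1 p.2.2.2.2) (M p.2.2.2.1 p.2.2.2.2))

def FM (M : ℕ → ℕ → ℕ) (p : Tup) : ℕ :=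
  p3b (c3 (M p.1 p.2.1) (M p.1 p.2.2.1) (M p.2.1 p.2.2.1))

def FT (M : ℕ → ℕ → ℕ) (p : Tup) : ℕ := F2 M p + F1 M p + FS M p + 5 * cMU * FM M p

/-- antisymmetric relation on the points `0, …, 4` -/
def AS (M : ℕ → ℕ → ℕ) : Prop := ∀ a < 5, ∀ b < 5, M a b < 3 ∧ M b a = ng (M a b)

def OKT (p : Tup) : Prop := p.1 < 5 ∧ p.2.1 < 5 ∧ p.2.2.1 < 5 ∧ p.2.2.2.1 < 5 ∧ p.2.2.2.2 < 5

theorem F2_swp {M : ℕ → ℕ → ℕ} (h : AS M) {p : Tup} (hp : OKT p) : F2 M (swp p) = F2 M p := by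
  obtain ⟨a, b, c, d, e⟩ := p
  obtain ⟨ha, hb, hc, hd, he⟩ := hp
  simp only at ha hb hc hd he
  unfold F2 f2 swp
  simp only
  have k1 := c3_lt (h a ha d hd).1 (h b hb d hd).1 (h c hc d hd).1
  have k2 := c3_lt (h a ha e he).1 (h b hb e he).1 (h c hc e he).1
  rw [q3_symm _ _ _ k2 k1, st_symm k2 k1 (h e he d hd).1, (h d hd e he).2, ng_ng (h d hd e he).1]

theorem F1_g8 {M : ℕ → ℕ → ℕ} (h : AS M) {p : Tup} (hp : OKT p) : ∀ q ∈ g8 p, F1 M q = F1 M p := by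
  obtain ⟨a, b, c, d, e⟩ := p
  obtain ⟨ha, hb, hc, hd, he⟩ := hp
  simp only at ha hb hc hd he
  have k1 := c3_lt (h a ha b hb).1 (h a ha c hc).1 (h b hb c hc).1
  have k2 := c3_lt (h a ha d hd).1 (h a ha e he).1 (h d hd e he).1
  have k3 := c3_lt (h a ha c hc).1 (h a ha b hb).1 (h c hc b hb).1
  have k4 := c3_lt (h a ha e he).1 (h a ha d hd).1 (h e he d hd).1
  have s1 : ∀ l < 27, q1 (c3 (M a c) (M a b) (M c b)) l = q1 (c3 (M a b) (M a c) (M b c)) l := by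
    intro l hl
    rw [(h b hb c hc).2]
    exact q1_sw (h a ha b hb).1 (h a ha c hc).1 (h b hb c hc).1 hl
  have s2 : ∀ l < 27, q1 (c3 (M a e) (M a d) (M e d)) l = q1 (c3 (M a d) (M a e) (M d e)) l := by
    intro l hl
    rw [(h d hd e he).2]
    exact q1_sw (h a ha d hd).1 (h a ha e he).1 (h d hd e he).1 hl
  intro q hq
  simp only [g8, List.mem_cons, List.not_mem_nil, or_false] at hq
  rcases hq with rfl | rfl | rfl | rfl | rfl | rfl | rfl | rfl <;> simp only [F1]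
  · rw [s1 _ k2]
  · rw [q1_symm _ _ k1 k4, s2 _ k1, q1_symm _ _ k2 k1]
  · rw [s1 _ k4, q1_symm _ _ k1 k4, s2 _ k1, q1_symm _ _ k2 k1]
  · rw [q1_symm _ _ k2 k1]
  · rw [q1_symm _ _ k2 k3, s1 _ k2]
  · rw [s2 _ k1, q1_symm _ _ k2 k1]
  · rw [s2 _ k3, q1_symm _ _ k2 k3, s1 _ k2]

theorem p3b_sw : ∀ a < 3, ∀ b < 3, ∀ c < 3, p3b (c3 b a (ng c)) = p3b (c3 a b c) := by decide
theorem p3b_sw2 : ∀ a < 3, ∀ b < 3, ∀ c < 3, p3b (c3 (ng a) c b) = p3b (c3 a b c) := by decide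

theorem FM_g12 {M : ℕ → ℕ → ℕ} (h : AS M) {p : Tup} (hp : OKT p) : ∀ q ∈ g12 p, FM M q = FM M p := by
  obtain ⟨a, b, c, d, e⟩ := p
  obtain ⟨ha, hb, hc, hd, he⟩ := hp
  simp only at ha hb hc hd he
  have s1 : ∀ {x y z : ℕ}, x < 5 → y < 5 → z < 5 →
      p3b (c3 (M x z) (M x y) (M z y)) = p3b (c3 (M x y) (M x z) (M y z)) := by
    intro x y z hx hy hz
    rw [(h y hy z hz).2]
    exact p3b_sw _ (h x hx y hy).1 _ (h x hx z hz).1 _ (h y hy z hz).1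
  have s2 : ∀ {x y z : ℕ}, x < 5 → y < 5 → z < 5 →
      p3b (c3 (M y x) (M y z) (M x z)) = p3b (c3 (M x y) (M x z) (M y z)) := by
    intro x y z hx hy hz
    rw [(h x hx y hy).2]
    exact p3b_sw2 _ (h x hx y hy).1 _ (h x hx z hz).1 _ (h y hy z hz).1
  intro q hq
  simp only [g12, List.mem_cons, List.not_mem_nil, or_false] at hq
  rcases hq with rfl | rfl | rfl | rfl | rfl | rfl | rfl | rfl | rfl | rfl | rfl | rfl <;> simp only [FM]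
  · exact s1 ha hb hc
  · exact s2 ha hb hc
  · rw [s1 hb ha hc]; exact s2 ha hb hc
  · rw [s2 ha hc hb]; exact s1 ha hb hc
  · rw [s1 hc ha hb, s2 ha hc hb]; exact s1 ha hb hc
  · exact s1 ha hb hc
  · exact s2 ha hb hc
  · rw [s1 hb ha hc]; exact s2 ha hb hc
  · rw [s2 ha hc hb]; exact s1 ha hb hc
  · rw [s1 hc ha hb, s2 ha hc hb]; exact s1 ha hb hc

theorem sv_sw1 (rab kc kd ke t t' : ℕ) (h : p3b t' = p3b t) : sv rab kd kc ke t' = sv rab kc kd ke t := by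
  unfold sv
  rw [h]
  by_cases h1 : kc = kd
  · subst h1; rfl
  · have e1 : Nat.beq kc kd = false := by
      rw [Bool.eq_false_iff]; intro h; exact h1 (Nat.eq_of_beq_eq_true h)
    have e2 : Nat.beq kd kc = false := by
      rw [Bool.eq_false_iff]; intro h; exact h1 (Nat.eq_of_beq_eq_true h).symm
    rw [e1, e2]; rfl

theorem sv_sw2 (rab kc kd ke t t' : ℕ) (h : p3b t' = p3b t) : sv rab kc ke kd t' = sv rab kc kd ke t := by
  unfold sv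
  rw [h, Bool.and_comm]

theorem FS_g6 {M : ℕ → ℕ → ℕ} (h : AS M) {p : Tup} (hp : OKT p) : ∀ q ∈ g6 p, FS M q = FS M p := by
  obtain ⟨a, b, c, d, e⟩ := p
  obtain ⟨ha, hb, hc, hd, he⟩ := hp
  simp only at ha hb hc hd he
  have s1 : ∀ {x y z : ℕ}, x < 5 → y < 5 → z < 5 →
      p3b (c3 (M x z) (M x y) (M z y)) = p3b (c3 (M x y) (M x z) (M y z)) := by
    intro x y z hx hy hz
    rw [(h y hy z hz).2]
    exact p3b_sw _ (h x hx y hy).1 _ (h x hx z hz).1 _ (h y hy z hz).1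
  have s2 : ∀ {x y z : ℕ}, x < 5 → y < 5 → z < 5 →
      p3b (c3 (M y x) (M y z) (M x z)) = p3b (c3 (M x y) (M x z) (M y z)) := by
    intro x y z hx hy hz
    rw [(h x hx y hy).2]
    exact p3b_sw2 _ (h x hx y hy).1 _ (h x hx z hz).1 _ (h y hy z hz).1
  -- swapping the third and fourth entries
  have w1 : ∀ {x y z : ℕ}, x < 5 → y < 5 → z < 5 → FS M (a, b, y, x, z) = FS M (a, b, x, y, z) := by
    intro x y z hx hy hz
    exact sv_sw1 _ _ _ _ _ _ (s2 hx hy hz)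
  have w2 : ∀ {x y z : ℕ}, x < 5 → y < 5 → z < 5 → FS M (a, b, x, z, y) = FS M (a, b, x, y, z) := by
    intro x y z hx hy hz
    exact sv_sw2 _ _ _ _ _ _ (s1 hx hy hz)
  intro q hq
  simp only [g6, List.mem_cons, List.not_mem_nil, or_false] at hq
  rcases hq with rfl | rfl | rfl | rfl | rfl | rfl
  · rfl
  · exact w1 hc hd he
  · exact w2 hc hd he
  · rw [w1 hc he hd]; exact w2 hc hd he
  · rw [w2 hd hc he]; exact w1 hc hd he
  · rw [w2 he hc hd, w1 hc he hd]; exact w2 hc hd he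

theorem L60_lt : ∀ p ∈ L60, OKT p := by unfold OKT; decide +kernel
theorem L15_lt : ∀ p ∈ L15, OKT p := by unfold OKT; decide +kernel
theorem L20_lt : ∀ p ∈ L20, OKT p := by unfold OKT; decide +kernel
theorem L10_lt : ∀ p ∈ L10, OKT p := by unfold OKT; decide +kernel

theorem sum_flat {f : Tup → ℕ} {g : Tup → List Tup} {n : ℕ} (hg : ∀ p, (g p).length = n) :
    ∀ {L : List Tup}, (∀ p ∈ L, ∀ q ∈ g p, f q = f p) → ((L.flatMap g).map f).sum = n * (L.map f).sum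
  | [], _ => by simp
  | p :: L, h => by
      have ih := sum_flat (f := f) hg (L := L) (fun p hp => h p (List.mem_cons_of_mem _ hp))
      rw [List.flatMap_cons, List.map_append, List.sum_append, ih, List.map_cons, List.sum_cons, mul_add]
      congr 1
      have h1 : (g p).map f = (g p).map (fun _ => f p) := by
        apply List.map_congr_left
        intro q hq
        exact h p List.mem_cons_self q hq
      rw [h1, List.map_const', List.sum_replicate, hg, smul_eq_mul]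

theorem sum_perm_flat {f : Tup → ℕ} {g : Tup → List Tup} {n : ℕ} (hg : ∀ p, (g p).length = n)
    {L L' : List Tup} (hp : L'.Perm (L.flatMap g)) (h : ∀ p ∈ L, ∀ q ∈ g p, f q = f p) :
    (L'.map f).sum = n * (L.map f).sum := by
  rw [List.Perm.sum_eq (hp.map f)]
  exact sum_flat hg h

theorem sum_swp {f : Tup → ℕ} {L : List Tup} (h : ∀ p ∈ L, f (swp p) = f p) :
    ((L ++ L.map swp).map f).sum = 2 * (L.map f).sum := by
  have h1 : L.map (f ∘ swp) = L.map f := by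
    apply List.map_congr_left
    intro p hp
    exact h p hp
  rw [List.map_append, List.sum_append, List.map_map, two_mul, h1]

theorem sumF2 {M : ℕ → ℕ → ℕ} (h : AS M) : (L120.map (F2 M)).sum = 2 * (L60.map (F2 M)).sum :=
  sum_swp (f := F2 M) (L := L60) fun p hp => F2_swp h (L60_lt p hp)

theorem sumF1 {M : ℕ → ℕ → ℕ} (h : AS M) : (L120.map (F1 M)).sum = 8 * (L15.map (F1 M)).sum :=
  sum_perm_flat (f := F1 M) (g := g8) (fun _ => rfl) perm15 fun p hp => F1_g8 h (L15_lt p hp)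

theorem sumFS {M : ℕ → ℕ → ℕ} (h : AS M) : (L120.map (FS M)).sum = 6 * (L20.map (FS M)).sum :=
  sum_perm_flat (f := FS M) (g := g6) (fun _ => rfl) perm20 fun p hp => FS_g6 h (L20_lt p hp)

theorem sumFM {M : ℕ → ℕ → ℕ} (h : AS M) : (L120.map (FM M)).sum = 12 * (L10.map (FM M)).sum :=
  sum_perm_flat (f := FM M) (g := g12) (fun _ => rfl) perm10 fun p hp => FM_g12 h (L10_lt p hp)

theorem sum4 (u v w z : Tup → ℕ) (c : ℕ) (L : List Tup) :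
    (L.map (fun p => u p + v p + w p + c * z p)).sum =
      (L.map u).sum + (L.map v).sum + (L.map w).sum + c * (L.map z).sum := by
  rw [List.sum_map_add, List.sum_map_add, List.sum_map_add, List.sum_map_mul_left]

theorem sumFT {M : ℕ → ℕ → ℕ} (h : AS M) : (L120.map (FT M)).sum =
    2 * (L60.map (F2 M)).sum + (8 * (L15.map (F1 M)).sum +
      (6 * (L20.map (FS M)).sum + 60 * cMU * (L10.map (FM M)).sum)) := by
  have e := sum4 (F2 M) (F1 M) (FS M) (FM M) (5 * cMU) L120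
  rw [sumF2 h, sumF1 h, sumFS h, sumFM h] at e
  refine Eq.trans e ?_
  generalize (L60.map (F2 M)).sum = a
  generalize (L15.map (F1 M)).sum = b
  generalize (L20.map (FS M)).sum = c
  generalize (L10.map (FM M)).sum = d
  ring

theorem map60 (f : Tup → ℕ) : (L60.map f).sum =
    f (0, 1, 2, 3, 4) +
    (f (0, 1, 3, 2, 4) +
    (f (0, 1, 4, 2, 3) +
    (f (0, 2, 1, 3, 4) +
    (f (0, 2, 3, 1, 4) +
    (f (0, 2, 4, 1, 3) +
    (f (0, 3, 1, 2, 4) +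
    (f (0, 3, 2, 1, 4) +
    (f (0, 3, 4, 1, 2) +
    (f (0, 4, 1, 2, 3) +
    (f (0, 4, 2, 1, 3) +
    (f (0, 4, 3, 1, 2) +
    (f (1, 0, 2, 3, 4) +
    (f (1, 0, 3, 2, 4) +
    (f (1, 0, 4, 2, 3) +
    (f (1, 2, 0, 3, 4) +
    (f (1, 2, 3, 0, 4) +
    (f (1, 2, 4, 0, 3) +
    (f (1, 3, 0, 2, 4) +
    (f (1, 3, 2, 0, 4) +
    (f (1, 3, 4, 0, 2) +
    (f (1, 4, 0, 2, 3) +
    (f (1, 4, 2, 0, 3) +
    (f (1, 4, 3, 0, 2) +
    (f (2, 0, 1, 3, 4) +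
    (f (2, 0, 3, 1, 4) +
    (f (2, 0, 4, 1, 3) +
    (f (2, 1, 0, 3, 4) +
    (f (2, 1, 3, 0, 4) +
    (f (2, 1, 4, 0, 3) +
    (f (2, 3, 0, 1, 4) +
    (f (2, 3, 1, 0, 4) +
    (f (2, 3, 4, 0, 1) +
    (f (2, 4, 0, 1, 3) +
    (f (2, 4, 1, 0, 3) +
    (f (2, 4, 3, 0, 1) +
    (f (3, 0, 1, 2, 4) +
    (f (3, 0, 2, 1, 4) +
    (f (3, 0, 4, 1, 2) +
    (f (3, 1, 0, 2, 4) +
    (f (3, 1, 2, 0, 4) +
    (f (3, 1, 4, 0, 2) +
    (f (3, 2, 0, 1, 4) +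
    (f (3, 2, 1, 0, 4) +
    (f (3, 2, 4, 0, 1) +
    (f (3, 4, 0, 1, 2) +
    (f (3, 4, 1, 0, 2) +
    (f (3, 4, 2, 0, 1) +
    (f (4, 0, 1, 2, 3) +
    (f (4, 0, 2, 1, 3) +
    (f (4, 0, 3, 1, 2) +
    (f (4, 1, 0, 2, 3) +
    (f (4, 1, 2, 0, 3) +
    (f (4, 1, 3, 0, 2) +
    (f (4, 2, 0, 1, 3) +
    (f (4, 2, 1, 0, 3) +
    (f (4, 2, 3, 0, 1) +
    (f (4, 3, 0, 1, 2) +
    (f (4, 3, 1, 0, 2) +
    (f (4, 3, 2, 0, 1) +
    (0)))))))))))))))))))))))))))))))))))))))))))))))))))))))))))) := by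
  simp only [L60, List.map_cons, List.map_nil, List.sum_cons, List.sum_nil]

theorem map15 (f : Tup → ℕ) : (L15.map f).sum =
    f (0, 1, 2, 3, 4) +
    (f (0, 1, 3, 2, 4) +
    (f (0, 1, 4, 2, 3) +
    (f (1, 0, 2, 3, 4) +
    (f (1, 0, 3, 2, 4) +
    (f (1, 0, 4, 2, 3) +
    (f (2, 0, 1, 3, 4) +
    (f (2, 0, 3, 1, 4) +
    (f (2, 0, 4, 1, 3) +
    (f (3, 0, 1, 2, 4) +
    (f (3, 0, 2, 1, 4) +
    (f (3, 0, 4, 1, 2) +
    (f (4, 0, 1, 2, 3) +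
    (f (4, 0, 2, 1, 3) +
    (f (4, 0, 3, 1, 2) +
    (0))))))))))))))) := by
  simp only [L15, List.map_cons, List.map_nil, List.sum_cons, List.sum_nil]

theorem map20 (f : Tup → ℕ) : (L20.map f).sum =
    f (0, 1, 2, 3, 4) +
    (f (0, 2, 1, 3, 4) +
    (f (0, 3, 1, 2, 4) +
    (f (0, 4, 1, 2, 3) +
    (f (1, 0, 2, 3, 4) +
    (f (1, 2, 0, 3, 4) +
    (f (1, 3, 0, 2, 4) +
    (f (1, 4, 0, 2, 3) +
    (f (2, 0, 1, 3, 4) +
    (f (2, 1, 0, 3, 4) +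
    (f (2, 3, 0, 1, 4) +
    (f (2, 4, 0, 1, 3) +
    (f (3, 0, 1, 2, 4) +
    (f (3, 1, 0, 2, 4) +
    (f (3, 2, 0, 1, 4) +
    (f (3, 4, 0, 1, 2) +
    (f (4, 0, 1, 2, 3) +
    (f (4, 1, 0, 2, 3) +
    (f (4, 2, 0, 1, 3) +
    (f (4, 3, 0, 1, 2) +
    (0)))))))))))))))))))) := by
  simp only [L20, List.map_cons, List.map_nil, List.sum_cons, List.sum_nil]

theorem map10 (f : Tup → ℕ) : (L10.map f).sum =
    f (0, 1, 2, 3, 4) +
    (f (0, 1, 3, 2, 4) +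
    (f (0, 1, 4, 2, 3) +
    (f (0, 2, 3, 1, 4) +
    (f (0, 2, 4, 1, 3) +
    (f (0, 3, 4, 1, 2) +
    (f (1, 2, 3, 0, 4) +
    (f (1, 2, 4, 0, 3) +
    (f (1, 3, 4, 0, 2) +
    (f (2, 3, 4, 0, 1) +
    (0)))))))))) := by
  simp only [L10, List.map_cons, List.map_nil, List.sum_cons, List.sum_nil]


theorem sum60_eq (R : ℕ) : (L60.map (F2 (rel R))).sum = sum60 R := by
  rw [map60]
  unfold sum60
  repeat (refine congrArg₂ (HAdd.hAdd : ℕ → ℕ → ℕ) (rfl) ?_)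
  rfl

theorem sum15_eq (R : ℕ) : (L15.map (F1 (rel R))).sum = sum15 R := by
  rw [map15]
  unfold sum15
  repeat (refine congrArg₂ (HAdd.hAdd : ℕ → ℕ → ℕ) (rfl) ?_)
  rfl

theorem sum20_eq (R : ℕ) : (L20.map (FS (rel R))).sum = sum20 R := by
  rw [map20]
  unfold sum20
  repeat (refine congrArg₂ (HAdd.hAdd : ℕ → ℕ → ℕ) (rfl) ?_)
  rfl

theorem sum10_eq (R : ℕ) : (L10.map (FM (rel R))).sum = sum10 R := by
  rw [map10]
  unfold sum10
  repeat (refine congrArg₂ (HAdd.hAdd : ℕ → ℕ → ℕ) (rfl) ?_)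
  rfl

theorem sumFT_rel {R : ℕ} (h : AS (rel R)) : (L120.map (FT (rel R))).sum = totK R := by
  rw [sumFT h, sum60_eq, sum15_eq, sum20_eq, sum10_eq]
  rfl

end Pool.Agent.MPecb
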