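import Pool.Agent.Lib.MP_ecb332_co.Comb2

/-!
Every antisymmetric relation on five points can be renamed to one of the relations treated by the kernel
computation, so the sum over all renamings of the certificate function is at most `bnd`.
-/

set_option autoImplicit false

namespace Pool.Agent.MPecb

open Finset

/-- renaming of `0, …, 4` by a permutation, as a map on natural numbers -/
def ren (σ : Equiv.Perm (Fin 5)) (a : ℕ) : ℕ := (σ (Fin.ofNat 5 a) : ℕ)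

def Mren (M : ℕ → ℕ → ℕ) (σ : Equiv.Perm (Fin 5)) : ℕ → ℕ → ℕ := fun a b => M (ren σ a) (ren σ b)

theorem ren_lt (σ : Equiv.Perm (Fin 5)) (a : ℕ) : ren σ a < 5 := (σ (Fin.ofNat 5 a)).isLt

theorem ren_val (σ : Equiv.Perm (Fin 5)) (i : Fin 5) : ren σ (i : ℕ) = (σ i : ℕ) := by
  unfold ren
  rw [Fin.ofNat_val_eq_self]

theorem AS_Mren {M : ℕ → ℕ → ℕ} (h : AS M) (σ : Equiv.Perm (Fin 5)) : AS (Mren M σ) := by
  intro a _ b _
  exact h _ (ren_lt σ a) _ (ren_lt σ b)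

theorem AS_diag {M : ℕ → ℕ → ℕ} (h : AS M) {a : ℕ} (ha : a < 5) : M a a = 0 := by
  obtain ⟨h1, h2⟩ := h a ha a ha
  revert h1 h2
  generalize M a a = x
  intro h1 h2
  interval_cases x
  · rfl
  · exact absurd h2 (by decide)
  · exact absurd h2 (by decide)

/-- the sum over all renamings -/
def SM (M : ℕ → ℕ → ℕ) : ℕ := ∑ π : Equiv.Perm (Fin 5), FT M (tupOf π)

theorem FT_Mren (M : ℕ → ℕ → ℕ) (σ π : Equiv.Perm (Fin 5)) :
    FT (Mren M σ) (tupOf π) = FT M (tupOf (σ * π)) := by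
  have e : ∀ i j : Fin 5, Mren M σ ((π i : Fin 5) : ℕ) ((π j : Fin 5) : ℕ) =
      M (((σ * π) i : Fin 5) : ℕ) (((σ * π) j : Fin 5) : ℕ) := by
    intro i j
    unfold Mren
    rw [ren_val, ren_val]
    rfl
  unfold FT F2 F1 FS FM tupOf
  simp only [e]

theorem SM_Mren (M : ℕ → ℕ → ℕ) (σ : Equiv.Perm (Fin 5)) : SM (Mren M σ) = SM M := by
  unfold SM
  rw [← Equiv.sum_comp (Equiv.mulLeft σ) (fun π => FT M (tupOf π))]
  apply Finset.sum_congr rfl
  intro π _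
  exact FT_Mren M σ π

theorem SM_congr {M M' : ℕ → ℕ → ℕ} (h : ∀ a < 5, ∀ b < 5, M a b = M' a b) : SM M = SM M' := by
  unfold SM
  apply Finset.sum_congr rfl
  intro π _
  have e : ∀ i j : Fin 5, M ((π i : Fin 5) : ℕ) ((π j : Fin 5) : ℕ) =
      M' ((π i : Fin 5) : ℕ) ((π j : Fin 5) : ℕ) := fun i j => h _ (π i).isLt _ (π j).isLt
  unfold FT F2 F1 FS FM tupOf
  simp only [e]

theorem SM_rel {R : ℕ} (h : AS (rel R)) : SM (rel R) = totK R := by
  unfold SM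
  rw [sum_perm (FT (rel R)), sumFT_rel h]

def keyF (M : ℕ → ℕ → ℕ) (v : ℕ) : ℕ := ∑ j : Fin 5, kz (M v (j : ℕ))

theorem keyF_Mren (M : ℕ → ℕ → ℕ) (σ : Equiv.Perm (Fin 5)) (v : ℕ) : keyF (Mren M σ) v = keyF M (ren σ v) := by
  unfold keyF Mren
  simp only [ren_val]
  exact Equiv.sum_comp σ (fun j : Fin 5 => kz (M (ren σ v) (j : ℕ)))

theorem keyF_congr {M M' : ℕ → ℕ → ℕ} (h : ∀ a < 5, ∀ b < 5, M a b = M' a b) {v : ℕ} (hv : v < 5) :
    keyF M v = keyF M' v := by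
  unfold keyF
  apply Finset.sum_congr rfl
  intro j _
  rw [h v hv j j.isLt]

theorem keyK_eq (R v : ℕ) : keyK R v = keyF (rel R) v := by
  unfold keyF keyK
  rw [Fin.sum_univ_five]
  show kz (rel R v 0) + (kz (rel R v 1) + (kz (rel R v 2) + (kz (rel R v 3) + kz (rel R v 4)))) =
    kz (rel R v 0) + kz (rel R v 1) + kz (rel R v 2) + kz (rel R v 3) + kz (rel R v 4)
  generalize kz (rel R v 0) = x0
  generalize kz (rel R v 1) = x1
  generalize kz (rel R v 2) = x2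
  generalize kz (rel R v 3) = x3
  generalize kz (rel R v 4) = x4
  ring

theorem perms24_ex : ∀ p ∈ perms24, ∃ σ : Equiv.Perm (Fin 5),
    ((σ 0 : Fin 5) : ℕ) = p.1 ∧ ((σ 1 : Fin 5) : ℕ) = p.2.1 ∧ ((σ 2 : Fin 5) : ℕ) = p.2.2.1 ∧
    ((σ 3 : Fin 5) : ℕ) = p.2.2.2 ∧ ((σ 4 : Fin 5) : ℕ) = 4 := by decide +kernel

theorem nthp_mem : ∀ (L : List (ℕ × ℕ × ℕ × ℕ)) (i : ℕ), nthp L i = (0, 1, 2, 3) ∨ nthp L i ∈ L
  | [], _ => Or.inl rfl
  | h :: t, i => by
      unfold nthp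
      cases Nat.beq i 0
      · rcases nthp_mem t (Nat.pred i) with h1 | h1
        · exact Or.inl h1
        · exact Or.inr (List.mem_cons_of_mem _ h1)
      · exact Or.inr List.mem_cons_self

theorem nthp_ex (i : ℕ) : ∃ σ : Equiv.Perm (Fin 5),
    ((σ 0 : Fin 5) : ℕ) = (nthp perms24 i).1 ∧ ((σ 1 : Fin 5) : ℕ) = (nthp perms24 i).2.1 ∧
    ((σ 2 : Fin 5) : ℕ) = (nthp perms24 i).2.2.1 ∧
    ((σ 3 : Fin 5) : ℕ) = (nthp perms24 i).2.2.2 ∧ ((σ 4 : Fin 5) : ℕ) = 4 := by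
  rcases nthp_mem perms24 i with h | h
  · rw [h]
    exact ⟨1, by decide⟩
  · exact perms24_ex _ h

theorem elemN_mem {x : ℕ} : ∀ {L : List ℕ}, elemN x L = true → x ∈ L
  | [], h => absurd h (by simp [elemN])
  | h :: t, hh => by
      unfold elemN at hh
      rw [Bool.or_eq_true] at hh
      rcases hh with h1 | h1
      · rw [Nat.eq_of_beq_eq_true h1]; exact List.mem_cons_self
      · exact List.mem_cons_of_mem _ (elemN_mem h1)

theorem four_spec {a b c d e f : ℕ} (ha : a < 3) (hb : b < 3) (hc : c < 3) (hd : d < 3) (he : e < 3)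
    (hf : f < 3) : dig4 (mk4 a b c d e f) a b c d e f = true ∧
      pcode (mk4 a b c d e f) (nthp perms24 (w4 a b c d e f)) ∈ reps4 := by
  have h := a3_spec (a3_spec (a3_spec (a3_spec (a3_spec (a3_spec four_ok a ha) b hb) c hc) d hd) e he) f hf
  rw [Bool.and_eq_true] at h
  exact ⟨h.1, elemN_mem h.2⟩

/-- the digits of the code of the restriction to the first four points -/
theorem dig4_spec {M : ℕ → ℕ → ℕ} (h : AS M) : ∀ a < 4, ∀ b < 4,
    rel (mk4 (M 0 1) (M 0 2) (M 0 3) (M 1 2) (M 1 3) (M 2 3)) a b = M a b := by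
  have hh := (four_spec (h 0 (by norm_num) 1 (by norm_num)).1 (h 0 (by norm_num) 2 (by norm_num)).1
    (h 0 (by norm_num) 3 (by norm_num)).1 (h 1 (by norm_num) 2 (by norm_num)).1
    (h 1 (by norm_num) 3 (by norm_num)).1 (h 2 (by norm_num) 3 (by norm_num)).1).1
  simp only [dig4, Bool.and_eq_true] at hh
  obtain ⟨⟨⟨⟨⟨⟨⟨⟨⟨⟨⟨⟨⟨⟨⟨h00, h01⟩, h02⟩, h03⟩, h10⟩, h11⟩, h12⟩, h13⟩, h20⟩, h21⟩, h22⟩, h23⟩, h30⟩, h31⟩, h32⟩, h33⟩ := hh
  intro a ha b hb
  interval_cases a <;> interval_cases b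
  · rw [AS_diag h (by norm_num)]; exact Nat.eq_of_beq_eq_true h00
  · exact Nat.eq_of_beq_eq_true h01
  · exact Nat.eq_of_beq_eq_true h02
  · exact Nat.eq_of_beq_eq_true h03
  · rw [(h 0 (by norm_num) 1 (by norm_num)).2]; exact Nat.eq_of_beq_eq_true h10
  · rw [AS_diag h (by norm_num)]; exact Nat.eq_of_beq_eq_true h11
  · exact Nat.eq_of_beq_eq_true h12
  · exact Nat.eq_of_beq_eq_true h13
  · rw [(h 0 (by norm_num) 2 (by norm_num)).2]; exact Nat.eq_of_beq_eq_true h20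
  · rw [(h 1 (by norm_num) 2 (by norm_num)).2]; exact Nat.eq_of_beq_eq_true h21
  · rw [AS_diag h (by norm_num)]; exact Nat.eq_of_beq_eq_true h22
  · exact Nat.eq_of_beq_eq_true h23
  · rw [(h 0 (by norm_num) 3 (by norm_num)).2]; exact Nat.eq_of_beq_eq_true h30
  · rw [(h 1 (by norm_num) 3 (by norm_num)).2]; exact Nat.eq_of_beq_eq_true h31
  · rw [(h 2 (by norm_num) 3 (by norm_num)).2]; exact Nat.eq_of_beq_eq_true h32
  · rw [AS_diag h (by norm_num)]; exact Nat.eq_of_beq_eq_true h33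

theorem all_mem {L : List ℕ} {p : ℕ → Bool} (h : L.all p = true) {x : ℕ} (hx : x ∈ L) : p x = true :=
  List.all_eq_true.1 h x hx

theorem SM_le_of_max {M : ℕ → ℕ → ℕ} (h : AS M) (hmax : ∀ j < 5, keyF M j ≤ keyF M 4)
    (hR : mk4 (M 0 1) (M 0 2) (M 0 3) (M 1 2) (M 1 3) (M 2 3) ∈ reps4) : SM M ≤ bnd := by
  have hd := dig4_spec h
  revert hR hd
  generalize mk4 (M 0 1) (M 0 2) (M 0 3) (M 1 2) (M 1 3) (M 2 3) = R
  intro hR hd
  have h0 := (h 0 (by norm_num) 4 (by norm_num))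
  have h1 := (h 1 (by norm_num) 4 (by norm_num))
  have h2 := (h 2 (by norm_num) 4 (by norm_num))
  have h3 := (h 3 (by norm_num) 4 (by norm_num))
  have hk := a3_spec (a3_spec (a3_spec (a3_spec (all_mem rep_ok hR) _ h0.1) _ h1.1) _ h2.1) _ h3.1
  have hx := a3_spec (a3_spec (a3_spec (a3_spec (all_mem ext_ok hR) _ h0.1) _ h1.1) _ h2.1) _ h3.1
  revert hk hx
  generalize hC : ext4 R (M 0 4) (M 1 4) (M 2 4) (M 3 4) = C
  intro hk hx
  simp only [extok, hC, Bool.and_eq_true] at hx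
  obtain ⟨⟨⟨⟨⟨⟨⟨⟨⟨hxx, h04⟩, h14⟩, h24⟩, h34⟩, h40⟩, h41⟩, h42⟩, h43⟩, h44⟩ := hx
  have hag : ∀ a < 5, ∀ b < 5, rel C a b = M a b := by
    intro a ha b hb
    rcases Nat.lt_succ_iff_lt_or_eq.1 ha with ha4 | ha4
    · rcases Nat.lt_succ_iff_lt_or_eq.1 hb with hb4 | hb4
      · rw [Nat.eq_of_beq_eq_true (a4_spec (a4_spec hxx a ha4) b hb4)]
        exact hd a ha4 b hb4
      · subst hb4
        interval_cases a
        · exact Nat.eq_of_beq_eq_true h04
        · exact Nat.eq_of_beq_eq_true h14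
        · exact Nat.eq_of_beq_eq_true h24
        · exact Nat.eq_of_beq_eq_true h34
    · subst ha4
      interval_cases b
      · rw [h0.2]; exact Nat.eq_of_beq_eq_true h40
      · rw [h1.2]; exact Nat.eq_of_beq_eq_true h41
      · rw [h2.2]; exact Nat.eq_of_beq_eq_true h42
      · rw [h3.2]; exact Nat.eq_of_beq_eq_true h43
      · rw [AS_diag h (by norm_num)]; exact Nat.eq_of_beq_eq_true h44
  have hAS : AS (rel C) := by
    intro a ha b hb
    rw [hag a ha b hb, hag b hb a ha]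
    exact h a ha b hb
  have hkey : ∀ j < 5, keyK C j = keyF M j := by
    intro j hj
    rw [keyK_eq]
    exact keyF_congr hag hj
  rw [← SM_congr hag, SM_rel hAS]
  have hok : keyok C = true := by
    unfold keyok
    rw [Bool.and_eq_true, Bool.and_eq_true, Bool.and_eq_true, hkey 0 (by norm_num), hkey 1 (by norm_num),
      hkey 2 (by norm_num), hkey 3 (by norm_num), hkey 4 (by norm_num)]
    exact ⟨⟨⟨Nat.ble_eq_true_of_le (hmax 0 (by norm_num)), Nat.ble_eq_true_of_le (hmax 1 (by norm_num))⟩,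
      Nat.ble_eq_true_of_le (hmax 2 (by norm_num))⟩, Nat.ble_eq_true_of_le (hmax 3 (by norm_num))⟩
  unfold chk at hk
  rw [hok] at hk
  exact Nat.le_of_ble_eq_true (by simpa using hk)

theorem SM_le {M : ℕ → ℕ → ℕ} (h : AS M) : SM M ≤ bnd := by
  -- move a point of largest key to the position `4`
  obtain ⟨v, -, hv⟩ := Finset.exists_max_image (Finset.univ : Finset (Fin 5)) (fun v => keyF M (v : ℕ))
    ⟨0, Finset.mem_univ _⟩
  set σ : Equiv.Perm (Fin 5) := Equiv.swap v 4 with hσ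
  have hσ4 : ren σ 4 = (v : ℕ) := by
    have : ren σ ((4 : Fin 5) : ℕ) = ((σ 4 : Fin 5) : ℕ) := ren_val σ 4
    rw [hσ, Equiv.swap_apply_right] at this
    exact this
  have hmax1 : ∀ j < 5, keyF (Mren M σ) j ≤ keyF (Mren M σ) 4 := by
    intro j _
    rw [keyF_Mren, keyF_Mren, hσ4]
    exact hv (σ (Fin.ofNat 5 j)) (Finset.mem_univ _)
  have h1 : AS (Mren M σ) := AS_Mren h σ
  rw [← SM_Mren M σ]
  generalize Mren M σ = M1 at hmax1 h1
  clear hσ4 hσ hv
  clear_value σ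
  clear σ v h M
  -- rename the first four points
  have hfour := (four_spec (h1 0 (by norm_num) 1 (by norm_num)).1 (h1 0 (by norm_num) 2 (by norm_num)).1
    (h1 0 (by norm_num) 3 (by norm_num)).1 (h1 1 (by norm_num) 2 (by norm_num)).1
    (h1 1 (by norm_num) 3 (by norm_num)).1 (h1 2 (by norm_num) 3 (by norm_num)).1).2
  obtain ⟨σ, s0, s1, s2, s3, s4⟩ := nthp_ex (w4 (M1 0 1) (M1 0 2) (M1 0 3) (M1 1 2) (M1 1 3) (M1 2 3))
  generalize nthp perms24 (w4 (M1 0 1) (M1 0 2) (M1 0 3) (M1 1 2) (M1 1 3) (M1 2 3)) = p at hfour s0 s1 s2 s3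
  have r0 : ren σ 0 = p.1 := by rw [← s0]; exact ren_val σ 0
  have r1 : ren σ 1 = p.2.1 := by rw [← s1]; exact ren_val σ 1
  have r2 : ren σ 2 = p.2.2.1 := by rw [← s2]; exact ren_val σ 2
  have r3 : ren σ 3 = p.2.2.2 := by rw [← s3]; exact ren_val σ 3
  have r4 : ren σ 4 = 4 := by
    have := ren_val σ 4
    rw [s4] at this
    exact this
  have hne : ∀ i : Fin 5, i ≠ 4 → (σ i : ℕ) < 4 := by
    intro i hi
    have h5 : (σ i : ℕ) < 5 := (σ i).isLt
    have h6 : (σ i : ℕ) ≠ 4 := by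
      intro hc
      apply hi
      apply σ.injective
      apply Fin.ext
      rw [hc, s4]
    omega
  have p0 : p.1 < 4 := by rw [← s0]; exact hne 0 (by decide)
  have p1 : p.2.1 < 4 := by rw [← s1]; exact hne 1 (by decide)
  have p2 : p.2.2.1 < 4 := by rw [← s2]; exact hne 2 (by decide)
  have p3 : p.2.2.2 < 4 := by rw [← s3]; exact hne 3 (by decide)
  have hd := dig4_spec h1
  rw [← SM_Mren M1 σ]
  apply SM_le_of_max (AS_Mren h1 σ)
  · intro j _
    rw [keyF_Mren, keyF_Mren, r4]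
    exact hmax1 _ (ren_lt σ j)
  · unfold pcode at hfour
    rw [hd _ p0 _ p1, hd _ p0 _ p2, hd _ p0 _ p3, hd _ p1 _ p2, hd _ p1 _ p3, hd _ p2 _ p3] at hfour
    unfold Mren
    rw [r0, r1, r2, r3]
    exact hfour

end Pool.Agent.MPecb
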