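import Pool.Agent.Lib.MP_ecb332_co.Base

/-!
Reduction of the weighted theorem to critical positive weights (compactness and induction on the number of
points).
-/

set_option autoImplicit false

namespace Pool.Agent.MPecb

open Finset

namespace Crit

lemma p3_nonneg (a b c : Fin 3) : 0 ≤ p3 a b c := by
  unfold p3; split_ifs <;> norm_num

lemma p3_swap1 (a b c : Fin 3) : p3 (-a) c b = p3 a b c := by
  have h : IsP3 (-a) c b ↔ IsP3 a b c := by revert a b c; decide
  unfold p3
  simp only [h]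

lemma p3_swap2 (a b c : Fin 3) : p3 b a (-c) = p3 a b c := by
  have h : IsP3 b a (-c) ↔ IsP3 a b c := by revert a b c; decide
  unfold p3
  simp only [h]

lemma self_zero {V : Type} (r : V → V → Fin 3) (hr : ∀ x y, r y x = - r x y) (x : V) : r x x = 0 := by
  have h := hr x x
  revert h
  generalize r x x = a
  revert a; decide

lemma T12 {V : Type} (r : V → V → Fin 3) (hr : ∀ x y, r y x = - r x y) (x y z : V) :
    p3 (r y x) (r y z) (r x z) = p3 (r x y) (r x z) (r y z) := by
  rw [hr x y, p3_swap1]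

lemma T23 {V : Type} (r : V → V → Fin 3) (hr : ∀ x y, r y x = - r x y) (x y z : V) :
    p3 (r x z) (r x y) (r z y) = p3 (r x y) (r x z) (r y z) := by
  rw [hr y z, p3_swap2]

lemma T_eq12 {V : Type} (r : V → V → Fin 3) (hr : ∀ x y, r y x = - r x y) (x z : V) :
    p3 (r x x) (r x z) (r x z) = 0 := by
  rw [self_zero r hr]
  have h : ¬ IsP3 0 (r x z) (r x z) := by generalize r x z = a; revert a; decide
  unfold p3; rw [if_neg h]

lemma T_eq13 {V : Type} (r : V → V → Fin 3) (hr : ∀ x y, r y x = - r x y) (x y : V) :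
    p3 (r x y) (r x x) (r y x) = 0 := by
  rw [T23 r hr x x y]; exact T_eq12 r hr x y

lemma T_eq23 {V : Type} (r : V → V → Fin 3) (hr : ∀ x y, r y x = - r x y) (x y : V) :
    p3 (r x y) (r x y) (r y y) = 0 := by
  rw [self_zero r hr]
  have h : ¬ IsP3 (r x y) (r x y) 0 := by generalize r x y = a; revert a; decide
  unfold p3; rw [if_neg h]

lemma EE_nonneg {V : Type} [Fintype V] (r : V → V → Fin 3) (ω : V → ℝ) (hω : ∀ x, 0 ≤ ω x) (x : V) :
    0 ≤ EE r ω x :=
  Finset.sum_nonneg fun y _ => Finset.sum_nonneg fun z _ =>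
    mul_nonneg (mul_nonneg (hω y) (hω z)) (p3_nonneg _ _ _)

lemma TT_smul {V : Type} [Fintype V] (r : V → V → Fin 3) (ω : V → ℝ) (s : ℝ) :
    TT r (fun x => s * ω x) = s ^ 3 * TT r ω := by
  unfold TT
  simp only [Finset.mul_sum]
  refine Finset.sum_congr rfl fun x _ => Finset.sum_congr rfl fun y _ => Finset.sum_congr rfl fun z _ => ?_
  ring

/-- moving the weight of one point -/
lemma TT_sub {V : Type} [Fintype V] [DecidableEq V] (r : V → V → Fin 3) (hr : ∀ x y, r y x = - r x y)
    (ω : V → ℝ) (x : V) (t : ℝ) :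
    TT r (fun y => ω y - if y = x then t else 0) = TT r ω - 3 * t * EE r ω x := by
  have hpt : ∀ a b c : V, (ω a - if a = x then t else 0) * (ω b - if b = x then t else 0)
      * (ω c - if c = x then t else 0) * p3 (r a b) (r a c) (r b c)
      = ω a * ω b * ω c * p3 (r a b) (r a c) (r b c)
        - (if a = x then t * (ω b * ω c * p3 (r a b) (r a c) (r b c)) else 0)
        - (if b = x then t * (ω a * ω c * p3 (r a b) (r a c) (r b c)) else 0)
        - (if c = x then t * (ω a * ω b * p3 (r a b) (r a c) (r b c)) else 0) := by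
    intro a b c
    by_cases ha : a = x
    · by_cases hb : b = x
      · rw [ha, hb, T_eq12 r hr]; simp
      · by_cases hc : c = x
        · rw [ha, hc, T_eq13 r hr]; simp
        · simp [ha, hb, hc]; ring
    · by_cases hb : b = x
      · by_cases hc : c = x
        · rw [hb, hc, T_eq23 r hr]; simp
        · simp [ha, hb, hc]; ring
      · by_cases hc : c = x
        · simp [ha, hb, hc]; ring
        · simp [ha, hb, hc]
  unfold TT
  simp only [hpt, Finset.sum_sub_distrib]
  have e1 : (∑ a, ∑ b, ∑ c, if a = x then t * (ω b * ω c * p3 (r a b) (r a c) (r b c)) else 0)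
      = t * EE r ω x := by
    have : ∀ a, (∑ b, ∑ c, if a = x then t * (ω b * ω c * p3 (r a b) (r a c) (r b c)) else 0)
        = if a = x then ∑ b, ∑ c, t * (ω b * ω c * p3 (r a b) (r a c) (r b c)) else 0 := by
      intro a; split_ifs <;> simp
    simp only [this, Finset.sum_ite_eq', Finset.mem_univ, if_true]
    unfold EE
    simp only [Finset.mul_sum]
  have e2 : (∑ a, ∑ b, ∑ c, if b = x then t * (ω a * ω c * p3 (r a b) (r a c) (r b c)) else 0)
      = t * EE r ω x := by
    have : ∀ a b, (∑ c, if b = x then t * (ω a * ω c * p3 (r a b) (r a c) (r b c)) else 0)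
        = if b = x then ∑ c, t * (ω a * ω c * p3 (r a b) (r a c) (r b c)) else 0 := by
      intro a b; split_ifs <;> simp
    simp only [this, Finset.sum_ite_eq', Finset.mem_univ, if_true]
    unfold EE
    simp only [Finset.mul_sum]
    refine Finset.sum_congr rfl fun a _ => Finset.sum_congr rfl fun c _ => ?_
    rw [← T12 r hr a x c]
  have e3 : (∑ a, ∑ b, ∑ c, if c = x then t * (ω a * ω b * p3 (r a b) (r a c) (r b c)) else 0)
      = t * EE r ω x := by
    simp only [Finset.sum_ite_eq', Finset.mem_univ, if_true]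
    unfold EE
    simp only [Finset.mul_sum]
    refine Finset.sum_congr rfl fun a _ => Finset.sum_congr rfl fun b _ => ?_
    rw [T23 r hr a x b, T12 r hr x a b]
  rw [e1, e2, e3]
  ring

lemma TT_cont {V : Type} [Fintype V] (r : V → V → Fin 3) : Continuous (fun ω : V → ℝ => TT r ω) := by
  unfold TT
  fun_prop

lemma TT_restrict {V : Type} [Fintype V] [DecidableEq V] (r : V → V → Fin 3) (ω : V → ℝ) (x0 : V)
    (h0 : ω x0 = 0) :
    TT r ω = TT (V := {y // y ≠ x0}) (fun a b => r a b) (fun a => ω a) := by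
  unfold TT
  rw [Fintype.sum_eq_add_sum_subtype_ne (fun x => ∑ y, ∑ z, ω x * ω y * ω z * p3 (r x y) (r x z) (r y z)) x0]
  simp only [h0, zero_mul, Finset.sum_const_zero, zero_add]
  refine Finset.sum_congr rfl fun x _ => ?_
  rw [Fintype.sum_eq_add_sum_subtype_ne (fun y => ∑ z, ω x * ω y * ω z * p3 (r x y) (r x z) (r y z)) x0]
  simp only [h0, mul_zero, zero_mul, Finset.sum_const_zero, zero_add]
  refine Finset.sum_congr rfl fun y _ => ?_
  rw [Fintype.sum_eq_add_sum_subtype_ne (fun z => ω x * ω y * ω z * p3 (r x y) (r x z) (r y z)) x0]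
  simp only [h0, mul_zero, zero_mul, zero_add]

lemma of_unit {V : Type} [Fintype V] (r : V → V → Fin 3)
    (h : ∀ ω : V → ℝ, (∀ x, 0 ≤ ω x) → ∑ x, ω x = 1 → TT r ω ≤ 2 / 5) (ω : V → ℝ)
    (hω : ∀ x, 0 ≤ ω x) : 5 * TT r ω ≤ 2 * (∑ x, ω x) ^ 3 := by
  rcases (Finset.sum_nonneg fun x _ => hω x : 0 ≤ ∑ x, ω x).eq_or_lt with hs | hs
  · have hz : ∀ x, ω x = 0 := by
      intro x
      exact (Finset.sum_eq_zero_iff_of_nonneg fun x _ => hω x).1 hs.symm x (Finset.mem_univ x)
    have : TT r ω = 0 := by unfold TT; simp [hz]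
    rw [this, ← hs]; norm_num
  · set s := ∑ x, ω x with hsdef
    have h1 := h (fun x => s⁻¹ * ω x) (fun x => mul_nonneg (inv_nonneg.2 hs.le) (hω x)) (by
      rw [← Finset.mul_sum, ← hsdef]; exact inv_mul_cancel₀ hs.ne')
    rw [TT_smul] at h1
    have h2 : TT r ω = s ^ 3 * (s⁻¹ ^ 3 * TT r ω) := by
      rw [← mul_assoc, ← mul_pow, mul_inv_cancel₀ hs.ne', one_pow, one_mul]
    rw [h2]
    have h3 : s ^ 3 * (s⁻¹ ^ 3 * TT r ω) ≤ s ^ 3 * (2 / 5) :=
      mul_le_mul_of_nonneg_left h1 (by positivity)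
    linarith

end Crit

open Crit

theorem weighted_of_critical
    (H : ∀ {V : Type} [Fintype V] [DecidableEq V] (r : V → V → Fin 3), (∀ x y, r y x = - r x y) →
      ∀ ω : V → ℝ, (∀ x, 0 < ω x) → ∑ x, ω x = 1 →
        (∀ ω' : V → ℝ, (∀ x, 0 ≤ ω' x) → (∃ x, ω' x = 0) → 5 * TT r ω' ≤ 2 * (∑ x, ω' x) ^ 3) →
        (∀ x, TT r ω ≤ EE r ω x) → TT r ω ≤ 2 / 5) :
    ∀ {V : Type} [Fintype V] [DecidableEq V] (r : V → V → Fin 3), (∀ x y, r y x = - r x y) →
      ∀ ω : V → ℝ, (∀ x, 0 ≤ ω x) → 5 * TT r ω ≤ 2 * (∑ x, ω x) ^ 3 := by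
  have main : ∀ n : ℕ, ∀ (V : Type) [Fintype V] [DecidableEq V] (r : V → V → Fin 3),
      Fintype.card V = n → (∀ x y, r y x = - r x y) →
      ∀ ω : V → ℝ, (∀ x, 0 ≤ ω x) → 5 * TT r ω ≤ 2 * (∑ x, ω x) ^ 3 := by
    intro n
    induction n with
    | zero =>
      intro V _ _ r hc hr ω hω
      have : IsEmpty V := Fintype.card_eq_zero_iff.1 hc
      unfold TT
      simp
    | succ n ih =>
      intro V _ _ r hc hr
      -- weights with a zero
      have hS : ∀ ω' : V → ℝ, (∀ x, 0 ≤ ω' x) → (∃ x, ω' x = 0) →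
          5 * TT r ω' ≤ 2 * (∑ x, ω' x) ^ 3 := by
        intro ω' hω' ⟨x0, hx0⟩
        have hcard : Fintype.card {y : V // y ≠ x0} = n := by
          rw [Fintype.card_subtype_compl, hc]; simp
        have h1 := ih {y : V // y ≠ x0} (fun a b => r a b) hcard (fun a b => hr a b)
          (fun a => ω' a) (fun a => hω' a)
        rw [TT_restrict r ω' x0 hx0, Fintype.sum_eq_add_sum_subtype_ne (fun x => ω' x) x0, hx0, zero_add]
        exact h1
      have hne : Nonempty V := by
        rw [← Fintype.card_pos_iff, hc]; omega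
      obtain ⟨ω₀, hω₀, hmax⟩ := (isCompact_stdSimplex ℝ V).exists_isMaxOn
        (⟨Pi.single hne.some 1, single_mem_stdSimplex ℝ hne.some⟩ : (stdSimplex ℝ V).Nonempty)
        (TT_cont r).continuousOn
      have hmax' : ∀ ω : V → ℝ, (∀ x, 0 ≤ ω x) → ∑ x, ω x = 1 → TT r ω ≤ TT r ω₀ :=
        fun ω h1 h2 => hmax ⟨h1, h2⟩
      have hscale : ∀ (ω : V → ℝ) (s : ℝ), 0 < s → (∀ x, 0 ≤ ω x) → ∑ x, ω x = s →
          TT r ω ≤ s ^ 3 * TT r ω₀ := by
        intro ω s hs h1 h2
        have h3 := hmax' (fun x => s⁻¹ * ω x) (fun x => mul_nonneg (inv_nonneg.2 hs.le) (h1 x)) (by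
          rw [← Finset.mul_sum, h2]; exact inv_mul_cancel₀ hs.ne')
        rw [TT_smul] at h3
        have h4 : TT r ω = s ^ 3 * (s⁻¹ ^ 3 * TT r ω) := by
          rw [← mul_assoc, ← mul_pow, mul_inv_cancel₀ hs.ne', one_pow, one_mul]
        rw [h4]
        exact mul_le_mul_of_nonneg_left h3 (by positivity)
      have hbound : TT r ω₀ ≤ 2 / 5 := by
        by_cases hz : ∃ x, ω₀ x = 0
        · have := hS ω₀ hω₀.1 hz
          rw [hω₀.2] at this
          linarith
        · push Not at hz
          have hpos : ∀ x, 0 < ω₀ x := fun x => lt_of_le_of_ne (hω₀.1 x) (Ne.symm (hz x))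
          refine H r hr ω₀ hpos hω₀.2 hS fun x => ?_
          by_contra hcon
          push Not at hcon
          have hE := EE_nonneg r ω₀ hω₀.1 x
          have hTpos : 0 < TT r ω₀ := lt_of_le_of_lt hE hcon
          obtain ⟨t, ht0, htx, ht1, htE⟩ : ∃ t : ℝ, 0 < t ∧ t ≤ ω₀ x ∧ t < 1 ∧
              t * TT r ω₀ < TT r ω₀ - EE r ω₀ x := by
            refine ⟨min (ω₀ x) (min (1 / 2) ((TT r ω₀ - EE r ω₀ x) / (2 * TT r ω₀))), ?_, ?_, ?_, ?_⟩
            · refine lt_min (hpos x) (lt_min (by norm_num) ?_)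
              exact div_pos (by linarith) (by linarith)
            · exact min_le_left _ _
            · exact lt_of_le_of_lt (le_trans (min_le_right _ _) (min_le_left _ _)) (by norm_num)
            · have h1 : min (ω₀ x) (min (1 / 2) ((TT r ω₀ - EE r ω₀ x) / (2 * TT r ω₀)))
                  ≤ (TT r ω₀ - EE r ω₀ x) / (2 * TT r ω₀) :=
                le_trans (min_le_right _ _) (min_le_right _ _)
              calc _ ≤ (TT r ω₀ - EE r ω₀ x) / (2 * TT r ω₀) * TT r ω₀ :=
                    mul_le_mul_of_nonneg_right h1 hTpos.le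
                _ = (TT r ω₀ - EE r ω₀ x) / 2 := by field_simp
                _ < _ := by linarith
          have h1 := hscale (fun y => ω₀ y - if y = x then t else 0) (1 - t) (by linarith) (by
            intro y
            by_cases hy : y = x
            · subst hy; simp only [if_true]; linarith
            · simp only [hy, if_false, sub_zero]; exact hω₀.1 y) (by
            rw [Finset.sum_sub_distrib, hω₀.2]; simp)
          rw [TT_sub r hr] at h1
          -- TT − 3 t EE ≤ (1−t)³ TT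
          have h2 : 3 * t * EE r ω₀ x ≥ (3 * t - 3 * t ^ 2 + t ^ 3) * TT r ω₀ := by nlinarith [h1]
          have h3 : (3 * t) * ((1 - t) * TT r ω₀) ≤ (3 * t) * EE r ω₀ x := by
            have : 0 ≤ t ^ 3 * TT r ω₀ := by positivity
            nlinarith [h2]
          have h4 : (1 - t) * TT r ω₀ ≤ EE r ω₀ x := le_of_mul_le_mul_left h3 (by linarith)
          nlinarith [h4, htE]
      exact of_unit r fun ω h1 h2 => le_trans (hmax' ω h1 h2) hbound
  intro V _ _ r hr ω hω
  exact main (Fintype.card V) V r rfl hr ω hω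

end Pool.Agent.MPecb
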