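import Pool.Agent.Lib.MP_ecb332_co.Data

/-!
Functions evaluated by the kernel in the order-5 certificate for problem MP_ecb332_co.

A relation on the points `0, …, 4` is a map `M` to `{0, 1, 2}`, `M a b = 1` meaning that there is an arc
from `a` to `b` and `M a b = 2` that there is an arc from `b` to `a`.  It is stored as a number `R`
whose base-4 digit number `5 * a + b` is `M a b`.
-/

set_option autoImplicit false
set_option linter.all false

namespace Pool.Agent.MPecb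

def c3 (a b c : Nat) : Nat := Nat.add a (Nat.add (Nat.mul 3 b) (Nat.mul 9 c))
def ng (a : Nat) : Nat := Nat.mod (Nat.sub 3 a) 3
def kQ (T k l : Nat) : Nat := Nat.land (Nat.shiftRight T (Nat.mul 48 (Nat.add (Nat.mul 27 k) l))) 281474976710655
def q3 (i k l : Nat) : Nat :=
  bif Nat.beq i 15 then oQ else bif Nat.beq i 0 then kQ tb0 k l else bif Nat.beq i 1 then kQ tb1 k l
  else bif Nat.beq i 2 then kQ tb2 k l else bif Nat.beq i 3 then kQ tb3 k l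
  else bif Nat.beq i 4 then kQ tb4 k l else bif Nat.beq i 5 then kQ tb5 k l else kQ tb6 k l
def ti (t : Nat) : Nat := Nat.land (Nat.shiftRight tabTI (Nat.mul 4 t)) 15
def q1 (k l : Nat) : Nat := kQ tab1 k l
def at3 (k : Nat) : Nat := Nat.land (Nat.shiftRight tabAT (Nat.mul 3 k)) 7
def stA (ti tj k l rde : Nat) : Nat :=
  bif Nat.beq ti 0 then
    (bif Nat.beq tj 0 then oT else
      Nat.add oT (Nat.add (Nat.div cL 2) (bif Nat.beq (ng rde) (Nat.mod k 3) then 0 else Nat.mul 800 cL)))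
  else bif Nat.beq tj 0 then
      Nat.add oT (Nat.add (Nat.div cL 2) (bif Nat.beq rde (Nat.mod l 3) then 0 else Nat.mul 800 cL))
  else bif Nat.beq ti tj then Nat.add oT (Nat.sub (Nat.mul 600 cL) (Nat.div (Nat.mul 7 cL) 50))
  else Nat.add (Nat.sub oT (Nat.add (Nat.mul 200 cL) (Nat.div (Nat.mul 7 cL) 50)))
     (bif Nat.beq rde (Nat.land (Nat.shiftRight 33 (Nat.mul 2 (Nat.mod (Nat.sub (Nat.add tj 3) ti) 4))) 3)
      then 0 else Nat.mul 150 cL)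
def st (k l rde : Nat) : Nat := stA (at3 k) (at3 l) k l rde
def f2 (t k l rde : Nat) : Nat := Nat.add (q3 (ti t) k l) (bif Nat.beq t 10 then st k l rde else oT)
def p3b (t : Nat) : Nat := Nat.land (Nat.shiftRight tabP3 t) 1
def sv (rab kc kd ke t : Nat) : Nat :=
  bif Nat.beq rab 2 then oS
  else bif (Nat.beq kc kd && Nat.beq kc ke) then
    bif Nat.beq rab 1 then
      (bif (Nat.beq kc 3 || Nat.beq kc 2) then
        Nat.sub (Nat.add oS (Nat.mul 2 cS1)) (Nat.mul (Nat.mul 5 cS1) (p3b t)) else oS)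
    else
      (bif Nat.beq kc 7 then
        Nat.sub (Nat.add oS (Nat.mul 2 cS2)) (Nat.mul (Nat.mul 5 cS2) (p3b t)) else oS)
  else oS

/-- digit of `R` at bit position `s` -/
def sh (R s : Nat) : Nat := Nat.land (Nat.shiftRight R s) 3
/-- the relation coded by `R` -/
def rel (R a b : Nat) : Nat := sh R (Nat.add (Nat.mul 10 a) (Nat.mul 2 b))

def f2K (R ab ac bc ad bd cd ae be ce de : Nat) : Nat :=
  f2 (c3 (sh R ab) (sh R ac) (sh R bc)) (c3 (sh R ad) (sh R bd) (sh R cd))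
    (c3 (sh R ae) (sh R be) (sh R ce)) (sh R de)
def q1K (R ab ac bc ad ae de : Nat) : Nat :=
  q1 (c3 (sh R ab) (sh R ac) (sh R bc)) (c3 (sh R ad) (sh R ae) (sh R de))
def svK (R ab ac bc ad bd ae be cd ce de : Nat) : Nat :=
  sv (sh R ab) (Nat.add (sh R ac) (Nat.mul 3 (sh R bc))) (Nat.add (sh R ad) (Nat.mul 3 (sh R bd)))
    (Nat.add (sh R ae) (Nat.mul 3 (sh R be))) (c3 (sh R cd) (sh R ce) (sh R de))
def muK (R ab ac bc : Nat) : Nat := p3b (c3 (sh R ab) (sh R ac) (sh R bc))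

def sum60 (R : Nat) : Nat :=
  Nat.add (f2K R 2 4 14 6 16 26 8 18 28 38)
    (Nat.add (f2K R 2 6 16 4 14 34 8 18 38 28)
    (Nat.add (f2K R 2 8 18 4 14 44 6 16 46 26)
    (Nat.add (f2K R 4 2 22 6 26 16 8 28 18 38)
    (Nat.add (f2K R 4 6 26 2 22 32 8 28 38 18)
    (Nat.add (f2K R 4 8 28 2 22 42 6 26 46 16)
    (Nat.add (f2K R 6 2 32 4 34 14 8 38 18 28)
    (Nat.add (f2K R 6 4 34 2 32 22 8 38 28 18)
    (Nat.add (f2K R 6 8 38 2 32 42 4 34 44 14)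
    (Nat.add (f2K R 8 2 42 4 44 14 6 46 16 26)
    (Nat.add (f2K R 8 4 44 2 42 22 6 46 26 16)
    (Nat.add (f2K R 8 6 46 2 42 32 4 44 34 14)
    (Nat.add (f2K R 10 14 4 16 6 26 18 8 28 38)
    (Nat.add (f2K R 10 16 6 14 4 34 18 8 38 28)
    (Nat.add (f2K R 10 18 8 14 4 44 16 6 46 26)
    (Nat.add (f2K R 14 10 20 16 26 6 18 28 8 38)
    (Nat.add (f2K R 14 16 26 10 20 30 18 28 38 8)
    (Nat.add (f2K R 14 18 28 10 20 40 16 26 46 6)
    (Nat.add (f2K R 16 10 30 14 34 4 18 38 8 28)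
    (Nat.add (f2K R 16 14 34 10 30 20 18 38 28 8)
    (Nat.add (f2K R 16 18 38 10 30 40 14 34 44 4)
    (Nat.add (f2K R 18 10 40 14 44 4 16 46 6 26)
    (Nat.add (f2K R 18 14 44 10 40 20 16 46 26 6)
    (Nat.add (f2K R 18 16 46 10 40 30 14 44 34 4)
    (Nat.add (f2K R 20 22 2 26 6 16 28 8 18 38)
    (Nat.add (f2K R 20 26 6 22 2 32 28 8 38 18)
    (Nat.add (f2K R 20 28 8 22 2 42 26 6 46 16)
    (Nat.add (f2K R 22 20 10 26 16 6 28 18 8 38)
    (Nat.add (f2K R 22 26 16 20 10 30 28 18 38 8)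
    (Nat.add (f2K R 22 28 18 20 10 40 26 16 46 6)
    (Nat.add (f2K R 26 20 30 22 32 2 28 38 8 18)
    (Nat.add (f2K R 26 22 32 20 30 10 28 38 18 8)
    (Nat.add (f2K R 26 28 38 20 30 40 22 32 42 2)
    (Nat.add (f2K R 28 20 40 22 42 2 26 46 6 16)
    (Nat.add (f2K R 28 22 42 20 40 10 26 46 16 6)
    (Nat.add (f2K R 28 26 46 20 40 30 22 42 32 2)
    (Nat.add (f2K R 30 32 2 34 4 14 38 8 18 28)
    (Nat.add (f2K R 30 34 4 32 2 22 38 8 28 18)
    (Nat.add (f2K R 30 38 8 32 2 42 34 4 44 14)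
    (Nat.add (f2K R 32 30 10 34 14 4 38 18 8 28)
    (Nat.add (f2K R 32 34 14 30 10 20 38 18 28 8)
    (Nat.add (f2K R 32 38 18 30 10 40 34 14 44 4)
    (Nat.add (f2K R 34 30 20 32 22 2 38 28 8 18)
    (Nat.add (f2K R 34 32 22 30 20 10 38 28 18 8)
    (Nat.add (f2K R 34 38 28 30 20 40 32 22 42 2)
    (Nat.add (f2K R 38 30 40 32 42 2 34 44 4 14)
    (Nat.add (f2K R 38 32 42 30 40 10 34 44 14 4)
    (Nat.add (f2K R 38 34 44 30 40 20 32 42 22 2)
    (Nat.add (f2K R 40 42 2 44 4 14 46 6 16 26)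
    (Nat.add (f2K R 40 44 4 42 2 22 46 6 26 16)
    (Nat.add (f2K R 40 46 6 42 2 32 44 4 34 14)
    (Nat.add (f2K R 42 40 10 44 14 4 46 16 6 26)
    (Nat.add (f2K R 42 44 14 40 10 20 46 16 26 6)
    (Nat.add (f2K R 42 46 16 40 10 30 44 14 34 4)
    (Nat.add (f2K R 44 40 20 42 22 2 46 26 6 16)
    (Nat.add (f2K R 44 42 22 40 20 10 46 26 16 6)
    (Nat.add (f2K R 44 46 26 40 20 30 42 22 32 2)
    (Nat.add (f2K R 46 40 30 42 32 2 44 34 4 14)
    (Nat.add (f2K R 46 42 32 40 30 10 44 34 14 4)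
    (Nat.add (f2K R 46 44 34 40 30 20 42 32 22 2)
    (0))))))))))))))))))))))))))))))))))))))))))))))))))))))))))))

def sum15 (R : Nat) : Nat :=
  Nat.add (q1K R 2 4 14 6 8 38)
    (Nat.add (q1K R 2 6 16 4 8 28)
    (Nat.add (q1K R 2 8 18 4 6 26)
    (Nat.add (q1K R 10 14 4 16 18 38)
    (Nat.add (q1K R 10 16 6 14 18 28)
    (Nat.add (q1K R 10 18 8 14 16 26)
    (Nat.add (q1K R 20 22 2 26 28 38)
    (Nat.add (q1K R 20 26 6 22 28 18)
    (Nat.add (q1K R 20 28 8 22 26 16)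
    (Nat.add (q1K R 30 32 2 34 38 28)
    (Nat.add (q1K R 30 34 4 32 38 18)
    (Nat.add (q1K R 30 38 8 32 34 14)
    (Nat.add (q1K R 40 42 2 44 46 26)
    (Nat.add (q1K R 40 44 4 42 46 16)
    (Nat.add (q1K R 40 46 6 42 44 14)
    (0)))))))))))))))

def sum20 (R : Nat) : Nat :=
  Nat.add (svK R 2 4 14 6 16 8 18 26 28 38)
    (Nat.add (svK R 4 2 22 6 26 8 28 16 18 38)
    (Nat.add (svK R 6 2 32 4 34 8 38 14 18 28)
    (Nat.add (svK R 8 2 42 4 44 6 46 14 16 26)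
    (Nat.add (svK R 10 14 4 16 6 18 8 26 28 38)
    (Nat.add (svK R 14 10 20 16 26 18 28 6 8 38)
    (Nat.add (svK R 16 10 30 14 34 18 38 4 8 28)
    (Nat.add (svK R 18 10 40 14 44 16 46 4 6 26)
    (Nat.add (svK R 20 22 2 26 6 28 8 16 18 38)
    (Nat.add (svK R 22 20 10 26 16 28 18 6 8 38)
    (Nat.add (svK R 26 20 30 22 32 28 38 2 8 18)
    (Nat.add (svK R 28 20 40 22 42 26 46 2 6 16)
    (Nat.add (svK R 30 32 2 34 4 38 8 14 18 28)
    (Nat.add (svK R 32 30 10 34 14 38 18 4 8 28)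
    (Nat.add (svK R 34 30 20 32 22 38 28 2 8 18)
    (Nat.add (svK R 38 30 40 32 42 34 44 2 4 14)
    (Nat.add (svK R 40 42 2 44 4 46 6 14 16 26)
    (Nat.add (svK R 42 40 10 44 14 46 16 4 6 26)
    (Nat.add (svK R 44 40 20 42 22 46 26 2 6 16)
    (Nat.add (svK R 46 40 30 42 32 44 34 2 4 14)
    (0))))))))))))))))))))

def sum10 (R : Nat) : Nat :=
  Nat.add (muK R 2 4 14)
    (Nat.add (muK R 2 6 16)
    (Nat.add (muK R 2 8 18)
    (Nat.add (muK R 4 6 26)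
    (Nat.add (muK R 4 8 28)
    (Nat.add (muK R 6 8 38)
    (Nat.add (muK R 14 16 26)
    (Nat.add (muK R 14 18 28)
    (Nat.add (muK R 16 18 38)
    (Nat.add (muK R 26 28 38)
    (0))))))))))

def totK (R : Nat) : Nat :=
  Nat.add (Nat.mul 2 (sum60 R)) (Nat.add (Nat.mul 8 (sum15 R))
   (Nat.add (Nat.mul 6 (sum20 R)) (Nat.mul (Nat.mul 60 cMU) (sum10 R))))
def bnd : Nat := Nat.mul 120 (Nat.add oQ (Nat.add oT (Nat.add oQ (Nat.add oS (Nat.mul 2 cMU)))))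

def kz (x : Nat) : Nat := bif Nat.beq x 0 then 5 else bif Nat.beq x 1 then 1 else 0
def keyK (R v : Nat) : Nat :=
  Nat.add (kz (rel R v 0)) (Nat.add (kz (rel R v 1)) (Nat.add (kz (rel R v 2))
   (Nat.add (kz (rel R v 3)) (kz (rel R v 4)))))
def keyok (R : Nat) : Bool :=
  Nat.ble (keyK R 0) (keyK R 4) && Nat.ble (keyK R 1) (keyK R 4) && Nat.ble (keyK R 2) (keyK R 4)
    && Nat.ble (keyK R 3) (keyK R 4)
def chk (R : Nat) : Bool := !(keyok R) || Nat.ble (totK R) bnd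
def ext (R i e : Nat) : Nat :=
  Nat.add R (Nat.add (Nat.mul e (Nat.pow 2 (Nat.add (Nat.mul 10 i) 8)))
    (Nat.mul (ng e) (Nat.pow 2 (Nat.add 40 (Nat.mul 2 i)))))
def ext4 (R e0 e1 e2 e3 : Nat) : Nat := ext (ext (ext (ext R 0 e0) 1 e1) 2 e2) 3 e3
def a3 (p : Nat → Bool) : Bool := p 0 && p 1 && p 2
def chkRep (R : Nat) : Bool :=
  a3 fun e0 => a3 fun e1 => a3 fun e2 => a3 fun e3 => chk (ext4 R e0 e1 e2 e3)

end Pool.Agent.MPecb
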