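import Pool.Agent.Lib.MP_ecb332_co.Base

/-!
The last step: the weighted theorem, applied to the lexicographic square of a digraph, gives the exact bound
of the problem.
-/

set_option autoImplicit false

namespace Pool.Agent.MPecb

open Finset

namespace Lex

/-- the relation of a digraph -/
noncomputable def relOf {V : Type} (A : V → V → Prop) (x y : V) : Fin 3 := by
  classical exact if A x y then 1 else if A y x then 2 else 0

lemma relOf_neg {V : Type} (A : V → V → Prop) (hA : ∀ u v, A u v → ¬ A v u) (x y : V) :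
    relOf A y x = - relOf A x y := by
  classical
  unfold relOf
  by_cases h1 : A x y
  · have h2 : ¬ A y x := hA _ _ h1
    simp [h1, h2]; decide
  · by_cases h2 : A y x
    · simp [h1, h2]; decide
    · simp [h1, h2]

/-- indicator of the directed path `x → y → z` -/
noncomputable def q3 {V : Type} (r : V → V → Fin 3) (x y z : V) : ℝ :=
  if r x y = 1 ∧ r y z = 1 ∧ r x z = 0 then 1 else 0

lemma p3_decomp (a b c : Fin 3) :
    p3 a b c = (if a = 1 ∧ c = 1 ∧ b = 0 then (1 : ℝ) else 0) + (if c = 2 ∧ a = 2 ∧ b = 0 then (1 : ℝ) else 0)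
      + (if a = 2 ∧ b = 1 ∧ c = 0 then (1 : ℝ) else 0) + (if b = 2 ∧ a = 1 ∧ c = 0 then (1 : ℝ) else 0)
      + (if b = 1 ∧ c = 2 ∧ a = 0 then (1 : ℝ) else 0) + (if c = 1 ∧ b = 2 ∧ a = 0 then (1 : ℝ) else 0) := by
  unfold p3 IsP3
  fin_cases a <;> fin_cases b <;> fin_cases c <;> simp

lemma neg_eq_one_iff3 (a : Fin 3) : -a = 1 ↔ a = 2 := by
  revert a; decide

lemma neg_eq_zero_iff3 (a : Fin 3) : -a = 0 ↔ a = 0 := by
  revert a; decide

lemma p3_eq_q3 {V : Type} (r : V → V → Fin 3) (hr : ∀ x y, r y x = - r x y) (x y z : V) :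
    p3 (r x y) (r x z) (r y z) = q3 r x y z + q3 r z y x + q3 r y x z + q3 r z x y + q3 r x z y
      + q3 r y z x := by
  rw [p3_decomp]
  unfold q3
  rw [hr y z, hr x y, hr x z]
  simp only [neg_eq_one_iff3, neg_eq_zero_iff3]

lemma TT_eq_six {V : Type} [Fintype V] (r : V → V → Fin 3) (hr : ∀ x y, r y x = - r x y) :
    TT r (fun _ => 1) = 6 * ∑ x, ∑ y, ∑ z, q3 r x y z := by
  unfold TT
  simp only [one_mul, p3_eq_q3 r hr, Finset.sum_add_distrib]
  have e1 : ∑ x, ∑ y, ∑ z, q3 r z y x = ∑ x, ∑ y, ∑ z, q3 r x y z := by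
    calc ∑ x, ∑ y, ∑ z, q3 r z y x = ∑ x, ∑ z, ∑ y, q3 r z y x :=
          Finset.sum_congr rfl fun x _ => Finset.sum_comm
      _ = ∑ z, ∑ x, ∑ y, q3 r z y x := Finset.sum_comm
      _ = ∑ z, ∑ y, ∑ x, q3 r z y x := Finset.sum_congr rfl fun x _ => Finset.sum_comm
  have e2 : ∑ x, ∑ y, ∑ z, q3 r y x z = ∑ x, ∑ y, ∑ z, q3 r x y z := Finset.sum_comm
  have e3 : ∑ x, ∑ y, ∑ z, q3 r z x y = ∑ x, ∑ y, ∑ z, q3 r x y z := by
    calc ∑ x, ∑ y, ∑ z, q3 r z x y = ∑ x, ∑ z, ∑ y, q3 r z x y :=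
          Finset.sum_congr rfl fun x _ => Finset.sum_comm
      _ = ∑ z, ∑ x, ∑ y, q3 r z x y := Finset.sum_comm
  have e4 : ∑ x, ∑ y, ∑ z, q3 r x z y = ∑ x, ∑ y, ∑ z, q3 r x y z :=
    Finset.sum_congr rfl fun x _ => Finset.sum_comm
  have e5 : ∑ x, ∑ y, ∑ z, q3 r y z x = ∑ x, ∑ y, ∑ z, q3 r x y z := by
    calc ∑ x, ∑ y, ∑ z, q3 r y z x = ∑ y, ∑ x, ∑ z, q3 r y z x := Finset.sum_comm
      _ = ∑ y, ∑ z, ∑ x, q3 r y z x := Finset.sum_congr rfl fun x _ => Finset.sum_comm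
  rw [e1, e2, e3, e4, e5]
  ring

/-- the lexicographic square of a relation -/
def lexSq {V : Type} [DecidableEq V] (r : V → V → Fin 3) (x y : V × V) : Fin 3 :=
  if x.1 = y.1 then r x.2 y.2 else r x.1 y.1

lemma lexSq_neg {V : Type} [DecidableEq V] (r : V → V → Fin 3) (hr : ∀ x y, r y x = - r x y)
    (x y : V × V) : lexSq r y x = - lexSq r x y := by
  unfold lexSq
  by_cases h : x.1 = y.1
  · simp [h, hr x.2 y.2]
  · have h' : ¬ y.1 = x.1 := fun e => h e.symm
    simp [h, h', hr x.1 y.1]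

lemma p3_nonneg (a b c : Fin 3) : 0 ≤ p3 a b c := by
  unfold p3; split_ifs <;> norm_num

lemma self_zero {V : Type} (r : V → V → Fin 3) (hr : ∀ x y, r y x = - r x y) (x : V) : r x x = 0 := by
  have h := hr x x
  revert h
  generalize r x x = a
  revert a; decide

lemma p3_z1 (b : Fin 3) : p3 0 b b = 0 := by
  unfold p3 IsP3; fin_cases b <;> simp

lemma p3_z2 (a : Fin 3) : p3 a 0 (-a) = 0 := by
  have h : ¬ IsP3 a 0 (-a) := by revert a; decide
  unfold p3
  rw [if_neg h]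

lemma p3_z3 (a : Fin 3) : p3 a a 0 = 0 := by
  unfold p3 IsP3; fin_cases a <;> simp

lemma lex_point {V : Type} [DecidableEq V] (r : V → V → Fin 3) (hr : ∀ x y, r y x = - r x y)
    (x y z : V × V) :
    p3 (r x.1 y.1) (r x.1 z.1) (r y.1 z.1)
      + (if x.1 = y.1 then (if x.1 = z.1 then p3 (r x.2 y.2) (r x.2 z.2) (r y.2 z.2) else 0) else 0)
      ≤ p3 (lexSq r x y) (lexSq r x z) (lexSq r y z) := by
  obtain ⟨a, b⟩ := x
  obtain ⟨a', b'⟩ := y
  obtain ⟨a'', b''⟩ := z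
  simp only [lexSq]
  by_cases h1 : a = a'
  · subst h1
    by_cases h2 : a = a''
    · subst h2
      simp [self_zero r hr, p3_z1]
    · simp only [h2, if_true, if_false, self_zero r hr, p3_z1]
      have := p3_nonneg (r b b') (r a a'') (r a a'')
      simpa using this
  · by_cases h2 : a = a''
    · subst h2
      simp only [h1, if_false, add_zero, self_zero r hr]
      rw [hr a a', p3_z2]
      exact p3_nonneg _ _ _
    · by_cases h3 : a' = a''
      · subst h3
        simp only [h1, if_false, add_zero, self_zero r hr, p3_z3]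
        exact p3_nonneg _ _ _
      · simp [h1, h2, h3]

lemma TT_lex {V : Type} [Fintype V] [DecidableEq V] (r : V → V → Fin 3) (hr : ∀ x y, r y x = - r x y) :
    ((Fintype.card V : ℝ) ^ 3 + Fintype.card V) * TT r (fun _ => 1) ≤ TT (lexSq r) (fun _ => 1) := by
  have key : ∑ x : V × V, ∑ y : V × V, ∑ z : V × V, (p3 (r x.1 y.1) (r x.1 z.1) (r y.1 z.1)
      + (if x.1 = y.1 then (if x.1 = z.1 then p3 (r x.2 y.2) (r x.2 z.2) (r y.2 z.2) else 0) else 0))
      ≤ TT (lexSq r) (fun _ => 1) := by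
    unfold TT
    simp only [one_mul]
    exact Finset.sum_le_sum fun x _ => Finset.sum_le_sum fun y _ => Finset.sum_le_sum fun z _ =>
      lex_point r hr x y z
  refine le_trans (le_of_eq ?_) key
  simp only [Finset.sum_add_distrib, add_mul]
  congr 1
  · unfold TT
    simp only [Fintype.sum_prod_type, one_mul, Finset.sum_const, Finset.card_univ, nsmul_eq_mul]
    simp only [← Finset.mul_sum]
    ring
  · unfold TT
    simp only [one_mul]
    have : ∀ x : V × V, (∑ y : V × V, ∑ z : V × V,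
        (if x.1 = y.1 then (if x.1 = z.1 then p3 (r x.2 y.2) (r x.2 z.2) (r y.2 z.2) else 0) else (0:ℝ)))
        = ∑ b', ∑ b'', p3 (r x.2 b') (r x.2 b'') (r b' b'') := by
      intro x
      rw [Fintype.sum_prod_type, Finset.sum_comm]
      refine Finset.sum_congr rfl fun b' _ => ?_
      have h1 : ∀ a' : V, (∑ z : V × V,
          (if x.1 = a' then (if x.1 = z.1 then p3 (r x.2 b') (r x.2 z.2) (r b' z.2) else 0) else (0:ℝ)))
          = if x.1 = a' then (∑ z : V × V, if x.1 = z.1 then p3 (r x.2 b') (r x.2 z.2) (r b' z.2) else 0)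
            else 0 := by
        intro a'
        split_ifs
        · rfl
        · simp
      simp only [h1, Finset.sum_ite_eq, Finset.mem_univ, if_true]
      rw [Fintype.sum_prod_type, Finset.sum_comm]
      refine Finset.sum_congr rfl fun b'' _ => ?_
      simp
    simp only [this]
    rw [Fintype.sum_prod_type]
    simp only [Finset.sum_const, Finset.card_univ, nsmul_eq_mul]

lemma sum_q3 {V : Type} [Fintype V] (A : V → V → Prop)
    (hA : ∀ u v, A u v → ¬ A v u) :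
    ∑ x, ∑ y, ∑ z, q3 (relOf A) x y z =
      ({p : V × V × V | A p.1 p.2.1 ∧ A p.2.1 p.2.2 ∧ ¬ A p.1 p.2.2 ∧ ¬ A p.2.2 p.1}.ncard : ℝ) := by
  classical
  have h1 : ∀ x y z : V, q3 (relOf A) x y z = if (A x y ∧ A y z ∧ ¬ A x z ∧ ¬ A z x) then 1 else 0 := by
    intro x y z
    unfold q3
    congr 1
    have e1 : ∀ u v, relOf A u v = 1 ↔ A u v := by
      intro u v; unfold relOf; split_ifs with h h' <;> simp [h]
    have e0 : ∀ u v, relOf A u v = 0 ↔ (¬ A u v ∧ ¬ A v u) := by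
      intro u v; unfold relOf; split_ifs with h h' <;> simp [*]
    rw [e1, e1, e0]
  simp only [h1]
  have hset : {p : V × V × V | A p.1 p.2.1 ∧ A p.2.1 p.2.2 ∧ ¬ A p.1 p.2.2 ∧ ¬ A p.2.2 p.1}
      = ((Finset.univ.filter fun p : V × V × V =>
        A p.1 p.2.1 ∧ A p.2.1 p.2.2 ∧ ¬ A p.1 p.2.2 ∧ ¬ A p.2.2 p.1 : Finset (V × V × V)) : Set _) := by
    ext p; simp
  rw [hset, Set.ncard_coe_finset, Finset.card_filter, Nat.cast_sum, Fintype.sum_prod_type]
  refine Finset.sum_congr rfl fun x _ => ?_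
  rw [Fintype.sum_prod_type]
  simp

end Lex

open Lex

theorem frozen_of_weighted
    (H : ∀ {V : Type} [Fintype V] [DecidableEq V] (r : V → V → Fin 3), (∀ x y, r y x = - r x y) →
      ∀ ω : V → ℝ, (∀ x, 0 ≤ ω x) → 5 * TT r ω ≤ 2 * (∑ x, ω x) ^ 3) :
    ∀ (n : ℕ) (G : Digraph (Fin n)),
      (∀ u v : Fin n, G.Adj u v → ¬ G.Adj v u) →
      15 * {p : Fin n × Fin n × Fin n |
              G.Adj p.1 p.2.1 ∧ G.Adj p.2.1 p.2.2 ∧
              ¬ G.Adj p.1 p.2.2 ∧ ¬ G.Adj p.2.2 p.1}.ncard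
        ≤ (n - 1) * n * (n + 1) := by
  intro n G hG
  set P := {p : Fin n × Fin n × Fin n |
              G.Adj p.1 p.2.1 ∧ G.Adj p.2.1 p.2.2 ∧
              ¬ G.Adj p.1 p.2.2 ∧ ¬ G.Adj p.2.2 p.1}.ncard with hP
  have hr : ∀ x y, relOf G.Adj y x = - relOf G.Adj x y := fun x y => relOf_neg G.Adj hG x y
  have h1 := TT_lex (relOf G.Adj) hr
  have h2 := H (lexSq (relOf G.Adj)) (fun x y => lexSq_neg _ hr x y) (fun _ => 1) (fun _ => zero_le_one)
  rw [TT_eq_six (relOf G.Adj) hr, sum_q3 G.Adj hG, ← hP] at h1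
  simp only [Finset.sum_const, Finset.card_univ, Fintype.card_prod, Fintype.card_fin, nsmul_eq_mul,
    mul_one, Nat.cast_mul] at h1 h2
  have h3 : (5 : ℝ) * (((n : ℝ) ^ 3 + n) * (6 * P)) ≤ 2 * ((n : ℝ) * n) ^ 3 := by linarith
  rcases Nat.eq_zero_or_pos n with hn | hn
  · subst hn
    have : P = 0 := by
      rw [hP, Set.ncard_eq_zero]
      ext p; exact p.1.elim0
    omega
  · have hn' : (1 : ℝ) ≤ n := by exact_mod_cast hn
    have h4 : (15 : ℝ) * P * ((n : ℝ) ^ 2 + 1) ≤ (n : ℝ) ^ 5 := by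
      have : (2 * (n : ℝ)) * ((15 : ℝ) * P * ((n : ℝ) ^ 2 + 1)) ≤ (2 * (n : ℝ)) * (n : ℝ) ^ 5 := by
        nlinarith [h3]
      exact le_of_mul_le_mul_left this (by positivity)
    have h5 : (n : ℝ) ^ 5 < ((n : ℝ) ^ 3 - n + 1) * ((n : ℝ) ^ 2 + 1) := by nlinarith
    have h6 : (15 : ℝ) * P < (n : ℝ) ^ 3 - n + 1 := by
      by_contra hcon
      push Not at hcon
      have : ((n : ℝ) ^ 3 - n + 1) * ((n : ℝ) ^ 2 + 1) ≤ 15 * P * ((n : ℝ) ^ 2 + 1) :=
        mul_le_mul_of_nonneg_right hcon (by positivity)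
      linarith
    obtain ⟨m, rfl⟩ : ∃ m, n = m + 1 := ⟨n - 1, by omega⟩
    have h7 : 15 * P < m * (m + 1) * (m + 1 + 1) + 1 := by
      have : ((15 * P : ℕ) : ℝ) < ((m * (m + 1) * (m + 1 + 1) + 1 : ℕ) : ℝ) := by
        push_cast
        push_cast at h6
        nlinarith [h6]
      exact_mod_cast this
    simp only [Nat.add_sub_cancel]
    omega

end Pool.Agent.MPecb
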