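import Pool.Agent.Lib.MP_ecb332_co.Base
import Pool.Agent.Lib.MP_ecb332_co.Comb3

/-!
From the five-point inequality to a root with a small statistic.
-/

set_option autoImplicit false

namespace Pool.Agent.MPecb

open Finset

variable {V : Type*} [Fintype V] [DecidableEq V]

/-! ### Gram forms are nonnegative -/

theorem dotI_eq (s t : List ℤ) : ∀ {N : ℕ}, s.length ≤ N →
    dotI s t = ∑ m ∈ Finset.range N, s.getD m 0 * t.getD m 0 := by
  induction s generalizing t with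
  | nil =>
    intro N _
    have : dotI [] t = 0 := by cases t <;> rfl
    rw [this]
    simp
  | cons a s ih =>
    intro N hN
    cases N with
    | zero => simp at hN
    | succ N =>
      rw [Finset.sum_range_succ']
      cases t with
      | nil =>
        have : dotI (a :: s) [] = 0 := rfl
        rw [this]
        simp
      | cons b t =>
        have h1 : dotI (a :: s) (b :: t) = a * b + dotI s t := rfl
        rw [h1, ih t (by simpa using hN)]
        simp only [List.getD_cons_succ, List.getD_cons_zero]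
        ring

theorem gram_nonneg {U : Type*} [Fintype U] (w : U → ℝ) (u : U → List ℤ) :
    0 ≤ ∑ d, ∑ e, w d * w e * ((dotI (u d) (u e) : ℤ) : ℝ) := by
  obtain ⟨N, hN⟩ : ∃ N, ∀ d, (u d).length ≤ N :=
    ⟨∑ d, (u d).length, fun d => Finset.single_le_sum (f := fun d => (u d).length)
      (fun _ _ => Nat.zero_le _) (Finset.mem_univ d)⟩
  have h1 : ∀ d e, w d * w e * ((dotI (u d) (u e) : ℤ) : ℝ) =
      ∑ m ∈ Finset.range N, (w d * (((u d).getD m 0 : ℤ) : ℝ)) * (w e * (((u e).getD m 0 : ℤ) : ℝ)) := by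
    intro d e
    rw [dotI_eq (u d) (u e) (hN d)]
    push_cast
    rw [Finset.mul_sum]
    apply Finset.sum_congr rfl
    intro m _
    ring
  have h2 : ∑ d, ∑ e, w d * w e * ((dotI (u d) (u e) : ℤ) : ℝ) =
      ∑ m ∈ Finset.range N, (∑ d, w d * (((u d).getD m 0 : ℤ) : ℝ)) ^ 2 := by
    simp only [h1]
    rw [Finset.sum_congr rfl (fun d _ => Finset.sum_comm), Finset.sum_comm]
    apply Finset.sum_congr rfl
    intro m _
    rw [sq, Finset.sum_mul_sum]
  rw [h2]
  exact Finset.sum_nonneg fun m _ => sq_nonneg _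

/-! ### The relation on five points given by a tuple of vertices -/

def Mx (r : V → V → Fin 3) (x : Fin 5 → V) (a b : ℕ) : ℕ := (r (x (Fin.ofNat 5 a)) (x (Fin.ofNat 5 b))).val

theorem neg_val : ∀ a : Fin 3, (-a).val = ng a.val := by decide

omit [Fintype V] [DecidableEq V] in
theorem AS_Mx {r : V → V → Fin 3} (hr : ∀ x y, r y x = - r x y) (x : Fin 5 → V) : AS (Mx r x) := by
  intro a _ b _
  refine ⟨Fin.isLt _, ?_⟩
  unfold Mx
  rw [hr]
  exact neg_val _

omit [Fintype V] [DecidableEq V] in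
theorem FT_Mx (r : V → V → Fin 3) (x : Fin 5 → V) (π : Equiv.Perm (Fin 5)) :
    FT (Mx r x) (tupOf π) = FT (Mx r (x ∘ π)) (0, 1, 2, 3, 4) := by
  have e : ∀ i j : Fin 5, Mx r x ((π i : Fin 5) : ℕ) ((π j : Fin 5) : ℕ) = (r (x (π i)) (x (π j))).val := by
    intro i j
    unfold Mx
    rw [Fin.ofNat_val_eq_self, Fin.ofNat_val_eq_self]
  unfold FT F2 F1 FS FM tupOf
  simp only [e]
  rfl

/-- product of the five weights -/
noncomputable def W5 (ω : V → ℝ) (x : Fin 5 → V) : ℝ := ∏ i, ω (x i)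

omit [DecidableEq V] in
theorem sum_W5_perm (ω : V → ℝ) (g : (Fin 5 → V) → ℝ) (π : Equiv.Perm (Fin 5)) :
    ∑ x, W5 ω x * g (x ∘ π) = ∑ x, W5 ω x * g x := by
  rw [← Equiv.sum_comp (Equiv.arrowCongr π.symm (Equiv.refl V)) (fun x => W5 ω x * g x)]
  apply Finset.sum_congr rfl
  intro x _
  have h1 : (Equiv.arrowCongr π.symm (Equiv.refl V)) x = x ∘ π := by
    ext i
    simp [Equiv.arrowCongr]
  rw [h1]
  congr 1
  unfold W5
  exact (Equiv.prod_comp π (fun i => ω (x i))).symm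

omit [DecidableEq V] in
theorem sum_five (ω : V → ℝ) (H : V → V → V → V → V → ℝ) :
    ∑ x : Fin 5 → V, W5 ω x * H (x 0) (x 1) (x 2) (x 3) (x 4) =
      ∑ a, ∑ b, ∑ c, ∑ d, ∑ e, ω a * ω b * ω c * ω d * ω e * H a b c d e := by
  let φ : (Fin 5 → V) ≃ V × V × V × V × V :=
    { toFun := fun x => (x 0, x 1, x 2, x 3, x 4)
      invFun := fun p => ![p.1, p.2.1, p.2.2.1, p.2.2.2.1, p.2.2.2.2]
      left_inv := fun x => by ext i; fin_cases i <;> rfl
      right_inv := fun p => rfl }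
  rw [← Equiv.sum_comp φ.symm]
  rw [Fintype.sum_prod_type]
  apply Finset.sum_congr rfl
  intro a _
  rw [Fintype.sum_prod_type]
  apply Finset.sum_congr rfl
  intro b _
  rw [Fintype.sum_prod_type]
  apply Finset.sum_congr rfl
  intro c _
  rw [Fintype.sum_prod_type]
  apply Finset.sum_congr rfl
  intro d _
  apply Finset.sum_congr rfl
  intro e _
  have h1 : φ.symm (a, b, c, d, e) = ![a, b, c, d, e] := rfl
  rw [h1]
  congr 1
  unfold W5
  rw [Fin.prod_univ_five]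
  rfl

omit [DecidableEq V] in
theorem sum_W5 (ω : V → ℝ) (hs : ∑ x, ω x = 1) : ∑ x : Fin 5 → V, W5 ω x = 1 := by
  have h := sum_five ω (fun _ _ _ _ _ => 1)
  simp only [mul_one] at h
  rw [h]
  simp only [← Finset.mul_sum, hs, mul_one]

def kk (r : V → V → Fin 3) (a b c w : V) : ℕ := c3 (r a w).val (r b w).val (r c w).val
def tt (r : V → V → Fin 3) (a b c : V) : ℕ := c3 (r a b).val (r a c).val (r b c).val
def k2 (r : V → V → Fin 3) (a b w : V) : ℕ := (r a w).val + 3 * (r b w).val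

omit [DecidableEq V] in
theorem five_ineq {r : V → V → Fin 3} (hr : ∀ x y, r y x = - r x y) {ω : V → ℝ} (hω : ∀ x, 0 ≤ ω x)
    (hs : ∑ x, ω x = 1) :
    ∑ a, ∑ b, ∑ c, ∑ d, ∑ e, ω a * ω b * ω c * ω d * ω e *
      (((f2 (tt r a b c) (kk r a b c d) (kk r a b c e) (r d e).val : ℕ) : ℝ) +
        ((q1 (tt r a b c) (tt r a d e) : ℕ) : ℝ) +
        ((sv (r a b).val (k2 r a b c) (k2 r a b d) (k2 r a b e) (tt r c d e) : ℕ) : ℝ) +
        5 * (cMU : ℝ) * ((p3b (tt r a b c) : ℕ) : ℝ))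
      ≤ (oQ : ℝ) + oT + oQ + oS + 2 * cMU := by
  have hW : ∀ x : Fin 5 → V, 0 ≤ W5 ω x := fun x => Finset.prod_nonneg fun i _ => hω (x i)
  set g : (Fin 5 → V) → ℝ := fun x => ((FT (Mx r x) (0, 1, 2, 3, 4) : ℕ) : ℝ) with hg
  have h1 : ∀ x : Fin 5 → V, ∑ π : Equiv.Perm (Fin 5), g (x ∘ π) ≤ (bnd : ℝ) := by
    intro x
    have h2 := SM_le (AS_Mx hr x)
    unfold SM at h2
    have h3 : ((∑ π : Equiv.Perm (Fin 5), FT (Mx r x) (tupOf π) : ℕ) : ℝ) ≤ (bnd : ℝ) := by exact_mod_cast h2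
    rw [Nat.cast_sum] at h3
    refine le_trans (le_of_eq ?_) h3
    apply Finset.sum_congr rfl
    intro π _
    rw [hg, FT_Mx]
  have h4 : (120 : ℝ) * ∑ x : Fin 5 → V, W5 ω x * g x ≤ (bnd : ℝ) := by
    have h5 : ∑ x : Fin 5 → V, W5 ω x * ∑ π : Equiv.Perm (Fin 5), g (x ∘ π) =
        (120 : ℝ) * ∑ x : Fin 5 → V, W5 ω x * g x := by
      simp only [Finset.mul_sum]
      rw [Finset.sum_comm]
      simp only [sum_W5_perm ω g]
      rw [Finset.sum_const, Finset.card_univ, Fintype.card_perm, Fintype.card_fin, nsmul_eq_mul, Finset.mul_sum]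
      norm_num [Nat.factorial]
    rw [← h5]
    calc ∑ x : Fin 5 → V, W5 ω x * ∑ π : Equiv.Perm (Fin 5), g (x ∘ π)
        ≤ ∑ x : Fin 5 → V, W5 ω x * (bnd : ℝ) :=
          Finset.sum_le_sum fun x _ => mul_le_mul_of_nonneg_left (h1 x) (hW x)
      _ = (bnd : ℝ) := by rw [← Finset.sum_mul, sum_W5 ω hs, one_mul]
  have hb : (bnd : ℝ) = 120 * ((oQ : ℝ) + oT + oQ + oS + 2 * cMU) := by
    have : bnd = 120 * (oQ + (oT + (oQ + (oS + 2 * cMU)))) := rfl
    rw [this]
    push_cast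
    ring
  rw [hb] at h4
  have h6 : ∑ x : Fin 5 → V, W5 ω x * g x ≤ (oQ : ℝ) + oT + oQ + oS + 2 * cMU := by linarith
  refine le_trans (le_of_eq ?_) h6
  rw [← sum_five ω]
  apply Finset.sum_congr rfl
  intro x _
  congr 1
  rw [hg]
  have h7 : FT (Mx r x) (0, 1, 2, 3, 4) =
      f2 (tt r (x 0) (x 1) (x 2)) (kk r (x 0) (x 1) (x 2) (x 3)) (kk r (x 0) (x 1) (x 2) (x 4)) (r (x 3) (x 4)).val +
      q1 (tt r (x 0) (x 1) (x 2)) (tt r (x 0) (x 3) (x 4)) +
      sv (r (x 0) (x 1)).val (k2 r (x 0) (x 1) (x 2)) (k2 r (x 0) (x 1) (x 3)) (k2 r (x 0) (x 1) (x 4))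
        (tt r (x 2) (x 3) (x 4)) + 5 * cMU * p3b (tt r (x 0) (x 1) (x 2)) := rfl
  simp only [h7]
  push_cast
  ring

end Pool.Agent.MPecb
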