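import Pool.Agent.Lib.MP_ecb332_co.Flag

/-!
The terms of the five-point inequality are nonnegative except for the statistic of the roots.
-/

set_option autoImplicit false

namespace Pool.Agent.MPecb

open Finset

set_option linter.unusedSectionVars false

variable {V : Type*} [Fintype V]

theorem kk_lt (r : V → V → Fin 3) (a b c w : V) : kk r a b c w < 27 := c3_lt (Fin.isLt _) (Fin.isLt _) (Fin.isLt _)
theorem tt_lt (r : V → V → Fin 3) (a b c : V) : tt r a b c < 27 := c3_lt (Fin.isLt _) (Fin.isLt _) (Fin.isLt _)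

/-- the quadratic forms with three roots -/
theorem part3_nonneg (r : V → V → Fin 3) {ω : V → ℝ} (hω : ∀ x, 0 ≤ ω x) :
    0 ≤ ∑ a, ∑ b, ∑ c, ∑ d, ∑ e, ω a * ω b * ω c * ω d * ω e *
      (((q3 (ti (tt r a b c)) (kk r a b c d) (kk r a b c e) : ℕ) : ℝ) - oQ) := by
  apply Finset.sum_nonneg; intro a _
  apply Finset.sum_nonneg; intro b _
  apply Finset.sum_nonneg; intro c _
  have h1 : ∀ d e, ω a * ω b * ω c * ω d * ω e *
      (((q3 (ti (tt r a b c)) (kk r a b c d) (kk r a b c e) : ℕ) : ℝ) - oQ) =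
      (ω a * ω b * ω c) * (ω d * ω e * ((dotI (rowB (ti (tt r a b c)) (kk r a b c d))
        (rowB (ti (tt r a b c)) (kk r a b c e)) : ℤ) : ℝ)) := by
    intro d e
    have h := q3_gram (ti (tt r a b c)) (kk r a b c d) (kk r a b c e) (kk_lt r a b c d) (kk_lt r a b c e)
    have h' : ((q3 (ti (tt r a b c)) (kk r a b c d) (kk r a b c e) : ℕ) : ℝ) =
        (oQ : ℝ) + ((dotI (rowB (ti (tt r a b c)) (kk r a b c d))
        (rowB (ti (tt r a b c)) (kk r a b c e)) : ℤ) : ℝ) := by exact_mod_cast h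
    rw [h']
    ring
  simp only [h1, ← Finset.mul_sum]
  exact mul_nonneg (mul_nonneg (mul_nonneg (hω a) (hω b)) (hω c)) (gram_nonneg _ _)

/-- the quadratic form with one root -/
theorem part1_nonneg (r : V → V → Fin 3) {ω : V → ℝ} (hω : ∀ x, 0 ≤ ω x) :
    0 ≤ ∑ a, ∑ b, ∑ c, ∑ d, ∑ e, ω a * ω b * ω c * ω d * ω e *
      (((q1 (tt r a b c) (tt r a d e) : ℕ) : ℝ) - oQ) := by
  apply Finset.sum_nonneg; intro a _
  have h1 : ∀ b c d e, ω a * ω b * ω c * ω d * ω e * (((q1 (tt r a b c) (tt r a d e) : ℕ) : ℝ) - oQ) =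
      ω a * ((ω b * ω c) * (ω d * ω e) * ((dotI (B1.getD (tt r a b c) []) (B1.getD (tt r a d e) []) : ℤ) : ℝ)) := by
    intro b c d e
    have h := q1_gram (tt r a b c) (tt r a d e) (tt_lt r a b c) (tt_lt r a d e)
    have h' : ((q1 (tt r a b c) (tt r a d e) : ℕ) : ℝ) =
        (oQ : ℝ) + ((dotI (B1.getD (tt r a b c) []) (B1.getD (tt r a d e) []) : ℤ) : ℝ) := by exact_mod_cast h
    rw [h']
    ring
  simp only [h1, ← Finset.mul_sum]
  refine mul_nonneg (hω a) ?_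
  have h2 := gram_nonneg (U := V × V) (fun p => ω p.1 * ω p.2) (fun p => B1.getD (tt r a p.1 p.2) [])
  rw [Fintype.sum_prod_type] at h2
  simp only [Fintype.sum_prod_type] at h2
  exact h2

theorem p3b_eq : ∀ a b c : Fin 3, p3b (c3 a.val b.val c.val) = if IsP3 a b c then 1 else 0 := by decide

theorem p3b_cast (a b c : Fin 3) : ((p3b (c3 a.val b.val c.val) : ℕ) : ℝ) = p3 a b c := by
  rw [p3b_eq, p3]
  split_ifs <;> simp

/-- the term with the density of paths -/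
theorem partM_nonneg (r : V → V → Fin 3) {ω : V → ℝ} (hs : ∑ x, ω x = 1) (hT : 2 / 5 ≤ TT r ω) :
    0 ≤ ∑ a, ∑ b, ∑ c, ∑ d, ∑ e, ω a * ω b * ω c * ω d * ω e *
      (5 * (cMU : ℝ) * ((p3b (tt r a b c) : ℕ) : ℝ) - 2 * cMU) := by
  have h1 : ∀ a b c d e, ω a * ω b * ω c * ω d * ω e *
      (5 * (cMU : ℝ) * ((p3b (tt r a b c) : ℕ) : ℝ) - 2 * cMU) =
      (ω a * ω b * ω c * (5 * (cMU : ℝ) * p3 (r a b) (r a c) (r b c) - 2 * cMU)) * ω d * ω e := by
    intro a b c d e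
    rw [tt, p3b_cast]
    ring
  simp only [h1, ← Finset.mul_sum, hs, mul_one]
  have h2 : ∀ a b c, ω a * ω b * ω c * (5 * (cMU : ℝ) * p3 (r a b) (r a c) (r b c) - 2 * cMU) =
      5 * (cMU : ℝ) * (ω a * ω b * ω c * p3 (r a b) (r a c) (r b c)) - 2 * cMU * (ω a * ω b * ω c) := by
    intro a b c
    ring
  simp only [h2, Finset.sum_sub_distrib, ← Finset.mul_sum, hs, mul_one]
  have h3 : ∑ a, ∑ b, ∑ c, ω a * ω b * ω c * p3 (r a b) (r a c) (r b c) = TT r ω := rfl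
  rw [h3]
  have h4 : (0 : ℝ) ≤ (cMU : ℝ) := Nat.cast_nonneg _
  nlinarith

/-- the set of the vertices with a given relation to two roots -/
noncomputable def wS (r : V → V → Fin 3) (ω : V → ℝ) (a b : V) (κ : ℕ) (w : V) : ℝ :=
  if k2 r a b w = κ then ω w else 0

theorem sum_wS (r : V → V → Fin 3) (ω : V → ℝ) (a b : V) (κ : ℕ) :
    ∑ c, ∑ d, ∑ e, wS r ω a b κ c * wS r ω a b κ d * wS r ω a b κ e = (∑ w, wS r ω a b κ w) ^ 3 := by
  simp only [← Finset.mul_sum, ← Finset.sum_mul]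
  ring

theorem S_nonneg (r : V → V → Fin 3) {ω : V → ℝ} (hω : ∀ x, 0 ≤ ω x)
    (hS : ∀ ω' : V → ℝ, (∀ x, 0 ≤ ω' x) → (∃ x, ω' x = 0) → 5 * TT r ω' ≤ 2 * (∑ x, ω' x) ^ 3)
    (a b : V) (κ : ℕ) (h : k2 r a b a ≠ κ) :
    0 ≤ ∑ c, ∑ d, ∑ e, wS r ω a b κ c * wS r ω a b κ d * wS r ω a b κ e *
      (2 - 5 * p3 (r c d) (r c e) (r d e)) := by
  have h1 := hS (wS r ω a b κ) (fun x => by unfold wS; split_ifs; exacts [hω x, le_refl _])
    ⟨a, by unfold wS; rw [if_neg h]⟩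
  rw [← sum_wS] at h1
  have h2 : ∑ c, ∑ d, ∑ e, wS r ω a b κ c * wS r ω a b κ d * wS r ω a b κ e *
      (2 - 5 * p3 (r c d) (r c e) (r d e)) =
      2 * (∑ c, ∑ d, ∑ e, wS r ω a b κ c * wS r ω a b κ d * wS r ω a b κ e) - 5 * TT r (wS r ω a b κ) := by
    unfold TT
    simp only [Finset.mul_sum, ← Finset.sum_sub_distrib]
    refine Finset.sum_congr rfl fun c _ => Finset.sum_congr rfl fun d _ => Finset.sum_congr rfl fun e _ => ?_
    ring
  rw [h2]
  linarith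

theorem beq_ite (a b : ℕ) : Nat.beq a b = decide (a = b) := by
  cases h : Nat.beq a b
  · symm
    rw [decide_eq_false_iff_not]
    intro h2
    subst h2
    simp at h
  · symm
    rw [decide_eq_true_eq]
    exact Nat.eq_of_beq_eq_true h

theorem p3b_le : ∀ t < 27, p3b t ≤ 1 := by decide

theorem sv_eq (rab kc kd ke t : ℕ) (ht : t < 27) (hr : rab < 3) :
    ((sv rab kc kd ke t : ℕ) : ℝ) - oS =
      (if rab = 1 then
        (cS1 : ℝ) * ((if kc = 3 ∧ kd = 3 ∧ ke = 3 then 1 else 0) + (if kc = 2 ∧ kd = 2 ∧ ke = 2 then 1 else 0)) *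
          (2 - 5 * (p3b t : ℕ)) else 0) +
      (if rab = 0 then
        (cS2 : ℝ) * (if kc = 7 ∧ kd = 7 ∧ ke = 7 then 1 else 0) * (2 - 5 * (p3b t : ℕ)) else 0) := by
  have hp := p3b_le t ht
  have e1 : ∀ c : ℕ, 5 * c ≤ oS + 2 * c → ((Nat.sub (Nat.add oS (Nat.mul 2 c)) (Nat.mul (Nat.mul 5 c) (p3b t)) : ℕ) : ℝ)
      = oS + (c : ℝ) * (2 - 5 * (p3b t : ℕ)) := by
    intro c hc
    have h2 : Nat.sub (Nat.add oS (Nat.mul 2 c)) (Nat.mul (Nat.mul 5 c) (p3b t)) =
      (oS + 2 * c) - 5 * c * p3b t := rfl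
    rw [h2, Nat.cast_sub]
    · push_cast
      ring
    · calc 5 * c * p3b t ≤ 5 * c * 1 := Nat.mul_le_mul_left _ hp
        _ ≤ oS + 2 * c := by rw [mul_one]; exact hc
  have e2 : 5 * cS1 ≤ oS + 2 * cS1 := by decide
  have e3 : 5 * cS2 ≤ oS + 2 * cS2 := by decide
  unfold sv
  simp only [beq_ite, cond_eq_ite, decide_eq_true_eq, Bool.and_eq_true, Bool.or_eq_true]
  interval_cases rab
  · -- no arc
    simp only [show (0 : ℕ) = 2 ↔ False by decide, show (0 : ℕ) = 1 ↔ False by decide, if_false, if_true, zero_add]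
    by_cases h1 : kc = kd ∧ kc = ke
    · rw [if_pos h1]
      by_cases h2 : kc = 7
      · rw [if_pos h2, if_pos ⟨h2, by omega, by omega⟩, e1 cS2 e3]
        ring
      · rw [if_neg h2, if_neg (fun h => h2 h.1)]
        ring
    · rw [if_neg h1, if_neg (fun h => h1 ⟨by omega, by omega⟩)]
      ring
  · simp only [show (1 : ℕ) = 2 ↔ False by decide, show (1 : ℕ) = 0 ↔ False by decide, if_false, if_true, add_zero]
    by_cases h1 : kc = kd ∧ kc = ke
    · rw [if_pos h1]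
      by_cases h2 : kc = 3
      · rw [if_pos (Or.inl h2), if_pos ⟨h2, by omega, by omega⟩, if_neg (fun h => by omega), e1 cS1 e2]
        ring
      · by_cases h3 : kc = 2
        · rw [if_pos (Or.inr h3), if_neg (fun h => h2 h.1), if_pos ⟨h3, by omega, by omega⟩, e1 cS1 e2]
          ring
        · rw [if_neg (fun h => h.elim h2 h3), if_neg (fun h => h2 h.1), if_neg (fun h => h3 h.1)]
          ring
    · rw [if_neg h1, if_neg (fun h => h1 ⟨by omega, by omega⟩), if_neg (fun h => h1 ⟨by omega, by omega⟩)]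
      ring
  · simp

/-- the terms with the induction hypothesis -/
theorem partS_nonneg {r : V → V → Fin 3} (hr : ∀ x y, r y x = - r x y) {ω : V → ℝ} (hω : ∀ x, 0 ≤ ω x)
    (hS : ∀ ω' : V → ℝ, (∀ x, 0 ≤ ω' x) → (∃ x, ω' x = 0) → 5 * TT r ω' ≤ 2 * (∑ x, ω' x) ^ 3) :
    0 ≤ ∑ a, ∑ b, ∑ c, ∑ d, ∑ e, ω a * ω b * ω c * ω d * ω e *
      (((sv (r a b).val (k2 r a b c) (k2 r a b d) (k2 r a b e) (tt r c d e) : ℕ) : ℝ) - oS) := by
  apply Finset.sum_nonneg; intro a _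
  apply Finset.sum_nonneg; intro b _
  have hab : ∀ x : V, r x x = 0 := by
    intro x
    have := hr x x
    revert this
    generalize r x x = y
    revert y
    decide
  have key : ∀ κ : ℕ, ∀ c d e, ω c * ω d * ω e * ((if k2 r a b c = κ ∧ k2 r a b d = κ ∧ k2 r a b e = κ then
      (1 : ℝ) else 0) * (2 - 5 * p3 (r c d) (r c e) (r d e))) =
      wS r ω a b κ c * wS r ω a b κ d * wS r ω a b κ e * (2 - 5 * p3 (r c d) (r c e) (r d e)) := by
    intro κ c d e
    unfold wS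
    by_cases h1 : k2 r a b c = κ <;> by_cases h2 : k2 r a b d = κ <;> by_cases h3 : k2 r a b e = κ <;>
      simp [h1, h2, h3]
  have h1 : ∀ c d e, ω a * ω b * ω c * ω d * ω e *
      (((sv (r a b).val (k2 r a b c) (k2 r a b d) (k2 r a b e) (tt r c d e) : ℕ) : ℝ) - oS) =
      (if (r a b).val = 1 then (ω a * ω b * (cS1 : ℝ)) * (wS r ω a b 3 c * wS r ω a b 3 d * wS r ω a b 3 e *
        (2 - 5 * p3 (r c d) (r c e) (r d e))) else 0) +
      (if (r a b).val = 1 then (ω a * ω b * (cS1 : ℝ)) * (wS r ω a b 2 c * wS r ω a b 2 d * wS r ω a b 2 e *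
        (2 - 5 * p3 (r c d) (r c e) (r d e))) else 0) +
      (if (r a b).val = 0 then (ω a * ω b * (cS2 : ℝ)) * (wS r ω a b 7 c * wS r ω a b 7 d * wS r ω a b 7 e *
        (2 - 5 * p3 (r c d) (r c e) (r d e))) else 0) := by
    intro c d e
    rw [sv_eq _ _ _ _ _ (tt_lt r c d e) (Fin.isLt _), tt, p3b_cast, ← key 3, ← key 2, ← key 7]
    split_ifs <;> ring
  simp only [h1, Finset.sum_add_distrib]
  have c1 : (0 : ℝ) ≤ (cS1 : ℝ) := Nat.cast_nonneg _
  have c2 : (0 : ℝ) ≤ (cS2 : ℝ) := Nat.cast_nonneg _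
  have part : ∀ (m κ : ℕ) (q : ℝ), 0 ≤ q → ((r a b).val = m → k2 r a b a ≠ κ) →
      0 ≤ ∑ c, ∑ d, ∑ e, (if (r a b).val = m then (ω a * ω b * q) * (wS r ω a b κ c * wS r ω a b κ d *
        wS r ω a b κ e * (2 - 5 * p3 (r c d) (r c e) (r d e))) else 0) := by
    intro m κ q hq hk
    by_cases hm : (r a b).val = m
    · simp only [if_pos hm, ← Finset.mul_sum]
      exact mul_nonneg (mul_nonneg (mul_nonneg (hω a) (hω b)) hq) (S_nonneg r hω hS a b κ (hk hm))
    · simp only [if_neg hm, Finset.sum_const_zero]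
      exact le_refl _
  have k2a : k2 r a b a = 3 * (-(r a b)).val := by
    unfold k2
    rw [hab a, hr a b]
    simp
  refine add_nonneg (add_nonneg (part 1 3 _ c1 ?_) (part 1 2 _ c1 ?_)) (part 0 7 _ c2 ?_) <;>
    · rw [k2a]
      generalize r a b = y
      revert y
      decide

end Pool.Agent.MPecb
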