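import Pool.Agent.Lib.MP_ecb332_co.Flag2

/-!
A root whose statistic is at most zero.
-/

set_option autoImplicit false
set_option linter.unusedSectionVars false

namespace Pool.Agent.MPecb

open Finset

variable {V : Type*} [Fintype V]

/-- fifty times `sval`, as an integer, in terms of class numbers `0, …, 4` -/
def svalZ (t t' : Fin 5) (a a' ρ : Fin 3) : ℤ :=
  if t = 0 then (if t' = 0 then 0 else 25 + (if -ρ = a then 0 else 40000))
  else if t' = 0 then 25 + (if ρ = a' then 0 else 40000)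
  else if t = t' then 29993
  else -10007 + (if ρ = std (Fin.ofNat 4 t'.val - Fin.ofNat 4 t.val) then 0 else 7500)

theorem stA_eq : ∀ t t' : Fin 5, ∀ a a' ρ : Fin 3,
    (Int.ofNat (stA t.val t'.val a.val a'.val ρ.val)) = (Int.ofNat oT) + 100000000 * svalZ t t' a a' ρ := by
  decide +kernel

theorem at3_lt : ∀ k < 27, at3 k < 5 := by decide

theorem stA_mod (t t' k l ρ : ℕ) : stA t t' k l ρ = stA t t' (k % 3) (l % 3) ρ := by
  unfold stA
  have h1 : Nat.mod (k % 3) 3 = Nat.mod k 3 := Nat.mod_mod k 3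
  have h2 : Nat.mod (l % 3) 3 = Nat.mod l 3 := Nat.mod_mod l 3
  rw [h1, h2]

theorem c3_mod (a b c : Fin 3) : c3 a.val b.val c.val % 3 = a.val := by
  show (a.val + (3 * b.val + 9 * c.val)) % 3 = a.val
  have := a.isLt
  omega

/-- class number (`0` for outside) of `w` with respect to a root -/
def clN (r : V → V → Fin 3) (a b c w : V) : Fin 5 := ⟨at3 (kk r a b c w), at3_lt _ (kk_lt r a b c w)⟩

theorem svalZ_eq (t t' : Fin 5) (a a' ρ : Fin 3) : ((svalZ t t' a a' ρ : ℤ) : ℝ) =
    50 * sval (decide (t = 0)) (decide (t' = 0)) (Fin.ofNat 4 t.val) (Fin.ofNat 4 t'.val) a a' ρ := by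
  unfold svalZ sval
  simp only [decide_eq_true_eq]
  by_cases h1 : t = 0
  · rw [if_pos h1, if_pos h1]
    by_cases h2 : t' = 0
    · rw [if_pos h2, if_pos h2]; norm_num
    · rw [if_neg h2, if_neg h2]
      split_ifs <;> norm_num
  · rw [if_neg h1, if_neg h1]
    by_cases h2 : t' = 0
    · rw [if_pos h2, if_pos h2]
      split_ifs <;> norm_num
    · rw [if_neg h2, if_neg h2]
      have h3 : (Fin.ofNat 4 t.val = Fin.ofNat 4 t'.val) ↔ t = t' := by
        revert h1 h2; revert t t'; decide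
      by_cases h4 : t = t'
      · rw [if_pos h4, if_pos (h3.2 h4)]; norm_num
      · rw [if_neg h4, if_neg (fun h => h4 (h3.1 h))]
        split_ifs <;> norm_num

theorem st_eq (r : V → V → Fin 3) (a b c d e : V) :
    ((st (kk r a b c d) (kk r a b c e) (r d e).val : ℕ) : ℝ) - oT = 5000000000 *
      sval (decide (clN r a b c d = 0)) (decide (clN r a b c e = 0)) (Fin.ofNat 4 (clN r a b c d).val)
        (Fin.ofNat 4 (clN r a b c e).val) (r a d) (r a e) (r d e) := by
  have h1 := stA_eq (clN r a b c d) (clN r a b c e) (r a d) (r a e) (r d e)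
  have h2 : st (kk r a b c d) (kk r a b c e) (r d e).val =
      stA (clN r a b c d).val (clN r a b c e).val (r a d).val (r a e).val (r d e).val := by
    unfold st
    rw [stA_mod]
    have e1 : kk r a b c d % 3 = (r a d).val := c3_mod _ _ _
    have e2 : kk r a b c e % 3 = (r a e).val := c3_mod _ _ _
    rw [e1, e2]
    rfl
  rw [h2]
  have h3 : ((stA (clN r a b c d).val (clN r a b c e).val (r a d).val (r a e).val (r d e).val : ℕ) : ℝ) =
      (oT : ℝ) + 100000000 * ((svalZ (clN r a b c d) (clN r a b c e) (r a d) (r a e) (r d e) : ℤ) : ℝ) := by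
    exact_mod_cast h1
  rw [h3, svalZ_eq]
  ring

/-- the statistic of a root, up to a constant factor -/
noncomputable def rootStat (r : V → V → Fin 3) (ω : V → ℝ) (a b c : V) : ℝ :=
  ∑ d, ∑ e, ω d * ω e * sval (decide (clN r a b c d = 0)) (decide (clN r a b c e = 0))
    (Fin.ofNat 4 (clN r a b c d).val) (Fin.ofNat 4 (clN r a b c e).val) (r a d) (r a e) (r d e)

theorem sum_stat_le {r : V → V → Fin 3} (hr : ∀ x y, r y x = - r x y) {ω : V → ℝ} (hω : ∀ x, 0 ≤ ω x)
    (hs : ∑ x, ω x = 1) (hT : 2 / 5 ≤ TT r ω)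
    (hS : ∀ ω' : V → ℝ, (∀ x, 0 ≤ ω' x) → (∃ x, ω' x = 0) → 5 * TT r ω' ≤ 2 * (∑ x, ω' x) ^ 3) :
    ∑ a, ∑ b, ∑ c, (if tt r a b c = 10 then ω a * ω b * ω c * rootStat r ω a b c else 0) ≤ 0 := by
  have h := five_ineq hr hω hs
  have h3 := part3_nonneg r hω
  have h1 := part1_nonneg r hω
  have hm := partM_nonneg r hs hT
  have hS' := partS_nonneg hr hω hS
  have hK : ∀ K : ℝ, ∑ a, ∑ b, ∑ c, ∑ d, ∑ e, K * (ω a * ω b * ω c * ω d * ω e) = K := by
    intro K
    simp only [← Finset.mul_sum, hs, mul_one]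
  have hst : (∑ a, ∑ b, ∑ c, (if tt r a b c = 10 then ω a * ω b * ω c * rootStat r ω a b c else 0)) * 5000000000 =
      ∑ a, ∑ b, ∑ c, ∑ d, ∑ e, ω a * ω b * ω c * ω d * ω e *
        (((if tt r a b c = 10 then st (kk r a b c d) (kk r a b c e) (r d e).val else oT : ℕ) : ℝ) - oT) := by
    simp only [Finset.sum_mul]
    refine Finset.sum_congr rfl fun a _ => Finset.sum_congr rfl fun b _ => Finset.sum_congr rfl fun c _ => ?_
    by_cases h10 : tt r a b c = 10
    · simp only [if_pos h10, st_eq]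
      unfold rootStat
      rw [Finset.mul_sum, Finset.sum_mul]
      refine Finset.sum_congr rfl fun d _ => ?_
      rw [Finset.mul_sum, Finset.sum_mul]
      refine Finset.sum_congr rfl fun e _ => ?_
      ring
    · simp only [if_neg h10, sub_self, mul_zero, Finset.sum_const_zero, zero_mul]
  have hsplit : ∀ a b c d e : V, ω a * ω b * ω c * ω d * ω e *
      (((f2 (tt r a b c) (kk r a b c d) (kk r a b c e) (r d e).val : ℕ) : ℝ) +
        ((q1 (tt r a b c) (tt r a d e) : ℕ) : ℝ) +
        ((sv (r a b).val (k2 r a b c) (k2 r a b d) (k2 r a b e) (tt r c d e) : ℕ) : ℝ) +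
        5 * (cMU : ℝ) * ((p3b (tt r a b c) : ℕ) : ℝ)) =
      ω a * ω b * ω c * ω d * ω e * (((q3 (ti (tt r a b c)) (kk r a b c d) (kk r a b c e) : ℕ) : ℝ) - oQ) +
      ω a * ω b * ω c * ω d * ω e * (((q1 (tt r a b c) (tt r a d e) : ℕ) : ℝ) - oQ) +
      ω a * ω b * ω c * ω d * ω e *
        (((sv (r a b).val (k2 r a b c) (k2 r a b d) (k2 r a b e) (tt r c d e) : ℕ) : ℝ) - oS) +
      ω a * ω b * ω c * ω d * ω e * (5 * (cMU : ℝ) * ((p3b (tt r a b c) : ℕ) : ℝ) - 2 * cMU) +
      ω a * ω b * ω c * ω d * ω e *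
        (((if tt r a b c = 10 then st (kk r a b c d) (kk r a b c e) (r d e).val else oT : ℕ) : ℝ) - oT) +
      ((oQ : ℝ) + oT + oQ + oS + 2 * cMU) * (ω a * ω b * ω c * ω d * ω e) := by
    intro a b c d e
    have e1 : f2 (tt r a b c) (kk r a b c d) (kk r a b c e) (r d e).val =
        q3 (ti (tt r a b c)) (kk r a b c d) (kk r a b c e) +
        (if tt r a b c = 10 then st (kk r a b c d) (kk r a b c e) (r d e).val else oT) := by
      unfold f2
      rw [beq_ite, cond_eq_ite]
      simp only [decide_eq_true_eq]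
      rfl
    rw [e1, Nat.cast_add]
    ring
  simp only [hsplit, Finset.sum_add_distrib] at h
  rw [hK, ← hst] at h
  linarith

theorem tt_ten (r : V → V → Fin 3) (a b c : V) : tt r a b c = 10 ↔ r a b = 1 ∧ r a c = 0 ∧ r b c = 1 := by
  unfold tt
  generalize r a b = x
  generalize r a c = y
  generalize r b c = z
  revert x y z
  decide

theorem exists_root {r : V → V → Fin 3} (hr : ∀ x y, r y x = - r x y) {ω : V → ℝ} (hT : 0 < TT r ω) :
    ∃ a b c, tt r a b c = 10 := by
  by_contra hcon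
  push Not at hcon
  have h1 : ∀ x y z, p3 (r x y) (r x z) (r y z) = 0 := by
    intro x y z
    unfold p3
    rw [if_neg]
    intro h
    have hxy := hr x y
    have hxz := hr x z
    have hyz := hr y z
    rcases h with h | h | h | h | h | h
    · exact hcon x y z ((tt_ten r x y z).2 ⟨h.1, h.2.1, h.2.2⟩)
    · refine hcon z y x ((tt_ten r z y x).2 ⟨?_, ?_, ?_⟩)
      · rw [hyz, h.2.2]; decide
      · rw [hxz, h.2.1]; decide
      · rw [hxy, h.1]; decide
    · refine hcon y x z ((tt_ten r y x z).2 ⟨?_, ?_, ?_⟩)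
      · rw [hxy, h.1]; decide
      · exact h.2.2
      · exact h.2.1
    · refine hcon z x y ((tt_ten r z x y).2 ⟨?_, ?_, ?_⟩)
      · rw [hxz, h.2.1]; decide
      · rw [hyz, h.2.2]; decide
      · exact h.1
    · refine hcon x z y ((tt_ten r x z y).2 ⟨h.2.1, h.1, ?_⟩)
      rw [hyz, h.2.2]; decide
    · refine hcon y z x ((tt_ten r y z x).2 ⟨h.2.2, ?_, ?_⟩)
      · rw [hxy, h.1]; decide
      · rw [hxz, h.2.1]; decide
  unfold TT at hT
  simp only [h1, mul_zero, Finset.sum_const_zero, lt_irrefl] at hT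

/-- The conclusion of the five-point part. -/
theorem flag_root {r : V → V → Fin 3} (hr : ∀ x y, r y x = - r x y) {ω : V → ℝ} (hω : ∀ x, 0 < ω x)
    (hs : ∑ x, ω x = 1) (hT : 2 / 5 ≤ TT r ω)
    (hS : ∀ ω' : V → ℝ, (∀ x, 0 ≤ ω' x) → (∃ x, ω' x = 0) → 5 * TT r ω' ≤ 2 * (∑ x, ω' x) ^ 3) :
    ∃ (o : V → Bool) (c : V → Fin 4) (α : V → Fin 3), (∃ x, o x = false) ∧
      ∑ d, ∑ e, ω d * ω e * sval (o d) (o e) (c d) (c e) (α d) (α e) (r d e) ≤ 0 := by
  obtain ⟨a, b, c, habc, hstat⟩ : ∃ a b c, tt r a b c = 10 ∧ rootStat r ω a b c ≤ 0 := by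
    by_contra hcon
    push Not at hcon
    obtain ⟨a, b, c, h10⟩ := exists_root hr (lt_of_lt_of_le (by norm_num) hT)
    have h := sum_stat_le hr (fun x => (hω x).le) hs hT hS
    have hnn : ∀ a b c, 0 ≤ (if tt r a b c = 10 then ω a * ω b * ω c * rootStat r ω a b c else 0) := by
      intro a b c
      split_ifs with h1
      · exact mul_nonneg (mul_nonneg (mul_nonneg (hω a).le (hω b).le) (hω c).le) (hcon a b c h1).le
      · exact le_refl _
    have hpos : 0 < (if tt r a b c = 10 then ω a * ω b * ω c * rootStat r ω a b c else 0) := by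
      rw [if_pos h10]
      exact mul_pos (mul_pos (mul_pos (hω a) (hω b)) (hω c)) (hcon a b c h10)
    have h1 := Finset.single_le_sum (f := fun c => (if tt r a b c = 10 then ω a * ω b * ω c * rootStat r ω a b c else 0))
      (fun c _ => hnn a b c) (Finset.mem_univ c)
    have h2 := Finset.single_le_sum (f := fun b => ∑ c, (if tt r a b c = 10 then ω a * ω b * ω c * rootStat r ω a b c else 0))
      (fun b _ => Finset.sum_nonneg fun c _ => hnn a b c) (Finset.mem_univ b)
    have h3 := Finset.single_le_sum (f := fun a => ∑ b, ∑ c, (if tt r a b c = 10 then ω a * ω b * ω c * rootStat r ω a b c else 0))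
      (fun a _ => Finset.sum_nonneg fun b _ => Finset.sum_nonneg fun c _ => hnn a b c) (Finset.mem_univ a)
    linarith
  refine ⟨fun w => decide (clN r a b c w = 0), fun w => Fin.ofNat 4 (clN r a b c w).val, fun w => r a w, ⟨a, ?_⟩, hstat⟩
  rw [tt_ten] at habc
  rw [decide_eq_false_iff_not]
  have haa : r a a = 0 := by
    have := hr a a
    revert this
    generalize r a a = y
    revert y
    decide
  have h1 : kk r a b c a = 6 := by
    unfold kk
    rw [haa, hr a b, hr a c, habc.1, habc.2.1]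
    decide
  intro h2
  have h3 : (clN r a b c a).val = 0 := by rw [h2]; rfl
  have h4 : (clN r a b c a).val = at3 (kk r a b c a) := rfl
  rw [h4, h1] at h3
  revert h3
  decide

end Pool.Agent.MPecb
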