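import Pool.Agent.Lib.MP_ecb332_co.Base

/-!
Task E of the blueprint for MP_ecb332_co: the global inequality and the final step.
-/

set_option autoImplicit false

namespace Pool.Agent.MPecb

/-! ### The pointwise inequality -/

/-- the class shift of a relation -/
def tauF (ρ : Fin 3) : Fin 4 := if ρ = 0 then 2 else if ρ = 1 then 3 else 1

/-- bad relation for the class difference `d` -/
def bdF (d : Fin 4) (ρ : Fin 3) : Bool := d ≠ 0 && ρ ≠ std d

/-- twice the local charge, the part with not all three classes equal -/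
def psiF (d : Fin 4) (a : Fin 3) (e : Fin 4) (b : Fin 3) : ℤ :=
  if d = 0 ∧ e = 0 then 0
  else if d ≠ 0 ∧ e ≠ 0 ∧ d ≠ e then
    2 - 3 * ((if bdF d a then 1 else 0) + (if bdF e b then 1 else 0)) +
      12 * ((if bdF d a then 1 else 0) * (if bdF e b then 1 else 0))
  else if e = 0 then (if bdF d a ∧ e + tauF b = d + tauF a then 6 else 0)
  else if d = 0 then (if bdF e b ∧ d + tauF a = e + tauF b then 6 else 0)
  else (if bdF d a ∧ bdF e b then 6 else 0)

/-- integer indicator of `IsP3` -/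
def p3F (a b g : Fin 3) : ℤ := if IsP3 a b g then 1 else 0

/-- twice the local charge -/
def chF (i j k : Fin 4) (a b g : Fin 3) : ℤ :=
  (if j = i ∧ k = i then 2 * p3F a b g else 0) + psiF (j - i) a (k - i) b

set_option maxRecDepth 100000 in
theorem pointwiseF : ∀ i j k : Fin 4, ∀ a b g : Fin 3,
    6 * p3F a b g ≤ chF i j k a b g + chF j i k (-a) g b + chF k i j (-b) (-g) a := by
  decide +kernel


/-! ### Sums over the profile -/

variable {V : Type*} [Fintype V]

theorem sum_profile (r : V → V → Fin 3) (ω : V → ℝ) (c : V → Fin 4) (i : Fin 4) (x : V)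
    (G : Fin 4 → Fin 3 → ℝ) :
    ∑ y, ω y * G (c y - i) (r x y) = ∑ d, ∑ a, G d a * NN r ω c i x d a := by
  unfold NN
  simp only [Finset.mul_sum]
  have h1 : ∀ d : Fin 4, ∑ a : Fin 3, ∑ y, G d a * (if c y - i = d ∧ r x y = a then ω y else 0) =
      ∑ y, ∑ a : Fin 3, G d a * (if c y - i = d ∧ r x y = a then ω y else 0) :=
    fun d => Finset.sum_comm
  simp only [h1]
  rw [Finset.sum_comm]
  refine Finset.sum_congr rfl fun y _ => ?_
  rw [Finset.sum_eq_single (c y - i), Finset.sum_eq_single (r x y)]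
  · simp [mul_comm]
  · intro a _ ha
    simp [Ne.symm ha]
  · simp
  · intro d _ hd
    refine Finset.sum_eq_zero fun a _ => ?_
    simp [Ne.symm hd]
  · simp

theorem sum_profile2 (r : V → V → Fin 3) (ω : V → ℝ) (c : V → Fin 4) (i : Fin 4) (x : V)
    (F : Fin 4 → Fin 3 → Fin 4 → Fin 3 → ℝ) :
    ∑ y, ∑ z, ω y * ω z * F (c y - i) (r x y) (c z - i) (r x z) =
      ∑ d, ∑ a, (∑ e, ∑ b, F d a e b * NN r ω c i x e b) * NN r ω c i x d a := by
  rw [← sum_profile r ω c i x (fun d a => ∑ e, ∑ b, F d a e b * NN r ω c i x e b)]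
  refine Finset.sum_congr rfl fun y _ => ?_
  rw [← sum_profile r ω c i x (fun e b => F (c y - i) (r x y) e b), Finset.mul_sum]
  refine Finset.sum_congr rfl fun z _ => ?_
  ring

theorem cw_profile (r : V → V → Fin 3) (ω : V → ℝ) (c : V → Fin 4) (i : Fin 4) (x : V) (d : Fin 4) :
    cw ω c (i + d) = NN r ω c i x d 0 + NN r ω c i x d 1 + NN r ω c i x d 2 := by
  unfold NN cw
  rw [← Finset.sum_add_distrib, ← Finset.sum_add_distrib]
  refine Finset.sum_congr rfl fun y _ => ?_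
  have hiff : c y - i = d ↔ c y = i + d := by
    rw [sub_eq_iff_eq_add, add_comm]
  have h3 : r x y = 0 ∨ r x y = 1 ∨ r x y = 2 := by
    revert x
    intro x
    generalize r x y = a
    fin_cases a <;> simp
  by_cases h : c y = i + d
  · rcases h3 with h3 | h3 | h3 <;> simp [h, h3]
  · simp [hiff, h]

theorem cw_sum (ω : V → ℝ) (c : V → Fin 4) : ∑ i, cw ω c i = ∑ x, ω x := by
  unfold cw
  rw [Finset.sum_comm]
  refine Finset.sum_congr rfl fun y _ => ?_
  simp

theorem psi_row_0_0 (N : Fin 4 → Fin 3 → ℝ) : ∑ e, ∑ b, (psiF 0 0 e b : ℝ) * N e b =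
    (6) * N 1 2 + (6) * N 3 1 := by
  simp only [Fin.sum_univ_four, Fin.sum_univ_three,
    show psiF 0 0 0 0 = 0 from by decide,
    show psiF 0 0 0 1 = 0 from by decide,
    show psiF 0 0 0 2 = 0 from by decide,
    show psiF 0 0 1 0 = 0 from by decide,
    show psiF 0 0 1 1 = 0 from by decide,
    show psiF 0 0 1 2 = 6 from by decide,
    show psiF 0 0 2 0 = 0 from by decide,
    show psiF 0 0 2 1 = 0 from by decide,
    show psiF 0 0 2 2 = 0 from by decide,
    show psiF 0 0 3 0 = 0 from by decide,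
    show psiF 0 0 3 1 = 6 from by decide,
    show psiF 0 0 3 2 = 0 from by decide]
  push_cast
  ring

theorem psi_row_0_1 (N : Fin 4 → Fin 3 → ℝ) : ∑ e, ∑ b, (psiF 0 1 e b : ℝ) * N e b =
    (6) * N 1 0 + (6) * N 2 2 := by
  simp only [Fin.sum_univ_four, Fin.sum_univ_three,
    show psiF 0 1 0 0 = 0 from by decide,
    show psiF 0 1 0 1 = 0 from by decide,
    show psiF 0 1 0 2 = 0 from by decide,
    show psiF 0 1 1 0 = 6 from by decide,
    show psiF 0 1 1 1 = 0 from by decide,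
    show psiF 0 1 1 2 = 0 from by decide,
    show psiF 0 1 2 0 = 0 from by decide,
    show psiF 0 1 2 1 = 0 from by decide,
    show psiF 0 1 2 2 = 6 from by decide,
    show psiF 0 1 3 0 = 0 from by decide,
    show psiF 0 1 3 1 = 0 from by decide,
    show psiF 0 1 3 2 = 0 from by decide]
  push_cast
  ring

theorem psi_row_0_2 (N : Fin 4 → Fin 3 → ℝ) : ∑ e, ∑ b, (psiF 0 2 e b : ℝ) * N e b =
    (6) * N 2 1 + (6) * N 3 0 := by
  simp only [Fin.sum_univ_four, Fin.sum_univ_three,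
    show psiF 0 2 0 0 = 0 from by decide,
    show psiF 0 2 0 1 = 0 from by decide,
    show psiF 0 2 0 2 = 0 from by decide,
    show psiF 0 2 1 0 = 0 from by decide,
    show psiF 0 2 1 1 = 0 from by decide,
    show psiF 0 2 1 2 = 0 from by decide,
    show psiF 0 2 2 0 = 0 from by decide,
    show psiF 0 2 2 1 = 6 from by decide,
    show psiF 0 2 2 2 = 0 from by decide,
    show psiF 0 2 3 0 = 6 from by decide,
    show psiF 0 2 3 1 = 0 from by decide,
    show psiF 0 2 3 2 = 0 from by decide]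
  push_cast
  ring

theorem psi_row_1_0 (N : Fin 4 → Fin 3 → ℝ) : ∑ e, ∑ b, (psiF 1 0 e b : ℝ) * N e b =
    (6) * N 0 1 + (6) * N 1 0 + (6) * N 1 2 + (-1) * N 2 0 + (8) * N 2 1 + (8) * N 2 2 + (8) * N 3 0 + (8) * N 3 1 + (-1) * N 3 2 := by
  simp only [Fin.sum_univ_four, Fin.sum_univ_three,
    show psiF 1 0 0 0 = 0 from by decide,
    show psiF 1 0 0 1 = 6 from by decide,
    show psiF 1 0 0 2 = 0 from by decide,
    show psiF 1 0 1 0 = 6 from by decide,
    show psiF 1 0 1 1 = 0 from by decide,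
    show psiF 1 0 1 2 = 6 from by decide,
    show psiF 1 0 2 0 = -1 from by decide,
    show psiF 1 0 2 1 = 8 from by decide,
    show psiF 1 0 2 2 = 8 from by decide,
    show psiF 1 0 3 0 = 8 from by decide,
    show psiF 1 0 3 1 = 8 from by decide,
    show psiF 1 0 3 2 = -1 from by decide]
  push_cast
  ring

theorem psi_row_1_1 (N : Fin 4 → Fin 3 → ℝ) : ∑ e, ∑ b, (psiF 1 1 e b : ℝ) * N e b =
    (2) * N 2 0 + (-1) * N 2 1 + (-1) * N 2 2 + (-1) * N 3 0 + (-1) * N 3 1 + (2) * N 3 2 := by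
  simp only [Fin.sum_univ_four, Fin.sum_univ_three,
    show psiF 1 1 0 0 = 0 from by decide,
    show psiF 1 1 0 1 = 0 from by decide,
    show psiF 1 1 0 2 = 0 from by decide,
    show psiF 1 1 1 0 = 0 from by decide,
    show psiF 1 1 1 1 = 0 from by decide,
    show psiF 1 1 1 2 = 0 from by decide,
    show psiF 1 1 2 0 = 2 from by decide,
    show psiF 1 1 2 1 = -1 from by decide,
    show psiF 1 1 2 2 = -1 from by decide,
    show psiF 1 1 3 0 = -1 from by decide,
    show psiF 1 1 3 1 = -1 from by decide,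
    show psiF 1 1 3 2 = 2 from by decide]
  push_cast
  ring

theorem psi_row_1_2 (N : Fin 4 → Fin 3 → ℝ) : ∑ e, ∑ b, (psiF 1 2 e b : ℝ) * N e b =
    (6) * N 0 0 + (6) * N 1 0 + (6) * N 1 2 + (-1) * N 2 0 + (8) * N 2 1 + (8) * N 2 2 + (8) * N 3 0 + (8) * N 3 1 + (-1) * N 3 2 := by
  simp only [Fin.sum_univ_four, Fin.sum_univ_three,
    show psiF 1 2 0 0 = 6 from by decide,
    show psiF 1 2 0 1 = 0 from by decide,
    show psiF 1 2 0 2 = 0 from by decide,
    show psiF 1 2 1 0 = 6 from by decide,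
    show psiF 1 2 1 1 = 0 from by decide,
    show psiF 1 2 1 2 = 6 from by decide,
    show psiF 1 2 2 0 = -1 from by decide,
    show psiF 1 2 2 1 = 8 from by decide,
    show psiF 1 2 2 2 = 8 from by decide,
    show psiF 1 2 3 0 = 8 from by decide,
    show psiF 1 2 3 1 = 8 from by decide,
    show psiF 1 2 3 2 = -1 from by decide]
  push_cast
  ring

theorem psi_row_2_0 (N : Fin 4 → Fin 3 → ℝ) : ∑ e, ∑ b, (psiF 2 0 e b : ℝ) * N e b =
    (-1) * N 1 0 + (2) * N 1 1 + (-1) * N 1 2 + (-1) * N 3 0 + (-1) * N 3 1 + (2) * N 3 2 := by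
  simp only [Fin.sum_univ_four, Fin.sum_univ_three,
    show psiF 2 0 0 0 = 0 from by decide,
    show psiF 2 0 0 1 = 0 from by decide,
    show psiF 2 0 0 2 = 0 from by decide,
    show psiF 2 0 1 0 = -1 from by decide,
    show psiF 2 0 1 1 = 2 from by decide,
    show psiF 2 0 1 2 = -1 from by decide,
    show psiF 2 0 2 0 = 0 from by decide,
    show psiF 2 0 2 1 = 0 from by decide,
    show psiF 2 0 2 2 = 0 from by decide,
    show psiF 2 0 3 0 = -1 from by decide,
    show psiF 2 0 3 1 = -1 from by decide,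
    show psiF 2 0 3 2 = 2 from by decide]
  push_cast
  ring

theorem psi_row_2_1 (N : Fin 4 → Fin 3 → ℝ) : ∑ e, ∑ b, (psiF 2 1 e b : ℝ) * N e b =
    (6) * N 0 2 + (8) * N 1 0 + (-1) * N 1 1 + (8) * N 1 2 + (6) * N 2 1 + (6) * N 2 2 + (8) * N 3 0 + (8) * N 3 1 + (-1) * N 3 2 := by
  simp only [Fin.sum_univ_four, Fin.sum_univ_three,
    show psiF 2 1 0 0 = 0 from by decide,
    show psiF 2 1 0 1 = 0 from by decide,
    show psiF 2 1 0 2 = 6 from by decide,
    show psiF 2 1 1 0 = 8 from by decide,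
    show psiF 2 1 1 1 = -1 from by decide,
    show psiF 2 1 1 2 = 8 from by decide,
    show psiF 2 1 2 0 = 0 from by decide,
    show psiF 2 1 2 1 = 6 from by decide,
    show psiF 2 1 2 2 = 6 from by decide,
    show psiF 2 1 3 0 = 8 from by decide,
    show psiF 2 1 3 1 = 8 from by decide,
    show psiF 2 1 3 2 = -1 from by decide]
  push_cast
  ring

theorem psi_row_2_2 (N : Fin 4 → Fin 3 → ℝ) : ∑ e, ∑ b, (psiF 2 2 e b : ℝ) * N e b =
    (6) * N 0 1 + (8) * N 1 0 + (-1) * N 1 1 + (8) * N 1 2 + (6) * N 2 1 + (6) * N 2 2 + (8) * N 3 0 + (8) * N 3 1 + (-1) * N 3 2 := by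
  simp only [Fin.sum_univ_four, Fin.sum_univ_three,
    show psiF 2 2 0 0 = 0 from by decide,
    show psiF 2 2 0 1 = 6 from by decide,
    show psiF 2 2 0 2 = 0 from by decide,
    show psiF 2 2 1 0 = 8 from by decide,
    show psiF 2 2 1 1 = -1 from by decide,
    show psiF 2 2 1 2 = 8 from by decide,
    show psiF 2 2 2 0 = 0 from by decide,
    show psiF 2 2 2 1 = 6 from by decide,
    show psiF 2 2 2 2 = 6 from by decide,
    show psiF 2 2 3 0 = 8 from by decide,
    show psiF 2 2 3 1 = 8 from by decide,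
    show psiF 2 2 3 2 = -1 from by decide]
  push_cast
  ring

theorem psi_row_3_0 (N : Fin 4 → Fin 3 → ℝ) : ∑ e, ∑ b, (psiF 3 0 e b : ℝ) * N e b =
    (6) * N 0 2 + (8) * N 1 0 + (-1) * N 1 1 + (8) * N 1 2 + (-1) * N 2 0 + (8) * N 2 1 + (8) * N 2 2 + (6) * N 3 0 + (6) * N 3 1 := by
  simp only [Fin.sum_univ_four, Fin.sum_univ_three,
    show psiF 3 0 0 0 = 0 from by decide,
    show psiF 3 0 0 1 = 0 from by decide,
    show psiF 3 0 0 2 = 6 from by decide,
    show psiF 3 0 1 0 = 8 from by decide,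
    show psiF 3 0 1 1 = -1 from by decide,
    show psiF 3 0 1 2 = 8 from by decide,
    show psiF 3 0 2 0 = -1 from by decide,
    show psiF 3 0 2 1 = 8 from by decide,
    show psiF 3 0 2 2 = 8 from by decide,
    show psiF 3 0 3 0 = 6 from by decide,
    show psiF 3 0 3 1 = 6 from by decide,
    show psiF 3 0 3 2 = 0 from by decide]
  push_cast
  ring

theorem psi_row_3_1 (N : Fin 4 → Fin 3 → ℝ) : ∑ e, ∑ b, (psiF 3 1 e b : ℝ) * N e b =
    (6) * N 0 0 + (8) * N 1 0 + (-1) * N 1 1 + (8) * N 1 2 + (-1) * N 2 0 + (8) * N 2 1 + (8) * N 2 2 + (6) * N 3 0 + (6) * N 3 1 := by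
  simp only [Fin.sum_univ_four, Fin.sum_univ_three,
    show psiF 3 1 0 0 = 6 from by decide,
    show psiF 3 1 0 1 = 0 from by decide,
    show psiF 3 1 0 2 = 0 from by decide,
    show psiF 3 1 1 0 = 8 from by decide,
    show psiF 3 1 1 1 = -1 from by decide,
    show psiF 3 1 1 2 = 8 from by decide,
    show psiF 3 1 2 0 = -1 from by decide,
    show psiF 3 1 2 1 = 8 from by decide,
    show psiF 3 1 2 2 = 8 from by decide,
    show psiF 3 1 3 0 = 6 from by decide,
    show psiF 3 1 3 1 = 6 from by decide,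
    show psiF 3 1 3 2 = 0 from by decide]
  push_cast
  ring

theorem psi_row_3_2 (N : Fin 4 → Fin 3 → ℝ) : ∑ e, ∑ b, (psiF 3 2 e b : ℝ) * N e b =
    (-1) * N 1 0 + (2) * N 1 1 + (-1) * N 1 2 + (2) * N 2 0 + (-1) * N 2 1 + (-1) * N 2 2 := by
  simp only [Fin.sum_univ_four, Fin.sum_univ_three,
    show psiF 3 2 0 0 = 0 from by decide,
    show psiF 3 2 0 1 = 0 from by decide,
    show psiF 3 2 0 2 = 0 from by decide,
    show psiF 3 2 1 0 = -1 from by decide,
    show psiF 3 2 1 1 = 2 from by decide,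
    show psiF 3 2 1 2 = -1 from by decide,
    show psiF 3 2 2 0 = 2 from by decide,
    show psiF 3 2 2 1 = -1 from by decide,
    show psiF 3 2 2 2 = -1 from by decide,
    show psiF 3 2 3 0 = 0 from by decide,
    show psiF 3 2 3 1 = 0 from by decide,
    show psiF 3 2 3 2 = 0 from by decide]
  push_cast
  ring

/-- the row sum of the local charge -/
theorem psi_sum (r : V → V → Fin 3) (ω : V → ℝ) (c : V → Fin 4) (i : Fin 4) (x : V)
    (h1 : ∑ x, ω x = 1) :
    ∑ y, ∑ z, ω y * ω z * (psiF (c y - i) (r x y) (c z - i) (r x z) : ℝ) =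
      4 * (cw ω c (i + 1) * cw ω c (i + 2) + cw ω c (i + 1) * cw ω c (i + 3) +
        cw ω c (i + 2) * cw ω c (i + 3)) -
      12 * QQ (NN r ω c i x 1 1) (NN r ω c i x 2 0) (NN r ω c i x 3 2) (NN r ω c i x 0 2)
        (NN r ω c i x 2 1) (NN r ω c i x 3 0) (NN r ω c i x 0 0) (NN r ω c i x 1 2) (NN r ω c i x 3 1)
        (NN r ω c i x 0 1) (NN r ω c i x 1 0) (NN r ω c i x 2 2) := by
  rw [sum_profile2 r ω c i x (fun d a e b => (psiF d a e b : ℝ))]
  have hs : (NN r ω c i x 0 0 + NN r ω c i x 0 1 + NN r ω c i x 0 2) +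
      (NN r ω c i x 1 0 + NN r ω c i x 1 1 + NN r ω c i x 1 2) +
      (NN r ω c i x 2 0 + NN r ω c i x 2 1 + NN r ω c i x 2 2) +
      (NN r ω c i x 3 0 + NN r ω c i x 3 1 + NN r ω c i x 3 2) = 1 := by
    rw [← cw_profile, ← cw_profile, ← cw_profile, ← cw_profile, ← h1, ← cw_sum ω c]
    have : ∑ j, cw ω c j = ∑ d, cw ω c (i + d) :=
      (Equiv.sum_comp (Equiv.addLeft i) (fun j => cw ω c j)).symm
    rw [this, Fin.sum_univ_four]
  rw [cw_profile r ω c i x 1, cw_profile r ω c i x 2, cw_profile r ω c i x 3]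
  obtain ⟨R, hR⟩ : ∃ R : Fin 4 → Fin 3 → ℝ, ∀ d a,
      (∑ e, ∑ b, (psiF d a e b : ℝ) * NN r ω c i x e b) = R d a := ⟨_, fun _ _ => rfl⟩
  have h00 := psi_row_0_0 (NN r ω c i x)
  have h01 := psi_row_0_1 (NN r ω c i x)
  have h02 := psi_row_0_2 (NN r ω c i x)
  have h10 := psi_row_1_0 (NN r ω c i x)
  have h11 := psi_row_1_1 (NN r ω c i x)
  have h12 := psi_row_1_2 (NN r ω c i x)
  have h20 := psi_row_2_0 (NN r ω c i x)
  have h21 := psi_row_2_1 (NN r ω c i x)
  have h22 := psi_row_2_2 (NN r ω c i x)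
  have h30 := psi_row_3_0 (NN r ω c i x)
  have h31 := psi_row_3_1 (NN r ω c i x)
  have h32 := psi_row_3_2 (NN r ω c i x)
  rw [hR] at h00 h01 h02 h10 h11 h12 h20 h21 h22 h30 h31 h32
  simp only [hR]
  simp only [Fin.sum_univ_four, Fin.sum_univ_three]
  rw [h00, h01, h02, h10, h11, h12, h20, h21, h22, h30, h31, h32]
  unfold QQ
  generalize NN r ω c i x 0 0 = n00 at *
  generalize NN r ω c i x 0 1 = n01 at *
  generalize NN r ω c i x 0 2 = n02 at *
  generalize NN r ω c i x 1 0 = n10 at *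
  generalize NN r ω c i x 1 1 = n11 at *
  generalize NN r ω c i x 1 2 = n12 at *
  generalize NN r ω c i x 2 0 = n20 at *
  generalize NN r ω c i x 2 1 = n21 at *
  generalize NN r ω c i x 2 2 = n22 at *
  generalize NN r ω c i x 3 0 = n30 at *
  generalize NN r ω c i x 3 1 = n31 at *
  generalize NN r ω c i x 3 2 = n32 at *
  linear_combination (-6 * (n12 + n10 + n21 + n22 + n30 + n31)) * hs

/-! ### The global inequality -/

/-- third elementary symmetric function of the class weights -/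
noncomputable def e3F (v : Fin 4 → ℝ) : ℝ :=
  v 0 * v 1 * v 2 + v 0 * v 1 * v 3 + v 0 * v 2 * v 3 + v 1 * v 2 * v 3

theorem p3_cast (a b g : Fin 3) : p3 a b g = (p3F a b g : ℝ) := by
  unfold p3 p3F
  split_ifs <;> simp

theorem sum_class (ω : V → ℝ) (c : V → Fin 4) (f : Fin 4 → ℝ) :
    ∑ x, ω x * f (c x) = ∑ i, cw ω c i * f i := by
  unfold cw
  simp only [Finset.sum_mul]
  rw [Finset.sum_comm]
  refine Finset.sum_congr rfl fun x _ => ?_
  rw [Finset.sum_eq_single (c x)]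
  · simp
  · intro i _ hi
    simp [Ne.symm hi]
  · simp

theorem e1 (r : V → V → Fin 3) (hr : ∀ x y, r y x = - r x y) (ω : V → ℝ) (h0 : ∀ x, 0 ≤ ω x)
    (h1 : ∑ x, ω x = 1) (c : V → Fin 4) :
    TT r ω ≤ (∑ i, TT r (fun x => if c x = i then ω x else 0)) + 6 * e3F (cw ω c) -
      6 * ∑ x, ω x * QQ (NN r ω c (c x) x 1 1) (NN r ω c (c x) x 2 0) (NN r ω c (c x) x 3 2)
        (NN r ω c (c x) x 0 2) (NN r ω c (c x) x 2 1) (NN r ω c (c x) x 3 0)
        (NN r ω c (c x) x 0 0) (NN r ω c (c x) x 1 2) (NN r ω c (c x) x 3 1)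
        (NN r ω c (c x) x 0 1) (NN r ω c (c x) x 1 0) (NN r ω c (c x) x 2 2) := by
  classical
  -- the charge
  set ch : V → V → V → ℝ := fun x y z =>
    (chF (c x) (c y) (c z) (r x y) (r x z) (r y z) : ℝ) with hch
  -- step 1
  have hA : 6 * TT r ω ≤ ∑ x, ∑ y, ∑ z, ω x * ω y * ω z * (ch x y z + ch y x z + ch z x y) := by
    unfold TT
    simp only [Finset.mul_sum]
    refine Finset.sum_le_sum fun x _ => Finset.sum_le_sum fun y _ => Finset.sum_le_sum fun z _ => ?_
    have hp := pointwiseF (c x) (c y) (c z) (r x y) (r x z) (r y z)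
    rw [← hr x y, ← hr x z, ← hr y z] at hp
    have hp' : (6 : ℝ) * p3 (r x y) (r x z) (r y z) ≤ ch x y z + ch y x z + ch z x y := by
      rw [p3_cast]
      simp only [hch]
      exact_mod_cast hp
    have hw : 0 ≤ ω x * ω y * ω z := mul_nonneg (mul_nonneg (h0 x) (h0 y)) (h0 z)
    calc 6 * (ω x * ω y * ω z * p3 (r x y) (r x z) (r y z))
        = ω x * ω y * ω z * (6 * p3 (r x y) (r x z) (r y z)) := by ring
      _ ≤ _ := mul_le_mul_of_nonneg_left hp' hw
  -- step 2: symmetry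
  have hB : ∑ x, ∑ y, ∑ z, ω x * ω y * ω z * (ch x y z + ch y x z + ch z x y) =
      3 * ∑ x, ∑ y, ∑ z, ω x * ω y * ω z * ch x y z := by
    have e1 : ∑ x, ∑ y, ∑ z, ω x * ω y * ω z * ch y x z = ∑ x, ∑ y, ∑ z, ω x * ω y * ω z * ch x y z := by
      rw [Finset.sum_comm]
      refine Finset.sum_congr rfl fun x _ => Finset.sum_congr rfl fun y _ =>
        Finset.sum_congr rfl fun z _ => ?_
      ring
    have e2 : ∑ x, ∑ y, ∑ z, ω x * ω y * ω z * ch z x y = ∑ x, ∑ y, ∑ z, ω x * ω y * ω z * ch x y z := by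
      have : ∀ x, ∑ y, ∑ z, ω x * ω y * ω z * ch z x y = ∑ z, ∑ y, ω x * ω y * ω z * ch z x y :=
        fun x => Finset.sum_comm
      simp only [this]
      rw [Finset.sum_comm]
      refine Finset.sum_congr rfl fun x _ => Finset.sum_congr rfl fun y _ =>
        Finset.sum_congr rfl fun z _ => ?_
      ring
    simp only [mul_add, Finset.sum_add_distrib]
    rw [e1, e2]
    ring
  -- step 3: evaluation
  have hC : ∑ x, ∑ y, ∑ z, ω x * ω y * ω z * ch x y z =
      2 * (∑ i, TT r (fun x => if c x = i then ω x else 0)) +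
      ∑ x, ω x * (4 * (cw ω c (c x + 1) * cw ω c (c x + 2) + cw ω c (c x + 1) * cw ω c (c x + 3) +
        cw ω c (c x + 2) * cw ω c (c x + 3)) -
        12 * QQ (NN r ω c (c x) x 1 1) (NN r ω c (c x) x 2 0) (NN r ω c (c x) x 3 2)
        (NN r ω c (c x) x 0 2) (NN r ω c (c x) x 2 1) (NN r ω c (c x) x 3 0)
        (NN r ω c (c x) x 0 0) (NN r ω c (c x) x 1 2) (NN r ω c (c x) x 3 1)
        (NN r ω c (c x) x 0 1) (NN r ω c (c x) x 1 0) (NN r ω c (c x) x 2 2)) := by
    have hsplit : ∀ x, ∑ y, ∑ z, ω x * ω y * ω z * ch x y z =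
        (∑ y, ∑ z, ω x * ω y * ω z *
          (if c y = c x ∧ c z = c x then 2 * p3 (r x y) (r x z) (r y z) else 0)) +
        ω x * ∑ y, ∑ z, ω y * ω z * (psiF (c y - c x) (r x y) (c z - c x) (r x z) : ℝ) := by
      intro x
      rw [Finset.mul_sum, ← Finset.sum_add_distrib]
      refine Finset.sum_congr rfl fun y _ => ?_
      rw [Finset.mul_sum, ← Finset.sum_add_distrib]
      refine Finset.sum_congr rfl fun z _ => ?_
      simp only [hch, chF, p3_cast]
      push_cast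
      ring
    simp only [hsplit, Finset.sum_add_distrib]
    congr 1
    · have hT : ∀ i : Fin 4, TT r (fun x => if c x = i then ω x else 0) =
          ∑ x, ∑ y, ∑ z, (if c x = i then (if c y = i ∧ c z = i then
            ω x * ω y * ω z * p3 (r x y) (r x z) (r y z) else 0) else 0) := by
        intro i
        unfold TT
        refine Finset.sum_congr rfl fun x _ => Finset.sum_congr rfl fun y _ =>
          Finset.sum_congr rfl fun z _ => ?_
        by_cases hx : c x = i <;> by_cases hy : c y = i <;> by_cases hz : c z = i <;>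
          simp [hx, hy, hz]
      simp only [hT]
      rw [Finset.mul_sum]
      have hsw : ∑ i : Fin 4, 2 * ∑ x, ∑ y, ∑ z, (if c x = i then (if c y = i ∧ c z = i then
            ω x * ω y * ω z * p3 (r x y) (r x z) (r y z) else 0) else 0) =
          ∑ x, ∑ i : Fin 4, 2 * ∑ y, ∑ z, (if c x = i then (if c y = i ∧ c z = i then
            ω x * ω y * ω z * p3 (r x y) (r x z) (r y z) else 0) else 0) := by
        simp only [Finset.mul_sum]
        rw [Finset.sum_comm]
      rw [hsw]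
      refine Finset.sum_congr rfl fun x _ => ?_
      rw [Finset.sum_eq_single (c x)]
      · rw [Finset.mul_sum]
        refine Finset.sum_congr rfl fun y _ => ?_
        rw [Finset.mul_sum]
        refine Finset.sum_congr rfl fun z _ => ?_
        by_cases h : c y = c x ∧ c z = c x
        · simp [h]; ring
        · simp [h]
      · intro i _ hi
        simp [Ne.symm hi]
      · simp
    · refine Finset.sum_congr rfl fun x _ => ?_
      rw [psi_sum r ω c (c x) x h1]
  have hD : ∑ x, ω x * (cw ω c (c x + 1) * cw ω c (c x + 2) + cw ω c (c x + 1) * cw ω c (c x + 3) +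
        cw ω c (c x + 2) * cw ω c (c x + 3)) = 3 * e3F (cw ω c) := by
    rw [sum_class ω c (fun i => cw ω c (i + 1) * cw ω c (i + 2) + cw ω c (i + 1) * cw ω c (i + 3) +
        cw ω c (i + 2) * cw ω c (i + 3)), Fin.sum_univ_four]
    unfold e3F
    simp only [show (0 : Fin 4) + 1 = 1 from rfl, show (0 : Fin 4) + 2 = 2 from rfl,
      show (0 : Fin 4) + 3 = 3 from rfl, show (1 : Fin 4) + 1 = 2 from rfl,
      show (1 : Fin 4) + 2 = 3 from rfl, show (1 : Fin 4) + 3 = 0 from rfl,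
      show (2 : Fin 4) + 1 = 3 from rfl, show (2 : Fin 4) + 2 = 0 from rfl,
      show (2 : Fin 4) + 3 = 1 from rfl, show (3 : Fin 4) + 1 = 0 from rfl,
      show (3 : Fin 4) + 2 = 1 from rfl, show (3 : Fin 4) + 3 = 2 from rfl]
    ring
  rw [hB, hC] at hA
  simp only [mul_sub, Finset.sum_sub_distrib] at hA
  have hE : ∀ f : V → ℝ, ∀ k : ℝ, ∑ x, ω x * (k * f x) = k * ∑ x, ω x * f x := by
    intro f k
    rw [Finset.mul_sum]
    refine Finset.sum_congr rfl fun x _ => ?_
    ring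
  rw [hE, hE, hD] at hA
  linarith

/-! ### The final step -/

theorem a5 (v : Fin 4 → ℝ) (h0 : ∀ i, 0 ≤ v i) (h1 : ∑ i, v i = 1) :
    2 / 5 * (∑ i, v i ^ 3) + 6 * e3F v ≤ 2 / 5 := by
  unfold e3F
  rw [Fin.sum_univ_four] at h1 ⊢
  have a0 := h0 0
  have a1 := h0 1
  have a2 := h0 2
  have a3 := h0 3
  generalize v 0 = a at *
  generalize v 1 = b at *
  generalize v 2 = d at *
  generalize v 3 = e at *
  have hc : (a + b + d + e) ^ 3 = 1 := by rw [h1]; norm_num
  nlinarith [mul_nonneg a0 (sq_nonneg (b - d)), mul_nonneg a0 (sq_nonneg (b - e)),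
    mul_nonneg a0 (sq_nonneg (d - e)), mul_nonneg a1 (sq_nonneg (a - d)),
    mul_nonneg a1 (sq_nonneg (a - e)), mul_nonneg a1 (sq_nonneg (d - e)),
    mul_nonneg a2 (sq_nonneg (a - b)), mul_nonneg a2 (sq_nonneg (a - e)),
    mul_nonneg a2 (sq_nonneg (b - e)), mul_nonneg a3 (sq_nonneg (a - b)),
    mul_nonneg a3 (sq_nonneg (a - d)), mul_nonneg a3 (sq_nonneg (b - d))]

theorem human_end (r : V → V → Fin 3) (hr : ∀ x y, r y x = - r x y) (ω : V → ℝ) (h0 : ∀ x, 0 < ω x)
    (h1 : ∑ x, ω x = 1)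
    (hS : ∀ ω' : V → ℝ, (∀ x, 0 ≤ ω' x) → (∃ x, ω' x = 0) → 5 * TT r ω' ≤ 2 * (∑ x, ω' x) ^ 3)
    (c : V → Fin 4)
    (hQ : ∀ x, 0 ≤ QQ (NN r ω c (c x) x 1 1) (NN r ω c (c x) x 2 0) (NN r ω c (c x) x 3 2)
        (NN r ω c (c x) x 0 2) (NN r ω c (c x) x 2 1) (NN r ω c (c x) x 3 0)
        (NN r ω c (c x) x 0 0) (NN r ω c (c x) x 1 2) (NN r ω c (c x) x 3 1)
        (NN r ω c (c x) x 0 1) (NN r ω c (c x) x 1 0) (NN r ω c (c x) x 2 2))
    (hw : ∀ i, cw ω c i < 1) :
    TT r ω ≤ 2 / 5 := by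
  classical
  have h0' : ∀ x, 0 ≤ ω x := fun x => (h0 x).le
  have hE := e1 r hr ω h0' h1 c
  have hQs : 0 ≤ ∑ x, ω x * QQ (NN r ω c (c x) x 1 1) (NN r ω c (c x) x 2 0) (NN r ω c (c x) x 3 2)
        (NN r ω c (c x) x 0 2) (NN r ω c (c x) x 2 1) (NN r ω c (c x) x 3 0)
        (NN r ω c (c x) x 0 0) (NN r ω c (c x) x 1 2) (NN r ω c (c x) x 3 1)
        (NN r ω c (c x) x 0 1) (NN r ω c (c x) x 1 0) (NN r ω c (c x) x 2 2) :=
    Finset.sum_nonneg fun x _ => mul_nonneg (h0' x) (hQ x)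
  have hI : ∀ i, TT r (fun x => if c x = i then ω x else 0) ≤ 2 / 5 * cw ω c i ^ 3 := by
    intro i
    have hex : ∃ x, (if c x = i then ω x else 0) = 0 := by
      by_contra hne
      push Not at hne
      have : cw ω c i = 1 := by
        rw [← h1]
        unfold cw
        refine Finset.sum_congr rfl fun x _ => ?_
        by_cases h : c x = i
        · simp [h]
        · exact absurd (by simp [h]) (hne x)
      exact absurd this (hw i).ne
    have := hS (fun x => if c x = i then ω x else 0)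
      (fun x => by by_cases h : c x = i <;> simp [h, h0' x]) hex
    unfold cw
    linarith
  have hcw0 : ∀ i, 0 ≤ cw ω c i := fun i =>
    Finset.sum_nonneg fun x _ => by by_cases h : c x = i <;> simp [h, h0' x]
  have hcw1 : ∑ i, cw ω c i = 1 := by rw [cw_sum, h1]
  have hA := a5 (cw ω c) hcw0 hcw1
  have hsum : ∑ i, TT r (fun x => if c x = i then ω x else 0) ≤ 2 / 5 * ∑ i, cw ω c i ^ 3 := by
    rw [Finset.mul_sum]
    exact Finset.sum_le_sum fun i _ => hI i
  linarith

/-- the form used in the blueprint -/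
theorem human_end' (r : V → V → Fin 3) (hr : ∀ x y, r y x = - r x y) (ω : V → ℝ) (h0 : ∀ x, 0 < ω x)
    (h1 : ∑ x, ω x = 1)
    (hS : ∀ ω' : V → ℝ, (∀ x, 0 ≤ ω' x) → (∃ x, ω' x = 0) → 5 * TT r ω' ≤ 2 * (∑ x, ω' x) ^ 3)
    (c : V → Fin 4)
    (hQ : ∀ x, 0 ≤ QQ (NN r ω c (c x) x 1 1) (NN r ω c (c x) x 2 0) (NN r ω c (c x) x 3 2)
        (NN r ω c (c x) x 0 2) (NN r ω c (c x) x 2 1) (NN r ω c (c x) x 3 0)
        (NN r ω c (c x) x 0 0) (NN r ω c (c x) x 1 2) (NN r ω c (c x) x 3 1)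
        (NN r ω c (c x) x 0 1) (NN r ω c (c x) x 1 0) (NN r ω c (c x) x 2 2))
    (hw : ∀ i, cw ω c i ≤ 0.252) :
    TT r ω ≤ 2 / 5 :=
  human_end r hr ω h0 h1 hS c hQ fun i => lt_of_le_of_lt (hw i) (by norm_num)

end Pool.Agent.MPecb
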