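import Pool.Agent.Lib.MP_ecb332_co.Prof2
import Pool.Agent.Lib.MP_ecb332_co.AlgA

/-!
Task D of the blueprint for MP_ecb332_co, third part: D3, D5.
-/

set_option autoImplicit false

namespace Pool.Agent.MPecb

variable {V : Type*} [Fintype V]

/-- D3 -/
theorem exists_class (r : V → V → Fin 3) {ω : V → ℝ} (hω : ∀ x, 0 < ω x)
    (hs : ∑ x, ω x = 1) (hE : ∀ x, 2 / 5 ≤ EE r ω x) (c : V → Fin 4) (hB : BB r ω c ≤ 7 / 7500)
    (hc : ∀ i, |cw ω c i - 1 / 4| ≤ 0.012) : ∀ x, ∃ i, bw r ω c i x ≤ 0.11 := by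
  intro x
  have hω0 : ∀ x, 0 ≤ ω x := fun x => (hω x).le
  obtain ⟨i, hi⟩ := Finite.exists_min (fun i => bw r ω c i x)
  refine ⟨i, ?_⟩
  have hF := FFp_ge r hω0 hE c hB i x
  have hsum := NN_sum r ω c i x
  rw [hs] at hsum
  have hv0 := abs_le.1 (hc (i + 0))
  have hv1 := abs_le.1 (hc (i + 1))
  have hv2 := abs_le.1 (hc (i + 2))
  have hv3 := abs_le.1 (hc (i + 3))
  rw [cw_profile r ω c i x 0] at hv0
  rw [cw_profile r ω c i x 1] at hv1
  rw [cw_profile r ω c i x 2] at hv2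
  rw [cw_profile r ω c i x 3] at hv3
  have hb1 := hi (i + 1)
  have hb2 := hi (i + 2)
  have hb3 := hi (i + 3)
  rw [bw_one, bw_zero] at hb1
  rw [bw_two, bw_zero] at hb2
  rw [bw_three, bw_zero] at hb3
  have hN := fun d ρ => NN_nonneg r hω0 c i x d ρ
  have key := alg_A1 (NN r ω c i x 1 1) (NN r ω c i x 2 0) (NN r ω c i x 3 2)
        (NN r ω c i x 0 2) (NN r ω c i x 2 1) (NN r ω c i x 3 0)
        (NN r ω c i x 0 0) (NN r ω c i x 1 2) (NN r ω c i x 3 1)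
        (NN r ω c i x 0 1) (NN r ω c i x 1 0) (NN r ω c i x 2 2)
        (hN _ _) (hN _ _) (hN _ _) (hN _ _) (hN _ _) (hN _ _) (hN _ _) (hN _ _) (hN _ _) (hN _ _)
        (hN _ _) (hN _ _) hsum (by linarith [hv0.1]) (by linarith [hv0.2]) (by linarith [hv1.1])
        (by linarith [hv1.2]) (by linarith [hv2.1]) (by linarith [hv2.2]) (by linarith [hv3.1])
        (by linarith [hv3.2]) (by linarith) (by linarith) (by linarith) hF
  rw [bw_zero]
  linarith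

/-- D5 -/
theorem final_profile (r : V → V → Fin 3) {ω : V → ℝ} (hω : ∀ x, 0 < ω x)
    (hs : ∑ x, ω x = 1) (hE : ∀ x, 2 / 5 ≤ EE r ω x) (c : V → Fin 4) (hB : BB r ω c ≤ 7 / 7500)
    (hb : ∀ x, bw r ω c (c x) x ≤ 0.113)
    (hc : ∀ i, 0.244 ≤ cw ω c i ∧ cw ω c i ≤ 0.252) : ∀ x, bw r ω c (c x) x ≤ 0.08 ∧
      0 ≤ QQ (NN r ω c (c x) x 1 1) (NN r ω c (c x) x 2 0) (NN r ω c (c x) x 3 2)
        (NN r ω c (c x) x 0 2) (NN r ω c (c x) x 2 1) (NN r ω c (c x) x 3 0)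
        (NN r ω c (c x) x 0 0) (NN r ω c (c x) x 1 2) (NN r ω c (c x) x 3 1)
        (NN r ω c (c x) x 0 1) (NN r ω c (c x) x 1 0) (NN r ω c (c x) x 2 2) := by
  intro x
  have hω0 : ∀ x, 0 ≤ ω x := fun x => (hω x).le
  have hbx := hb x
  generalize c x = i at *
  have hF := FFp_ge r hω0 hE c hB i x
  unfold FFp at hF
  have hsum := NN_sum r ω c i x
  rw [hs] at hsum
  have hN := fun d ρ => NN_nonneg r hω0 c i x d ρ
  have hv0 := hc (i + 0)
  have hv1 := hc (i + 1)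
  have hv2 := hc (i + 2)
  have hv3 := hc (i + 3)
  rw [cw_profile r ω c i x 0] at hv0
  rw [cw_profile r ω c i x 1] at hv1
  rw [cw_profile r ω c i x 2] at hv2
  rw [cw_profile r ω c i x 3] at hv3
  rw [bw_zero] at hbx ⊢
  have h2 := alg_A2 (NN r ω c i x 1 1) (NN r ω c i x 2 0) (NN r ω c i x 3 2)
        (NN r ω c i x 0 2) (NN r ω c i x 2 1) (NN r ω c i x 3 0)
        (NN r ω c i x 0 0) (NN r ω c i x 1 2) (NN r ω c i x 3 1)
        (NN r ω c i x 0 1) (NN r ω c i x 1 0) (NN r ω c i x 2 2)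
        (hN _ _) (hN _ _) (hN _ _) (hN _ _) (hN _ _) (hN _ _) (hN _ _) (hN _ _) (hN _ _) (hN _ _)
        (hN _ _) (hN _ _) hsum (by linarith [hv0.1]) (by linarith [hv0.2]) (by linarith [hv1.1])
        (by linarith [hv1.2]) (by linarith [hv2.1]) (by linarith [hv2.2]) (by linarith [hv3.1])
        (by linarith [hv3.2]) (by linarith) hF
  have h3 := alg_A3 (NN r ω c i x 1 1) (NN r ω c i x 2 0) (NN r ω c i x 3 2)
        (NN r ω c i x 0 2) (NN r ω c i x 2 1) (NN r ω c i x 3 0)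
        (NN r ω c i x 0 0) (NN r ω c i x 1 2) (NN r ω c i x 3 1)
        (NN r ω c i x 0 1) (NN r ω c i x 1 0) (NN r ω c i x 2 2)
        (hN _ _) (hN _ _) (hN _ _) (hN _ _) (hN _ _) (hN _ _) (hN _ _) (hN _ _) (hN _ _) (hN _ _)
        (hN _ _) (hN _ _) hsum (by linarith [hv0.1]) (by linarith [hv0.2]) (by linarith [hv1.1])
        (by linarith [hv1.2]) (by linarith [hv2.1]) (by linarith [hv2.2]) (by linarith [hv3.1])
        (by linarith [hv3.2]) (by linarith) hF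
  exact ⟨by linarith, h3⟩

end Pool.Agent.MPecb
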