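import Pool.Agent.Lib.MP_ecb332_co.Outer

/-!
Moving every point to a class in which it has few bad pairs.
-/

set_option autoImplicit false
set_option linter.unusedSectionVars false

namespace Pool.Agent.MPecb

open Finset

variable {V : Type*} [Fintype V]

theorem BB_eq (r : V → V → Fin 3) (ω : V → ℝ) (c : V → Fin 4) : BB r ω c = ∑ x, ω x * bw r ω c (c x) x := by
  unfold BB bw
  refine Finset.sum_congr rfl fun x _ => ?_
  rw [Finset.mul_sum]
  refine Finset.sum_congr rfl fun y _ => ?_
  by_cases h : Bd r c x y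
  · have h2 : c y ≠ c x ∧ r x y ≠ std (c y - c x) := ⟨fun h' => h.1 h'.symm, h.2⟩
    rw [if_pos h, if_pos h2]
  · have h2 : ¬ (c y ≠ c x ∧ r x y ≠ std (c y - c x)) := fun h' => h ⟨fun h'' => h'.1 h''.symm, h'.2⟩
    rw [if_neg h, if_neg h2, mul_zero]

theorem bw_nonneg {r : V → V → Fin 3} {ω : V → ℝ} (hω : ∀ x, 0 ≤ ω x) (c : V → Fin 4) (i : Fin 4) (x : V) :
    0 ≤ bw r ω c i x := by
  unfold bw
  refine Finset.sum_nonneg fun y _ => ?_
  split_ifs
  · exact hω y
  · exact le_refl _

theorem std_ne : ∀ i j k : Fin 4, i ≠ j → k ≠ i → k ≠ j → std (k - i) ≠ std (k - j) := by decide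

/-- a point cannot fit two classes -/
theorem bw_add {r : V → V → Fin 3} {ω : V → ℝ} (hω : ∀ x, 0 ≤ ω x) (c : V → Fin 4) {i j : Fin 4} (hij : i ≠ j)
    (x : V) : ∑ y, ω y - cw ω c i - cw ω c j ≤ bw r ω c i x + bw r ω c j x := by
  unfold cw bw
  rw [← Finset.sum_sub_distrib, ← Finset.sum_sub_distrib, ← Finset.sum_add_distrib]
  refine Finset.sum_le_sum fun y _ => ?_
  have h0 := hω y
  by_cases h1 : c y = i
  · have h2 : c y ≠ j := fun h => hij (h1.symm.trans h)
    rw [if_pos h1, if_neg h2, if_neg (fun h => h.1 h1)]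
    split_ifs <;> linarith
  · by_cases h2 : c y = j
    · rw [if_neg h1, if_pos h2, if_neg (fun h : c y ≠ j ∧ _ => h.1 h2)]
      split_ifs <;> linarith
    · rw [if_neg h1, if_neg h2]
      by_cases h3 : r x y = std (c y - i)
      · have h4 : r x y ≠ std (c y - j) := by rw [h3]; exact std_ne i j (c y) hij h1 h2
        rw [if_pos (⟨h2, h4⟩ : c y ≠ j ∧ _)]
        split_ifs <;> linarith
      · rw [if_pos (⟨h1, h3⟩ : c y ≠ i ∧ _)]
        split_ifs <;> linarith

theorem Bd_symm {r : V → V → Fin 3} (hr : ∀ x y, r y x = - r x y) (c : V → Fin 4) (x y : V) :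
    Bd r c x y ↔ Bd r c y x := by
  have key : ∀ (i j : Fin 4) (a : Fin 3), (i ≠ j ∧ a ≠ std (j - i)) ↔ (j ≠ i ∧ -a ≠ std (i - j)) := by decide
  unfold Bd
  rw [hr x y]
  exact key (c x) (c y) (r x y)

theorem reassign {r : V → V → Fin 3} (hr : ∀ x y, r y x = - r x y) {ω : V → ℝ} (hω : ∀ x, 0 < ω x)
    (hs : ∑ x, ω x = 1) (c : V → Fin 4) (hB : BB r ω c ≤ 7 / 7500) (hc : ∀ i, |cw ω c i - 1 / 4| ≤ 0.012)
    (hx : ∀ x, ∃ i, bw r ω c i x ≤ 0.11) :
    ∃ c' : V → Fin 4, BB r ω c' ≤ 7 / 7500 ∧ (∀ x, bw r ω c' (c' x) x ≤ 0.113) ∧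
      ∀ i, |cw ω c' i - 1 / 4| ≤ 0.015 := by
  have hω0 : ∀ x, 0 ≤ ω x := fun x => (hω x).le
  choose c' hc' using hx
  -- the moved points
  set m : V → ℝ := fun x => ω x * ind (c' x ≠ c x) with hm
  have hm0 : ∀ x, 0 ≤ m x := fun x => mul_nonneg (hω0 x) (ind_nonneg _)
  set μ : ℝ := ∑ x, m x with hμ
  have hμ0 : 0 ≤ μ := Finset.sum_nonneg fun x _ => hm0 x
  have hbig : ∀ x, c' x ≠ c x → 0.366 ≤ bw r ω c (c x) x := by
    intro x hne
    have h1 := bw_add (r := r) hω0 c hne x
    have h2 := hc' x
    have h3 := abs_le.1 (hc (c x))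
    have h4 := abs_le.1 (hc (c' x))
    rw [hs] at h1
    linarith [h3.2, h4.2]
  have hlow : 0.366 * μ ≤ BB r ω c := by
    rw [BB_eq, hμ, Finset.mul_sum]
    refine Finset.sum_le_sum fun x _ => ?_
    by_cases h : c' x ≠ c x
    · have h1 : m x = ω x := by simp only [hm]; unfold ind; rw [if_pos h, mul_one]
      rw [h1, mul_comm]
      exact mul_le_mul_of_nonneg_left (hbig x h) (hω0 x)
    · have h1 : m x = 0 := by simp only [hm]; unfold ind; rw [if_neg h, mul_zero]
      rw [h1, mul_zero]
      exact mul_nonneg (hω0 x) (bw_nonneg hω0 _ _ _)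
  have hμ1 : μ ≤ 0.0026 := by linarith
  have hbw : ∀ i x, bw r ω c' i x ≤ bw r ω c i x + μ := by
    intro i x
    unfold bw
    rw [hμ, ← Finset.sum_add_distrib]
    refine Finset.sum_le_sum fun y _ => ?_
    have h0 := hω0 y
    by_cases h : c' y = c y
    · rw [h]
      have := hm0 y
      linarith
    · have h1 : m y = ω y := by simp only [hm]; unfold ind; rw [if_pos h, mul_one]
      rw [h1]
      split_ifs <;> linarith
  have hb' : ∀ x, bw r ω c' (c' x) x ≤ 0.113 := by
    intro x
    have := hbw (c' x) x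
    have := hc' x
    linarith
  refine ⟨c', ?_, hb', ?_⟩
  · -- bad pairs of the new partition
    set R : ℝ := ∑ x, ∑ y, (if c' x = c x ∧ c' y = c y ∧ Bd r c x y then ω x * ω y else 0) with hR
    have h1 : BB r ω c' ≤ R + 2 * (0.113 * μ) := by
      have e1 : ∀ x y, (if Bd r c' x y then ω x * ω y else 0) ≤
          (if c' x = c x ∧ c' y = c y ∧ Bd r c x y then ω x * ω y else 0) +
          m x * (if Bd r c' x y then ω y else 0) + m y * (if Bd r c' y x then ω x else 0) := by
        intro x y
        have n0 : 0 ≤ ω x * ω y := mul_nonneg (hω0 x) (hω0 y)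
        have n1 := hm0 x
        have n2 := hm0 y
        by_cases h : Bd r c' x y
        · have h' : Bd r c' y x := (Bd_symm hr c' x y).1 h
          rw [if_pos h, if_pos h, if_pos h']
          by_cases h2 : c' x = c x
          · by_cases h3 : c' y = c y
            · have h4 : Bd r c x y := by unfold Bd at h ⊢; rw [← h2, ← h3]; exact h
              rw [if_pos ⟨h2, h3, h4⟩]
              have := mul_nonneg n1 (hω0 y)
              have := mul_nonneg n2 (hω0 x)
              linarith
            · have h4 : m y = ω y := by simp only [hm]; unfold ind; rw [if_pos h3, mul_one]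
              rw [if_neg (fun h => h3 h.2.1), h4]
              have := mul_nonneg n1 (hω0 y)
              linarith [mul_comm (ω x) (ω y)]
          · have h4 : m x = ω x := by simp only [hm]; unfold ind; rw [if_pos h2, mul_one]
            rw [if_neg (fun h => h2 h.1), h4]
            have := mul_nonneg n2 (hω0 x)
            linarith
        · have h' : ¬ Bd r c' y x := fun h' => h ((Bd_symm hr c' x y).2 h')
          rw [if_neg h, if_neg h, if_neg h', mul_zero, mul_zero, add_zero, add_zero]
          split_ifs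
          · exact n0
          · exact le_refl _
      have e2 : ∑ x, ∑ y, m x * (if Bd r c' x y then ω y else 0) ≤ 0.113 * μ := by
        rw [hμ, Finset.mul_sum]
        refine Finset.sum_le_sum fun x _ => ?_
        rw [← Finset.mul_sum, mul_comm]
        refine mul_le_mul_of_nonneg_right ?_ (hm0 x)
        refine le_trans (le_of_eq ?_) (hb' x)
        unfold bw
        refine Finset.sum_congr rfl fun y _ => ?_
        by_cases h : Bd r c' x y
        · have h2 : c' y ≠ c' x ∧ r x y ≠ std (c' y - c' x) := ⟨fun h' => h.1 h'.symm, h.2⟩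
          rw [if_pos h, if_pos h2]
        · have h2 : ¬ (c' y ≠ c' x ∧ r x y ≠ std (c' y - c' x)) :=
            fun h' => h ⟨fun h'' => h'.1 h''.symm, h'.2⟩
          rw [if_neg h, if_neg h2]
      have e3 : ∑ x, ∑ y, m y * (if Bd r c' y x then ω x else 0) ≤ 0.113 * μ := by
        rw [Finset.sum_comm]
        exact e2
      have e4 : BB r ω c' ≤ ∑ x, ∑ y, ((if c' x = c x ∧ c' y = c y ∧ Bd r c x y then ω x * ω y else 0) +
          m x * (if Bd r c' x y then ω y else 0) + m y * (if Bd r c' y x then ω x else 0)) :=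
        Finset.sum_le_sum fun x _ => Finset.sum_le_sum fun y _ => e1 x y
      simp only [Finset.sum_add_distrib] at e4
      linarith
    have h2 : R + 0.366 * μ ≤ BB r ω c := by
      have e1 : ∀ x, ∑ y, (if c' x = c x ∧ c' y = c y ∧ Bd r c x y then ω x * ω y else 0) + 0.366 * m x ≤
          ω x * bw r ω c (c x) x := by
        intro x
        by_cases h : c' x = c x
        · have h1 : m x = 0 := by simp only [hm]; unfold ind; rw [if_neg (not_not.2 h), mul_zero]
          rw [h1, mul_zero, add_zero]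
          unfold bw
          rw [Finset.mul_sum]
          refine Finset.sum_le_sum fun y _ => ?_
          by_cases h3 : c' x = c x ∧ c' y = c y ∧ Bd r c x y
          · have h4 : c y ≠ c x ∧ r x y ≠ std (c y - c x) := ⟨fun h' => h3.2.2.1 h'.symm, h3.2.2.2⟩
            rw [if_pos h3, if_pos h4]
          · rw [if_neg h3]
            split_ifs
            · exact mul_nonneg (hω0 x) (hω0 y)
            · rw [mul_zero]
        · have h1 : m x = ω x := by simp only [hm]; unfold ind; rw [if_pos h, mul_one]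
          have h2 : ∑ y, (if c' x = c x ∧ c' y = c y ∧ Bd r c x y then ω x * ω y else 0) = 0 := by
            refine Finset.sum_eq_zero fun y _ => ?_
            rw [if_neg (fun h' => h h'.1)]
          rw [h1, h2, zero_add, mul_comm]
          exact mul_le_mul_of_nonneg_left (hbig x h) (hω0 x)
      rw [BB_eq, hR, hμ, Finset.mul_sum, ← Finset.sum_add_distrib]
      exact Finset.sum_le_sum fun x _ => e1 x
    linarith
  · intro i
    have h1 : |cw ω c' i - cw ω c i| ≤ μ := by
      unfold cw
      rw [← Finset.sum_sub_distrib, hμ]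
      refine le_trans (Finset.abs_sum_le_sum_abs _ _) (Finset.sum_le_sum fun y _ => ?_)
      have h0 := hω0 y
      by_cases h : c' y = c y
      · rw [h, sub_self, abs_zero]
        exact hm0 y
      · have h1 : m y = ω y := by simp only [hm]; unfold ind; rw [if_pos h, mul_one]
        rw [h1]
        split_ifs <;> simp [abs_of_nonneg h0, h0]
    have h2 := hc i
    rw [abs_le] at h1 h2 ⊢
    constructor <;> linarith [h1.1, h1.2, h2.1, h2.2]

end Pool.Agent.MPecb
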