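import Pool.Agent.Lib.MP_ecb332_co.Flag3
import Pool.Agent.Lib.MP_ecb332_co.Reassign
import Pool.Agent.Lib.MP_ecb332_co.Glob
import Pool.Agent.Lib.MP_ecb332_co.Crit
import Pool.Agent.Lib.MP_ecb332_co.Final
import Pool.Agent.Lib.MP_ecb332_co.Prof3

/-!
Assembly of the proof of the statement of MP_ecb332_co.
-/

set_option autoImplicit false

namespace Pool.Agent.MPecb

theorem critical {V : Type} [Fintype V] [DecidableEq V] (r : V → V → Fin 3) (hr : ∀ x y, r y x = - r x y)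
    (ω : V → ℝ) (hω : ∀ x, 0 < ω x) (hs : ∑ x, ω x = 1)
    (hS : ∀ ω' : V → ℝ, (∀ x, 0 ≤ ω' x) → (∃ x, ω' x = 0) → 5 * TT r ω' ≤ 2 * (∑ x, ω' x) ^ 3)
    (hC : ∀ x, TT r ω ≤ EE r ω x) : TT r ω ≤ 2 / 5 := by
  by_contra hcon
  push Not at hcon
  have hE : ∀ x, 2 / 5 ≤ EE r ω x := fun x => hcon.le.trans (hC x)
  obtain ⟨o, c0, α, ho, hstat⟩ := flag_root hr hω hs hcon.le hS
  obtain ⟨hB0, hc0⟩ := outer hr hω hs hE o c0 α ho hstat
  have hx := exists_class r hω hs hE c0 hB0 hc0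
  obtain ⟨c, hB, hb, hc⟩ := reassign hr hω hs c0 hB0 hc0 hx
  have hw := class_bounds r hω hs hE hS c hB hb hc
  have hQ := final_profile r hω hs hE c hB hb hw
  exact absurd (human_end' r hr ω hω hs hS c (fun x => (hQ x).2) (fun i => (hw i).2)) (not_le.2 hcon)

theorem weighted {V : Type} [Fintype V] [DecidableEq V] (r : V → V → Fin 3) (hr : ∀ x y, r y x = - r x y)
    (ω : V → ℝ) (hω : ∀ x, 0 ≤ ω x) : 5 * TT r ω ≤ 2 * (∑ x, ω x) ^ 3 :=
  weighted_of_critical (fun r hr ω hω hs hS hC => critical r hr ω hω hs hS hC) r hr ω hω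

end Pool.Agent.MPecb
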