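import Pool.Agent.Lib.MP_ecb332_co.Base

/-!
A root with a small statistic gives a partition into four classes that is nearly balanced and has few
bad pairs.
-/

set_option autoImplicit false
set_option linter.unusedSectionVars false

namespace Pool.Agent.MPecb

open Finset

variable {V : Type*} [Fintype V]

/-- real indicator of a proposition -/
noncomputable def ind (p : Prop) [Decidable p] : ℝ := if p then 1 else 0

theorem ind_nonneg (p : Prop) [Decidable p] : 0 ≤ ind p := by unfold ind; split_ifs <;> norm_num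
theorem ind_le_one (p : Prop) [Decidable p] : ind p ≤ 1 := by unfold ind; split_ifs <;> norm_num

theorem sval_split (od oe : Bool) (cd ce : Fin 4) (ad ae ρ : Fin 3) :
    sval od oe cd ce ad ae ρ =
      1 / 2 * (ind (od = true) * ind (oe = false) + ind (od = false) * ind (oe = true)) +
      800 * (ind (od = true) * ind (oe = false) * ind (-ρ ≠ ad) +
        ind (od = false) * ind (oe = true) * ind (ρ ≠ ae)) +
      ind (od = false) * ind (oe = false) *
        (800 * ind (cd = ce) - (200 + 7 / 50) + 150 * ind (cd ≠ ce ∧ ρ ≠ std (ce - cd))) := by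
  unfold sval ind
  cases od <;> cases oe
  · by_cases h1 : cd = ce
    · simp [h1]; norm_num
    · by_cases h2 : ρ = std (ce - cd)
      · simp [h1, h2]; norm_num
      · simp [h1, h2]; norm_num
  · by_cases h2 : ρ = ae
    · simp [h2]
    · simp [h2]
  · by_cases h2 : -ρ = ad
    · simp [h2]
    · simp [h2]
  · simp

theorem sum_class_sq (f : V → ℝ) (c : V → Fin 4) :
    ∑ d, ∑ e, f d * f e * ind (c d = c e) = ∑ i, (∑ d, f d * ind (c d = i)) ^ 2 := by
  have h1 : ∀ i : Fin 4, (∑ d, f d * ind (c d = i)) ^ 2 = ∑ d, ∑ e, f d * f e * (ind (c d = i) * ind (c e = i)) := by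
    intro i
    rw [sq, Finset.sum_mul_sum]
    refine Finset.sum_congr rfl fun d _ => Finset.sum_congr rfl fun e _ => ?_
    ring
  have h3 : ∑ i : Fin 4, (∑ d, f d * ind (c d = i)) ^ 2 =
      ∑ d, ∑ e, ∑ i : Fin 4, f d * f e * (ind (c d = i) * ind (c e = i)) := by
    simp only [h1]
    rw [Finset.sum_comm]
    refine Finset.sum_congr rfl fun d _ => ?_
    rw [Finset.sum_comm]
  rw [h3]
  refine Finset.sum_congr rfl fun d _ => Finset.sum_congr rfl fun e _ => ?_
  rw [← Finset.mul_sum]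
  congr 1
  have h2 : ∀ i : Fin 4, ind (c d = i) * ind (c e = i) = if c d = i then ind (c e = i) else 0 := by
    intro i
    unfold ind
    split_ifs <;> simp
  simp only [h2, Finset.sum_ite_eq, Finset.mem_univ, if_true]
  unfold ind
  by_cases h : c d = c e
  · simp [h]
  · rw [if_neg h, if_neg (fun h' => h h'.symm)]

theorem p3_eq_zero_of_eq (a c : Fin 3) : p3 a a c = 0 := by
  unfold p3
  rw [if_neg]
  revert a c
  decide

theorem p3_le_one (a b c : Fin 3) : p3 a b c ≤ 1 := by
  unfold p3; split_ifs <;> norm_num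

theorem p3_nonneg (a b c : Fin 3) : 0 ≤ p3 a b c := by
  unfold p3; split_ifs <;> norm_num

/-- if the relation of `w` to a set of weight `p` is constant, then `EE` is at most `1 - p ^ 2` -/
theorem EE_le_of_const {r : V → V → Fin 3} {ω : V → ℝ} (hω : ∀ x, 0 ≤ ω x) (hs : ∑ x, ω x = 1)
    (w : V) (A : V → Prop) [DecidablePred A] (hA : ∀ y z, A y → A z → r w y = r w z) :
    EE r ω w ≤ 1 - (∑ y, ω y * ind (A y)) ^ 2 := by
  have h1 : ∀ y z, ω y * ω z * p3 (r w y) (r w z) (r y z) ≤
      ω y * ω z - (ω y * ind (A y)) * (ω z * ind (A z)) := by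
    intro y z
    have h0 : 0 ≤ ω y * ω z := mul_nonneg (hω y) (hω z)
    by_cases hy : A y
    · by_cases hz : A z
      · rw [hA y z hy hz, p3_eq_zero_of_eq]
        unfold ind
        rw [if_pos hy, if_pos hz]
        linarith
      · unfold ind
        rw [if_neg hz]
        have := p3_le_one (r w y) (r w z) (r y z)
        nlinarith
    · unfold ind
      rw [if_neg hy]
      have := p3_le_one (r w y) (r w z) (r y z)
      nlinarith
  have h2 : ∑ y, ∑ z, (ω y * ω z - (ω y * ind (A y)) * (ω z * ind (A z))) = 1 - (∑ y, ω y * ind (A y)) ^ 2 := by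
    simp only [Finset.sum_sub_distrib]
    rw [← Finset.sum_mul_sum, ← Finset.sum_mul_sum, hs]
    ring
  unfold EE
  rw [← h2]
  exact Finset.sum_le_sum fun y _ => Finset.sum_le_sum fun z _ => h1 y z

theorem bal4 (a b c d : ℝ) : (a - (a + b + c + d) / 4) ^ 2 ≤
    3 / 16 * (4 * (a ^ 2 + b ^ 2 + c ^ 2 + d ^ 2) - (a + b + c + d) ^ 2) := by
  nlinarith [sq_nonneg (b - c), sq_nonneg (b - d), sq_nonneg (c - d)]

theorem bal4' (v : Fin 4 → ℝ) (i : Fin 4) : (v i - (∑ j, v j) / 4) ^ 2 ≤
    3 / 16 * (4 * ∑ j, v j ^ 2 - (∑ j, v j) ^ 2) := by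
  rw [Fin.sum_univ_four, Fin.sum_univ_four]
  fin_cases i
  · have := bal4 (v 0) (v 1) (v 2) (v 3)
    exact this
  · have := bal4 (v 1) (v 0) (v 2) (v 3)
    show (v 1 - (v 0 + v 1 + v 2 + v 3) / 4) ^ 2 ≤
      3 / 16 * (4 * (v 0 ^ 2 + v 1 ^ 2 + v 2 ^ 2 + v 3 ^ 2) - (v 0 + v 1 + v 2 + v 3) ^ 2)
    refine le_trans (le_of_eq ?_) (le_trans this (le_of_eq ?_)) <;> ring
  · have := bal4 (v 2) (v 0) (v 1) (v 3)
    show (v 2 - (v 0 + v 1 + v 2 + v 3) / 4) ^ 2 ≤
      3 / 16 * (4 * (v 0 ^ 2 + v 1 ^ 2 + v 2 ^ 2 + v 3 ^ 2) - (v 0 + v 1 + v 2 + v 3) ^ 2)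
    refine le_trans (le_of_eq ?_) (le_trans this (le_of_eq ?_)) <;> ring
  · have := bal4 (v 3) (v 0) (v 1) (v 2)
    show (v 3 - (v 0 + v 1 + v 2 + v 3) / 4) ^ 2 ≤
      3 / 16 * (4 * (v 0 ^ 2 + v 1 ^ 2 + v 2 ^ 2 + v 3 ^ 2) - (v 0 + v 1 + v 2 + v 3) ^ 2)
    refine le_trans (le_of_eq ?_) (le_trans this (le_of_eq ?_)) <;> ring

theorem cs4 (v : Fin 4 → ℝ) : (∑ j, v j) ^ 2 ≤ 4 * ∑ j, v j ^ 2 := by
  rw [Fin.sum_univ_four, Fin.sum_univ_four]
  nlinarith [sq_nonneg (v 0 - v 1), sq_nonneg (v 0 - v 2), sq_nonneg (v 0 - v 3), sq_nonneg (v 1 - v 2),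
    sq_nonneg (v 1 - v 3), sq_nonneg (v 2 - v 3)]

theorem outer {r : V → V → Fin 3} (hr : ∀ x y, r y x = - r x y) {ω : V → ℝ} (hω : ∀ x, 0 < ω x)
    (hs : ∑ x, ω x = 1) (hE : ∀ x, 2 / 5 ≤ EE r ω x)
    (o : V → Bool) (c : V → Fin 4) (α : V → Fin 3) (ho : ∃ x, o x = false)
    (hstat : ∑ d, ∑ e, ω d * ω e * sval (o d) (o e) (c d) (c e) (α d) (α e) (r d e) ≤ 0) :
    BB r ω c ≤ 7 / 7500 ∧ ∀ i, |cw ω c i - 1 / 4| ≤ 0.012 := by
  have hω0 : ∀ x, 0 ≤ ω x := fun x => (hω x).le
  -- the weights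
  set p : V → ℝ := fun x => ω x * ind (o x = true) with hp
  set q : V → ℝ := fun x => ω x * ind (o x = false) with hq
  have hp0 : ∀ x, 0 ≤ p x := fun x => mul_nonneg (hω0 x) (ind_nonneg _)
  have hq0 : ∀ x, 0 ≤ q x := fun x => mul_nonneg (hω0 x) (ind_nonneg _)
  have hpq : ∀ x, p x + q x = ω x := by
    intro x
    simp only [hp, hq]
    unfold ind
    cases o x <;> simp
  set u : ℝ := ∑ x, p x with hu
  set s : ℝ := ∑ x, q x with hsdef
  have hus : u + s = 1 := by
    rw [hu, hsdef, ← Finset.sum_add_distrib, ← hs]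
    exact Finset.sum_congr rfl fun x _ => hpq x
  have hu0 : 0 ≤ u := Finset.sum_nonneg fun x _ => hp0 x
  have hspos : 0 < s := by
    obtain ⟨x, hx⟩ := ho
    have h1 : q x ≤ s := Finset.single_le_sum (f := q) (fun y _ => hq0 y) (Finset.mem_univ x)
    have h2 : q x = ω x := by simp only [hq]; unfold ind; rw [if_pos hx, mul_one]
    have := hω x
    linarith
  -- deviation of a point outside
  set D : V → ℝ := fun w => ∑ e, q e * ind (-(r w e) ≠ α w) with hD
  set BO : ℝ := ∑ d, p d * D d with hBO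
  set BN : ℝ := ∑ d, ∑ e, q d * q e * ind (c d ≠ c e ∧ r d e ≠ std (c e - c d)) with hBN
  set v : Fin 4 → ℝ := fun i => ∑ d, q d * ind (c d = i) with hv
  have hBN0 : 0 ≤ BN := Finset.sum_nonneg fun d _ => Finset.sum_nonneg fun e _ =>
    mul_nonneg (mul_nonneg (hq0 d) (hq0 e)) (ind_nonneg _)
  have hD0 : ∀ w, 0 ≤ D w := fun w => Finset.sum_nonneg fun e _ => mul_nonneg (hq0 e) (ind_nonneg _)
  have hBO0 : 0 ≤ BO := Finset.sum_nonneg fun d _ => mul_nonneg (hp0 d) (hD0 d)
  -- value of the statistic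
  have hval : u * s + 1600 * BO + 800 * ∑ i, v i ^ 2 - (200 + 7 / 50) * s ^ 2 + 150 * BN ≤ 0 := by
    refine le_trans (le_of_eq ?_) hstat
    have e1 : ∀ d e, ω d * ω e * sval (o d) (o e) (c d) (c e) (α d) (α e) (r d e) =
        1 / 2 * (p d * q e) + 1 / 2 * (q d * p e) + 800 * (p d * (q e * ind (-(r d e) ≠ α d))) +
        800 * (p e * (q d * ind (-(r e d) ≠ α e))) + 800 * (q d * q e * ind (c d = c e)) -
        (200 + 7 / 50) * (q d * q e) + 150 * (q d * q e * ind (c d ≠ c e ∧ r d e ≠ std (c e - c d))) := by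
      intro d e
      rw [sval_split]
      have h1 : -(r e d) = r d e := by rw [hr d e, neg_neg]
      rw [h1]
      simp only [hp, hq]
      ring
    simp only [e1, Finset.sum_add_distrib, Finset.sum_sub_distrib, ← Finset.mul_sum]
    rw [Finset.sum_comm (f := fun d e => p e * (q d * ind (-(r e d) ≠ α e)))]
    simp only [← Finset.mul_sum, ← Finset.sum_mul]
    rw [sum_class_sq]
    simp only [← hu, ← hsdef]
    have e2 : ∑ d, p d * ∑ e, q e * ind (-(r d e) ≠ α d) = BO := rfl
    have e3 : ∑ d, ∑ e, q d * q e * ind (c d ≠ c e ∧ r d e ≠ std (c e - c d)) = BN := rfl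
    have e4 : ∑ i, (∑ d, q d * ind (c d = i)) ^ 2 = ∑ i, v i ^ 2 := rfl
    rw [e2, e3, e4]
    ring
  have hvsum : ∑ i, v i = s := by
    simp only [hv]
    rw [Finset.sum_comm, hsdef]
    refine Finset.sum_congr rfl fun d _ => ?_
    rw [← Finset.mul_sum]
    have : ∑ i : Fin 4, ind (c d = i) = 1 := by unfold ind; simp
    rw [this, mul_one]
  -- points outside have large deviation
  have hdev : ∀ w, o w = true → 0.2254 - u ≤ D w := by
    intro w _
    have h1 := EE_le_of_const hω0 hs w (fun y => o y = false ∧ -(r w y) = α w) (by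
      intro y z hy hz
      have : -(r w y) = -(r w z) := by rw [hy.2, hz.2]
      exact neg_injective this)
    have h2 : ∑ y, ω y * ind (o y = false ∧ -(r w y) = α w) = s - D w := by
      rw [hsdef, hD, ← Finset.sum_sub_distrib]
      refine Finset.sum_congr rfl fun y _ => ?_
      simp only [hq]
      unfold ind
      by_cases h3 : o y = false <;> by_cases h4 : -(r w y) = α w <;> simp [h3, h4]
    rw [h2] at h1
    have h3 := hE w
    have h4 : 0 ≤ s - D w := by
      rw [← h2]
      exact Finset.sum_nonneg fun y _ => mul_nonneg (hω0 y) (ind_nonneg _)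
    have h5 : (s - D w) ^ 2 ≤ 3 / 5 := by linarith
    have h6 : s - D w ≤ 0.7746 := by
      by_contra h7
      push Not at h7
      nlinarith
    linarith
  have hBOu : u * (0.2254 - u) ≤ BO := by
    rw [hu, Finset.sum_mul, hBO]
    refine Finset.sum_le_sum fun d _ => ?_
    by_cases h : o d = true
    · exact mul_le_mul_of_nonneg_left (hdev d h) (hp0 d)
    · have : p d = 0 := by simp only [hp]; unfold ind; rw [if_neg h, mul_zero]
      rw [this, zero_mul, zero_mul]
  have hcs : s ^ 2 ≤ 4 * ∑ i, v i ^ 2 := by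
    rw [← hvsum]
    exact cs4 v
  have hs1 : s ≤ 1 := by linarith
  have hu1 : u ≤ 0.14 := by
    have h1 : u * s ≤ 0.14 * s * s := by nlinarith
    have h2 : u ≤ 0.14 * s := le_of_mul_le_mul_right h1 hspos
    linarith
  have hss : s ^ 2 ≤ 1 := by nlinarith
  have hu2 : u ≤ 0.00103 := by nlinarith
  have hu3 : u ≤ 0.0003902 := by nlinarith
  have hv2 : 4 * ∑ i, v i ^ 2 - s ^ 2 ≤ 0.0007 := by nlinarith
  constructor
  · -- bad pairs
    have h1 : BB r ω c ≤ BN + 2 * u := by
      have e1 : ∀ x y, (if Bd r c x y then ω x * ω y else 0) ≤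
          q x * q y * ind (c x ≠ c y ∧ r x y ≠ std (c y - c x)) + p x * ω y + ω x * p y := by
        intro x y
        have n1 : 0 ≤ p x * ω y := mul_nonneg (hp0 x) (hω0 y)
        have n2 : 0 ≤ ω x * p y := mul_nonneg (hω0 x) (hp0 y)
        have n3 : 0 ≤ q x * q y := mul_nonneg (hq0 x) (hq0 y)
        by_cases h : Bd r c x y
        · rw [if_pos h]
          unfold Bd at h
          have : ind (c x ≠ c y ∧ r x y ≠ std (c y - c x)) = 1 := by unfold ind; rw [if_pos h]
          rw [this, mul_one]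
          have e5 := hpq x
          have e6 := hpq y
          have e7 := hp0 x
          have e8 := hp0 y
          have : ω x * ω y = (p x + q x) * (p y + q y) := by rw [e5, e6]
          rw [this, ← e5, ← e6]
          nlinarith [mul_nonneg e7 e8]
        · rw [if_neg h]
          have := mul_nonneg n3 (ind_nonneg (c x ≠ c y ∧ r x y ≠ std (c y - c x)))
          linarith
      calc BB r ω c ≤ ∑ x, ∑ y, (q x * q y * ind (c x ≠ c y ∧ r x y ≠ std (c y - c x)) + p x * ω y + ω x * p y) :=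
            Finset.sum_le_sum fun x _ => Finset.sum_le_sum fun y _ => e1 x y
        _ = BN + 2 * u := by
            simp only [Finset.sum_add_distrib, ← Finset.mul_sum, ← Finset.sum_mul, hs, ← hu]
            rw [hBN]
            ring
    have h2 : 0.2243 * u ≤ BO := by nlinarith
    nlinarith
  · intro i
    have hi : cw ω c i = v i + ∑ x, p x * ind (c x = i) := by
      unfold cw
      rw [hv, ← Finset.sum_add_distrib]
      refine Finset.sum_congr rfl fun x _ => ?_
      have := hpq x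
      unfold ind
      split_ifs with h
      · linarith
      · ring
    have h1 : 0 ≤ ∑ x, p x * ind (c x = i) := Finset.sum_nonneg fun x _ => mul_nonneg (hp0 x) (ind_nonneg _)
    have h2 : ∑ x, p x * ind (c x = i) ≤ u := by
      rw [hu]
      refine Finset.sum_le_sum fun x _ => ?_
      have := mul_le_mul_of_nonneg_left (ind_le_one (c x = i)) (hp0 x)
      linarith
    have h3 : (v i - s / 4) ^ 2 ≤ 3 / 16 * (4 * ∑ j, v j ^ 2 - s ^ 2) := by
      rw [← hvsum]
      exact bal4' v i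
    have h4 : (v i - s / 4) ^ 2 ≤ 0.00013125 := by linarith
    have h5 : |v i - s / 4| ≤ 0.01146 := by
      apply abs_le_of_sq_le_sq _ (by norm_num)
      norm_num at h4 ⊢
      linarith
    rw [abs_le] at h5 ⊢
    rw [hi]
    constructor
    · linarith [h5.1]
    · linarith [h5.2]

end Pool.Agent.MPecb
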