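import Pool.Agent.Lib.MP_ecb332_co.Glob
import Pool.Agent.Lib.MP_ecb332_co.Reassign

/-!
Task D of the blueprint for MP_ecb332_co, first part: the profile of a point and the bound for `EE`.
-/

set_option autoImplicit false

namespace Pool.Agent.MPecb

/-! ### Pointwise inequalities -/

/-- the charge of a pair of points, relative to a reference class -/
def psiAF (d : Fin 4) (a : Fin 3) (e : Fin 4) (b : Fin 3) : ℤ :=
  if (d ≠ e ∧ d + tauF a = e + tauF b) ∨ (d = e ∧ a ≠ b) then 1 else 0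

/-- the same without the pairs of the reference class -/
def psiBF (d : Fin 4) (a : Fin 3) (e : Fin 4) (b : Fin 3) : ℤ :=
  if d = 0 ∧ e = 0 then 0 else psiAF d a e b

set_option maxRecDepth 100000 in
theorem pointA : ∀ i j k : Fin 4, ∀ a b g : Fin 3,
    p3F a b g ≤ psiAF (j - i) a (k - i) b + (if j ≠ k ∧ g ≠ std (k - j) then 1 else 0) := by
  decide +kernel

set_option maxRecDepth 100000 in
theorem pointB : ∀ i j k : Fin 4, ∀ a b g : Fin 3,
    p3F a b g ≤ (if j = i ∧ k = i then p3F a b g else 0) + psiBF (j - i) a (k - i) b +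
      (if j ≠ k ∧ g ≠ std (k - j) then 1 else 0) := by
  decide +kernel

theorem psiA_row_0_0 (N : Fin 4 → Fin 3 → ℝ) : ∑ e, ∑ b, (psiAF 0 0 e b : ℝ) * N e b =
    N 0 1 + N 0 2 + N 1 2 + N 3 1 := by
  simp only [Fin.sum_univ_four, Fin.sum_univ_three,
    show psiAF 0 0 0 0 = 0 from by decide,
    show psiAF 0 0 0 1 = 1 from by decide,
    show psiAF 0 0 0 2 = 1 from by decide,
    show psiAF 0 0 1 0 = 0 from by decide,
    show psiAF 0 0 1 1 = 0 from by decide,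
    show psiAF 0 0 1 2 = 1 from by decide,
    show psiAF 0 0 2 0 = 0 from by decide,
    show psiAF 0 0 2 1 = 0 from by decide,
    show psiAF 0 0 2 2 = 0 from by decide,
    show psiAF 0 0 3 0 = 0 from by decide,
    show psiAF 0 0 3 1 = 1 from by decide,
    show psiAF 0 0 3 2 = 0 from by decide]
  push_cast
  ring

theorem psiA_row_0_1 (N : Fin 4 → Fin 3 → ℝ) : ∑ e, ∑ b, (psiAF 0 1 e b : ℝ) * N e b =
    N 0 0 + N 0 2 + N 1 0 + N 2 2 := by
  simp only [Fin.sum_univ_four, Fin.sum_univ_three,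
    show psiAF 0 1 0 0 = 1 from by decide,
    show psiAF 0 1 0 1 = 0 from by decide,
    show psiAF 0 1 0 2 = 1 from by decide,
    show psiAF 0 1 1 0 = 1 from by decide,
    show psiAF 0 1 1 1 = 0 from by decide,
    show psiAF 0 1 1 2 = 0 from by decide,
    show psiAF 0 1 2 0 = 0 from by decide,
    show psiAF 0 1 2 1 = 0 from by decide,
    show psiAF 0 1 2 2 = 1 from by decide,
    show psiAF 0 1 3 0 = 0 from by decide,
    show psiAF 0 1 3 1 = 0 from by decide,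
    show psiAF 0 1 3 2 = 0 from by decide]
  push_cast
  ring

theorem psiA_row_0_2 (N : Fin 4 → Fin 3 → ℝ) : ∑ e, ∑ b, (psiAF 0 2 e b : ℝ) * N e b =
    N 0 0 + N 0 1 + N 2 1 + N 3 0 := by
  simp only [Fin.sum_univ_four, Fin.sum_univ_three,
    show psiAF 0 2 0 0 = 1 from by decide,
    show psiAF 0 2 0 1 = 1 from by decide,
    show psiAF 0 2 0 2 = 0 from by decide,
    show psiAF 0 2 1 0 = 0 from by decide,
    show psiAF 0 2 1 1 = 0 from by decide,
    show psiAF 0 2 1 2 = 0 from by decide,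
    show psiAF 0 2 2 0 = 0 from by decide,
    show psiAF 0 2 2 1 = 1 from by decide,
    show psiAF 0 2 2 2 = 0 from by decide,
    show psiAF 0 2 3 0 = 1 from by decide,
    show psiAF 0 2 3 1 = 0 from by decide,
    show psiAF 0 2 3 2 = 0 from by decide]
  push_cast
  ring

theorem psiA_row_1_0 (N : Fin 4 → Fin 3 → ℝ) : ∑ e, ∑ b, (psiAF 1 0 e b : ℝ) * N e b =
    N 0 1 + N 1 1 + N 1 2 + N 2 2 := by
  simp only [Fin.sum_univ_four, Fin.sum_univ_three,
    show psiAF 1 0 0 0 = 0 from by decide,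
    show psiAF 1 0 0 1 = 1 from by decide,
    show psiAF 1 0 0 2 = 0 from by decide,
    show psiAF 1 0 1 0 = 0 from by decide,
    show psiAF 1 0 1 1 = 1 from by decide,
    show psiAF 1 0 1 2 = 1 from by decide,
    show psiAF 1 0 2 0 = 0 from by decide,
    show psiAF 1 0 2 1 = 0 from by decide,
    show psiAF 1 0 2 2 = 1 from by decide,
    show psiAF 1 0 3 0 = 0 from by decide,
    show psiAF 1 0 3 1 = 0 from by decide,
    show psiAF 1 0 3 2 = 0 from by decide]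
  push_cast
  ring

theorem psiA_row_1_1 (N : Fin 4 → Fin 3 → ℝ) : ∑ e, ∑ b, (psiAF 1 1 e b : ℝ) * N e b =
    N 1 0 + N 1 2 + N 2 0 + N 3 2 := by
  simp only [Fin.sum_univ_four, Fin.sum_univ_three,
    show psiAF 1 1 0 0 = 0 from by decide,
    show psiAF 1 1 0 1 = 0 from by decide,
    show psiAF 1 1 0 2 = 0 from by decide,
    show psiAF 1 1 1 0 = 1 from by decide,
    show psiAF 1 1 1 1 = 0 from by decide,
    show psiAF 1 1 1 2 = 1 from by decide,
    show psiAF 1 1 2 0 = 1 from by decide,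
    show psiAF 1 1 2 1 = 0 from by decide,
    show psiAF 1 1 2 2 = 0 from by decide,
    show psiAF 1 1 3 0 = 0 from by decide,
    show psiAF 1 1 3 1 = 0 from by decide,
    show psiAF 1 1 3 2 = 1 from by decide]
  push_cast
  ring

theorem psiA_row_1_2 (N : Fin 4 → Fin 3 → ℝ) : ∑ e, ∑ b, (psiAF 1 2 e b : ℝ) * N e b =
    N 0 0 + N 1 0 + N 1 1 + N 3 1 := by
  simp only [Fin.sum_univ_four, Fin.sum_univ_three,
    show psiAF 1 2 0 0 = 1 from by decide,
    show psiAF 1 2 0 1 = 0 from by decide,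
    show psiAF 1 2 0 2 = 0 from by decide,
    show psiAF 1 2 1 0 = 1 from by decide,
    show psiAF 1 2 1 1 = 1 from by decide,
    show psiAF 1 2 1 2 = 0 from by decide,
    show psiAF 1 2 2 0 = 0 from by decide,
    show psiAF 1 2 2 1 = 0 from by decide,
    show psiAF 1 2 2 2 = 0 from by decide,
    show psiAF 1 2 3 0 = 0 from by decide,
    show psiAF 1 2 3 1 = 1 from by decide,
    show psiAF 1 2 3 2 = 0 from by decide]
  push_cast
  ring

theorem psiA_row_2_0 (N : Fin 4 → Fin 3 → ℝ) : ∑ e, ∑ b, (psiAF 2 0 e b : ℝ) * N e b =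
    N 1 1 + N 2 1 + N 2 2 + N 3 2 := by
  simp only [Fin.sum_univ_four, Fin.sum_univ_three,
    show psiAF 2 0 0 0 = 0 from by decide,
    show psiAF 2 0 0 1 = 0 from by decide,
    show psiAF 2 0 0 2 = 0 from by decide,
    show psiAF 2 0 1 0 = 0 from by decide,
    show psiAF 2 0 1 1 = 1 from by decide,
    show psiAF 2 0 1 2 = 0 from by decide,
    show psiAF 2 0 2 0 = 0 from by decide,
    show psiAF 2 0 2 1 = 1 from by decide,
    show psiAF 2 0 2 2 = 1 from by decide,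
    show psiAF 2 0 3 0 = 0 from by decide,
    show psiAF 2 0 3 1 = 0 from by decide,
    show psiAF 2 0 3 2 = 1 from by decide]
  push_cast
  ring

theorem psiA_row_2_1 (N : Fin 4 → Fin 3 → ℝ) : ∑ e, ∑ b, (psiAF 2 1 e b : ℝ) * N e b =
    N 0 2 + N 2 0 + N 2 2 + N 3 0 := by
  simp only [Fin.sum_univ_four, Fin.sum_univ_three,
    show psiAF 2 1 0 0 = 0 from by decide,
    show psiAF 2 1 0 1 = 0 from by decide,
    show psiAF 2 1 0 2 = 1 from by decide,
    show psiAF 2 1 1 0 = 0 from by decide,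
    show psiAF 2 1 1 1 = 0 from by decide,
    show psiAF 2 1 1 2 = 0 from by decide,
    show psiAF 2 1 2 0 = 1 from by decide,
    show psiAF 2 1 2 1 = 0 from by decide,
    show psiAF 2 1 2 2 = 1 from by decide,
    show psiAF 2 1 3 0 = 1 from by decide,
    show psiAF 2 1 3 1 = 0 from by decide,
    show psiAF 2 1 3 2 = 0 from by decide]
  push_cast
  ring

theorem psiA_row_2_2 (N : Fin 4 → Fin 3 → ℝ) : ∑ e, ∑ b, (psiAF 2 2 e b : ℝ) * N e b =
    N 0 1 + N 1 0 + N 2 0 + N 2 1 := by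
  simp only [Fin.sum_univ_four, Fin.sum_univ_three,
    show psiAF 2 2 0 0 = 0 from by decide,
    show psiAF 2 2 0 1 = 1 from by decide,
    show psiAF 2 2 0 2 = 0 from by decide,
    show psiAF 2 2 1 0 = 1 from by decide,
    show psiAF 2 2 1 1 = 0 from by decide,
    show psiAF 2 2 1 2 = 0 from by decide,
    show psiAF 2 2 2 0 = 1 from by decide,
    show psiAF 2 2 2 1 = 1 from by decide,
    show psiAF 2 2 2 2 = 0 from by decide,
    show psiAF 2 2 3 0 = 0 from by decide,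
    show psiAF 2 2 3 1 = 0 from by decide,
    show psiAF 2 2 3 2 = 0 from by decide]
  push_cast
  ring

theorem psiA_row_3_0 (N : Fin 4 → Fin 3 → ℝ) : ∑ e, ∑ b, (psiAF 3 0 e b : ℝ) * N e b =
    N 0 2 + N 2 1 + N 3 1 + N 3 2 := by
  simp only [Fin.sum_univ_four, Fin.sum_univ_three,
    show psiAF 3 0 0 0 = 0 from by decide,
    show psiAF 3 0 0 1 = 0 from by decide,
    show psiAF 3 0 0 2 = 1 from by decide,
    show psiAF 3 0 1 0 = 0 from by decide,
    show psiAF 3 0 1 1 = 0 from by decide,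
    show psiAF 3 0 1 2 = 0 from by decide,
    show psiAF 3 0 2 0 = 0 from by decide,
    show psiAF 3 0 2 1 = 1 from by decide,
    show psiAF 3 0 2 2 = 0 from by decide,
    show psiAF 3 0 3 0 = 0 from by decide,
    show psiAF 3 0 3 1 = 1 from by decide,
    show psiAF 3 0 3 2 = 1 from by decide]
  push_cast
  ring

theorem psiA_row_3_1 (N : Fin 4 → Fin 3 → ℝ) : ∑ e, ∑ b, (psiAF 3 1 e b : ℝ) * N e b =
    N 0 0 + N 1 2 + N 3 0 + N 3 2 := by
  simp only [Fin.sum_univ_four, Fin.sum_univ_three,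
    show psiAF 3 1 0 0 = 1 from by decide,
    show psiAF 3 1 0 1 = 0 from by decide,
    show psiAF 3 1 0 2 = 0 from by decide,
    show psiAF 3 1 1 0 = 0 from by decide,
    show psiAF 3 1 1 1 = 0 from by decide,
    show psiAF 3 1 1 2 = 1 from by decide,
    show psiAF 3 1 2 0 = 0 from by decide,
    show psiAF 3 1 2 1 = 0 from by decide,
    show psiAF 3 1 2 2 = 0 from by decide,
    show psiAF 3 1 3 0 = 1 from by decide,
    show psiAF 3 1 3 1 = 0 from by decide,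
    show psiAF 3 1 3 2 = 1 from by decide]
  push_cast
  ring

theorem psiA_row_3_2 (N : Fin 4 → Fin 3 → ℝ) : ∑ e, ∑ b, (psiAF 3 2 e b : ℝ) * N e b =
    N 1 1 + N 2 0 + N 3 0 + N 3 1 := by
  simp only [Fin.sum_univ_four, Fin.sum_univ_three,
    show psiAF 3 2 0 0 = 0 from by decide,
    show psiAF 3 2 0 1 = 0 from by decide,
    show psiAF 3 2 0 2 = 0 from by decide,
    show psiAF 3 2 1 0 = 0 from by decide,
    show psiAF 3 2 1 1 = 1 from by decide,
    show psiAF 3 2 1 2 = 0 from by decide,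
    show psiAF 3 2 2 0 = 1 from by decide,
    show psiAF 3 2 2 1 = 0 from by decide,
    show psiAF 3 2 2 2 = 0 from by decide,
    show psiAF 3 2 3 0 = 1 from by decide,
    show psiAF 3 2 3 1 = 1 from by decide,
    show psiAF 3 2 3 2 = 0 from by decide]
  push_cast
  ring

theorem psiB_row_0_0 (N : Fin 4 → Fin 3 → ℝ) : ∑ e, ∑ b, (psiBF 0 0 e b : ℝ) * N e b =
    N 1 2 + N 3 1 := by
  simp only [Fin.sum_univ_four, Fin.sum_univ_three,
    show psiBF 0 0 0 0 = 0 from by decide,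
    show psiBF 0 0 0 1 = 0 from by decide,
    show psiBF 0 0 0 2 = 0 from by decide,
    show psiBF 0 0 1 0 = 0 from by decide,
    show psiBF 0 0 1 1 = 0 from by decide,
    show psiBF 0 0 1 2 = 1 from by decide,
    show psiBF 0 0 2 0 = 0 from by decide,
    show psiBF 0 0 2 1 = 0 from by decide,
    show psiBF 0 0 2 2 = 0 from by decide,
    show psiBF 0 0 3 0 = 0 from by decide,
    show psiBF 0 0 3 1 = 1 from by decide,
    show psiBF 0 0 3 2 = 0 from by decide]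
  push_cast
  ring

theorem psiB_row_0_1 (N : Fin 4 → Fin 3 → ℝ) : ∑ e, ∑ b, (psiBF 0 1 e b : ℝ) * N e b =
    N 1 0 + N 2 2 := by
  simp only [Fin.sum_univ_four, Fin.sum_univ_three,
    show psiBF 0 1 0 0 = 0 from by decide,
    show psiBF 0 1 0 1 = 0 from by decide,
    show psiBF 0 1 0 2 = 0 from by decide,
    show psiBF 0 1 1 0 = 1 from by decide,
    show psiBF 0 1 1 1 = 0 from by decide,
    show psiBF 0 1 1 2 = 0 from by decide,
    show psiBF 0 1 2 0 = 0 from by decide,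
    show psiBF 0 1 2 1 = 0 from by decide,
    show psiBF 0 1 2 2 = 1 from by decide,
    show psiBF 0 1 3 0 = 0 from by decide,
    show psiBF 0 1 3 1 = 0 from by decide,
    show psiBF 0 1 3 2 = 0 from by decide]
  push_cast
  ring

theorem psiB_row_0_2 (N : Fin 4 → Fin 3 → ℝ) : ∑ e, ∑ b, (psiBF 0 2 e b : ℝ) * N e b =
    N 2 1 + N 3 0 := by
  simp only [Fin.sum_univ_four, Fin.sum_univ_three,
    show psiBF 0 2 0 0 = 0 from by decide,
    show psiBF 0 2 0 1 = 0 from by decide,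
    show psiBF 0 2 0 2 = 0 from by decide,
    show psiBF 0 2 1 0 = 0 from by decide,
    show psiBF 0 2 1 1 = 0 from by decide,
    show psiBF 0 2 1 2 = 0 from by decide,
    show psiBF 0 2 2 0 = 0 from by decide,
    show psiBF 0 2 2 1 = 1 from by decide,
    show psiBF 0 2 2 2 = 0 from by decide,
    show psiBF 0 2 3 0 = 1 from by decide,
    show psiBF 0 2 3 1 = 0 from by decide,
    show psiBF 0 2 3 2 = 0 from by decide]
  push_cast
  ring

theorem psiB_row_1_0 (N : Fin 4 → Fin 3 → ℝ) : ∑ e, ∑ b, (psiBF 1 0 e b : ℝ) * N e b =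
    N 0 1 + N 1 1 + N 1 2 + N 2 2 := by
  simp only [Fin.sum_univ_four, Fin.sum_univ_three,
    show psiBF 1 0 0 0 = 0 from by decide,
    show psiBF 1 0 0 1 = 1 from by decide,
    show psiBF 1 0 0 2 = 0 from by decide,
    show psiBF 1 0 1 0 = 0 from by decide,
    show psiBF 1 0 1 1 = 1 from by decide,
    show psiBF 1 0 1 2 = 1 from by decide,
    show psiBF 1 0 2 0 = 0 from by decide,
    show psiBF 1 0 2 1 = 0 from by decide,
    show psiBF 1 0 2 2 = 1 from by decide,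
    show psiBF 1 0 3 0 = 0 from by decide,
    show psiBF 1 0 3 1 = 0 from by decide,
    show psiBF 1 0 3 2 = 0 from by decide]
  push_cast
  ring

theorem psiB_row_1_1 (N : Fin 4 → Fin 3 → ℝ) : ∑ e, ∑ b, (psiBF 1 1 e b : ℝ) * N e b =
    N 1 0 + N 1 2 + N 2 0 + N 3 2 := by
  simp only [Fin.sum_univ_four, Fin.sum_univ_three,
    show psiBF 1 1 0 0 = 0 from by decide,
    show psiBF 1 1 0 1 = 0 from by decide,
    show psiBF 1 1 0 2 = 0 from by decide,
    show psiBF 1 1 1 0 = 1 from by decide,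
    show psiBF 1 1 1 1 = 0 from by decide,
    show psiBF 1 1 1 2 = 1 from by decide,
    show psiBF 1 1 2 0 = 1 from by decide,
    show psiBF 1 1 2 1 = 0 from by decide,
    show psiBF 1 1 2 2 = 0 from by decide,
    show psiBF 1 1 3 0 = 0 from by decide,
    show psiBF 1 1 3 1 = 0 from by decide,
    show psiBF 1 1 3 2 = 1 from by decide]
  push_cast
  ring

theorem psiB_row_1_2 (N : Fin 4 → Fin 3 → ℝ) : ∑ e, ∑ b, (psiBF 1 2 e b : ℝ) * N e b =
    N 0 0 + N 1 0 + N 1 1 + N 3 1 := by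
  simp only [Fin.sum_univ_four, Fin.sum_univ_three,
    show psiBF 1 2 0 0 = 1 from by decide,
    show psiBF 1 2 0 1 = 0 from by decide,
    show psiBF 1 2 0 2 = 0 from by decide,
    show psiBF 1 2 1 0 = 1 from by decide,
    show psiBF 1 2 1 1 = 1 from by decide,
    show psiBF 1 2 1 2 = 0 from by decide,
    show psiBF 1 2 2 0 = 0 from by decide,
    show psiBF 1 2 2 1 = 0 from by decide,
    show psiBF 1 2 2 2 = 0 from by decide,
    show psiBF 1 2 3 0 = 0 from by decide,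
    show psiBF 1 2 3 1 = 1 from by decide,
    show psiBF 1 2 3 2 = 0 from by decide]
  push_cast
  ring

theorem psiB_row_2_0 (N : Fin 4 → Fin 3 → ℝ) : ∑ e, ∑ b, (psiBF 2 0 e b : ℝ) * N e b =
    N 1 1 + N 2 1 + N 2 2 + N 3 2 := by
  simp only [Fin.sum_univ_four, Fin.sum_univ_three,
    show psiBF 2 0 0 0 = 0 from by decide,
    show psiBF 2 0 0 1 = 0 from by decide,
    show psiBF 2 0 0 2 = 0 from by decide,
    show psiBF 2 0 1 0 = 0 from by decide,
    show psiBF 2 0 1 1 = 1 from by decide,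
    show psiBF 2 0 1 2 = 0 from by decide,
    show psiBF 2 0 2 0 = 0 from by decide,
    show psiBF 2 0 2 1 = 1 from by decide,
    show psiBF 2 0 2 2 = 1 from by decide,
    show psiBF 2 0 3 0 = 0 from by decide,
    show psiBF 2 0 3 1 = 0 from by decide,
    show psiBF 2 0 3 2 = 1 from by decide]
  push_cast
  ring

theorem psiB_row_2_1 (N : Fin 4 → Fin 3 → ℝ) : ∑ e, ∑ b, (psiBF 2 1 e b : ℝ) * N e b =
    N 0 2 + N 2 0 + N 2 2 + N 3 0 := by
  simp only [Fin.sum_univ_four, Fin.sum_univ_three,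
    show psiBF 2 1 0 0 = 0 from by decide,
    show psiBF 2 1 0 1 = 0 from by decide,
    show psiBF 2 1 0 2 = 1 from by decide,
    show psiBF 2 1 1 0 = 0 from by decide,
    show psiBF 2 1 1 1 = 0 from by decide,
    show psiBF 2 1 1 2 = 0 from by decide,
    show psiBF 2 1 2 0 = 1 from by decide,
    show psiBF 2 1 2 1 = 0 from by decide,
    show psiBF 2 1 2 2 = 1 from by decide,
    show psiBF 2 1 3 0 = 1 from by decide,
    show psiBF 2 1 3 1 = 0 from by decide,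
    show psiBF 2 1 3 2 = 0 from by decide]
  push_cast
  ring

theorem psiB_row_2_2 (N : Fin 4 → Fin 3 → ℝ) : ∑ e, ∑ b, (psiBF 2 2 e b : ℝ) * N e b =
    N 0 1 + N 1 0 + N 2 0 + N 2 1 := by
  simp only [Fin.sum_univ_four, Fin.sum_univ_three,
    show psiBF 2 2 0 0 = 0 from by decide,
    show psiBF 2 2 0 1 = 1 from by decide,
    show psiBF 2 2 0 2 = 0 from by decide,
    show psiBF 2 2 1 0 = 1 from by decide,
    show psiBF 2 2 1 1 = 0 from by decide,
    show psiBF 2 2 1 2 = 0 from by decide,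
    show psiBF 2 2 2 0 = 1 from by decide,
    show psiBF 2 2 2 1 = 1 from by decide,
    show psiBF 2 2 2 2 = 0 from by decide,
    show psiBF 2 2 3 0 = 0 from by decide,
    show psiBF 2 2 3 1 = 0 from by decide,
    show psiBF 2 2 3 2 = 0 from by decide]
  push_cast
  ring

theorem psiB_row_3_0 (N : Fin 4 → Fin 3 → ℝ) : ∑ e, ∑ b, (psiBF 3 0 e b : ℝ) * N e b =
    N 0 2 + N 2 1 + N 3 1 + N 3 2 := by
  simp only [Fin.sum_univ_four, Fin.sum_univ_three,
    show psiBF 3 0 0 0 = 0 from by decide,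
    show psiBF 3 0 0 1 = 0 from by decide,
    show psiBF 3 0 0 2 = 1 from by decide,
    show psiBF 3 0 1 0 = 0 from by decide,
    show psiBF 3 0 1 1 = 0 from by decide,
    show psiBF 3 0 1 2 = 0 from by decide,
    show psiBF 3 0 2 0 = 0 from by decide,
    show psiBF 3 0 2 1 = 1 from by decide,
    show psiBF 3 0 2 2 = 0 from by decide,
    show psiBF 3 0 3 0 = 0 from by decide,
    show psiBF 3 0 3 1 = 1 from by decide,
    show psiBF 3 0 3 2 = 1 from by decide]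
  push_cast
  ring

theorem psiB_row_3_1 (N : Fin 4 → Fin 3 → ℝ) : ∑ e, ∑ b, (psiBF 3 1 e b : ℝ) * N e b =
    N 0 0 + N 1 2 + N 3 0 + N 3 2 := by
  simp only [Fin.sum_univ_four, Fin.sum_univ_three,
    show psiBF 3 1 0 0 = 1 from by decide,
    show psiBF 3 1 0 1 = 0 from by decide,
    show psiBF 3 1 0 2 = 0 from by decide,
    show psiBF 3 1 1 0 = 0 from by decide,
    show psiBF 3 1 1 1 = 0 from by decide,
    show psiBF 3 1 1 2 = 1 from by decide,
    show psiBF 3 1 2 0 = 0 from by decide,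
    show psiBF 3 1 2 1 = 0 from by decide,
    show psiBF 3 1 2 2 = 0 from by decide,
    show psiBF 3 1 3 0 = 1 from by decide,
    show psiBF 3 1 3 1 = 0 from by decide,
    show psiBF 3 1 3 2 = 1 from by decide]
  push_cast
  ring

theorem psiB_row_3_2 (N : Fin 4 → Fin 3 → ℝ) : ∑ e, ∑ b, (psiBF 3 2 e b : ℝ) * N e b =
    N 1 1 + N 2 0 + N 3 0 + N 3 1 := by
  simp only [Fin.sum_univ_four, Fin.sum_univ_three,
    show psiBF 3 2 0 0 = 0 from by decide,
    show psiBF 3 2 0 1 = 0 from by decide,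
    show psiBF 3 2 0 2 = 0 from by decide,
    show psiBF 3 2 1 0 = 0 from by decide,
    show psiBF 3 2 1 1 = 1 from by decide,
    show psiBF 3 2 1 2 = 0 from by decide,
    show psiBF 3 2 2 0 = 1 from by decide,
    show psiBF 3 2 2 1 = 0 from by decide,
    show psiBF 3 2 2 2 = 0 from by decide,
    show psiBF 3 2 3 0 = 1 from by decide,
    show psiBF 3 2 3 1 = 1 from by decide,
    show psiBF 3 2 3 2 = 0 from by decide]
  push_cast
  ring


/-! ### Sums over the profile -/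

variable {V : Type*} [Fintype V]

/-- `FF` of the profile of `x` relative to the class `i` -/
noncomputable def FFp (r : V → V → Fin 3) (ω : V → ℝ) (c : V → Fin 4) (i : Fin 4) (x : V) : ℝ :=
  FF (NN r ω c i x 1 1) (NN r ω c i x 2 0) (NN r ω c i x 3 2)
        (NN r ω c i x 0 2) (NN r ω c i x 2 1) (NN r ω c i x 3 0)
        (NN r ω c i x 0 0) (NN r ω c i x 1 2) (NN r ω c i x 3 1)
        (NN r ω c i x 0 1) (NN r ω c i x 1 0) (NN r ω c i x 2 2)

theorem psiA_sum (r : V → V → Fin 3) (ω : V → ℝ) (c : V → Fin 4) (i : Fin 4) (x : V) :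
    ∑ y, ∑ z, ω y * ω z * (psiAF (c y - i) (r x y) (c z - i) (r x z) : ℝ) = 2 * FFp r ω c i x := by
  rw [sum_profile2 r ω c i x (fun d a e b => (psiAF d a e b : ℝ))]
  obtain ⟨R, hR⟩ : ∃ R : Fin 4 → Fin 3 → ℝ, ∀ d a,
      (∑ e, ∑ b, (psiAF d a e b : ℝ) * NN r ω c i x e b) = R d a := ⟨_, fun _ _ => rfl⟩
  have h00 := psiA_row_0_0 (NN r ω c i x)
  have h01 := psiA_row_0_1 (NN r ω c i x)
  have h02 := psiA_row_0_2 (NN r ω c i x)
  have h10 := psiA_row_1_0 (NN r ω c i x)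
  have h11 := psiA_row_1_1 (NN r ω c i x)
  have h12 := psiA_row_1_2 (NN r ω c i x)
  have h20 := psiA_row_2_0 (NN r ω c i x)
  have h21 := psiA_row_2_1 (NN r ω c i x)
  have h22 := psiA_row_2_2 (NN r ω c i x)
  have h30 := psiA_row_3_0 (NN r ω c i x)
  have h31 := psiA_row_3_1 (NN r ω c i x)
  have h32 := psiA_row_3_2 (NN r ω c i x)
  rw [hR] at h00 h01 h02 h10 h11 h12 h20 h21 h22 h30 h31 h32
  simp only [hR]
  simp only [Fin.sum_univ_four, Fin.sum_univ_three]
  rw [h00, h01, h02, h10, h11, h12, h20, h21, h22, h30, h31, h32]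
  unfold FFp FF
  ring

theorem psiB_sum (r : V → V → Fin 3) (ω : V → ℝ) (c : V → Fin 4) (i : Fin 4) (x : V) :
    ∑ y, ∑ z, ω y * ω z * (psiBF (c y - i) (r x y) (c z - i) (r x z) : ℝ) =
      2 * (FFp r ω c i x - (NN r ω c i x 0 2 * NN r ω c i x 0 0 + NN r ω c i x 0 2 * NN r ω c i x 0 1 +
        NN r ω c i x 0 0 * NN r ω c i x 0 1)) := by
  rw [sum_profile2 r ω c i x (fun d a e b => (psiBF d a e b : ℝ))]
  obtain ⟨R, hR⟩ : ∃ R : Fin 4 → Fin 3 → ℝ, ∀ d a,
      (∑ e, ∑ b, (psiBF d a e b : ℝ) * NN r ω c i x e b) = R d a := ⟨_, fun _ _ => rfl⟩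
  have h00 := psiB_row_0_0 (NN r ω c i x)
  have h01 := psiB_row_0_1 (NN r ω c i x)
  have h02 := psiB_row_0_2 (NN r ω c i x)
  have h10 := psiB_row_1_0 (NN r ω c i x)
  have h11 := psiB_row_1_1 (NN r ω c i x)
  have h12 := psiB_row_1_2 (NN r ω c i x)
  have h20 := psiB_row_2_0 (NN r ω c i x)
  have h21 := psiB_row_2_1 (NN r ω c i x)
  have h22 := psiB_row_2_2 (NN r ω c i x)
  have h30 := psiB_row_3_0 (NN r ω c i x)
  have h31 := psiB_row_3_1 (NN r ω c i x)
  have h32 := psiB_row_3_2 (NN r ω c i x)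
  rw [hR] at h00 h01 h02 h10 h11 h12 h20 h21 h22 h30 h31 h32
  simp only [hR]
  simp only [Fin.sum_univ_four, Fin.sum_univ_three]
  rw [h00, h01, h02, h10, h11, h12, h20, h21, h22, h30, h31, h32]
  unfold FFp FF
  ring

theorem BB_cast (r : V → V → Fin 3) (ω : V → ℝ) (c : V → Fin 4) :
    BB r ω c = ∑ y, ∑ z, ω y * ω z * (((if c y ≠ c z ∧ r y z ≠ std (c z - c y) then 1 else 0 : ℤ)) : ℝ) := by
  unfold BB
  refine Finset.sum_congr rfl fun y _ => Finset.sum_congr rfl fun z _ => ?_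
  by_cases h : Bd r c y z
  · have h' : c y ≠ c z ∧ r y z ≠ std (c z - c y) := h
    rw [if_pos h, if_pos h']
    simp
  · have h' : ¬ (c y ≠ c z ∧ r y z ≠ std (c z - c y)) := h
    rw [if_neg h, if_neg h']
    simp

theorem EE_le (r : V → V → Fin 3) {ω : V → ℝ} (hω : ∀ x, 0 ≤ ω x) (c : V → Fin 4) (i : Fin 4) (x : V) :
    EE r ω x ≤ 2 * FFp r ω c i x + BB r ω c := by
  rw [← psiA_sum, BB_cast, ← Finset.sum_add_distrib]
  unfold EE
  refine Finset.sum_le_sum fun y _ => ?_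
  rw [← Finset.sum_add_distrib]
  refine Finset.sum_le_sum fun z _ => ?_
  have hp := pointA i (c y) (c z) (r x y) (r x z) (r y z)
  have hp' : p3 (r x y) (r x z) (r y z) ≤ (psiAF (c y - i) (r x y) (c z - i) (r x z) : ℝ) +
      (((if c y ≠ c z ∧ r y z ≠ std (c z - c y) then 1 else 0 : ℤ)) : ℝ) := by
    rw [p3_cast]; exact_mod_cast hp
  rw [← mul_add]
  exact mul_le_mul_of_nonneg_left hp' (mul_nonneg (hω y) (hω z))

theorem EE_le' (r : V → V → Fin 3) {ω : V → ℝ} (hω : ∀ x, 0 ≤ ω x) (c : V → Fin 4) (x : V) :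
    EE r ω x ≤ (∑ y, ∑ z, if c y = c x ∧ c z = c x then ω y * ω z * p3 (r x y) (r x z) (r y z) else 0) +
      2 * (FFp r ω c (c x) x - (NN r ω c (c x) x 0 2 * NN r ω c (c x) x 0 0 +
        NN r ω c (c x) x 0 2 * NN r ω c (c x) x 0 1 + NN r ω c (c x) x 0 0 * NN r ω c (c x) x 0 1)) +
      BB r ω c := by
  rw [← psiB_sum, BB_cast, ← Finset.sum_add_distrib, ← Finset.sum_add_distrib]
  unfold EE
  refine Finset.sum_le_sum fun y _ => ?_
  rw [← Finset.sum_add_distrib, ← Finset.sum_add_distrib]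
  refine Finset.sum_le_sum fun z _ => ?_
  have hp := pointB (c x) (c y) (c z) (r x y) (r x z) (r y z)
  have hp' : p3 (r x y) (r x z) (r y z) ≤
      (((if c y = c x ∧ c z = c x then p3F (r x y) (r x z) (r y z) else 0 : ℤ)) : ℝ) +
      (psiBF (c y - c x) (r x y) (c z - c x) (r x z) : ℝ) +
      (((if c y ≠ c z ∧ r y z ≠ std (c z - c y) then 1 else 0 : ℤ)) : ℝ) := by
    rw [p3_cast]; exact_mod_cast hp
  have hw := mul_le_mul_of_nonneg_left hp' (mul_nonneg (hω y) (hω z))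
  refine hw.trans (le_of_eq ?_)
  rw [mul_add, mul_add]
  congr 2
  by_cases h : c y = c x ∧ c z = c x
  · rw [if_pos h, if_pos h, p3_cast]
  · rw [if_neg h, if_neg h]; simp

/-! ### The dictionary -/

theorem NN_nonneg (r : V → V → Fin 3) {ω : V → ℝ} (hω : ∀ x, 0 ≤ ω x) (c : V → Fin 4) (i : Fin 4) (x : V)
    (d : Fin 4) (ρ : Fin 3) : 0 ≤ NN r ω c i x d ρ := by
  unfold NN
  refine Finset.sum_nonneg fun y _ => ?_
  split_ifs
  · exact hω y
  · exact le_refl _

theorem NN_sum (r : V → V → Fin 3) (ω : V → ℝ) (c : V → Fin 4) (i : Fin 4) (x : V) :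
    NN r ω c i x 1 1 + NN r ω c i x 2 0 + NN r ω c i x 3 2 + NN r ω c i x 0 2 + NN r ω c i x 2 1 +
    NN r ω c i x 3 0 + NN r ω c i x 0 0 + NN r ω c i x 1 2 + NN r ω c i x 3 1 + NN r ω c i x 0 1 +
    NN r ω c i x 1 0 + NN r ω c i x 2 2 = ∑ y, ω y := by
  have h := cw_sum ω c
  have h2 : ∑ j, cw ω c j = ∑ d, cw ω c (i + d) :=
    (Equiv.sum_comp (Equiv.addLeft i) (fun j => cw ω c j)).symm
  rw [h2, Fin.sum_univ_four, cw_profile r ω c i x 0, cw_profile r ω c i x 1, cw_profile r ω c i x 2,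
    cw_profile r ω c i x 3] at h
  rw [← h]
  ring

/-- bad relation for the class difference, as a real number -/
noncomputable def gbad (j d : Fin 4) (a : Fin 3) : ℝ := if d ≠ j ∧ a ≠ std (d - j) then 1 else 0

theorem bw_profile (r : V → V → Fin 3) (ω : V → ℝ) (c : V → Fin 4) (i j : Fin 4) (x : V) :
    bw r ω c (i + j) x = ∑ d, ∑ a, gbad j d a * NN r ω c i x d a := by
  rw [← sum_profile r ω c i x (gbad j)]
  unfold bw gbad
  refine Finset.sum_congr rfl fun y _ => ?_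
  have h1 : c y ≠ i + j ↔ c y - i ≠ j := by
    rw [ne_eq, ne_eq, sub_eq_iff_eq_add, add_comm]
  have h2 : c y - (i + j) = c y - i - j := by abel
  have hiff : (c y ≠ i + j ∧ r x y ≠ std (c y - (i + j))) ↔ (c y - i ≠ j ∧ r x y ≠ std (c y - i - j)) := by
    rw [h1, h2]
  by_cases h : c y - i ≠ j ∧ r x y ≠ std (c y - i - j)
  · rw [if_pos (hiff.2 h), if_pos h, mul_one]
  · rw [if_neg (fun h' => h (hiff.1 h')), if_neg h, mul_zero]

theorem bw_zero (r : V → V → Fin 3) (ω : V → ℝ) (c : V → Fin 4) (i : Fin 4) (x : V) :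
    bw r ω c i x = NN r ω c i x 2 1 + NN r ω c i x 3 0 + NN r ω c i x 1 2 + NN r ω c i x 3 1 +
      NN r ω c i x 1 0 + NN r ω c i x 2 2 := by
  have h := bw_profile r ω c i 0 x
  rw [add_zero] at h
  rw [h]
  simp only [Fin.sum_univ_four, Fin.sum_univ_three, gbad]
  simp only [
    if_neg (show ¬ ((0 : Fin 4) ≠ 0 ∧ (0 : Fin 3) ≠ std (0 - 0)) from by decide),
    if_neg (show ¬ ((0 : Fin 4) ≠ 0 ∧ (1 : Fin 3) ≠ std (0 - 0)) from by decide),
    if_neg (show ¬ ((0 : Fin 4) ≠ 0 ∧ (2 : Fin 3) ≠ std (0 - 0)) from by decide),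
    if_pos (show ((1 : Fin 4) ≠ 0 ∧ (0 : Fin 3) ≠ std (1 - 0)) from by decide),
    if_neg (show ¬ ((1 : Fin 4) ≠ 0 ∧ (1 : Fin 3) ≠ std (1 - 0)) from by decide),
    if_pos (show ((1 : Fin 4) ≠ 0 ∧ (2 : Fin 3) ≠ std (1 - 0)) from by decide),
    if_neg (show ¬ ((2 : Fin 4) ≠ 0 ∧ (0 : Fin 3) ≠ std (2 - 0)) from by decide),
    if_pos (show ((2 : Fin 4) ≠ 0 ∧ (1 : Fin 3) ≠ std (2 - 0)) from by decide),
    if_pos (show ((2 : Fin 4) ≠ 0 ∧ (2 : Fin 3) ≠ std (2 - 0)) from by decide),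
    if_pos (show ((3 : Fin 4) ≠ 0 ∧ (0 : Fin 3) ≠ std (3 - 0)) from by decide),
    if_pos (show ((3 : Fin 4) ≠ 0 ∧ (1 : Fin 3) ≠ std (3 - 0)) from by decide),
    if_neg (show ¬ ((3 : Fin 4) ≠ 0 ∧ (2 : Fin 3) ≠ std (3 - 0)) from by decide)]
  ring

theorem bw_one (r : V → V → Fin 3) (ω : V → ℝ) (c : V → Fin 4) (i : Fin 4) (x : V) :
    bw r ω c (i + 1) x = NN r ω c i x 2 0 + NN r ω c i x 3 2 + NN r ω c i x 0 0 + NN r ω c i x 3 1 +
      NN r ω c i x 0 1 + NN r ω c i x 2 2 := by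
  rw [bw_profile r ω c i 1 x]
  simp only [Fin.sum_univ_four, Fin.sum_univ_three, gbad]
  simp only [
    if_pos (show ((0 : Fin 4) ≠ 1 ∧ (0 : Fin 3) ≠ std (0 - 1)) from by decide),
    if_pos (show ((0 : Fin 4) ≠ 1 ∧ (1 : Fin 3) ≠ std (0 - 1)) from by decide),
    if_neg (show ¬ ((0 : Fin 4) ≠ 1 ∧ (2 : Fin 3) ≠ std (0 - 1)) from by decide),
    if_neg (show ¬ ((1 : Fin 4) ≠ 1 ∧ (0 : Fin 3) ≠ std (1 - 1)) from by decide),
    if_neg (show ¬ ((1 : Fin 4) ≠ 1 ∧ (1 : Fin 3) ≠ std (1 - 1)) from by decide),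
    if_neg (show ¬ ((1 : Fin 4) ≠ 1 ∧ (2 : Fin 3) ≠ std (1 - 1)) from by decide),
    if_pos (show ((2 : Fin 4) ≠ 1 ∧ (0 : Fin 3) ≠ std (2 - 1)) from by decide),
    if_neg (show ¬ ((2 : Fin 4) ≠ 1 ∧ (1 : Fin 3) ≠ std (2 - 1)) from by decide),
    if_pos (show ((2 : Fin 4) ≠ 1 ∧ (2 : Fin 3) ≠ std (2 - 1)) from by decide),
    if_neg (show ¬ ((3 : Fin 4) ≠ 1 ∧ (0 : Fin 3) ≠ std (3 - 1)) from by decide),
    if_pos (show ((3 : Fin 4) ≠ 1 ∧ (1 : Fin 3) ≠ std (3 - 1)) from by decide),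
    if_pos (show ((3 : Fin 4) ≠ 1 ∧ (2 : Fin 3) ≠ std (3 - 1)) from by decide)]
  ring

theorem bw_two (r : V → V → Fin 3) (ω : V → ℝ) (c : V → Fin 4) (i : Fin 4) (x : V) :
    bw r ω c (i + 2) x = NN r ω c i x 1 1 + NN r ω c i x 3 2 + NN r ω c i x 0 2 + NN r ω c i x 3 0 +
      NN r ω c i x 0 1 + NN r ω c i x 1 0 := by
  rw [bw_profile r ω c i 2 x]
  simp only [Fin.sum_univ_four, Fin.sum_univ_three, gbad]
  simp only [
    if_neg (show ¬ ((0 : Fin 4) ≠ 2 ∧ (0 : Fin 3) ≠ std (0 - 2)) from by decide),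
    if_pos (show ((0 : Fin 4) ≠ 2 ∧ (1 : Fin 3) ≠ std (0 - 2)) from by decide),
    if_pos (show ((0 : Fin 4) ≠ 2 ∧ (2 : Fin 3) ≠ std (0 - 2)) from by decide),
    if_pos (show ((1 : Fin 4) ≠ 2 ∧ (0 : Fin 3) ≠ std (1 - 2)) from by decide),
    if_pos (show ((1 : Fin 4) ≠ 2 ∧ (1 : Fin 3) ≠ std (1 - 2)) from by decide),
    if_neg (show ¬ ((1 : Fin 4) ≠ 2 ∧ (2 : Fin 3) ≠ std (1 - 2)) from by decide),
    if_neg (show ¬ ((2 : Fin 4) ≠ 2 ∧ (0 : Fin 3) ≠ std (2 - 2)) from by decide),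
    if_neg (show ¬ ((2 : Fin 4) ≠ 2 ∧ (1 : Fin 3) ≠ std (2 - 2)) from by decide),
    if_neg (show ¬ ((2 : Fin 4) ≠ 2 ∧ (2 : Fin 3) ≠ std (2 - 2)) from by decide),
    if_pos (show ((3 : Fin 4) ≠ 2 ∧ (0 : Fin 3) ≠ std (3 - 2)) from by decide),
    if_neg (show ¬ ((3 : Fin 4) ≠ 2 ∧ (1 : Fin 3) ≠ std (3 - 2)) from by decide),
    if_pos (show ((3 : Fin 4) ≠ 2 ∧ (2 : Fin 3) ≠ std (3 - 2)) from by decide)]
  ring

theorem bw_three (r : V → V → Fin 3) (ω : V → ℝ) (c : V → Fin 4) (i : Fin 4) (x : V) :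
    bw r ω c (i + 3) x = NN r ω c i x 1 1 + NN r ω c i x 2 0 + NN r ω c i x 0 2 + NN r ω c i x 2 1 +
      NN r ω c i x 0 0 + NN r ω c i x 1 2 := by
  rw [bw_profile r ω c i 3 x]
  simp only [Fin.sum_univ_four, Fin.sum_univ_three, gbad]
  simp only [
    if_pos (show ((0 : Fin 4) ≠ 3 ∧ (0 : Fin 3) ≠ std (0 - 3)) from by decide),
    if_neg (show ¬ ((0 : Fin 4) ≠ 3 ∧ (1 : Fin 3) ≠ std (0 - 3)) from by decide),
    if_pos (show ((0 : Fin 4) ≠ 3 ∧ (2 : Fin 3) ≠ std (0 - 3)) from by decide),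
    if_neg (show ¬ ((1 : Fin 4) ≠ 3 ∧ (0 : Fin 3) ≠ std (1 - 3)) from by decide),
    if_pos (show ((1 : Fin 4) ≠ 3 ∧ (1 : Fin 3) ≠ std (1 - 3)) from by decide),
    if_pos (show ((1 : Fin 4) ≠ 3 ∧ (2 : Fin 3) ≠ std (1 - 3)) from by decide),
    if_pos (show ((2 : Fin 4) ≠ 3 ∧ (0 : Fin 3) ≠ std (2 - 3)) from by decide),
    if_pos (show ((2 : Fin 4) ≠ 3 ∧ (1 : Fin 3) ≠ std (2 - 3)) from by decide),
    if_neg (show ¬ ((2 : Fin 4) ≠ 3 ∧ (2 : Fin 3) ≠ std (2 - 3)) from by decide),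
    if_neg (show ¬ ((3 : Fin 4) ≠ 3 ∧ (0 : Fin 3) ≠ std (3 - 3)) from by decide),
    if_neg (show ¬ ((3 : Fin 4) ≠ 3 ∧ (1 : Fin 3) ≠ std (3 - 3)) from by decide),
    if_neg (show ¬ ((3 : Fin 4) ≠ 3 ∧ (2 : Fin 3) ≠ std (3 - 3)) from by decide)]
  ring

end Pool.Agent.MPecb
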