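import Pool.Agent.Lib.MP_ecb332_co.Prof
import Pool.Agent.Lib.MP_ecb332_co.AlgB

/-!
Task D of the blueprint for MP_ecb332_co, second part: D4.
-/

set_option autoImplicit false

namespace Pool.Agent.MPecb

variable {V : Type*} [Fintype V]

theorem FFp_ge (r : V → V → Fin 3) {ω : V → ℝ} (hω : ∀ x, 0 ≤ ω x) (hE : ∀ x, 2 / 5 ≤ EE r ω x)
    (c : V → Fin 4) (hB : BB r ω c ≤ 7 / 7500) (i : Fin 4) (x : V) : 0.1995 ≤ FFp r ω c i x := by
  have h1 := EE_le r hω c i x
  have h2 := hE x
  norm_num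
  linarith

theorem sum3_sq (a b d : ℝ) : a * b + a * d + b * d ≤ (a + b + d) ^ 2 / 3 := by
  nlinarith [sq_nonneg (a - b), sq_nonneg (a - d), sq_nonneg (b - d)]

theorem d4_num (v B : ℝ) (h2 : v ≤ 0.265) (hB : B ≤ 7 / 7500)
    (h : 2 / 5 * v ≤ 2 / 5 * v ^ 3 + 2 * (v * ((1 - v) ^ 2 / 3) + 0.08 * B) + v * B) : v ≤ 0.252 := by
  by_contra hcon
  push Not at hcon
  obtain ⟨d, rfl⟩ : ∃ d, v = 0.252 + d := ⟨v - 0.252, by ring⟩
  have hd : 0 < d := by linarith
  have hd2 : d ≤ 0.013 := by linarith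
  have e1 : (0.252 + d) * B ≤ (0.252 + d) * (7 / 7500) := mul_le_mul_of_nonneg_left hB (by linarith)
  nlinarith [mul_pos hd hd, mul_pos (mul_pos hd hd) hd, mul_nonneg hd.le (by linarith : (0:ℝ) ≤ 0.013 - d),
    mul_nonneg (mul_pos hd hd).le (by linarith : (0:ℝ) ≤ 0.013 - d)]

/-- D4 -/
theorem class_bounds (r : V → V → Fin 3) {ω : V → ℝ} (hω : ∀ x, 0 < ω x)
    (hs : ∑ x, ω x = 1) (hE : ∀ x, 2 / 5 ≤ EE r ω x)
    (hS : ∀ ω' : V → ℝ, (∀ x, 0 ≤ ω' x) → (∃ x, ω' x = 0) → 5 * TT r ω' ≤ 2 * (∑ x, ω' x) ^ 3)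
    (c : V → Fin 4) (hB : BB r ω c ≤ 7 / 7500)
    (hb : ∀ x, bw r ω c (c x) x ≤ 0.113)
    (hc : ∀ i, |cw ω c i - 1 / 4| ≤ 0.015) : ∀ i, 0.244 ≤ cw ω c i ∧ cw ω c i ≤ 0.252 := by
  classical
  have hω0 : ∀ x, 0 ≤ ω x := fun x => (hω x).le
  have hBB := BB_eq r ω c
  have hbn : ∀ x, 0 ≤ bw r ω c (c x) x := fun x => bw_nonneg hω0 c (c x) x
  have up : ∀ i, cw ω c i ≤ 0.252 := by
    intro i
    have hci := abs_le.1 (hc i)
    set v := cw ω c i with hv
    refine d4_num v (BB r ω c) (by linarith [hci.2]) hB ?_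
    -- bound for one point
    have hpt : ∀ x, c x = i → 2 / 5 ≤
        (∑ y, ∑ z, if c y = i ∧ c z = i then ω y * ω z * p3 (r x y) (r x z) (r y z) else 0) +
        2 * ((1 - v) ^ 2 / 3 + 0.08 * bw r ω c (c x) x) + BB r ω c := by
      intro x hx
      have h1 := EE_le' r hω0 c x
      have h2 := hE x
      have hbx := hb x
      have hb0 := hbn x
      rw [hx] at h1 hbx hb0 ⊢
      have hsum := NN_sum r ω c i x
      rw [hs] at hsum
      have hN := fun d ρ => NN_nonneg r hω0 c i x d ρ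
      have hA := alg_A4 (NN r ω c i x 1 1) (NN r ω c i x 2 0) (NN r ω c i x 3 2)
        (NN r ω c i x 0 2) (NN r ω c i x 2 1) (NN r ω c i x 3 0)
        (NN r ω c i x 0 0) (NN r ω c i x 1 2) (NN r ω c i x 3 1)
        (NN r ω c i x 0 1) (NN r ω c i x 1 0) (NN r ω c i x 2 2)
        (hN _ _) (hN _ _) (hN _ _) (hN _ _) (hN _ _) (hN _ _) (hN _ _) (hN _ _) (hN _ _) (hN _ _)
        (hN _ _) (hN _ _) hsum
      have hv0 := cw_profile r ω c i x 0
      rw [add_zero] at hv0
      have hv1 := cw_profile r ω c i x 1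
      have hv2 := cw_profile r ω c i x 2
      have hv3 := cw_profile r ω c i x 3
      have hc1 := abs_le.1 (hc (i + 1))
      have hc2 := abs_le.1 (hc (i + 2))
      have hc3 := abs_le.1 (hc (i + 3))
      rw [hv1] at hc1
      rw [hv2] at hc2
      rw [hv3] at hc3
      rw [← hv] at hv0
      have hci' := hci
      rw [hv0] at hci'
      rw [bw_zero] at hbx hb0 ⊢
      have n12 := hN 2 1
      have n13 := hN 3 0
      have n21 := hN 1 2
      have n23 := hN 3 1
      have n31 := hN 1 0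
      have n32 := hN 2 2
      unfold FFp at h1
      -- abbreviations
      have t1 : (NN r ω c i x 1 2 + NN r ω c i x 1 0) * (2 * (NN r ω c i x 0 2 + NN r ω c i x 0 0 + NN r ω c i x 0 1) +
          2 * (NN r ω c i x 1 1 + NN r ω c i x 1 2 + NN r ω c i x 1 0) - 1) ≤
          (NN r ω c i x 1 2 + NN r ω c i x 1 0) * 0.06 :=
        mul_le_mul_of_nonneg_left (by linarith [hc1.2, hci'.2]) (by linarith)
      have t2 : (NN r ω c i x 2 1 + NN r ω c i x 2 2) * (2 * (NN r ω c i x 0 2 + NN r ω c i x 0 0 + NN r ω c i x 0 1) +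
          2 * (NN r ω c i x 2 0 + NN r ω c i x 2 1 + NN r ω c i x 2 2) - 1) ≤
          (NN r ω c i x 2 1 + NN r ω c i x 2 2) * 0.06 :=
        mul_le_mul_of_nonneg_left (by linarith [hc2.2, hci'.2]) (by linarith)
      have t3 : (NN r ω c i x 3 0 + NN r ω c i x 3 1) * (2 * (NN r ω c i x 0 2 + NN r ω c i x 0 0 + NN r ω c i x 0 1) +
          2 * (NN r ω c i x 3 2 + NN r ω c i x 3 0 + NN r ω c i x 3 1) - 1) ≤
          (NN r ω c i x 3 0 + NN r ω c i x 3 1) * 0.06 :=
        mul_le_mul_of_nonneg_left (by linarith [hc3.2, hci'.2]) (by linarith)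
      have t4 : (NN r ω c i x 2 1 + NN r ω c i x 3 0 + NN r ω c i x 1 2 + NN r ω c i x 3 1 + NN r ω c i x 1 0 +
          NN r ω c i x 2 2) ^ 2 ≤ (NN r ω c i x 2 1 + NN r ω c i x 3 0 + NN r ω c i x 1 2 + NN r ω c i x 3 1 +
          NN r ω c i x 1 0 + NN r ω c i x 2 2) * 0.113 := by
        rw [sq]
        exact mul_le_mul_of_nonneg_left hbx hb0
      have t5 := sum3_sq (NN r ω c i x 1 1 + NN r ω c i x 1 2 + NN r ω c i x 1 0)
        (NN r ω c i x 2 0 + NN r ω c i x 2 1 + NN r ω c i x 2 2)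
        (NN r ω c i x 3 2 + NN r ω c i x 3 0 + NN r ω c i x 3 1)
      have t6 : (NN r ω c i x 1 1 + NN r ω c i x 1 2 + NN r ω c i x 1 0) +
        (NN r ω c i x 2 0 + NN r ω c i x 2 1 + NN r ω c i x 2 2) +
        (NN r ω c i x 3 2 + NN r ω c i x 3 0 + NN r ω c i x 3 1) = 1 - v := by
        rw [hv0]; linarith
      rw [t6] at t5
      linarith
    -- sum over the class
    have hsumpt : ∑ x, (if c x = i then ω x else 0) * (2 / 5 : ℝ) ≤
        ∑ x, (if c x = i then ω x else 0) *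
        ((∑ y, ∑ z, if c y = i ∧ c z = i then ω y * ω z * p3 (r x y) (r x z) (r y z) else 0) +
        2 * ((1 - v) ^ 2 / 3 + 0.08 * bw r ω c (c x) x) + BB r ω c) := by
      refine Finset.sum_le_sum fun x _ => ?_
      by_cases hx : c x = i
      · rw [if_pos hx]
        exact mul_le_mul_of_nonneg_left (hpt x hx) (hω0 x)
      · rw [if_neg hx]; simp
    rw [← Finset.sum_mul] at hsumpt
    have hcw : ∑ x, (if c x = i then ω x else 0) = v := rfl
    rw [hcw] at hsumpt
    -- the inner part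
    have hTT : TT r (fun x => if c x = i then ω x else 0) =
        ∑ x, (if c x = i then ω x else 0) *
        (∑ y, ∑ z, if c y = i ∧ c z = i then ω y * ω z * p3 (r x y) (r x z) (r y z) else 0) := by
      unfold TT
      simp only [Finset.mul_sum]
      refine Finset.sum_congr rfl fun x _ => Finset.sum_congr rfl fun y _ =>
        Finset.sum_congr rfl fun z _ => ?_
      by_cases hx : c x = i <;> by_cases hy : c y = i <;> by_cases hz : c z = i <;>
        simp [hx, hy, hz]
      ring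
    have hv1 : v < 1 := by linarith [hci.2]
    have hex : ∃ x, (if c x = i then ω x else 0) = 0 := by
      by_contra hne
      push Not at hne
      have : v = 1 := by
        rw [← hs, hv]
        unfold cw
        refine Finset.sum_congr rfl fun x _ => ?_
        by_cases h : c x = i
        · simp [h]
        · exact absurd (by simp [h]) (hne x)
      exact absurd this hv1.ne
    have hT := hS (fun x => if c x = i then ω x else 0)
      (fun x => by by_cases h : c x = i <;> simp [h, hω0 x]) hex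
    rw [hcw, hTT] at hT
    have hbad : ∑ x, (if c x = i then ω x else 0) * bw r ω c (c x) x ≤ BB r ω c := by
      rw [hBB]
      refine Finset.sum_le_sum fun x _ => ?_
      by_cases hx : c x = i
      · rw [if_pos hx]
      · rw [if_neg hx, zero_mul]; exact mul_nonneg (hω0 x) (hbn x)
    have hexp : ∑ x, (if c x = i then ω x else 0) *
        ((∑ y, ∑ z, if c y = i ∧ c z = i then ω y * ω z * p3 (r x y) (r x z) (r y z) else 0) +
        2 * ((1 - v) ^ 2 / 3 + 0.08 * bw r ω c (c x) x) + BB r ω c) =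
        ∑ x, (if c x = i then ω x else 0) *
          (∑ y, ∑ z, if c y = i ∧ c z = i then ω y * ω z * p3 (r x y) (r x z) (r y z) else 0) +
        2 * (v * ((1 - v) ^ 2 / 3) + 0.08 * ∑ x, (if c x = i then ω x else 0) * bw r ω c (c x) x) +
        v * BB r ω c := by
      have e1 : v * ((1 - v) ^ 2 / 3) = ∑ x, (if c x = i then ω x else 0) * ((1 - v) ^ 2 / 3) := by
        rw [← Finset.sum_mul, hcw]
      have e2 : v * BB r ω c = ∑ x, (if c x = i then ω x else 0) * BB r ω c := by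
        rw [← Finset.sum_mul, hcw]
      rw [e1, e2, Finset.mul_sum (a := (0.08 : ℝ)), ← Finset.sum_add_distrib, Finset.mul_sum (a := (2 : ℝ)),
        ← Finset.sum_add_distrib, ← Finset.sum_add_distrib]
      refine Finset.sum_congr rfl fun x _ => ?_
      ring
    rw [hexp] at hsumpt
    linarith
  intro i
  refine ⟨?_, up i⟩
  have h1 : ∑ j, cw ω c j = 1 := by rw [cw_sum, hs]
  have h2 : ∑ j, cw ω c j = ∑ d, cw ω c (i + d) :=
    (Equiv.sum_comp (Equiv.addLeft i) (fun j => cw ω c j)).symm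
  rw [h2, Fin.sum_univ_four, add_zero] at h1
  have u1 := up (i + 1)
  have u2 := up (i + 2)
  have u3 := up (i + 3)
  norm_num at u1 u2 u3 ⊢
  linarith

end Pool.Agent.MPecb
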